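import Mathlib

/-! Scalar estimates behind the pivot and corner identities. -/

namespace Pool.Agent.MP_5168f5_an.H19

/-- Two heights at distance between `Q / k` and `Q`. -/
def Far (Q k a b : ℝ) : Prop := Q ≤ k * |a - b| ∧ |a - b| ≤ Q

theorem abs_mul_le' {a b A B : ℝ} (ha : |a| ≤ A) (hb : |b| ≤ B) : |a * b| ≤ A * B := by
  rw [abs_mul]
  exact mul_le_mul ha hb (abs_nonneg _) ((abs_nonneg _).trans ha)

theorem Far.ne {Q k a b : ℝ} (hQ : 0 < Q) (h : Far Q k a b) : a - b ≠ 0 := by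
  intro e
  have := h.1
  rw [e, abs_zero, mul_zero] at this
  linarith

theorem Far.div_le {Q k a b d : ℝ} (hQ : 0 < Q) (h : Far Q k a b) (hd : |d| ≤ Q) :
    |d / (a - b)| ≤ k := by
  rw [abs_div, div_le_iff₀ (abs_pos.2 (h.ne hQ))]
  exact hd.trans h.1

theorem abs_frac (x : ℝ) : |x - (⌊x⌋ : ℝ)| ≤ 1 := by
  have h1 := Int.floor_le x
  have h2 := Int.lt_floor_add_one x
  rw [abs_le]; constructor <;> linarith

theorem abs_of_floor {x y : ℝ} (h : ⌊x⌋ = ⌊y⌋) : |x - y| ≤ 1 :=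
  (Int.abs_sub_lt_one_of_floor_eq_floor h).le

/-- The exact pivot coefficient. -/
noncomputable def cs (Q r0 r1 t t' : ℝ) : ℝ := Q / (t - r0) * ((t' - r0) / (t' - r1))

/-- The corner ratio. -/
noncomputable def la (r1 r s : ℝ) : ℝ := (s - r) / (r1 - r)

/-- Rounding denominator. -/
noncomputable def den (Q k : ℝ) : ℝ := 2 * k ^ 2 * Q

theorem den_pos {Q k : ℝ} (hQ : 0 < Q) (hk : 1 ≤ k) : 0 < den Q k := by
  unfold den; positivity

theorem abs_round {D : ℝ} (hD : 0 < D) (c : ℝ) : |(⌊D * c⌋ : ℝ) / D - c| ≤ 1 / D := by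
  have : (⌊D * c⌋ : ℝ) / D - c = -(D * c - ⌊D * c⌋) / D := by field_simp; ring
  rw [this, abs_div, abs_neg, abs_of_pos hD]
  exact div_le_div_of_nonneg_right (abs_frac _) hD.le

section

variable {Q k r0 r1 t t' r s : ℝ} (hQ : 1 ≤ Q) (hk : 1 ≤ k)
include hQ hk

theorem inv_den_le : 1 / den Q k ≤ 1 / (2 * k * Q) := by
  unfold den
  refine one_div_le_one_div_of_le (by positivity) ?_
  have : 0 ≤ (k - 1) * (2 * k * Q) := mul_nonneg (by linarith) (by positivity)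
  nlinarith

theorem abs_cs_le (h1 : Far Q k t r0) (h2 : Far Q k t' r0) (h3 : Far Q k t' r1) :
    |cs Q r0 r1 t t'| ≤ k ^ 2 := by
  have hQ0 : 0 < Q := by linarith
  have _ := hk
  have := abs_mul_le' (h1.div_le hQ0 (d := Q) (by rw [abs_of_pos hQ0])) (h3.div_le hQ0 h2.2)
  rw [sq]; exact this

theorem le_abs_cs (h1 : Far Q k t r0) (h2 : Far Q k t' r0) (h3 : Far Q k t' r1) :
    1 / k ≤ |cs Q r0 r1 t t'| := by
  have hQ0 : 0 < Q := by linarith
  have a1 := abs_pos.2 (h1.ne hQ0)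
  have a3 := abs_pos.2 (h3.ne hQ0)
  unfold cs
  rw [abs_mul, abs_div, abs_div, abs_of_pos hQ0, div_mul_div_comm,
    div_le_div_iff₀ (by linarith) (by positivity)]
  have h4 : |t - r0| * |t' - r1| ≤ Q * Q := mul_le_mul h1.2 h3.2 a3.le hQ0.le
  have h5 : Q * Q ≤ Q * (k * |t' - r0|) := mul_le_mul_of_nonneg_left h2.1 hQ0.le
  nlinarith

theorem abs_la_le (h1 : Far Q k s r) (h2 : Far Q k r1 r) : |la r1 r s| ≤ k := by
  have _ := hk
  exact h2.div_le (by linarith) h1.2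

theorem abs_inv_la_le (h1 : Far Q k s r) (h2 : Far Q k r1 r) : |(la r1 r s)⁻¹| ≤ k := by
  have _ := hk
  unfold la
  rw [inv_div]
  exact h1.div_le (by linarith) h2.2

/-- The coefficient determines the dual height. -/
theorem cs_inj {t'' : ℝ} (h1 : Far Q k t r0) (h3 : Far Q k t' r1) (h4 : Far Q k t'' r1)
    (h5 : Far Q k r1 r0) (h : |cs Q r0 r1 t t' - cs Q r0 r1 t t''| ≤ k / den Q k) :
    |t' - t''| ≤ 1 / 2 := by
  have hQ0 : 0 < Q := by linarith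
  have a1 := h1.ne hQ0
  have a3 := h3.ne hQ0
  have a4 := h4.ne hQ0
  have a5 := h5.ne hQ0
  have e : t' - t'' = -(cs Q r0 r1 t t' - cs Q r0 r1 t t'') *
      ((t - r0) / (r1 - r0) * ((t' - r1) * ((t'' - r1) / Q))) := by
    unfold cs; field_simp; ring
  have b1 : |(t'' - r1) / Q| ≤ 1 := by
    rw [abs_div, abs_of_pos hQ0, div_le_one hQ0]; exact h4.2
  have b2 := abs_mul_le' (h5.div_le hQ0 h1.2) (abs_mul_le' h3.2 b1)
  have b3 := abs_mul_le' (show |-(cs Q r0 r1 t t' - cs Q r0 r1 t t'')| ≤ k / den Q k by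
    rwa [abs_neg]) b2
  rw [e]
  refine b3.trans (le_of_eq ?_)
  unfold den
  field_simp

/-- Pivot identity. -/
theorem pivot_near {x1 y1 x2 y2 c : ℝ} (h1 : Far Q k t r0) (h3 : Far Q k t' r1)
    (h5 : Far Q k r1 r0) (hc : |c - cs Q r0 r1 t t'| ≤ 1 / den Q k)
    (hp : |x2 + r1 * y2| ≤ 2 * Q) (hsh : ⌊x2 + r0 * y2⌋ = ⌊x1 + r0 * y1⌋) :
    |Q * y1 + c * (x2 + r1 * y2) - (Q / (t - r0) * ⌊x1 + t * y1⌋ +
      Q / (t - r0) * ((r1 - r0) / (t' - r1)) * ⌊x2 + t' * y2⌋)| ≤ 10 * k ^ 5 := by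
  have hQ0 : 0 < Q := by linarith
  have a1 := h1.ne hQ0
  have a3 := h3.ne hQ0
  have e : Q * y1 + c * (x2 + r1 * y2) - (Q / (t - r0) * ⌊x1 + t * y1⌋ +
      Q / (t - r0) * ((r1 - r0) / (t' - r1)) * ⌊x2 + t' * y2⌋) =
      (c - cs Q r0 r1 t t') * (x2 + r1 * y2) + Q / (t - r0) * (x1 + t * y1 - ⌊x1 + t * y1⌋) +
      Q / (t - r0) * ((r1 - r0) / (t' - r1)) * (x2 + t' * y2 - ⌊x2 + t' * y2⌋) +
      Q / (t - r0) * (x2 + r0 * y2 - (x1 + r0 * y1)) := by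
    unfold cs; field_simp; ring
  have u1 := h1.div_le hQ0 (d := Q) (by rw [abs_of_pos hQ0])
  have b1 := abs_mul_le' (hc.trans (inv_den_le hQ hk)) hp
  have b2 := abs_mul_le' u1 (abs_frac (x1 + t * y1))
  have b3 := abs_mul_le' (abs_mul_le' u1 (h3.div_le hQ0 h5.2)) (abs_frac (x2 + t' * y2))
  have b4 := abs_mul_le' u1 (abs_of_floor hsh)
  have b5 : 1 / (2 * k * Q) * (2 * Q) = 1 / k := by field_simp
  have b6 : 1 / k ≤ 1 := by rw [div_le_one (by linarith)]; exact hk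
  have k2 : k ≤ k ^ 5 := le_self_pow₀ hk (by norm_num)
  have k3 : k * k ≤ k ^ 5 := by rw [← sq]; exact pow_le_pow_right₀ hk (by norm_num)
  rw [e]
  refine (abs_add_le _ _).trans ?_
  refine (add_le_add (abs_add_three _ _ _) le_rfl).trans ?_
  linarith

/-- Corner identity. -/
theorem corner_near {y1 x2 y2 x3 y3 c c' c0 : ℝ} (h1 : Far Q k s r) (h2 : Far Q k r1 r)
    (hc0 : |c0| ≤ k ^ 2) (hc : |c - c0| ≤ 1 / den Q k)
    (hc' : |c' - c0 * (la r1 r s)⁻¹| ≤ 1 / den Q k)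
    (hp : |x3 + r1 * y3| ≤ 2 * Q) (hsh : ⌊x3 + r1 * y3⌋ = ⌊x2 + r1 * y2⌋) :
    |Q * y1 + c' * (x3 + s * y3) - (⌊Q * y1 + c * (x2 + r1 * y2)⌋ +
      c' * (1 - la r1 r s) * ⌊x3 + r * y3⌋)| ≤ 10 * k ^ 5 := by
  have hQ0 : 0 < Q := by linarith
  have a1 := h1.ne hQ0
  have a2 := h2.ne hQ0
  have e : Q * y1 + c' * (x3 + s * y3) - (⌊Q * y1 + c * (x2 + r1 * y2)⌋ +
      c' * (1 - la r1 r s) * ⌊x3 + r * y3⌋) =
      (Q * y1 + c * (x2 + r1 * y2) - ⌊Q * y1 + c * (x2 + r1 * y2)⌋) +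
      ((c' - c0 * (la r1 r s)⁻¹) * la r1 r s - (c - c0)) * (x3 + r1 * y3) +
      c * (x3 + r1 * y3 - (x2 + r1 * y2)) +
      c' * (1 - la r1 r s) * (x3 + r * y3 - ⌊x3 + r * y3⌋) := by
    unfold la; field_simp; ring
  have l1 := abs_la_le hQ hk h1 h2
  have l2 := abs_inv_la_le hQ hk h1 h2
  have d1 := inv_den_le hQ hk
  have d2 : 1 / (2 * k * Q) ≤ 1 := by
    rw [div_le_one (by positivity)]; nlinarith
  have b0 : |(c' - c0 * (la r1 r s)⁻¹) * la r1 r s - (c - c0)| ≤ 1 / Q := by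
    refine (abs_sub _ _).trans ?_
    have b := abs_mul_le' (hc'.trans d1) l1
    have e1 : 1 / (2 * k * Q) * k = 1 / (2 * Q) := by field_simp
    have e2 : 1 / (2 * k * Q) ≤ 1 / (2 * Q) :=
      one_div_le_one_div_of_le (by positivity) (by nlinarith)
    have e3 : 1 / (2 * Q) + 1 / (2 * Q) = 1 / Q := by field_simp; ring
    linarith
  have c1 : |c| ≤ k ^ 2 + 1 := by
    have := abs_add_le (c - c0) c0
    rw [sub_add_cancel] at this; linarith
  have c2 : |c'| ≤ k ^ 2 * k + 1 := by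
    have := abs_add_le (c' - c0 * (la r1 r s)⁻¹) (c0 * (la r1 r s)⁻¹)
    rw [sub_add_cancel] at this
    have h3 := abs_mul_le' hc0 l2
    linarith
  have c3 : |1 - la r1 r s| ≤ 1 + k := by
    have := abs_sub 1 (la r1 r s)
    rw [abs_one] at this; linarith
  have b1 := abs_frac (Q * y1 + c * (x2 + r1 * y2))
  have b2 := abs_mul_le' b0 hp
  have b3 := abs_mul_le' c1 (abs_of_floor hsh)
  have b4 := abs_mul_le' (abs_mul_le' c2 c3) (abs_frac (x3 + r * y3))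
  have b5 : 1 / Q * (2 * Q) = 2 := by field_simp
  have k1 : 1 ≤ k ^ 5 := one_le_pow₀ hk
  have k2 : k ≤ k ^ 5 := le_self_pow₀ hk (by norm_num)
  have k3 : k ^ 2 ≤ k ^ 5 := pow_le_pow_right₀ hk (by norm_num)
  have k4 : k ^ 3 ≤ k ^ 5 := pow_le_pow_right₀ hk (by norm_num)
  have k5 : k ^ 4 ≤ k ^ 5 := pow_le_pow_right₀ hk (by norm_num)
  have b6 : (k ^ 2 * k + 1) * (1 + k) * 1 = k ^ 4 + k ^ 3 + k + 1 := by ring
  rw [e]
  refine (abs_add_le _ _).trans ?_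
  refine (add_le_add (abs_add_three _ _ _) le_rfl).trans ?_
  linarith

/-- The first direction is read off from the corner functional. -/
theorem dir_near {y1 p c' : ℝ} (hc : |c'| ≤ k ^ 3 + 1) :
    |Q * y1 - (⌊Q * y1 + c' * p⌋ - c' * ⌊p⌋)| ≤ 10 * k ^ 5 := by
  have _ := hQ
  have e : Q * y1 - (⌊Q * y1 + c' * p⌋ - c' * ⌊p⌋) =
      (Q * y1 + c' * p - ⌊Q * y1 + c' * p⌋) - c' * (p - ⌊p⌋) := by ring
  have b1 := abs_frac (Q * y1 + c' * p)
  have b2 := abs_mul_le' hc (abs_frac p)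
  have k1 : 1 ≤ k ^ 5 := one_le_pow₀ hk
  have k4 : k ^ 3 ≤ k ^ 5 := pow_le_pow_right₀ hk (by norm_num)
  rw [e]
  refine (abs_sub _ _).trans ?_
  linarith

/-- Two approximate positions determine the direction. -/
theorem two_near {x2 y2 p0 p1 : ℝ} (h5 : Far Q k r1 r0) (h0 : |x2 + r0 * y2 - p0| ≤ 1)
    (h1 : |x2 + r1 * y2 - p1| ≤ 2 * k) :
    |Q * y2 - Q / (r1 - r0) * (p1 - p0)| ≤ 10 * k ^ 5 := by
  have hQ0 : 0 < Q := by linarith
  have a5 := h5.ne hQ0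
  have e : Q * y2 - Q / (r1 - r0) * (p1 - p0) =
      Q / (r1 - r0) * ((x2 + r1 * y2 - p1) - (x2 + r0 * y2 - p0)) := by
    field_simp; ring
  have u1 := h5.div_le hQ0 (d := Q) (by rw [abs_of_pos hQ0])
  have b1 : |(x2 + r1 * y2 - p1) - (x2 + r0 * y2 - p0)| ≤ 2 * k + 1 :=
    (abs_sub _ _).trans (by linarith)
  have b2 := abs_mul_le' u1 b1
  have k2 : k ≤ k ^ 5 := le_self_pow₀ hk (by norm_num)
  have k3 : k * k ≤ k ^ 5 := by rw [← sq]; exact pow_le_pow_right₀ hk (by norm_num)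
  rw [e]
  nlinarith

/-- Inverting the pivot functional. -/
theorem inv_near {z p c c0 : ℝ} (hc0 : 1 / k ≤ |c0|) (hc : |c - c0| ≤ 1 / den Q k) :
    |p - (⌊z + c * p⌋ - z) / c| ≤ 2 * k := by
  have d1 := inv_den_le hQ hk
  have d2 : 1 / (2 * k * Q) ≤ 1 / (2 * k) :=
    one_div_le_one_div_of_le (by positivity) (by nlinarith)
  have d3 : 1 / k = 1 / (2 * k) + 1 / (2 * k) := by field_simp; ring
  have h1 : 1 / (2 * k) ≤ |c| := by
    have := abs_sub c (c - c0)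
    rw [sub_sub_cancel] at this
    linarith
  have h2 : 0 < |c| := lt_of_lt_of_le (by positivity) h1
  have h3 : c ≠ 0 := abs_pos.1 h2
  have e : p - (⌊z + c * p⌋ - z) / c = (z + c * p - ⌊z + c * p⌋) / c := by field_simp; ring
  rw [e, abs_div, div_le_iff₀ h2]
  have h4 := abs_frac (z + c * p)
  rw [div_le_iff₀ (by positivity)] at h1
  linarith

end

end Pool.Agent.MP_5168f5_an.H19
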