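import Pool.Agent.MP_5168f5_an.H19.KEnt
import Pool.Agent.MP_5168f5_an.H19.Geo

/-! The pivot, corner and lower bounds of the Katz-Tao step, on an abstract configuration. -/

namespace Pool.Agent.MP_5168f5_an.H19

open Finset Setoid

variable {m : ℕ} {Ω : Type}

theorem floor_close {x y : ℝ} {B : ℕ} (h : |x - y| ≤ 2 * B) :
    ⌊y⌋ - ((2 * B + 1 : ℕ) : ℤ) ≤ ⌊x⌋ ∧ ⌊x⌋ ≤ ⌊y⌋ + ((2 * B + 1 : ℕ) : ℤ) := by
  have h1 := abs_le.1 h
  have f1 := Int.floor_le x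
  have f2 := Int.lt_floor_add_one x
  have f3 := Int.floor_le y
  have f4 := Int.lt_floor_add_one y
  constructor
  · have : ((⌊y⌋ - ((2 * B + 1 : ℕ) : ℤ) : ℤ) : ℝ) ≤ ((⌊x⌋ : ℤ) : ℝ) := by push_cast; linarith
    exact_mod_cast this
  · have : ((⌊x⌋ : ℤ) : ℝ) ≤ ((⌊y⌋ + ((2 * B + 1 : ℕ) : ℤ) : ℤ) : ℝ) := by push_cast; linarith
    exact_mod_cast this

namespace FP

variable (P : FP Ω)

/-- A vector known up to a bounded error costs a bounded entropy per coordinate. -/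
theorem near_count (R U : Setoid Ω) (X Φ : Ω → Fin m → ℝ) (B : ℕ)
    (hR : ∀ a ∈ P.S, ∀ b ∈ P.S, U a b → (fun j => ⌊X a j⌋) = (fun j => ⌊X b j⌋) → R a b)
    (hΦ : ∀ a ∈ P.S, ∀ b ∈ P.S, U a b → Φ a = Φ b)
    (hX : ∀ a ∈ P.S, ∀ j, |X a j - Φ a j| ≤ B) :
    P.H R ≤ P.H U + m * Real.log (4 * B + 3) := by
  have := P.count_const R U (fun a j => ⌊X a j⌋) ((4 * B + 3 : ℝ) ^ m) hR (by
    intro a ha
    refine ⟨Fintype.piFinset fun j => Finset.Icc (⌊X a j⌋ - ((2 * B + 1 : ℕ) : ℤ))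
      (⌊X a j⌋ + ((2 * B + 1 : ℕ) : ℤ)), ?_, fun b hb h => ?_⟩
    · rw [card_cube (fun j => ⌊X a j⌋) (2 * B + 1)]
      push_cast
      exact le_of_eq (by ring)
    · rw [Fintype.mem_piFinset]
      intro j
      rw [Finset.mem_Icc]
      refine floor_close ?_
      have h1 := hX a ha j
      have h2 := hX b hb j
      rw [hΦ b hb a ha h] at h2
      have := abs_sub (X b j - Φ a j) (X a j - Φ a j)
      rw [sub_sub_sub_cancel_right] at this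
      linarith)
  rwa [Real.log_pow] at this

theorem near_count1 (R U : Setoid Ω) (X Φ : Ω → ℝ) (B : ℕ)
    (hR : ∀ a ∈ P.S, ∀ b ∈ P.S, U a b → ⌊X a⌋ = ⌊X b⌋ → R a b)
    (hΦ : ∀ a ∈ P.S, ∀ b ∈ P.S, U a b → Φ a = Φ b)
    (hX : ∀ a ∈ P.S, |X a - Φ a| ≤ B) :
    P.H R ≤ P.H U + Real.log (4 * B + 3) := by
  have := P.near_count (m := 1) R U (fun a _ => X a) (fun a _ => Φ a) B
    (fun a ha b hb h1 h2 => hR a ha b hb h1 (congrFun h2 0))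
    (fun a ha b hb h1 => by rw [hΦ a ha b hb h1]) (fun a ha _ => hX a ha)
  simpa using this

/-- A height costs at most `log Q`. -/
theorem height_count (R U : Setoid Ω) (X : Ω → ℕ) (Q : ℕ)
    (hR : ∀ a ∈ P.S, ∀ b ∈ P.S, U a b → X a = X b → R a b) (hX : ∀ a ∈ P.S, X a < Q) :
    P.H R ≤ P.H U + Real.log Q :=
  P.count_const R U X Q hR fun _ _ =>
    ⟨Finset.range Q, by simp, fun b hb _ => Finset.mem_range.2 (hX b hb)⟩

/-- A cell in a slice of known height costs at most `log N`. -/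
theorem slice_count (R U : Setoid Ω) (X : Ω → Fin m → ℤ) (h : Ω → ℕ)
    (A : ℕ → Finset (Fin m → ℤ)) (N : ℝ) (hN : ∀ r, ((A r).card : ℝ) ≤ N)
    (hR : ∀ a ∈ P.S, ∀ b ∈ P.S, U a b → X a = X b → R a b)
    (hh : ∀ a ∈ P.S, ∀ b ∈ P.S, U a b → h a = h b) (hX : ∀ a ∈ P.S, X a ∈ A (h a)) :
    P.H R ≤ P.H U + Real.log N :=
  P.count_const R U X N hR fun a ha =>
    ⟨A (h a), hN _, fun b hb e => by rw [← hh b hb a ha e]; exact hX b hb⟩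

/-- A bounded integer costs the log of its range. -/
theorem int_count (R U : Setoid Ω) (X : Ω → ℤ) (M : ℕ) (B : ℝ) (hB : (2 * M + 1 : ℝ) ≤ B)
    (hR : ∀ a ∈ P.S, ∀ b ∈ P.S, U a b → X a = X b → R a b) (hX : ∀ a ∈ P.S, |X a| ≤ M) :
    P.H R ≤ P.H U + Real.log B :=
  P.count_const R U X B hR fun _ _ =>
    ⟨Finset.Icc (-(M : ℤ)) M, by
      rw [Int.card_Icc]
      have : ((M : ℤ) + 1 - -(M : ℤ)).toNat = 2 * M + 1 := by omega
      rw [this]; push_cast; exact hB,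
    fun b hb _ => Finset.mem_Icc.2 (abs_le.1 (hX b hb))⟩

end FP

/-- Three lines and six heights. -/
structure Cfg (m : ℕ) (Ω : Type) where
  g1 : Ω → Line m
  g2 : Ω → Line m
  g3 : Ω → Line m
  r0 : Ω → ℕ
  r1 : Ω → ℕ
  s : Ω → ℕ
  t : Ω → ℕ
  r : Ω → ℕ
  t' : Ω → ℕ

namespace Cfg

variable (c : Cfg m Ω) (Q K : ℕ)

/-- Pointwise properties of a sample. -/
structure Good (G : Finset (Line m)) (A : ℕ → Finset (Fin m → ℤ)) (ω : Ω) : Prop where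
  m1 : c.g1 ω ∈ G
  m2 : c.g2 ω ∈ G
  m3 : c.g3 ω ∈ G
  l0 : c.r0 ω < Q
  l1 : c.r1 ω < Q
  ls : c.s ω < Q
  lt : c.t ω < Q
  lr : c.r ω < Q
  f1 : Far Q K (c.t ω) (c.r0 ω)
  f2 : Far Q K (c.t' ω) (c.r0 ω)
  f3 : Far Q K (c.t' ω) (c.r1 ω)
  f4 : Far Q K (c.r1 ω) (c.r0 ω)
  f5 : Far Q K (c.s ω) (c.r ω)
  f6 : Far Q K (c.r1 ω) (c.r ω)
  sh0 : cell (c.g2 ω) (c.r0 ω) = cell (c.g1 ω) (c.r0 ω)
  sh1 : cell (c.g3 ω) (c.r1 ω) = cell (c.g2 ω) (c.r1 ω)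
  ar : cell (c.g3 ω) (c.r ω) ∈ A (c.r ω)
  as : cell (c.g3 ω) (c.s ω) ∈ A (c.s ω)
  a0 : cell (c.g2 ω) (c.r0 ω) ∈ A (c.r0 ω)

/-- Exact pivot coefficient of a sample. -/
noncomputable def c0 (ω : Ω) : ℝ := cs Q (c.r0 ω) (c.r1 ω) (c.t ω) (c.t' ω)

/-- Corner ratio of a sample. -/
noncomputable def l0 (ω : Ω) : ℝ := la (c.r1 ω) (c.r ω) (c.s ω)

/-- Rounded pivot coefficient. -/
noncomputable def kb (ω : Ω) : ℤ := ⌊den Q K * c.c0 Q ω⌋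

/-- Rounded corner coefficient. -/
noncomputable def kc (ω : Ω) : ℤ := ⌊den Q K * (c.c0 Q ω * (c.l0 ω)⁻¹)⌋

/-- The pivot functional. -/
noncomputable def nu (ω : Ω) : Fin m → ℤ := fun j =>
  ⌊Q * (c.g1 ω).2 j + c.kb Q K ω / den Q K * ((c.g2 ω).1 j + c.r1 ω * (c.g2 ω).2 j)⌋

/-- The corner functional. -/
noncomputable def mu (ω : Ω) : Fin m → ℤ := fun j =>
  ⌊Q * (c.g1 ω).2 j + c.kc Q K ω / den Q K * ((c.g3 ω).1 j + c.s ω * (c.g3 ω).2 j)⌋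

/-- Conditioning of the pivot step. -/
noncomputable def Za : Setoid Ω := ker fun ω => (c.r0 ω, c.r1 ω, c.kb Q K ω, c.nu Q K ω)

/-- Conditioning of the corner step. -/
noncomputable def Zb : Setoid Ω := ker fun ω => (c.r0 ω, c.r1 ω, c.s ω, c.kc Q K ω, c.mu Q K ω)

/-- Everything. -/
def all : Setoid Ω :=
  ker fun ω => (c.g1 ω, c.g2 ω, c.g3 ω, c.r0 ω, c.r1 ω, c.s ω, c.t ω, c.r ω, c.t' ω)

theorem Za_rel {a b : Ω} : c.Za Q K a b ↔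
    c.r0 a = c.r0 b ∧ c.r1 a = c.r1 b ∧ c.kb Q K a = c.kb Q K b ∧ c.nu Q K a = c.nu Q K b := by
  unfold Za
  rw [ker_def]
  simp only [Prod.mk.injEq]

theorem Zb_rel {a b : Ω} : c.Zb Q K a b ↔ c.r0 a = c.r0 b ∧ c.r1 a = c.r1 b ∧ c.s a = c.s b ∧
    c.kc Q K a = c.kc Q K b ∧ c.mu Q K a = c.mu Q K b := by
  unfold Zb
  rw [ker_def]
  simp only [Prod.mk.injEq]

theorem all_rel {a b : Ω} : c.all a b ↔ c.g1 a = c.g1 b ∧ c.g2 a = c.g2 b ∧ c.g3 a = c.g3 b ∧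
    c.r0 a = c.r0 b ∧ c.r1 a = c.r1 b ∧ c.s a = c.s b ∧ c.t a = c.t b ∧ c.r a = c.r b ∧
    c.t' a = c.t' b := by
  unfold all
  rw [ker_def]
  simp only [Prod.mk.injEq]

end Cfg

/-- The logarithmic constant lost in each approximate determination. -/
noncomputable def cK (K : ℕ) : ℝ := Real.log (4 * (10 * K ^ 5 : ℕ) + 3)

section

variable {Q K : ℕ} {G : Finset (Line m)} {A : ℕ → Finset (Fin m → ℤ)} {c : Cfg m Ω} {P : FP Ω}
  (hQ : 0 < Q) (hK : 0 < K) (hG : Sep Q G) (hbox : ∀ g ∈ G, ∀ j, |g.1 j| ≤ Q)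
  (hc : ∀ ω ∈ P.S, c.Good Q K G A ω)

theorem pos_le {g : Line m} (hG : Sep Q G) (hbox : ∀ g ∈ G, ∀ j, |g.1 j| ≤ Q) (hg : g ∈ G) {r : ℕ}
    (hr : r < Q) (j : Fin m) : |g.1 j + r * g.2 j| ≤ 2 * Q := by
  have h1 := hbox g hg j
  have h2 : |(r : ℝ)| ≤ Q := by rw [Nat.abs_cast]; exact_mod_cast hr.le
  have h3 := abs_mul_le' h2 (hG.1 g hg j)
  have := abs_add_le (g.1 j) (r * g.2 j)
  linarith

include hQ hK hc

theorem kb_round {ω : Ω} : |(c.kb Q K ω : ℝ) / den Q K - c.c0 Q ω| ≤ 1 / den Q K :=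
  have _ := hc
  abs_round (den_pos (by exact_mod_cast hQ) (by exact_mod_cast hK)) _

theorem kc_round {ω : Ω} :
    |(c.kc Q K ω : ℝ) / den Q K - c.c0 Q ω * (c.l0 ω)⁻¹| ≤ 1 / den Q K :=
  have _ := hc
  abs_round (den_pos (by exact_mod_cast hQ) (by exact_mod_cast hK)) _

theorem c0_le {ω : Ω} (hω : ω ∈ P.S) : |c.c0 Q ω| ≤ (K : ℝ) ^ 2 :=
  abs_cs_le (by exact_mod_cast hQ) (by exact_mod_cast hK) (hc ω hω).f1 (hc ω hω).f2 (hc ω hω).f3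

theorem c0l_le {ω : Ω} (hω : ω ∈ P.S) : |c.c0 Q ω * (c.l0 ω)⁻¹| ≤ (K : ℝ) ^ 3 := by
  have := abs_mul_le' (c0_le hQ hK hc hω)
    (abs_inv_la_le (by exact_mod_cast hQ) (by exact_mod_cast hK) (hc ω hω).f5 (hc ω hω).f6)
  rw [pow_succ]; exact this

omit hc in
theorem coef_count (R U : Setoid Ω) (x : Ω → ℝ) (hx : ∀ a ∈ P.S, |x a| ≤ (K : ℝ) ^ 3)
    (hR : ∀ a ∈ P.S, ∀ b ∈ P.S, U a b → ⌊den Q K * x a⌋ = ⌊den Q K * x b⌋ → R a b) :
    P.H R ≤ P.H U + (Real.log Q + cK K) := by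
  have hQ1 : (1 : ℝ) ≤ Q := by exact_mod_cast hQ
  have hK1 : (1 : ℝ) ≤ K := by exact_mod_cast hK
  have k1 : (1 : ℝ) ≤ (K : ℝ) ^ 5 := one_le_pow₀ hK1
  have := P.int_count R U (fun a => ⌊den Q K * x a⌋) (2 * K ^ 5 * Q + 1)
    (Q * (4 * (10 * K ^ 5 : ℕ) + 3)) (by push_cast; nlinarith) hR (by
      intro a ha
      have h1 : |den Q K * x a| ≤ 2 * (K : ℝ) ^ 5 * Q := by
        have h2 := abs_mul_le' (le_of_eq (abs_of_pos (den_pos (by linarith) hK1 :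
          0 < den (Q : ℝ) K))) (hx a ha)
        refine h2.trans (le_of_eq ?_)
        unfold den; ring
      have h3 := abs_frac (den Q K * x a)
      have h4 := abs_sub (den Q K * x a) (den Q K * x a - ⌊den Q K * x a⌋)
      rw [sub_sub_cancel] at h4
      have h5 : ((|⌊den Q K * x a⌋| : ℤ) : ℝ) ≤ (((2 * K ^ 5 * Q + 1 : ℕ) : ℤ) : ℝ) := by
        push_cast; linarith
      exact_mod_cast h5)
  rw [Real.log_mul (by positivity) (by positivity)] at this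
  exact this

theorem t'_of_kb {a b : Ω} (ha : a ∈ P.S) (hb : b ∈ P.S) (h0 : c.r0 a = c.r0 b)
    (h1 : c.r1 a = c.r1 b) (ht : c.t a = c.t b)
    (h : |c.c0 Q a - c.c0 Q b| ≤ K / den Q K) : c.t' a = c.t' b := by
  have h3 := (hc b hb).f3
  unfold Cfg.c0 at h
  rw [← h0, ← h1, ← ht] at h
  rw [← h1] at h3
  have := cs_inj (by exact_mod_cast hQ) (by exact_mod_cast hK) (hc a ha).f1 (hc a ha).f3 h3
    (hc a ha).f4 h
  have h4 := abs_le.1 this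
  have h5 : (c.t' a : ℝ) < c.t' b + 1 := by linarith [h4.2]
  have h6 : (c.t' b : ℝ) < c.t' a + 1 := by linarith [h4.1]
  have h7 : c.t' a < c.t' b + 1 := by exact_mod_cast h5
  have h8 : c.t' b < c.t' a + 1 := by exact_mod_cast h6
  omega

theorem t'_kb {a b : Ω} (ha : a ∈ P.S) (hb : b ∈ P.S) (h0 : c.r0 a = c.r0 b)
    (h1 : c.r1 a = c.r1 b) (ht : c.t a = c.t b) (h : c.kb Q K a = c.kb Q K b) :
    c.t' a = c.t' b := by
  have hK1 : (1 : ℝ) ≤ K := by exact_mod_cast hK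
  have hD := den_pos (Q := (Q : ℝ)) (by exact_mod_cast hQ) hK1
  refine t'_of_kb hQ hK hc ha hb h0 h1 ht ?_
  have h2 := abs_of_floor h
  rw [← mul_sub, abs_mul, abs_of_pos hD] at h2
  rw [le_div_iff₀ hD]; linarith

theorem t'_kc {a b : Ω} (ha : a ∈ P.S) (hb : b ∈ P.S) (h0 : c.r0 a = c.r0 b)
    (h1 : c.r1 a = c.r1 b) (ht : c.t a = c.t b) (hs : c.s a = c.s b) (hr : c.r a = c.r b)
    (h : c.kc Q K a = c.kc Q K b) : c.t' a = c.t' b := by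
  have hQ1 : (1 : ℝ) ≤ Q := by exact_mod_cast hQ
  have hK1 : (1 : ℝ) ≤ K := by exact_mod_cast hK
  have hD := den_pos (Q := (Q : ℝ)) (by linarith) hK1
  refine t'_of_kb hQ hK hc ha hb h0 h1 ht ?_
  have h2 := abs_of_floor h
  have e : c.l0 b = c.l0 a := by unfold Cfg.l0; rw [h1, hs, hr]
  rw [← mul_sub, abs_mul, abs_of_pos hD, e, ← sub_mul] at h2
  have l1 : |c.l0 a| ≤ K := abs_la_le hQ1 hK1 (hc a ha).f5 (hc a ha).f6
  have l2 : c.l0 a ≠ 0 := div_ne_zero ((hc a ha).f5.ne (by linarith)) ((hc a ha).f6.ne (by linarith))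
  have h3 : |(c.c0 Q a - c.c0 Q b) * (c.l0 a)⁻¹| ≤ 1 / den Q K := by
    rw [le_div_iff₀ hD]; linarith
  have h4 := abs_mul_le' h3 l1
  rw [mul_assoc, inv_mul_cancel₀ l2, mul_one] at h4
  refine h4.trans (le_of_eq ?_); ring

include hG hbox

/-- The pivot inequality. -/
theorem pivot_ineq {b e : ℝ} (hb : 0 ≤ b) (hKE : KE m b Q e) {X ζ l : ℝ}
    (hX : P.H (ker fun ω => (c.g1 ω, c.g2 ω, c.r0 ω, c.r1 ω, c.t ω, c.t' ω)) = X)
    (hA1 : P.H (ker fun ω => (c.g1 ω, c.g2 ω, c.r0 ω, c.r1 ω)) + 2 * l ≤ X)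
    (hE : P.H (ker fun ω => (cell (c.g2 ω) (c.t' ω), cell (c.g1 ω) (c.t ω), c.r0 ω, c.t' ω,
      c.t ω)) ≤ ζ) :
    X - Real.log Q - m * cK K - P.H (c.Za Q K) ≤
      b * (ζ + Real.log Q + m * cK K - P.H (c.Za Q K)) + m * Real.log Q -
        (b + m) * (2 * l - Real.log Q - cK K) + e := by
  have hQ1 : (1 : ℝ) ≤ Q := by exact_mod_cast hQ
  have hK1 : (1 : ℝ) ≤ K := by exact_mod_cast hK
  have key := hKE G hG Ω P c.g1 c.t (c.Za Q K) (fun ω hω => (hc ω hω).m1) (fun ω hω => (hc ω hω).lt)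
  have a1 := P.submod (ker fun ω => (c.g1 ω, c.g2 ω, c.r0 ω, c.r1 ω, c.kb Q K ω))
    (mt (ker c.t) (mt (ker c.g1) (c.Za Q K)))
    (ker fun ω => (c.t ω, c.g1 ω, c.g2 ω, c.r0 ω, c.r1 ω, c.kb Q K ω))
    (mt (ker c.g1) (c.Za Q K)) (by
      intro x _ y _ h1 h2
      simp only [mt_rel, ker_def, Prod.mk.injEq] at h1 h2 ⊢
      exact ⟨h2.1, h1⟩) (by
      intro x _ y _ h1
      simp only [mt_rel, Cfg.Za_rel, ker_def, Prod.mk.injEq] at h1 ⊢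
      refine ⟨h1.1, h1.2.2.1, h1.2.2.2.1, h1.2.2.2.2, ?_⟩
      unfold Cfg.nu
      rw [h1.1, h1.2.1, h1.2.2.2.1, h1.2.2.2.2]) (fun x _ y _ h1 => (mt_rel.1 h1).2)
  have a2 : X ≤ P.H (ker fun ω => (c.t ω, c.g1 ω, c.g2 ω, c.r0 ω, c.r1 ω, c.kb Q K ω)) := by
    rw [← hX]
    refine P.H_mono fun x hx y hy h1 => ?_
    simp only [ker_def, Prod.mk.injEq] at h1 ⊢
    obtain ⟨e1, e2, e3, e4, e5, e6⟩ := h1
    exact ⟨e2, e3, e4, e5, e1, t'_kb hQ hK hc hx hy e4 e5 e1 e6⟩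
  have a3 := coef_count hQ hK (P := P) (ker fun ω => (c.g1 ω, c.g2 ω, c.r0 ω, c.r1 ω, c.kb Q K ω))
    (ker fun ω => (c.g1 ω, c.g2 ω, c.r0 ω, c.r1 ω)) (c.c0 Q) (fun x hx =>
      (c0_le hQ hK hc hx).trans (pow_le_pow_right₀ hK1 (by norm_num))) (by
      intro x _ y _ h1 h2
      simp only [ker_def, Prod.mk.injEq] at h1 ⊢
      exact ⟨h1.1, h1.2.1, h1.2.2.1, h1.2.2.2, h2⟩)
  have a4 := P.height_count (ker fun ω => (c.t ω, c.g1 ω, c.g2 ω, c.r0 ω, c.r1 ω, c.kb Q K ω))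
    (ker fun ω => (c.g1 ω, c.g2 ω, c.r0 ω, c.r1 ω, c.kb Q K ω)) c.t Q (by
      intro x _ y _ h1 h2
      simp only [ker_def, Prod.mk.injEq] at h1 ⊢
      exact ⟨h2, h1⟩) (fun ω hω => (hc ω hω).lt)
  have a5 := P.near_count (ker fun ω => (c.g1 ω, c.g2 ω, c.r0 ω, c.r1 ω, c.kb Q K ω))
    (mt (ker c.g1) (c.Za Q K)) (fun ω j => Q * (c.g2 ω).2 j)
    (fun ω j => Q / ((c.r1 ω : ℝ) - c.r0 ω) * ((c.nu Q K ω j - Q * (c.g1 ω).2 j) /
      (c.kb Q K ω / den Q K) - ((c.g1 ω).1 j + c.r0 ω * (c.g1 ω).2 j))) (10 * K ^ 5) (by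
      intro x hx y hy h1 h2
      simp only [mt_rel, Cfg.Za_rel, ker_def, Prod.mk.injEq] at h1 ⊢
      exact ⟨h1.1, hG.dir_inj (hc x hx).m2 (hc y hy).m2 h2, h1.2.1, h1.2.2.1, h1.2.2.2.1⟩) (by
      intro x _ y _ h1
      simp only [mt_rel, Cfg.Za_rel, ker_def] at h1
      rw [h1.1, h1.2.1, h1.2.2.1, h1.2.2.2.1, h1.2.2.2.2]) (by
      intro x hx j
      push_cast
      exact two_near hQ1 hK1 (hc x hx).f4 (abs_of_floor (congrFun (hc x hx).sh0 j))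
        (inv_near hQ1 hK1 (le_abs_cs hQ1 hK1 (hc x hx).f1 (hc x hx).f2 (hc x hx).f3)
          (kb_round hQ hK hc)))
  have a6 := P.near_count (mt (ker fun ω => (cell (c.g1 ω) (c.t ω), c.t ω)) (c.Za Q K))
    (ker fun ω => (c.r1 ω, cell (c.g2 ω) (c.t' ω), cell (c.g1 ω) (c.t ω), c.r0 ω, c.t' ω, c.t ω))
    (fun ω j => Q * (c.g1 ω).2 j + c.kb Q K ω / den Q K * ((c.g2 ω).1 j + c.r1 ω * (c.g2 ω).2 j))
    (fun ω j => Q / ((c.t ω : ℝ) - c.r0 ω) * cell (c.g1 ω) (c.t ω) j +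
      Q / ((c.t ω : ℝ) - c.r0 ω) * (((c.r1 ω : ℝ) - c.r0 ω) / ((c.t' ω : ℝ) - c.r1 ω)) *
        cell (c.g2 ω) (c.t' ω) j) (10 * K ^ 5) (by
      intro x _ y _ h1 h2
      simp only [mt_rel, Cfg.Za_rel, ker_def, Prod.mk.injEq] at h1 ⊢
      obtain ⟨e1, e2, e3, e4, e5, e6⟩ := h1
      refine ⟨⟨e3, e6⟩, e4, e1, ?_, h2⟩
      unfold Cfg.kb Cfg.c0
      rw [e1, e4, e5, e6]) (by
      intro x _ y _ h1
      simp only [ker_def, Prod.mk.injEq] at h1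
      obtain ⟨e1, e2, e3, e4, e5, e6⟩ := h1
      rw [e2, e3, e1, e4, e5, e6]) (by
      intro x hx j
      push_cast
      exact pivot_near hQ1 hK1 (hc x hx).f1 (hc x hx).f3 (hc x hx).f4 (kb_round hQ hK hc)
        (pos_le hG hbox (hc x hx).m2 (hc x hx).l1 j) (congrFun (hc x hx).sh0 j))
  have a7 := P.height_count
    (ker fun ω => (c.r1 ω, cell (c.g2 ω) (c.t' ω), cell (c.g1 ω) (c.t ω), c.r0 ω, c.t' ω, c.t ω))
    (ker fun ω => (cell (c.g2 ω) (c.t' ω), cell (c.g1 ω) (c.t ω), c.r0 ω, c.t' ω, c.t ω)) c.r1 Q (by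
      intro x _ y _ h1 h2
      simp only [ker_def, Prod.mk.injEq] at h1 ⊢
      exact ⟨h2, h1⟩) (fun ω hω => (hc ω hω).l1)
  change _ ≤ _ + m * cK K at a5 a6
  have hbm : (0 : ℝ) ≤ b + m := by positivity
  have b1 := mul_le_mul_of_nonneg_left (show 2 * l - Real.log Q - cK K ≤
    P.H (mt (ker c.t) (mt (ker c.g1) (c.Za Q K))) - P.H (mt (ker c.g1) (c.Za Q K)) by linarith) hbm
  have b2 := mul_le_mul_of_nonneg_left (show
    P.H (mt (ker fun ω => (cell (c.g1 ω) (c.t ω), c.t ω)) (c.Za Q K)) - P.H (c.Za Q K) ≤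
    ζ + Real.log Q + m * cK K - P.H (c.Za Q K) by linarith) hb
  linarith

/-- A lower bound for the corner together with the rounded coefficient. -/
theorem corner_total :
    P.H c.all - 2 * Real.log Q ≤
      P.H (ker fun ω => (c.g1 ω, c.g2 ω, c.g3 ω, c.r0 ω, c.r1 ω, c.s ω, c.kc Q K ω)) := by
  have _ := hG
  have _ := hbox
  have a1 : P.H c.all ≤ P.H (ker fun ω =>
      (c.r ω, c.t ω, c.g1 ω, c.g2 ω, c.g3 ω, c.r0 ω, c.r1 ω, c.s ω, c.kc Q K ω)) := by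
    refine P.H_mono fun x hx y hy h1 => ?_
    simp only [Cfg.all_rel, ker_def, Prod.mk.injEq] at h1 ⊢
    obtain ⟨e1, e2, e3, e4, e5, e6, e7, e8, e9⟩ := h1
    exact ⟨e3, e4, e5, e6, e7, e8, e2, e1, t'_kc hQ hK hc hx hy e6 e7 e2 e8 e1 e9⟩
  have a2 := P.height_count (ker fun ω =>
      (c.r ω, c.t ω, c.g1 ω, c.g2 ω, c.g3 ω, c.r0 ω, c.r1 ω, c.s ω, c.kc Q K ω))
    (ker fun ω => (c.t ω, c.g1 ω, c.g2 ω, c.g3 ω, c.r0 ω, c.r1 ω, c.s ω, c.kc Q K ω)) c.r Q (by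
      intro x _ y _ h1 h2
      simp only [ker_def, Prod.mk.injEq] at h1 ⊢
      exact ⟨h2, h1⟩) (fun ω hω => (hc ω hω).lr)
  have a3 := P.height_count
    (ker fun ω => (c.t ω, c.g1 ω, c.g2 ω, c.g3 ω, c.r0 ω, c.r1 ω, c.s ω, c.kc Q K ω))
    (ker fun ω => (c.g1 ω, c.g2 ω, c.g3 ω, c.r0 ω, c.r1 ω, c.s ω, c.kc Q K ω)) c.t Q (by
      intro x _ y _ h1 h2
      simp only [ker_def, Prod.mk.injEq] at h1 ⊢
      exact ⟨h2, h1⟩) (fun ω hω => (hc ω hω).lt)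
  linarith

omit hG hbox in
theorem kc_abs {ω : Ω} (hω : ω ∈ P.S) : |(c.kc Q K ω : ℝ) / den Q K| ≤ (K : ℝ) ^ 3 + 1 := by
  have hQ1 : (1 : ℝ) ≤ Q := by exact_mod_cast hQ
  have hK1 : (1 : ℝ) ≤ K := by exact_mod_cast hK
  have h1 := kc_round hQ hK hc (ω := ω)
  have h2 := c0l_le hQ hK hc hω
  have h3 := inv_den_le hQ1 hK1
  have h4 : 1 / (2 * (K : ℝ) * Q) ≤ 1 := by
    rw [div_le_one (by positivity)]; nlinarith
  have := abs_add_le ((c.kc Q K ω : ℝ) / den Q K - c.c0 Q ω * (c.l0 ω)⁻¹) (c.c0 Q ω * (c.l0 ω)⁻¹)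
  rw [sub_add_cancel] at this
  linarith

/-- The corner inequality. -/
theorem corner_ineq {b e : ℝ} (hb : 0 ≤ b) (hKE : KE m b Q e) {l N : ℝ}
    (hN : ∀ r, ((A r).card : ℝ) ≤ N)
    (hC2 : P.H (ker fun ω => (c.g1 ω, c.g2 ω, c.g3 ω, c.r0 ω, c.r1 ω, c.s ω, c.t ω)) + 2 * l ≤
      P.H c.all) :
    P.H c.all - 2 * Real.log Q - 2 * (m * cK K) - P.H (c.Zb Q K) ≤
      b * (P.H (c.Za Q K) + 2 * Real.log Q + Real.log N + cK K + m * cK K - P.H (c.Zb Q K)) +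
        m * Real.log Q - (b + m) * (2 * l - Real.log Q - cK K) + e := by
  have hQ1 : (1 : ℝ) ≤ Q := by exact_mod_cast hQ
  have hK1 : (1 : ℝ) ≤ K := by exact_mod_cast hK
  have key := hKE G hG Ω P c.g3 c.r (c.Zb Q K) (fun ω hω => (hc ω hω).m3) (fun ω hω => (hc ω hω).lr)
  have a1 := P.submod
    (ker fun ω => (c.g1 ω, c.g2 ω, c.g3 ω, c.r0 ω, c.r1 ω, c.s ω, c.t ω, c.kc Q K ω))
    (mt (ker c.r) (mt (ker c.g3) (c.Zb Q K))) c.all (mt (ker c.g3) (c.Zb Q K)) (by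
      intro x hx y hy h1 h2
      simp only [mt_rel, Cfg.all_rel, ker_def, Prod.mk.injEq] at h1 h2 ⊢
      obtain ⟨e1, e2, e3, e4, e5, e6, e7, e8⟩ := h1
      exact ⟨e1, e2, e3, e4, e5, e6, e7, h2.1, t'_kc hQ hK hc hx hy e4 e5 e7 e6 h2.1 e8⟩) (by
      intro x _ y _ h1
      simp only [mt_rel, Cfg.Zb_rel, ker_def, Prod.mk.injEq] at h1 ⊢
      obtain ⟨e1, e2, e3, e4, e5, e6, e7, e8⟩ := h1
      refine ⟨e3, e4, e5, e6, e8, ?_⟩
      unfold Cfg.mu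
      rw [e1, e3, e6, e8]) (fun x _ y _ h1 => (mt_rel.1 h1).2)
  have a3 := coef_count hQ hK (P := P)
    (ker fun ω => (c.g1 ω, c.g2 ω, c.g3 ω, c.r0 ω, c.r1 ω, c.s ω, c.t ω, c.kc Q K ω))
    (ker fun ω => (c.g1 ω, c.g2 ω, c.g3 ω, c.r0 ω, c.r1 ω, c.s ω, c.t ω))
    (fun ω => c.c0 Q ω * (c.l0 ω)⁻¹) (fun x hx => c0l_le hQ hK hc hx) (by
      intro x _ y _ h1 h2
      simp only [ker_def, Prod.mk.injEq] at h1 ⊢
      obtain ⟨e1, e2, e3, e4, e5, e6, e7⟩ := h1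
      exact ⟨e1, e2, e3, e4, e5, e6, e7, h2⟩)
  have a4 := corner_total hQ hK hG hbox hc
  have a5 := P.near_count (mt (ker c.g1) (mt (ker c.g3) (c.Zb Q K))) (mt (ker c.g3) (c.Zb Q K))
    (fun ω j => Q * (c.g1 ω).2 j)
    (fun ω j => c.mu Q K ω j - c.kc Q K ω / den Q K * cell (c.g3 ω) (c.s ω) j) (10 * K ^ 5) (by
      intro x hx y hy h1 h2
      exact mt_rel.2 ⟨hG.dir_inj (hc x hx).m1 (hc y hy).m1 h2, h1⟩) (by
      intro x _ y _ h1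
      simp only [mt_rel, Cfg.Zb_rel, ker_def] at h1
      obtain ⟨e1, e2, e3, e4, e5, e6⟩ := h1
      rw [e1, e4, e5, e6]) (by
      intro x hx j
      push_cast
      exact dir_near hQ1 hK1 (kc_abs hQ hK hc hx))
  have a5' := P.near_count
    (ker fun ω => (c.g1 ω, c.g2 ω, c.g3 ω, c.r0 ω, c.r1 ω, c.s ω, c.kc Q K ω))
    (mt (ker c.g1) (mt (ker c.g3) (c.Zb Q K))) (fun ω j => Q * (c.g2 ω).2 j)
    (fun ω j => Q / ((c.r1 ω : ℝ) - c.r0 ω) * (((c.g3 ω).1 j + c.r1 ω * (c.g3 ω).2 j) -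
      ((c.g1 ω).1 j + c.r0 ω * (c.g1 ω).2 j))) (10 * K ^ 5) (by
      intro x hx y hy h1 h2
      simp only [mt_rel, Cfg.Zb_rel, ker_def, Prod.mk.injEq] at h1 ⊢
      obtain ⟨e0, e1, e2, e3, e4, e5, e6⟩ := h1
      exact ⟨e0, hG.dir_inj (hc x hx).m2 (hc y hy).m2 h2, e1, e2, e3, e4, e5⟩) (by
      intro x _ y _ h1
      simp only [mt_rel, Cfg.Zb_rel, ker_def] at h1
      obtain ⟨e0, e1, e2, e3, e4, e5, e6⟩ := h1
      rw [e0, e1, e2, e3]) (by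
      intro x hx j
      push_cast
      exact two_near hQ1 hK1 (hc x hx).f4 (abs_of_floor (congrFun (hc x hx).sh0 j))
        ((abs_of_floor (congrFun (hc x hx).sh1 j).symm).trans (by linarith)))
  have a6 := P.near_count (mt (ker fun ω => (cell (c.g3 ω) (c.r ω), c.r ω)) (c.Zb Q K))
    (mt (ker fun ω => (c.kc Q K ω, cell (c.g3 ω) (c.r ω), c.r ω, c.s ω)) (c.Za Q K))
    (fun ω j => Q * (c.g1 ω).2 j + c.kc Q K ω / den Q K * ((c.g3 ω).1 j + c.s ω * (c.g3 ω).2 j))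
    (fun ω j => c.nu Q K ω j + c.kc Q K ω / den Q K * (1 - c.l0 ω) * cell (c.g3 ω) (c.r ω) j)
    (10 * K ^ 5) (by
      intro x _ y _ h1 h2
      simp only [mt_rel, Cfg.Za_rel, Cfg.Zb_rel, ker_def, Prod.mk.injEq] at h1 ⊢
      obtain ⟨⟨e1, e2, e3, e4⟩, e5, e6, e7, e8⟩ := h1
      exact ⟨⟨e2, e3⟩, e5, e6, e4, e1, h2⟩) (by
      intro x _ y _ h1
      simp only [mt_rel, Cfg.Za_rel, ker_def, Prod.mk.injEq] at h1
      obtain ⟨⟨e1, e2, e3, e4⟩, e5, e6, e7, e8⟩ := h1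
      unfold Cfg.l0
      rw [e2, e1, e3, e4, e6, e8]) (by
      intro x hx j
      push_cast
      exact corner_near hQ1 hK1 (hc x hx).f5 (hc x hx).f6 (c0_le hQ hK hc hx) (kb_round hQ hK hc)
        (kc_round hQ hK hc) (pos_le hG hbox (hc x hx).m3 (hc x hx).l1 j)
        (congrFun (hc x hx).sh1 j))
  have a7 := P.near_count1
    (mt (ker fun ω => (c.kc Q K ω, cell (c.g3 ω) (c.r ω), c.r ω, c.s ω)) (c.Za Q K))
    (mt (ker fun ω => (cell (c.g3 ω) (c.r ω), c.r ω, c.s ω)) (c.Za Q K))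
    (fun ω => den Q K * (c.c0 Q ω * (c.l0 ω)⁻¹)) (fun ω => c.kb Q K ω * (c.l0 ω)⁻¹)
    (10 * K ^ 5) (by
      intro x _ y _ h1 h2
      simp only [mt_rel, ker_def, Prod.mk.injEq] at h1 ⊢
      exact ⟨⟨h2, h1.1⟩, h1.2⟩) (by
      intro x _ y _ h1
      simp only [mt_rel, Cfg.Za_rel, ker_def, Prod.mk.injEq] at h1
      obtain ⟨⟨e2, e3, e4⟩, e5, e6, e7, e8⟩ := h1
      unfold Cfg.l0
      rw [e3, e4, e6, e7]) (by
      intro x hx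
      push_cast
      have h1 := abs_mul_le' (abs_frac (den Q K * c.c0 Q x))
        (abs_inv_la_le hQ1 hK1 (hc x hx).f5 (hc x hx).f6)
      have k2 : (K : ℝ) ≤ K ^ 5 := le_self_pow₀ hK1 (by norm_num)
      have e : den Q K * (c.c0 Q x * (c.l0 x)⁻¹) - c.kb Q K x * (c.l0 x)⁻¹ =
          (den Q K * c.c0 Q x - ⌊den Q K * c.c0 Q x⌋) * (la (c.r1 x) (c.r x) (c.s x))⁻¹ := by
        unfold Cfg.kb Cfg.l0; ring
      rw [e]
      linarith)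
  have a8 := P.slice_count (mt (ker fun ω => (cell (c.g3 ω) (c.r ω), c.r ω, c.s ω)) (c.Za Q K))
    (mt (ker fun ω => (c.r ω, c.s ω)) (c.Za Q K)) (fun ω => cell (c.g3 ω) (c.r ω)) c.r A N hN (by
      intro x _ y _ h1 h2
      simp only [mt_rel, ker_def, Prod.mk.injEq] at h1 ⊢
      exact ⟨⟨h2, h1.1⟩, h1.2⟩) (by
      intro x _ y _ h1
      simp only [mt_rel, ker_def, Prod.mk.injEq] at h1
      exact h1.1.1) (fun ω hω => (hc ω hω).ar)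
  have a9 := P.height_count (mt (ker fun ω => (c.r ω, c.s ω)) (c.Za Q K))
    (mt (ker c.s) (c.Za Q K)) c.r Q (by
      intro x _ y _ h1 h2
      simp only [mt_rel, ker_def, Prod.mk.injEq] at h1 ⊢
      exact ⟨⟨h2, h1.1⟩, h1.2⟩) (fun ω hω => (hc ω hω).lr)
  have a10 := P.height_count (mt (ker c.s) (c.Za Q K)) (c.Za Q K) c.s Q (by
      intro x _ y _ h1 h2
      exact mt_rel.2 ⟨h2, h1⟩) (fun ω hω => (hc ω hω).ls)
  change _ ≤ _ + m * cK K at a5 a5' a6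
  change _ ≤ _ + cK K at a7
  have hbm : (0 : ℝ) ≤ b + m := by positivity
  have b1 := mul_le_mul_of_nonneg_left (show 2 * l - Real.log Q - cK K ≤
    P.H (mt (ker c.r) (mt (ker c.g3) (c.Zb Q K))) - P.H (mt (ker c.g3) (c.Zb Q K)) by linarith) hbm
  have b2 := mul_le_mul_of_nonneg_left (show
    P.H (mt (ker fun ω => (cell (c.g3 ω) (c.r ω), c.r ω)) (c.Zb Q K)) - P.H (c.Zb Q K) ≤
    P.H (c.Za Q K) + 2 * Real.log Q + Real.log N + cK K + m * cK K - P.H (c.Zb Q K) by linarith) hb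
  linarith

/-- The lower bound for the corner functional. -/
theorem lower_ineq {l N Y : ℝ} (hN : ∀ r, ((A r).card : ℝ) ≤ N)
    (hC3 : P.H (ker fun ω => (c.g1 ω, c.g2 ω, c.g3 ω, c.r0 ω, c.r1 ω, c.s ω)) + 3 * l ≤ P.H c.all)
    (hD : Y ≤ P.H (ker fun ω => (c.g1 ω, cell (c.g3 ω) (c.s ω), c.r0 ω, c.r1 ω, c.s ω))) :
    Y + 3 * l - 2 * Real.log Q - m * cK K - Real.log N ≤ P.H (c.Zb Q K) := by
  have hQ1 : (1 : ℝ) ≤ Q := by exact_mod_cast hQ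
  have hK1 : (1 : ℝ) ≤ K := by exact_mod_cast hK
  have a4 := corner_total hQ hK hG hbox hc
  have a1 := P.submod (ker fun ω => (c.g1 ω, c.g2 ω, c.g3 ω, c.r0 ω, c.r1 ω, c.s ω))
    (ker fun ω => (c.g1 ω, cell (c.g3 ω) (c.s ω), c.r0 ω, c.r1 ω, c.s ω, c.kc Q K ω))
    (ker fun ω => (c.g1 ω, c.g2 ω, c.g3 ω, c.r0 ω, c.r1 ω, c.s ω, c.kc Q K ω))
    (ker fun ω => (c.g1 ω, cell (c.g3 ω) (c.s ω), c.r0 ω, c.r1 ω, c.s ω)) (by
      intro x _ y _ h1 h2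
      simp only [ker_def, Prod.mk.injEq] at h1 h2 ⊢
      obtain ⟨e1, e2, e3, e4, e5, e6⟩ := h1
      exact ⟨e1, e2, e3, e4, e5, e6, h2.2.2.2.2.2⟩) (by
      intro x _ y _ h1
      simp only [ker_def, Prod.mk.injEq] at h1 ⊢
      obtain ⟨e1, e2, e3, e4, e5, e6⟩ := h1
      exact ⟨e1, by rw [e3, e6], e4, e5, e6⟩) (by
      intro x _ y _ h1
      simp only [ker_def, Prod.mk.injEq] at h1 ⊢
      obtain ⟨e1, e2, e3, e4, e5, e6⟩ := h1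
      exact ⟨e1, e2, e3, e4, e5⟩)
  have a2 := P.near_count
    (ker fun ω => (c.g1 ω, cell (c.g3 ω) (c.s ω), c.r0 ω, c.r1 ω, c.s ω, c.kc Q K ω))
    (mt (ker fun ω => cell (c.g3 ω) (c.s ω)) (c.Zb Q K)) (fun ω j => Q * (c.g1 ω).2 j)
    (fun ω j => c.mu Q K ω j - c.kc Q K ω / den Q K * cell (c.g3 ω) (c.s ω) j) (10 * K ^ 5) (by
      intro x hx y hy h1 h2
      simp only [mt_rel, Cfg.Zb_rel, ker_def, Prod.mk.injEq] at h1 ⊢
      obtain ⟨e1, e2, e3, e4, e5, e6⟩ := h1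
      exact ⟨hG.dir_inj (hc x hx).m1 (hc y hy).m1 h2, e1, e2, e3, e4, e5⟩) (by
      intro x _ y _ h1
      simp only [mt_rel, Cfg.Zb_rel, ker_def] at h1
      obtain ⟨e1, e2, e3, e4, e5, e6⟩ := h1
      rw [e1, e5, e6]) (by
      intro x hx j
      push_cast
      exact dir_near hQ1 hK1 (kc_abs hQ hK hc hx))
  have a3 := P.slice_count (mt (ker fun ω => cell (c.g3 ω) (c.s ω)) (c.Zb Q K)) (c.Zb Q K)
    (fun ω => cell (c.g3 ω) (c.s ω)) c.s A N hN (fun x _ y _ h1 h2 => mt_rel.2 ⟨h2, h1⟩)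
    (fun x _ y _ h1 => ((c.Zb_rel Q K).1 h1).2.2.1) (fun ω hω => (hc ω hω).as)
  change _ ≤ _ + m * cK K at a2
  linarith

omit hQ hK hG hbox in
/-- The trivial bound for the pair entropy. -/
theorem zeta_le {N : ℝ} (hN : ∀ r, ((A r).card : ℝ) ≤ N) :
    P.H (ker fun ω => (cell (c.g2 ω) (c.r0 ω), cell (c.g3 ω) (c.s ω), c.r1 ω, c.r0 ω, c.s ω)) ≤
      3 * Real.log Q + 2 * Real.log N := by
  have a1 := P.slice_count
    (ker fun ω => (cell (c.g2 ω) (c.r0 ω), cell (c.g3 ω) (c.s ω), c.r1 ω, c.r0 ω, c.s ω))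
    (ker fun ω => (cell (c.g3 ω) (c.s ω), c.r1 ω, c.r0 ω, c.s ω))
    (fun ω => cell (c.g2 ω) (c.r0 ω)) c.r0 A N hN (by
      intro x _ y _ h1 h2
      simp only [ker_def, Prod.mk.injEq] at h1 ⊢
      exact ⟨h2, h1⟩) (by
      intro x _ y _ h1
      simp only [ker_def, Prod.mk.injEq] at h1
      exact h1.2.2.1) (fun ω hω => (hc ω hω).a0)
  have a2 := P.slice_count (ker fun ω => (cell (c.g3 ω) (c.s ω), c.r1 ω, c.r0 ω, c.s ω))
    (ker fun ω => (c.r1 ω, c.r0 ω, c.s ω)) (fun ω => cell (c.g3 ω) (c.s ω)) c.s A N hN (by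
      intro x _ y _ h1 h2
      simp only [ker_def, Prod.mk.injEq] at h1 ⊢
      exact ⟨h2, h1⟩) (by
      intro x _ y _ h1
      simp only [ker_def, Prod.mk.injEq] at h1
      exact h1.2.2) (fun ω hω => (hc ω hω).as)
  have a3 := P.height_count (ker fun ω => (c.r1 ω, c.r0 ω, c.s ω)) (ker fun ω => (c.r0 ω, c.s ω))
    c.r1 Q (by
      intro x _ y _ h1 h2
      simp only [ker_def, Prod.mk.injEq] at h1 ⊢
      exact ⟨h2, h1⟩) (fun ω hω => (hc ω hω).l1)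
  have a4 := P.height_count (ker fun ω => (c.r0 ω, c.s ω)) (ker c.s) c.r0 Q (by
      intro x _ y _ h1 h2
      simp only [ker_def, Prod.mk.injEq] at h1 ⊢
      exact ⟨h2, h1⟩) (fun ω hω => (hc ω hω).l0)
  have a5 := P.height_count (ker c.s) ⊤ c.s Q (fun x _ y _ _ h2 => h2) (fun ω hω => (hc ω hω).ls)
  rw [P.H_top] at a5
  linarith

end

/-- The linear algebra of the Katz-Tao step. -/
theorem kt_algebra {b m al n L A M z c0 c1 e : ℝ} (hb1 : 5 / 3 ≤ b) (hm : 21 ≤ m)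
    (hL : 0 ≤ L) (hc0 : 0 ≤ c0) (hc1 : 0 ≤ c1) (he : 0 ≤ e) (hz : z ≤ 2 * n)
    (ha : 2 * al - n - 5 * L - c0 - A ≤ b * (z + 2 * L + c0 + c1 - A) + 2 * m * L + c0 + e)
    (hb : 3 * al - 2 * n - 8 * L - 2 * c0 - M ≤
      b * (A + n + 2 * L + 2 * c1 + c0 - M) + 2 * m * L + c0 + e)
    (hc : z + al - 2 * n - 4 * L - c0 ≤ M) :
    al ≤ kt b * n + m * L + 6 * (c0 + c1 + e) := by
  have h1 : 0 ≤ b - 1 := by linarith
  have hD : 5 ≤ b ^ 2 + 3 * b - 2 := by nlinarith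
  have k1 := mul_le_mul_of_nonneg_left ha (show 0 ≤ b by linarith)
  have k2 := mul_le_mul_of_nonneg_left hb h1
  have k3 := mul_le_mul_of_nonneg_left hc (sq_nonneg (b - 1))
  have k4 := mul_le_mul_of_nonneg_left hz (show 0 ≤ 2 * b - 1 by linarith)
  have k5 : (b ^ 2 + 3 * b - 2) * al ≤ (3 * b ^ 2 + 2 * b - 2) * n + (4 * b - 2) * m * L +
      (8 * b ^ 2 + 3 * b - 4) * L + ((3 * b ^ 2 + 2 * b - 2) * c0 + (3 * b ^ 2 - 2 * b) * c1 +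
        (2 * b - 1) * e) := by linarith
  have k6 : (4 * b - 2) * m * L + (8 * b ^ 2 + 3 * b - 4) * L ≤ (b ^ 2 + 3 * b - 2) * (m * L) := by
    have h2 : 0 ≤ (b ^ 2 - b) * (m - 21) := mul_nonneg (by nlinarith) (by linarith)
    have h3 : 0 ≤ 13 * b ^ 2 - 24 * b + 4 := by nlinarith
    have h4 : 0 ≤ (b ^ 2 - b) * m - (8 * b ^ 2 + 3 * b - 4) := by nlinarith
    nlinarith [mul_nonneg h4 hL]
  have k7 : (3 * b ^ 2 + 2 * b - 2) * c0 + (3 * b ^ 2 - 2 * b) * c1 + (2 * b - 1) * e ≤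
      (b ^ 2 + 3 * b - 2) * (6 * (c0 + c1 + e)) := by
    have h2 : 0 ≤ (6 * (b ^ 2 + 3 * b - 2) - (3 * b ^ 2 + 2 * b - 2)) * c0 :=
      mul_nonneg (by nlinarith) hc0
    have h3 : 0 ≤ (6 * (b ^ 2 + 3 * b - 2) - (3 * b ^ 2 - 2 * b)) * c1 :=
      mul_nonneg (by nlinarith) hc1
    have h4 : 0 ≤ (6 * (b ^ 2 + 3 * b - 2) - (2 * b - 1)) * e := mul_nonneg (by nlinarith) he
    nlinarith
  have k8 : (b ^ 2 + 3 * b - 2) * (kt b * n) = (3 * b ^ 2 + 2 * b - 2) * n := by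
    unfold kt
    rw [← mul_assoc, mul_div_cancel₀ _ (show b ^ 2 + 3 * b - 2 ≠ 0 by linarith)]
  refine le_of_mul_le_mul_left ?_ (show 0 < b ^ 2 + 3 * b - 2 by linarith)
  rw [mul_add, mul_add, k8]
  linarith

end Pool.Agent.MP_5168f5_an.H19
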