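import Mathlib

/-! A discrete model of the Kakeya maximal estimate. -/

namespace Pool.Agent.MP_5168f5_an.H19

/-- A line `r ↦ x + r y`, stored as `(x, y)`. -/
abbrev Line (m : ℕ) : Type := (Fin m → ℝ) × (Fin m → ℝ)

/-- A lattice cell together with its height. -/
abbrev Pt (m : ℕ) : Type := (Fin m → ℤ) × ℕ

variable {m : ℕ}

/-- The unit cell met by the line `g` at height `r`. -/
noncomputable def cell (g : Line m) (r : ℕ) : Fin m → ℤ := fun j => ⌊g.1 j + r * g.2 j⌋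

/-- Directions lie in the cube `[-1,1]^m` and are `1/Q`-separated in the sup norm. -/
def Sep (Q : ℕ) (G : Finset (Line m)) : Prop :=
  (∀ g ∈ G, ∀ j, |g.2 j| ≤ 1) ∧ ∀ g ∈ G, ∀ g' ∈ G, g ≠ g' → ∃ j, 1 ≤ (Q : ℝ) * |g.2 j - g'.2 j|

open Classical in
/-- The heights in `J` at which the line `g` passes through `E`. -/
noncomputable def shade (E : Finset (Pt m)) (J : Finset ℕ) (g : Line m) : Finset ℕ :=
  J.filter fun r => (cell g r, r) ∈ E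

/-- The discrete maximal estimate with exponent `b` (dimension `1 + m / b`). -/
def KK (m : ℕ) (b : ℝ) : Prop :=
  ∀ ε : ℝ, 0 < ε → ∃ C : ℝ, 0 < C ∧ ∀ (Q l : ℕ) (G : Finset (Line m)) (E : Finset (Pt m)),
    0 < l → Sep Q G → (∀ g ∈ G, l ≤ (shade E (Finset.range Q) g).card) →
    (G.card : ℝ) ≤ C * (Q : ℝ) ^ ε * ((E.card : ℝ) / l) ^ b * ((Q : ℝ) / l) ^ m

/-- The same estimate for lines starting in one box and shaded in three separated blocks. -/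
def TE (m : ℕ) (b : ℝ) : Prop :=
  ∀ ε : ℝ, 0 < ε → ∀ K : ℕ, 0 < K → ∃ C : ℝ, 0 < C ∧
    ∀ (Q l : ℕ) (G : Finset (Line m)) (E : Finset (Pt m)) (J : Fin 3 → Finset ℕ),
    0 < l → Sep Q G → (∀ g ∈ G, ∀ j, |g.1 j| ≤ Q) → (∀ a, ∀ r ∈ J a, r < Q) →
    (∀ a a', a ≠ a' → ∀ r ∈ J a, ∀ s ∈ J a', (Q : ℝ) ≤ K * |(r : ℝ) - s|) →
    (∀ g ∈ G, ∀ a, l ≤ (shade E (J a) g).card) →
    (G.card : ℝ) ≤ C * (Q : ℝ) ^ ε * ((E.card : ℝ) / l) ^ b * ((Q : ℝ) / l) ^ m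

/-- The Katz-Tao iteration map. -/
noncomputable def kt (b : ℝ) : ℝ := (3 * b ^ 2 + 2 * b - 2) / (b ^ 2 + 3 * b - 2)

end Pool.Agent.MP_5168f5_an.H19
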