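import Pool.Agent.MP_5168f5_an.H19.Part

/-! The three-blocks estimate implies the general estimate. -/

namespace Pool.Agent.MP_5168f5_an.H19

open Finset

variable {m : ℕ}

/-- The box of side `L` met by the line at height `a L`. -/
noncomputable def box (L a : ℕ) (g : Line m) : Fin m → ℤ :=
  fun j => ⌊(g.1 j + ((a * L : ℕ) : ℝ) * g.2 j) / L⌋

/-- The points of `E` in the block `a` and near the box `B`. -/
noncomputable def loc (E : Finset (Pt m)) (L a : ℕ) (B : Fin m → ℤ) : Finset (Pt m) :=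
  E.filter fun p => p.2 / L = a ∧ ∀ j, |p.1 j - L * B j| ≤ 2 * L

theorem local_te {K k Q R l a : ℕ} (hK : 0 < K) {bd : ℝ} {c : Fin 3 → ℕ} {B : Fin m → ℤ}
    {G : Finset (Line m)} {E : Finset (Pt m)} (hc1 : ∀ i, c i < K)
    (hc2 : ∀ i j, i ≠ j → c i + 2 ≤ c j ∨ c j + 2 ≤ c i)
    (hT : ∀ (G' : Finset (Line m)) (E' : Finset (Pt m)) (J : Fin 3 → Finset ℕ),
      E'.card ≤ (loc E (K ^ (k + 1)) a B).card → Sep (K ^ (k + 1)) G' →
      (∀ g ∈ G', ∀ j, |g.1 j| ≤ (K ^ (k + 1) : ℕ)) → (∀ i, ∀ r ∈ J i, r < K ^ (k + 1)) →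
      (∀ i i', i ≠ i' → ∀ r ∈ J i, ∀ s ∈ J i', ((K ^ (k + 1) : ℕ) : ℝ) ≤ K * |(r : ℝ) - s|) →
      (∀ g ∈ G', ∀ i, l ≤ (shade E' (J i) g).card) → (G'.card : ℝ) ≤ bd)
    (hR : Q ≤ R * K ^ (k + 1)) (hG : Sep Q G) (hB : ∀ g ∈ G, box (K ^ (k + 1)) a g = B)
    (hsh : ∀ g ∈ G, ∀ i, l ≤ (shade E (range Q) g ∩ blk (K ^ k) (a * K + c i)).card) :
    (G.card : ℝ) ≤ (2 * (R + 1) + 1) ^ m * bd := by
  classical
  obtain ⟨G', h1, h2, h3⟩ := thin hR hG
  have hk : 0 < K ^ k := pow_pos hK k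
  have hLk : K ^ (k + 1) = K ^ k * K := pow_succ K k
  set L := K ^ (k + 1) with hL
  have hL0 : 0 < L := pow_pos hK _
  have hLr : (0 : ℝ) < L := by exact_mod_cast hL0
  set τ : Line m → Line m := fun g =>
    (fun j => g.1 j + ((a * L : ℕ) : ℝ) * g.2 j - L * B j, g.2) with hτ
  have hinj : Function.Injective τ := by
    intro g g' h
    have e2 : g.2 = g'.2 := (congrArg Prod.snd h :)
    refine Prod.ext (funext fun j => ?_) e2
    have e1 := congrFun (congrArg Prod.fst h) j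
    simp only [hτ, e2] at e1
    linarith
  have hbox : ∀ g ∈ G', ∀ j, 0 ≤ (τ g).1 j ∧ (τ g).1 j ≤ L := by
    intro g hg j
    have e : ⌊(g.1 j + ((a * L : ℕ) : ℝ) * g.2 j) / L⌋ = B j := congrFun (hB g (h1 hg)) j
    obtain ⟨e1, e2⟩ := Int.floor_eq_iff.1 e
    rw [le_div_iff₀ hLr] at e1
    rw [div_lt_iff₀ hLr] at e2
    simp only [hτ]
    constructor <;> nlinarith
  have key := hT (G'.image τ)
    ((loc E L a B).image fun p => (fun j => p.1 j - L * B j, p.2 - a * L))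
    (fun i => blk (K ^ k) (c i)) Finset.card_image_le ?_ ?_ ?_ ?_ ?_
  · rw [Finset.card_image_of_injective _ hinj] at key
    have h4 : (G.card : ℝ) ≤ (2 * (R + 1) + 1) ^ m * G'.card := by exact_mod_cast h3
    exact h4.trans (mul_le_mul_of_nonneg_left key (by positivity))
  · constructor
    · intro g hg
      obtain ⟨g0, h0, rfl⟩ := Finset.mem_image.1 hg
      exact h2.1 g0 h0
    · intro g hg g' hg' hne
      obtain ⟨g0, h0, rfl⟩ := Finset.mem_image.1 hg
      obtain ⟨g1, h0', rfl⟩ := Finset.mem_image.1 hg'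
      exact h2.2 g0 h0 g1 h0' fun e => hne (by rw [e])
  · intro g hg j
    obtain ⟨g0, h0, rfl⟩ := Finset.mem_image.1 hg
    obtain ⟨e1, e2⟩ := hbox g0 h0 j
    rw [abs_of_nonneg e1]; exact e2
  · intro i r hr
    have e1 := (Finset.mem_Ico.1 hr).2
    have e2 : (c i + 1) * K ^ k ≤ K * K ^ k := Nat.mul_le_mul_right _ (hc1 i)
    rw [hLk, mul_comm]; omega
  · have main : ∀ u v r s : ℕ, u + 2 ≤ v → r ∈ blk (K ^ k) u → s ∈ blk (K ^ k) v →
        (L : ℝ) ≤ K * |(r : ℝ) - s| := by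
      intro u v r s huv hr hs
      have e1 := (Finset.mem_Ico.1 hr).2
      have e2 := (Finset.mem_Ico.1 hs).1
      have e3 : (u + 2) * K ^ k ≤ v * K ^ k := Nat.mul_le_mul_right _ huv
      have e4 : r + K ^ k ≤ s := by
        rw [add_mul] at e1 e3; omega
      have e5 : (r : ℝ) + (K ^ k : ℕ) ≤ s := by exact_mod_cast e4
      have e6 : ((K ^ k : ℕ) : ℝ) ≤ |(r : ℝ) - s| := by
        rw [abs_sub_comm]; exact le_trans (by linarith) (le_abs_self _)
      rw [hLk, Nat.cast_mul, mul_comm]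
      exact mul_le_mul_of_nonneg_left e6 (Nat.cast_nonneg K)
    intro i i' hii r hr s hs
    rcases hc2 i i' hii with h | h
    · exact main _ _ r s h hr hs
    · rw [abs_sub_comm]; exact main _ _ s r h hs hr
  · intro g hg i
    obtain ⟨g0, h0, rfl⟩ := Finset.mem_image.1 hg
    refine (hsh g0 (h1 h0) i).trans ?_
    have hr0 : ∀ r ∈ shade E (range Q) g0 ∩ blk (K ^ k) (a * K + c i),
        a * L ≤ r ∧ r - a * L ∈ blk (K ^ k) (c i) ∧ r - a * L < L := by
      intro r hr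
      obtain ⟨e1, e2⟩ := Finset.mem_Ico.1 (Finset.mem_inter.1 hr).2
      have e3 : (a * K + c i) * K ^ k = a * L + c i * K ^ k := by rw [hLk]; ring
      have e4 : (a * K + c i + 1) * K ^ k = a * L + (c i + 1) * K ^ k := by rw [hLk]; ring
      have e5 : (c i + 1) * K ^ k ≤ K * K ^ k := Nat.mul_le_mul_right _ (hc1 i)
      have e6 : K * K ^ k = L := by rw [hLk, mul_comm]
      refine ⟨by omega, Finset.mem_Ico.2 ⟨by omega, by omega⟩, by omega⟩
    refine Finset.card_le_card_of_injOn (fun r => r - a * L) ?_ ?_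
    · intro r hr
      obtain ⟨e1, e2, e3⟩ := hr0 r hr
      have e4 : (cell g0 r, r) ∈ E := (Finset.mem_filter.1 (Finset.mem_inter.1 hr).1).2
      have e5 : ∀ j, cell (τ g0) (r - a * L) j = cell g0 r j - L * B j := by
        intro j
        simp only [cell, hτ]
        rw [← Int.floor_sub_intCast]
        congr 1
        rw [Nat.cast_sub e1]
        push_cast; ring
      refine Finset.mem_filter.2 ⟨e2, Finset.mem_image.2 ⟨(cell g0 r, r), ?_, ?_⟩⟩
      · refine Finset.mem_filter.2 ⟨e4, ?_, fun j => ?_⟩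
        · rw [Nat.div_eq_iff hL0]
          constructor
          · exact e1
          · omega
        · rw [← e5 j]
          obtain ⟨b1, b2⟩ := hbox g0 h0 j
          have b3 := h2.1 g0 h0 j
          have b4 : ((r - a * L : ℕ) : ℝ) ≤ L := by exact_mod_cast e3.le
          have b5 : |((r - a * L : ℕ) : ℝ) * (τ g0).2 j| ≤ L := by
            rw [abs_mul, Nat.abs_cast]
            calc _ ≤ (L : ℝ) * 1 := mul_le_mul b4 b3 (abs_nonneg _) hLr.le
              _ = L := mul_one _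
          obtain ⟨b6, b7⟩ := abs_le.1 b5
          rw [abs_le]
          unfold cell
          constructor
          · rw [Int.le_floor]; push_cast at b6 ⊢; linarith
          · have : ((⌊(τ g0).1 j + ((r - a * L : ℕ) : ℝ) * (τ g0).2 j⌋ : ℤ) : ℝ) ≤
                ((2 * L : ℤ) : ℝ) := by
              refine (Int.floor_le _).trans ?_
              push_cast at b7 ⊢; linarith
            exact_mod_cast this
      · exact Prod.ext (funext fun j => (e5 j).symm) rfl
    · intro r hr s hs h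
      have e1 := (hr0 r hr).1
      have e2 := (hr0 s hs).1
      simp only at h
      omega

theorem overlap {K J : ℕ} (hK : 0 < K) (E : Finset (Pt m))
    (Λ : Finset (ℕ × ℕ × (Fin 3 → ℕ) × (Fin m → ℤ)))
    (hΛ : ∀ x ∈ Λ, x.1 < J ∧ ∀ i, x.2.2.1 i < K) :
    ∑ x ∈ Λ, (loc E (K ^ (x.1 + 1)) x.2.1 x.2.2.2).card ≤ J * (K ^ 3 * 5 ^ m) * E.card := by
  classical
  simp only [loc, Finset.card_filter]
  rw [Finset.sum_comm, mul_comm, ← smul_eq_mul, ← Finset.sum_const]
  refine Finset.sum_le_sum fun p _ => ?_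
  rw [← Finset.card_filter]
  have hc : (range J ×ˢ (Fintype.piFinset fun _ : Fin 3 => range K) ×ˢ
      (Fintype.piFinset fun j : Fin m => Finset.Icc ((0 : Fin m → ℤ) j - (2 : ℕ))
        ((0 : Fin m → ℤ) j + (2 : ℕ)))).card = J * (K ^ 3 * 5 ^ m) := by
    rw [Finset.card_product, Finset.card_product, card_cube, Fintype.card_piFinset]
    simp
  rw [← hc]
  refine Finset.card_le_card_of_injOn
    (fun x => (x.1, x.2.2.1, fun j => x.2.2.2 j - p.1 j / (K ^ (x.1 + 1) : ℕ))) ?_ ?_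
  · intro x hx
    obtain ⟨h1, h2, h3⟩ := Finset.mem_filter.1 hx
    obtain ⟨h4, h5⟩ := hΛ x h1
    simp only [Finset.coe_product, Set.mem_prod, Finset.mem_coe, Finset.mem_range,
      Fintype.mem_piFinset, Finset.mem_Icc, Pi.zero_apply]
    refine ⟨h4, h5, fun j => ?_⟩
    have hL : (0 : ℤ) < (K ^ (x.1 + 1) : ℕ) := by exact_mod_cast pow_pos hK _
    have h6 := abs_le.1 (h3 j)
    generalize ((K ^ (x.1 + 1) : ℕ) : ℤ) = L at hL h6
    have h7 := Int.emod_add_mul_ediv (p.1 j) L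
    have h8 := Int.emod_nonneg (p.1 j) hL.ne'
    have h9 := Int.emod_lt_of_pos (p.1 j) hL
    constructor
    · by_contra h
      have : L * (x.2.2.2 j - p.1 j / L) ≤ L * (-3) :=
        mul_le_mul_of_nonneg_left (by push_cast at h; omega) hL.le
      nlinarith [h6.2]
    · by_contra h
      have : L * 3 ≤ L * (x.2.2.2 j - p.1 j / L) :=
        mul_le_mul_of_nonneg_left (by push_cast at h; omega) hL.le
      nlinarith [h6.1]
  · rintro ⟨k, a, c, B⟩ hx ⟨k', a', c', B'⟩ hy h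
    obtain ⟨-, h2, -⟩ := Finset.mem_filter.1 hx
    obtain ⟨-, h3, -⟩ := Finset.mem_filter.1 hy
    simp only [Prod.mk.injEq] at h h2 h3 ⊢
    obtain ⟨rfl, rfl, h4⟩ := h
    refine ⟨rfl, h2.symm.trans h3, rfl, funext fun j => ?_⟩
    have := congrFun h4 j
    simpa using this

theorem scale_choice {θ : ℝ} (hθ : 0 < θ) : ∃ K : ℕ, 2 ≤ K ∧ ∀ Q : ℕ, 0 < Q →
    ∃ J : ℕ, Q ≤ K ^ J ∧ K ^ J ≤ K * Q ∧ (8 : ℝ) ^ J ≤ 8 * (Q : ℝ) ^ θ := by
  refine ⟨⌈(8 : ℝ) ^ (1 / θ)⌉₊ + 2, by omega, fun Q hQ => ?_⟩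
  set K := ⌈(8 : ℝ) ^ (1 / θ)⌉₊ + 2 with hK
  have hK1 : 1 < K := by omega
  have hQ1 : (1 : ℝ) ≤ Q := by exact_mod_cast hQ
  have h8 : (8 : ℝ) ≤ (K : ℝ) ^ θ := by
    have h1 : (8 : ℝ) ^ (1 / θ) ≤ K := by
      rw [hK]; push_cast
      linarith [Nat.le_ceil ((8 : ℝ) ^ (1 / θ))]
    have h2 := Real.rpow_le_rpow (by positivity) h1 hθ.le
    rwa [← Real.rpow_mul (by norm_num), one_div, inv_mul_cancel₀ hθ.ne', Real.rpow_one] at h2
  refine ⟨Nat.clog K Q, Nat.le_pow_clog hK1 Q, ?_⟩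
  rcases Nat.lt_or_ge 1 Q with h | h
  · have h1 := Nat.pow_pred_clog_lt_self hK1 h
    have h2 := Nat.clog_pos hK1 h
    obtain ⟨n, hn⟩ : ∃ n, Nat.clog K Q = n + 1 := ⟨Nat.clog K Q - 1, by omega⟩
    rw [hn] at h1 ⊢
    simp only [Nat.pred_succ] at h1
    constructor
    · rw [pow_succ, mul_comm]; exact Nat.mul_le_mul_left _ h1.le
    · rw [pow_succ, mul_comm]
      refine mul_le_mul_of_nonneg_left ?_ (by norm_num)
      have h3 : ((K : ℝ) ^ n) ≤ Q := by exact_mod_cast h1.le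
      calc (8 : ℝ) ^ n ≤ ((K : ℝ) ^ θ) ^ n := pow_le_pow_left₀ (by norm_num) h8 n
        _ = ((K : ℝ) ^ n) ^ θ := by
          rw [← Real.rpow_natCast, ← Real.rpow_natCast, ← Real.rpow_mul (by positivity),
            ← Real.rpow_mul (by positivity), mul_comm]
        _ ≤ _ := Real.rpow_le_rpow (by positivity) h3 hθ.le
  · rw [Nat.clog_of_right_le_one h]
    constructor
    · simp only [pow_zero]; exact Nat.mul_pos (by omega) hQ
    · have := Real.one_le_rpow hQ1 hθ.le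
      simp only [pow_zero]; linarith

theorem kk_of_te {b : ℝ} (hb : 1 ≤ b) (hT : TE m b) : KK m b := by
  classical
  intro ε hε
  have hbm : 0 < 2 * b + m := by positivity
  obtain ⟨K, hK2, hK⟩ := scale_choice (θ := ε / 2 / (2 * b + m)) (by positivity)
  have hK0 : 0 < K := by omega
  have hKr : (0 : ℝ) < K := by exact_mod_cast hK0
  obtain ⟨C, hC, hTE⟩ := hT (ε / 2) (by positivity) K hK0
  set c1 : ℝ := C * (K : ℝ) ^ (ε / 2) * (2 * K * (K ^ 3 * 5 ^ m) : ℝ) ^ b * (10 * K ^ 2) ^ m with hc1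
  have hc0 : 0 < c1 := by positivity
  refine ⟨(c1 + 3 ^ m) * 8 ^ (2 * b + m), by positivity, fun Q l G E hl hG hsh => ?_⟩
  rcases G.eq_empty_or_nonempty with rfl | ⟨g0, hg0⟩
  · simp only [Finset.card_empty, Nat.cast_zero]; positivity
  have hlQ : l ≤ Q := by
    refine (hsh g0 hg0).trans ?_
    simpa [shade] using Finset.card_filter_le (range Q) _
  have hlE : l ≤ E.card := (hsh g0 hg0).trans (shade_le_card _ _ _)
  have hQ : 0 < Q := lt_of_lt_of_le hl hlQ
  have hlr : (0 : ℝ) < l := by exact_mod_cast hl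
  have hQr : (1 : ℝ) ≤ Q := by exact_mod_cast hQ
  obtain ⟨J, hJ1, hJ2, hJ3⟩ := hK Q hQ
  set u : ℝ := 8 ^ J with hu
  have hu1 : 1 ≤ u := one_le_pow₀ (by norm_num)
  have huu : u ^ (2 * b + m) ≤ 8 ^ (2 * b + m) * (Q : ℝ) ^ (ε / 2) := by
    refine (Real.rpow_le_rpow (by positivity) hJ3 hbm.le).trans (le_of_eq ?_)
    rw [Real.mul_rpow (by norm_num) (by positivity), ← Real.rpow_mul (by positivity),
      div_mul_cancel₀ _ hbm.ne']
  set X : ℝ := (E.card : ℝ) / l with hX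
  set Z : ℝ := (Q : ℝ) / l with hZ
  have hX1 : 1 ≤ X := by
    rw [hX, le_div_iff₀ hlr, one_mul]; exact_mod_cast hlE
  have hZ0 : 0 < Z := by positivity
  have hQe : 1 ≤ (Q : ℝ) ^ (ε / 2) := Real.one_le_rpow hQr (by positivity)
  suffices h : (G.card : ℝ) ≤ (c1 + 3 ^ m) * u ^ (2 * b + m) * (Q : ℝ) ^ (ε / 2) * X ^ b * Z ^ m by
    refine h.trans ?_
    have e : (Q : ℝ) ^ ε = (Q : ℝ) ^ (ε / 2) * (Q : ℝ) ^ (ε / 2) := by
      rw [← Real.rpow_add (by positivity)]; ring_nf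
    rw [e]
    calc _ ≤ (c1 + 3 ^ m) * (8 ^ (2 * b + m) * (Q : ℝ) ^ (ε / 2)) * (Q : ℝ) ^ (ε / 2) * X ^ b *
          Z ^ m := by gcongr
      _ = _ := by ring
  have hum : u ^ (2 * b + m) = u ^ b * u ^ b * u ^ m := by
    rw [← Real.rpow_natCast, ← Real.rpow_add (by positivity), ← Real.rpow_add (by positivity)]
    ring_nf
  by_cases hsmall : l ≤ 8 ^ J
  · have h1 : (G.card : ℝ) ≤ (2 * Q + 1 : ℝ) ^ m := by exact_mod_cast hG.card_le
    have h2 : (l : ℝ) ≤ u := by rw [hu]; exact_mod_cast hsmall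
    have h3 : (2 * Q + 1 : ℝ) ≤ 3 * u * Z := by
      have : (Q : ℝ) = l * Z := by rw [hZ]; field_simp
      have h4 := mul_le_mul_of_nonneg_right h2 hZ0.le
      nlinarith
    have h4 : 1 ≤ X ^ b := Real.one_le_rpow hX1 (by linarith)
    have h5 : 1 ≤ u ^ b := Real.one_le_rpow hu1 (by linarith)
    calc (G.card : ℝ) ≤ (3 * u * Z) ^ m := h1.trans (pow_le_pow_left₀ (by positivity) h3 m)
      _ = (0 + 3 ^ m) * (1 * 1 * u ^ m) * 1 * 1 * Z ^ m := by rw [mul_pow, mul_pow]; ring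
      _ ≤ _ := by rw [hum]; gcongr
  · have hlab : ∀ g ∈ G, ∃ x : ℕ × ℕ × (Fin 3 → ℕ) × (Fin m → ℤ), x.1 < J ∧ (∀ i, x.2.2.1 i < K) ∧
        (∀ i j, i ≠ j → x.2.2.1 i + 2 ≤ x.2.2.1 j ∨ x.2.2.1 j + 2 ≤ x.2.2.1 i) ∧
        box (K ^ (x.1 + 1)) x.2.1 g = x.2.2.2 ∧
        ∀ i, l ≤ 8 ^ J * (2 * K) *
          (shade E (range Q) g ∩ blk (K ^ x.1) (x.2.1 * K + x.2.2.1 i)).card := by
      intro g hg
      have h1 : shade E (range Q) g ⊆ blk (K ^ J) 0 := by
        intro r hr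
        have := Finset.mem_range.1 (Finset.mem_filter.1 hr).1
        exact Finset.mem_Ico.2 ⟨by omega, by omega⟩
      rcases descent hK0 J 0 _ h1 with h2 | ⟨k, hk, a, c, h3, h4, h5⟩
      · exact absurd ((hsh g hg).trans h2) hsmall
      · exact ⟨(k, a, c, box (K ^ (k + 1)) a g), hk, h3, h4, rfl,
          fun i => (hsh g hg).trans (h5 i)⟩
    choose! lab hlab using hlab
    set M : ℝ := u * (2 * K) with hM
    have hM0 : 0 < M := by positivity
    set l' : ℕ := ⌈(l : ℝ) / M⌉₊ with hl'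
    have hl1 : (l : ℝ) / M ≤ l' := Nat.le_ceil _
    have hl2 : 0 < l' := Nat.ceil_pos.2 (by positivity)
    have hl3 : (0 : ℝ) < l' := by exact_mod_cast hl2
    have hinv : ∀ y : ℝ, 0 ≤ y → y / l' ≤ M * (y / l) := by
      intro y hy
      calc y / l' ≤ y / (l / M) := div_le_div_of_nonneg_left hy (by positivity) hl1
        _ = _ := by field_simp
    set c2 : ℝ := C * (K * Q : ℝ) ^ (ε / 2) * M ^ b * (5 * K * M * Z) ^ m with hc2
    have hfib : ∀ x ∈ G.image lab, ((G.filter fun g => lab g = x).card : ℝ) ≤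
        c2 * (((loc E (K ^ (x.1 + 1)) x.2.1 x.2.2.2).card : ℝ) / l) ^ b := by
      intro x hx
      obtain ⟨g1, hg1, rfl⟩ := Finset.mem_image.1 hx
      obtain ⟨k1, k2, k3, -, -⟩ := hlab g1 hg1
      set k := (lab g1).1 with hk
      set N : ℝ := ((loc E (K ^ (k + 1)) (lab g1).2.1 (lab g1).2.2.2).card : ℝ) with hN
      have hR : K ^ (J - (k + 1)) * K ^ (k + 1) = K ^ J := by
        rw [← pow_add]; congr 1; omega
      set R := K ^ (J - (k + 1)) with hRd
      have hR1 : (1 : ℝ) ≤ R := by exact_mod_cast pow_pos hK0 _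
      set L := K ^ (k + 1) with hLd
      have hRL : (R : ℝ) * L ≤ K * Q := by exact_mod_cast hR.le.trans hJ2
      have hL0 : (0 : ℝ) ≤ L := Nat.cast_nonneg L
      have hL1 : (L : ℝ) ≤ K * Q := by nlinarith
      have h1 := local_te (Q := Q) (R := R) (l := l') (k := k) (a := (lab g1).2.1)
        (B := (lab g1).2.2.2) (G := G.filter fun g => lab g = lab g1) (E := E) hK0
        (bd := C * (L : ℝ) ^ (ε / 2) * (N / l') ^ b * ((L : ℝ) / l') ^ m) k2 k3
        (fun G' E' J' e1 e2 e3 e4 e5 e6 => by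
          refine (hTE L l' G' E' J' hl2 e2 e3 e4 e5 e6).trans ?_
          have e7 : (E'.card : ℝ) ≤ N := by rw [hN]; exact_mod_cast e1
          gcongr)
        (hR ▸ hJ1) (hG.mono (Finset.filter_subset _ _))
        (fun g hg => by
          obtain ⟨e1, e2⟩ := Finset.mem_filter.1 hg
          have := (hlab g e1).2.2.2.1
          rwa [e2] at this)
        (fun g hg i => by
          obtain ⟨e1, e2⟩ := Finset.mem_filter.1 hg
          have e3 := (hlab g e1).2.2.2.2 i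
          rw [e2] at e3
          rw [hl', Nat.ceil_le, div_le_iff₀ hM0, hM, hu, mul_comm]
          exact_mod_cast e3)
      refine h1.trans ?_
      have hN0 : 0 ≤ N := Nat.cast_nonneg _
      have h2 : (2 * (R + 1) + 1 : ℝ) * (L / l') ≤ 5 * K * M * Z := by
        calc _ ≤ (5 * R : ℝ) * (M * (L / l)) :=
              mul_le_mul (by linarith) (hinv L hL0) (by positivity) (by positivity)
          _ = 5 * M * (R * L) / l := by ring
          _ ≤ 5 * M * (K * Q) / l := by gcongr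
          _ = _ := by rw [hZ]; ring
      calc _ = C * (L : ℝ) ^ (ε / 2) * (N / l') ^ b * ((2 * (R + 1) + 1 : ℝ) * (L / l')) ^ m := by
            rw [mul_pow]; ring
        _ ≤ C * (K * Q : ℝ) ^ (ε / 2) * (M * (N / l)) ^ b * (5 * K * M * Z) ^ m := by
            gcongr
            exact hinv N hN0
        _ = _ := by rw [hc2, Real.mul_rpow hM0.le (by positivity)]; ring
    have hsum : (G.card : ℝ) = ∑ x ∈ G.image lab, ((G.filter fun g => lab g = x).card : ℝ) := by
      rw [Finset.card_eq_sum_card_image lab G]; push_cast; rfl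
    have hov := overlap (J := J) hK0 E (G.image lab) (fun x hx => by
      obtain ⟨g1, hg1, rfl⟩ := Finset.mem_image.1 hx
      exact ⟨(hlab g1 hg1).1, (hlab g1 hg1).2.1⟩)
    have hJu : (J : ℝ) ≤ u := by
      rw [hu]; exact_mod_cast (Nat.lt_pow_self (by norm_num : 1 < 8)).le
    have hov2 : ∑ x ∈ G.image lab, ((loc E (K ^ (x.1 + 1)) x.2.1 x.2.2.2).card : ℝ) / l ≤
        u * (K ^ 3 * 5 ^ m) * X := by
      rw [← Finset.sum_div, hX, ← mul_div_assoc]
      refine div_le_div_of_nonneg_right ?_ hlr.le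
      have : ∑ x ∈ G.image lab, ((loc E (K ^ (x.1 + 1)) x.2.1 x.2.2.2).card : ℝ) ≤
          J * (K ^ 3 * 5 ^ m) * E.card := by exact_mod_cast hov
      refine this.trans ?_
      gcongr
    have hc20 : 0 ≤ c2 := by positivity
    calc (G.card : ℝ) ≤ ∑ x ∈ G.image lab,
          c2 * (((loc E (K ^ (x.1 + 1)) x.2.1 x.2.2.2).card : ℝ) / l) ^ b := by
          rw [hsum]; exact Finset.sum_le_sum hfib
      _ ≤ c2 * (u * (K ^ 3 * 5 ^ m) * X) ^ b := by
          rw [← Finset.mul_sum]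
          refine mul_le_mul_of_nonneg_left ((sum_rpow_le _ _ (fun _ _ => by positivity) hb).trans
            (Real.rpow_le_rpow (Finset.sum_nonneg fun _ _ => by positivity) hov2 (by linarith)))
            hc20
      _ = (c1 + 0) * u ^ (2 * b + m) * (Q : ℝ) ^ (ε / 2) * X ^ b * Z ^ m := by
          have e1 : (5 * K * M * Z) ^ m = (10 * K ^ 2 : ℝ) ^ m * u ^ m * Z ^ m := by
            rw [← mul_pow, ← mul_pow, hM]; ring_nf
          rw [hum, hc2, hc1, e1, hM, Real.mul_rpow (x := K) hKr.le (by positivity),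
            Real.mul_rpow (x := u) (by positivity) (by positivity),
            Real.mul_rpow (x := u * _) (by positivity) (by positivity),
            Real.mul_rpow (x := u) (by positivity) (by positivity),
            Real.mul_rpow (x := 2 * K) (by positivity) (by positivity)]
          ring
      _ ≤ _ := by gcongr; positivity

end Pool.Agent.MP_5168f5_an.H19
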