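import Mathlib

/-! Shannon entropy of partitions of a finite weighted set. -/

namespace Pool.Agent.MP_5168f5_an.H19

open Finset

/-- A finite probability space with positive weights on a finite support. -/
structure FP (Ω : Type) where
  S : Finset Ω
  p : Ω → ℝ
  pos : ∀ ω ∈ S, 0 < p ω
  sum_one : ∑ ω ∈ S, p ω = 1

/-- Average over a finite set. -/
noncomputable def avg {β : Type} (T : Finset β) (F : β → ℝ) : ℝ := (∑ b ∈ T, F b) / T.card

theorem avg_const {β : Type} {T : Finset β} (hT : T.Nonempty) (c : ℝ) : avg T (fun _ => c) = c := by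
  have : (T.card : ℝ) ≠ 0 := by exact_mod_cast hT.card_pos.ne'
  simp only [avg, Finset.sum_const, nsmul_eq_mul]
  field_simp

theorem avg_congr {β : Type} {T : Finset β} {F G : β → ℝ} (h : ∀ b ∈ T, F b = G b) :
    avg T F = avg T G := by
  unfold avg; rw [Finset.sum_congr rfl h]

theorem avg_comm {β γ : Type} (T : Finset β) (U : Finset γ) (F : β → γ → ℝ) :
    avg T (fun b => avg U (F b)) = avg U (fun c => avg T (fun b => F b c)) := by
  unfold avg
  rw [← Finset.sum_div, ← Finset.sum_div, Finset.sum_comm]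
  ring

namespace FP

variable {Ω : Type} (P : FP Ω)

/-- Expectation. -/
noncomputable def E (F : Ω → ℝ) : ℝ := ∑ ω ∈ P.S, P.p ω * F ω

open Classical in
/-- Probability of the class of `ω`. -/
noncomputable def pr (R : Setoid Ω) (ω : Ω) : ℝ := P.E fun ω' => if R ω' ω then 1 else 0

/-- Entropy of the partition `R`. -/
noncomputable def H (R : Setoid Ω) : ℝ := P.E fun ω => -Real.log (P.pr R ω)

theorem E_mono {F G : Ω → ℝ} (h : ∀ ω ∈ P.S, F ω ≤ G ω) : P.E F ≤ P.E G :=
  Finset.sum_le_sum fun ω hω => mul_le_mul_of_nonneg_left (h ω hω) (P.pos ω hω).le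

theorem E_congr {F G : Ω → ℝ} (h : ∀ ω ∈ P.S, F ω = G ω) : P.E F = P.E G :=
  Finset.sum_congr rfl fun ω hω => by rw [h ω hω]

theorem E_add (F G : Ω → ℝ) : P.E (fun ω => F ω + G ω) = P.E F + P.E G := by
  simp only [E, mul_add, Finset.sum_add_distrib]

theorem E_sub (F G : Ω → ℝ) : P.E (fun ω => F ω - G ω) = P.E F - P.E G := by
  simp only [E, mul_sub, Finset.sum_sub_distrib]

theorem E_neg (F : Ω → ℝ) : P.E (fun ω => -F ω) = -P.E F := by
  simp only [E, mul_neg, Finset.sum_neg_distrib]

theorem E_const (c : ℝ) : P.E (fun _ => c) = c := by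
  simp only [E]; rw [← Finset.sum_mul, P.sum_one, one_mul]

theorem E_mul (c : ℝ) (F : Ω → ℝ) : P.E (fun ω => c * F ω) = c * P.E F := by
  simp only [E, Finset.mul_sum]
  exact Finset.sum_congr rfl fun ω _ => by ring

theorem E_nonneg {F : Ω → ℝ} (h : ∀ ω ∈ P.S, 0 ≤ F ω) : 0 ≤ P.E F := by
  have := P.E_mono (F := fun _ => 0) h
  rwa [E_const] at this

theorem E_sum {ι : Type} (T : Finset ι) (F : ι → Ω → ℝ) :
    P.E (fun ω => ∑ i ∈ T, F i ω) = ∑ i ∈ T, P.E (F i) := by
  simp only [E, Finset.mul_sum]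
  exact Finset.sum_comm

theorem E_comm (F : Ω → Ω → ℝ) :
    P.E (fun a => P.E (fun b => F a b)) = P.E (fun b => P.E (fun a => F a b)) := by
  simp only [E, Finset.mul_sum]
  rw [Finset.sum_comm]
  exact Finset.sum_congr rfl fun _ _ => Finset.sum_congr rfl fun _ _ => by ring

theorem p_le_pr (R : Setoid Ω) {ω : Ω} (hω : ω ∈ P.S) : P.p ω ≤ P.pr R ω := by
  classical
  unfold pr E
  have := Finset.single_le_sum (f := fun ω' => P.p ω' * if R ω' ω then (1 : ℝ) else 0)
    (fun ω' h => mul_nonneg (P.pos ω' h).le (by split_ifs <;> norm_num)) hω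
  simpa [R.refl' ω] using this

theorem pr_pos (R : Setoid Ω) {ω : Ω} (hω : ω ∈ P.S) : 0 < P.pr R ω :=
  lt_of_lt_of_le (P.pos ω hω) (P.p_le_pr R hω)

theorem pr_mono {R T : Setoid Ω} {ω : Ω} (h : ∀ ω' ∈ P.S, T ω' ω → R ω' ω) :
    P.pr T ω ≤ P.pr R ω := by
  classical
  refine P.E_mono fun ω' h' => ?_
  by_cases h1 : T ω' ω
  · simp [h1, h ω' h' h1]
  · simp only [h1, if_false]; split_ifs <;> norm_num

theorem pr_rel {R : Setoid Ω} {a b : Ω} (h : R a b) : P.pr R a = P.pr R b := by
  classical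
  refine P.E_congr fun ω _ => ?_
  have : R ω a ↔ R ω b := ⟨fun h1 => R.trans' h1 h, fun h1 => R.trans' h1 (R.symm' h)⟩
  simp only [this]

theorem pr_le_one (R : Setoid Ω) (ω : Ω) : P.pr R ω ≤ 1 := by
  classical
  have := P.E_mono (F := fun ω' => if R ω' ω then (1 : ℝ) else 0) (G := fun _ => 1)
    fun ω' _ => by split_ifs <;> norm_num
  rwa [E_const] at this

theorem H_mono {R T : Setoid Ω} (h : ∀ a ∈ P.S, ∀ b ∈ P.S, T a b → R a b) : P.H R ≤ P.H T :=
  P.E_mono fun ω hω => neg_le_neg (Real.log_le_log (P.pr_pos T hω)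
    (P.pr_mono fun ω' h' => h ω' h' ω hω))

theorem H_congr {R T : Setoid Ω} (h : ∀ a ∈ P.S, ∀ b ∈ P.S, T a b ↔ R a b) : P.H R = P.H T :=
  le_antisymm (P.H_mono fun a ha b hb => (h a ha b hb).1)
    (P.H_mono fun a ha b hb => (h a ha b hb).2)

theorem H_nonneg (R : Setoid Ω) : 0 ≤ P.H R :=
  P.E_nonneg fun ω hω => neg_nonneg.2 (Real.log_nonpos (P.pr_pos R hω).le (P.pr_le_one R ω))

theorem H_top : P.H ⊤ = 0 := by
  classical
  have : ∀ ω, P.pr ⊤ ω = 1 := by
    intro ω
    unfold pr
    exact (P.E_congr fun ω' _ => by simp [Setoid.top_def]).trans (P.E_const 1)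
  unfold H
  simp only [this, Real.log_one, neg_zero, E_const]

theorem gibbs (R : Setoid Ω) (φ : Ω → ℝ) (hφ : ∀ ω ∈ P.S, 0 < φ ω)
    (h : P.E (fun ω => φ ω / P.pr R ω) ≤ 1) : P.H R ≤ P.E fun ω => -Real.log (φ ω) := by
  have h1 : P.E (fun ω => -Real.log (P.pr R ω) - -Real.log (φ ω)) ≤
      P.E (fun ω => φ ω / P.pr R ω - 1) := by
    refine P.E_mono fun ω hω => ?_
    have h2 := Real.log_le_sub_one_of_pos (div_pos (hφ ω hω) (P.pr_pos R hω))
    rw [Real.log_div (hφ ω hω).ne' (P.pr_pos R hω).ne'] at h2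
    linarith
  rw [E_sub, E_sub, E_const] at h1
  unfold H
  linarith

open Classical in
theorem class_sum (R : Setoid Ω) (A : Ω → Prop)
    (hA : ∀ a ∈ P.S, ∀ b ∈ P.S, A a → A b → R a b) :
    P.E (fun ω => if A ω then 1 / P.pr R ω else 0) ≤ 1 := by
  by_cases h : ∃ a ∈ P.S, A a
  · obtain ⟨a, ha, hAa⟩ := h
    have hp := P.pr_pos R ha
    have h1 : P.E (fun ω => if A ω then 1 / P.pr R ω else 0) ≤
        P.E (fun ω => (1 / P.pr R a) * if R ω a then 1 else 0) := by
      refine P.E_mono fun ω hω => ?_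
      by_cases h2 : A ω
      · have h3 := hA ω hω a ha h2 hAa
        simp [h2, h3, P.pr_rel h3]
      · simp only [h2, if_false]
        split_ifs <;> positivity
    rw [E_mul] at h1
    refine h1.trans (le_of_eq ?_)
    change 1 / P.pr R a * P.pr R a = 1
    field_simp
  · push Not at h
    have : P.E (fun ω => if A ω then 1 / P.pr R ω else 0) = P.E (fun _ => 0) :=
      P.E_congr fun ω hω => by simp [h ω hω]
    rw [this, E_const]; norm_num

/-- Submodularity: `J` is determined by `A` and `B` together, `M` by each of them. -/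
theorem submod (A B J M : Setoid Ω) (hJ : ∀ a ∈ P.S, ∀ b ∈ P.S, A a b → B a b → J a b)
    (hA : ∀ a ∈ P.S, ∀ b ∈ P.S, A a b → M a b) (hB : ∀ a ∈ P.S, ∀ b ∈ P.S, B a b → M a b) :
    P.H J + P.H M ≤ P.H A + P.H B := by
  classical
  have key : P.H J ≤ P.E fun ω => -Real.log (P.pr A ω * P.pr B ω / P.pr M ω) := by
    refine P.gibbs J _ (fun ω hω => div_pos (mul_pos (P.pr_pos A hω) (P.pr_pos B hω))
      (P.pr_pos M hω)) ?_
    have e1 : P.E (fun ω => P.pr A ω * P.pr B ω / P.pr M ω / P.pr J ω) =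
        P.E (fun ω => P.E fun a => P.E fun b =>
          if A a ω ∧ B b ω then 1 / P.pr M ω / P.pr J ω else 0) := by
      refine P.E_congr fun ω _ => ?_
      have : ∀ a, (P.E fun b => if A a ω ∧ B b ω then 1 / P.pr M ω / P.pr J ω else 0) =
          (P.pr B ω * (1 / P.pr M ω / P.pr J ω)) * if A a ω then 1 else 0 := by
        intro a
        by_cases h : A a ω
        · simp only [h, true_and, if_true, mul_one]
          rw [mul_comm]
          unfold pr
          rw [← E_mul]
          exact P.E_congr fun b _ => by split_ifs <;> simp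
        · simp [h, E_const]
      simp only [this]
      rw [E_mul]
      change _ = _ * P.pr A ω
      ring
    rw [e1, E_comm]
    have e2 : ∀ a ∈ P.S, (P.E fun ω => P.E fun b =>
        if A a ω ∧ B b ω then 1 / P.pr M ω / P.pr J ω else 0) ≤ 1 := by
      intro a ha
      rw [E_comm]
      have hp := P.pr_pos M ha
      have e3 : ∀ b ∈ P.S, (P.E fun ω => if A a ω ∧ B b ω then 1 / P.pr M ω / P.pr J ω else 0) ≤
          (1 / P.pr M a) * if M b a then 1 else 0 := by
        intro b hb
        by_cases hM : M b a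
        · have h4 := P.class_sum J (fun ω => A a ω ∧ B b ω) fun x hx y hy h1 h2 =>
            hJ x hx y hy (A.trans' (A.symm' h1.1) h2.1) (B.trans' (B.symm' h1.2) h2.2)
          have h5 : (P.E fun ω => if A a ω ∧ B b ω then 1 / P.pr M ω / P.pr J ω else 0) =
              P.E fun ω => (1 / P.pr M a) * if A a ω ∧ B b ω then 1 / P.pr J ω else 0 := by
            refine P.E_congr fun ω hω => ?_
            by_cases h6 : A a ω ∧ B b ω
            · simp only [h6, and_self, if_true]
              rw [P.pr_rel (hA a ha ω hω h6.1)]; ring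
            · simp [h6]
          rw [h5, E_mul]
          simp only [hM, if_true]
          refine mul_le_mul_of_nonneg_left (le_trans (le_of_eq ?_) h4) (by positivity)
          exact P.E_congr fun ω _ => by congr
        · have h5 : (P.E fun ω => if A a ω ∧ B b ω then 1 / P.pr M ω / P.pr J ω else 0) =
              P.E fun _ => 0 := by
            refine P.E_congr fun ω hω => ?_
            rw [if_neg]
            rintro ⟨h1, h2⟩
            exact hM (M.trans' (hB b hb ω hω h2) (M.symm' (hA a ha ω hω h1)))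
          rw [h5, E_const]; simp [hM]
      refine (P.E_mono e3).trans (le_of_eq ?_)
      rw [E_mul]
      change 1 / P.pr M a * P.pr M a = 1
      field_simp
    have := P.E_mono e2
    rwa [E_const] at this
  have e : (P.E fun ω => -Real.log (P.pr A ω * P.pr B ω / P.pr M ω)) =
      P.E fun ω => (-Real.log (P.pr A ω) + -Real.log (P.pr B ω)) - -Real.log (P.pr M ω) := by
    refine P.E_congr fun ω hω => ?_
    rw [Real.log_div (mul_pos (P.pr_pos A hω) (P.pr_pos B hω)).ne' (P.pr_pos M hω).ne',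
      Real.log_mul (P.pr_pos A hω).ne' (P.pr_pos B hω).ne']
    ring
  rw [e, E_sub, E_add] at key
  unfold H at *
  linarith

theorem subadd (A B J : Setoid Ω) (hJ : ∀ a ∈ P.S, ∀ b ∈ P.S, A a b → B a b → J a b) :
    P.H J ≤ P.H A + P.H B := by
  have := P.submod A B J ⊤ hJ (fun _ _ _ _ _ => trivial) (fun _ _ _ _ _ => trivial)
  rwa [H_top, add_zero] at this

/-- Counting bound: on each class of `U` the variable `X` takes at most `B` values, and `R` is
determined by `U` and `X`. -/
theorem count {β : Type} (R U : Setoid Ω) (X : Ω → β) (B : Ω → ℝ)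
    (hR : ∀ a ∈ P.S, ∀ b ∈ P.S, U a b → X a = X b → R a b)
    (hB : ∀ a ∈ P.S, ∀ b ∈ P.S, U a b → B a = B b)
    (hT : ∀ a ∈ P.S, ∃ T : Finset β, (T.card : ℝ) ≤ B a ∧ ∀ b ∈ P.S, U b a → X b ∈ T) :
    P.H R ≤ P.H U + P.E fun ω => Real.log (B ω) := by
  classical
  have hBpos : ∀ a ∈ P.S, 0 < B a := by
    intro a ha
    obtain ⟨T, h1, h2⟩ := hT a ha
    have : 0 < T.card := Finset.card_pos.2 ⟨_, h2 a ha (U.refl' a)⟩
    exact lt_of_lt_of_le (by exact_mod_cast this) h1
  have key : P.H R ≤ P.E fun ω => -Real.log (P.pr U ω / B ω) := by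
    refine P.gibbs R _ (fun ω hω => div_pos (P.pr_pos U hω) (hBpos ω hω)) ?_
    have e1 : P.E (fun ω => P.pr U ω / B ω / P.pr R ω) =
        P.E (fun ω => P.E fun a => if U a ω then 1 / B ω / P.pr R ω else 0) := by
      refine P.E_congr fun ω _ => ?_
      have : (P.E fun a => if U a ω then 1 / B ω / P.pr R ω else 0) =
          P.E fun a => (1 / B ω / P.pr R ω) * if U a ω then 1 else 0 :=
        P.E_congr fun a _ => by split_ifs <;> simp
      rw [this, E_mul]
      change _ = _ * P.pr U ω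
      ring
    rw [e1, E_comm]
    have e2 : ∀ a ∈ P.S, (P.E fun ω => if U a ω then 1 / B ω / P.pr R ω else 0) ≤ 1 := by
      intro a ha
      obtain ⟨T, h1, h2⟩ := hT a ha
      have hp := hBpos a ha
      have e3 : (P.E fun ω => if U a ω then 1 / B ω / P.pr R ω else 0) =
          P.E fun ω => (1 / B a) * ∑ t ∈ T, if U a ω ∧ X ω = t then 1 / P.pr R ω else 0 := by
        refine P.E_congr fun ω hω => ?_
        by_cases h3 : U a ω
        · simp only [h3, true_and, if_true]
          rw [Finset.sum_ite_eq, if_pos (h2 ω hω (U.symm' h3)), hB a ha ω hω h3]; ring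
        · simp [h3]
      rw [e3, E_mul, E_sum]
      have e4 : ∑ t ∈ T, (P.E fun ω => if U a ω ∧ X ω = t then 1 / P.pr R ω else 0) ≤
          ∑ _t ∈ T, (1 : ℝ) := by
        refine Finset.sum_le_sum fun t _ => ?_
        have := P.class_sum R (fun ω => U a ω ∧ X ω = t) fun x hx y hy h3 h4 =>
          hR x hx y hy (U.trans' (U.symm' h3.1) h4.1) (h3.2.trans h4.2.symm)
        exact le_trans (le_of_eq (P.E_congr fun ω _ => by congr)) this
      simp only [Finset.sum_const, nsmul_eq_mul, mul_one] at e4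
      calc _ ≤ 1 / B a * B a := mul_le_mul_of_nonneg_left (e4.trans h1) (by positivity)
        _ = 1 := by field_simp
    have := P.E_mono e2
    rwa [E_const] at this
  have e : (P.E fun ω => -Real.log (P.pr U ω / B ω)) =
      P.E fun ω => -Real.log (P.pr U ω) + Real.log (B ω) := by
    refine P.E_congr fun ω hω => ?_
    rw [Real.log_div (P.pr_pos U hω).ne' (hBpos ω hω).ne']
    ring
  rw [e, E_add] at key
  exact key

/-- Counting bound with a constant number of values. -/
theorem count_const {β : Type} (R U : Setoid Ω) (X : Ω → β) (B : ℝ)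
    (hR : ∀ a ∈ P.S, ∀ b ∈ P.S, U a b → X a = X b → R a b)
    (hT : ∀ a ∈ P.S, ∃ T : Finset β, (T.card : ℝ) ≤ B ∧ ∀ b ∈ P.S, U b a → X b ∈ T) :
    P.H R ≤ P.H U + Real.log B := by
  have := P.count R U X (fun _ => B) hR (fun _ _ _ _ _ => rfl) hT
  rwa [E_const] at this

/-- Transport of entropy along a measure preserving map. -/
theorem push {Ω' : Type} (P' : FP Ω') (φ : Ω → Ω') (h : ∀ F, P.E (fun ω => F (φ ω)) = P'.E F)
    (R : Setoid Ω') : P.H (Setoid.comap φ R) = P'.H R := by
  classical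
  have h1 : ∀ ω, P.pr (Setoid.comap φ R) ω = P'.pr R (φ ω) := by
    intro ω
    unfold pr
    rw [← h]
    refine P.E_congr fun a _ => ?_
    simp only [Setoid.comap_rel]
  unfold H
  simp only [h1]
  exact h fun x => -Real.log (P'.pr R x)

/-- The uniform distribution on a nonempty finite set. -/
noncomputable def unif (G : Finset Ω) (hG : G.Nonempty) : FP Ω where
  S := G
  p := fun _ => 1 / G.card
  pos := fun _ _ => by have := hG.card_pos; positivity
  sum_one := by
    have : (G.card : ℝ) ≠ 0 := by exact_mod_cast hG.card_pos.ne'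
    simp only [Finset.sum_const, nsmul_eq_mul]
    field_simp

theorem E_unif (G : Finset Ω) (hG : G.Nonempty) (F : Ω → ℝ) : (unif G hG).E F = avg G F := by
  simp only [E, unif, avg]
  rw [← Finset.mul_sum]; ring

theorem H_unif (G : Finset Ω) (hG : G.Nonempty) : (unif G hG).H ⊥ = Real.log G.card := by
  classical
  have h1 : ∀ ω ∈ G, (unif G hG).pr ⊥ ω = 1 / G.card := by
    intro ω hω
    unfold pr
    rw [E_unif]
    unfold avg
    congr 1
    have : ∀ b, ((⊥ : Setoid Ω) b ω) ↔ b = ω := fun b => by simp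
    simp only [this]
    rw [Finset.sum_ite_eq', if_pos hω]
  unfold H
  have : (unif G hG).E (fun ω => -Real.log ((unif G hG).pr ⊥ ω)) =
      (unif G hG).E (fun _ => Real.log G.card) :=
    (unif G hG).E_congr fun ω hω => by rw [h1 ω hω]; simp
  rw [this, E_const]

/-- Add a new variable, uniform on `T ω`. -/
noncomputable def ext {β : Type} (T : Ω → Finset β) (hT : ∀ ω ∈ P.S, (T ω).Nonempty) :
    FP (Ω × β) where
  S := (P.S.sigma T).map (Equiv.sigmaEquivProd Ω β).toEmbedding
  p := fun x => P.p x.1 / (T x.1).card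
  pos := by
    intro x hx
    simp only [Finset.mem_map, Finset.mem_sigma] at hx
    obtain ⟨y, hy, rfl⟩ := hx
    have h1 := P.pos _ hy.1
    have h2 := (hT _ hy.1).card_pos
    simp only [Equiv.coe_toEmbedding, Equiv.sigmaEquivProd_apply]
    positivity
  sum_one := by
    rw [Finset.sum_map, Finset.sum_sigma, ← P.sum_one]
    refine Finset.sum_congr rfl fun ω hω => ?_
    have : ((T ω).card : ℝ) ≠ 0 := by exact_mod_cast (hT ω hω).card_pos.ne'
    simp only [Equiv.coe_toEmbedding, Equiv.sigmaEquivProd_apply, Finset.sum_const, nsmul_eq_mul]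
    field_simp

variable {β : Type} (T : Ω → Finset β) (hT : ∀ ω ∈ P.S, (T ω).Nonempty)

theorem mem_ext (x : Ω × β) : x ∈ (P.ext T hT).S ↔ x.1 ∈ P.S ∧ x.2 ∈ T x.1 := by
  simp only [ext, Finset.mem_map, Finset.mem_sigma]
  constructor
  · rintro ⟨y, hy, rfl⟩; exact hy
  · intro h; exact ⟨⟨x.1, x.2⟩, h, rfl⟩

theorem E_ext (F : Ω × β → ℝ) :
    (P.ext T hT).E F = P.E fun ω => avg (T ω) fun b => F (ω, b) := by
  simp only [E, ext, avg]
  rw [Finset.sum_map, Finset.sum_sigma]
  refine Finset.sum_congr rfl fun ω _ => ?_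
  simp only [Equiv.coe_toEmbedding, Equiv.sigmaEquivProd_apply]
  rw [← Finset.mul_sum]; ring

theorem E_ext_fst (F : Ω → ℝ) : (P.ext T hT).E (fun x => F x.1) = P.E F := by
  rw [E_ext]
  exact P.E_congr fun ω hω => avg_const (hT ω hω) (F ω)

/-- Old partitions keep their entropy. -/
theorem H_ext_old (R : Setoid Ω) (R' : Setoid (Ω × β)) (h : ∀ x y, R' x y ↔ R x.1 y.1) :
    (P.ext T hT).H R' = P.H R := by
  rw [← (P.ext T hT).push P Prod.fst (P.E_ext_fst T hT) R]
  exact (P.ext T hT).H_congr fun a _ b _ => by rw [h, Setoid.comap_rel]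

/-- A new uniform variable whose range is determined by `R` adds the mean log size. -/
theorem H_ext_new (R : Setoid Ω) (R' : Setoid (Ω × β))
    (h : ∀ x y, R' x y ↔ R x.1 y.1 ∧ x.2 = y.2)
    (hR : ∀ a ∈ P.S, ∀ b ∈ P.S, R a b → T a = T b) :
    (P.ext T hT).H R' = P.H R + P.E fun ω => Real.log (T ω).card := by
  classical
  have h1 : ∀ x ∈ (P.ext T hT).S, (P.ext T hT).pr R' x = P.pr R x.1 / (T x.1).card := by
    intro x hx
    rw [mem_ext] at hx
    unfold pr
    rw [E_ext, div_eq_inv_mul, ← E_mul]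
    refine P.E_congr fun a ha => ?_
    by_cases h2 : R a x.1
    · unfold avg
      simp only [h, h2, true_and, if_true]
      rw [Finset.sum_ite_eq', hR a ha _ hx.1 h2, if_pos hx.2]; ring
    · unfold avg
      simp [h, h2]
  have h2 : (P.ext T hT).H R' = (P.ext T hT).E fun x =>
      (fun ω => -Real.log (P.pr R ω) + Real.log (T ω).card) x.1 := by
    refine (P.ext T hT).E_congr fun x hx => ?_
    have hx' := (P.mem_ext T hT x).1 hx
    have h3 : ((T x.1).card : ℝ) ≠ 0 := by exact_mod_cast (hT _ hx'.1).card_pos.ne'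
    rw [h1 x hx, Real.log_div (P.pr_pos R hx'.1).ne' h3]
    ring
  rw [h2, P.E_ext_fst T hT fun ω => -Real.log (P.pr R ω) + Real.log (T ω).card, E_add]
  rfl

end FP

end Pool.Agent.MP_5168f5_an.H19
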