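import Pool.Agent.MP_5168f5_an.H19.Slice
import Pool.Agent.MP_4b405e_nt.H19.Final

/-! Kakeya sets: covers by sets of small diameter. -/

namespace Pool.Agent.MP_5168f5_an.H19

open Pool.Agent.MP_4b405e_nt.H19

theorem kakeya_final {α C : ℝ} (hα : 0 < α) (hC : 0 < C) (h : ∃ k, 0 < k ∧ SDfin α C k)
    (n : ℕ) (hn : 1 ≤ n) (K : Set (EuclideanSpace ℝ (Fin n))) (hK : IsCompact K)
    (hdir : ∀ e : EuclideanSpace ℝ (Fin n), ‖e‖ = 1 →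
      ∃ a, ∀ t ∈ Set.Icc (0 : ℝ) 1, a + t • e ∈ K) :
    ∃ c : ℝ, 0 < c ∧ ∀ δ : ℝ, 0 < δ → ∀ 𝒰 : Finset (Set (EuclideanSpace ℝ (Fin n))),
      (∀ U ∈ 𝒰, ∀ x ∈ U, ∀ y ∈ U, dist x y ≤ δ) → K ⊆ (⋃ U ∈ 𝒰, U) →
      c * δ ^ (-(1 + ((n : ℝ) - 1) / α)) ≤ (𝒰.card : ℝ) := by
  obtain ⟨k, hk, hS⟩ := h
  obtain ⟨m, rfl⟩ : ∃ m, n = m + 1 := ⟨n - 1, by omega⟩
  obtain ⟨c, hc, h1⟩ := kakeya_cover hS hα hC hk m K hK.isBounded hdir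
  have e : ((m + 1 : ℕ) : ℝ) - 1 = m := by push_cast; ring
  rw [e]
  exact ⟨c * 2 ^ (-(1 + (m : ℝ) / α)), by positivity, fun δ hδ 𝒰 hd hU =>
    sets_of_balls hc h1 δ hδ 𝒰 hd hU⟩

end Pool.Agent.MP_5168f5_an.H19
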