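import Pool.Agent.MP_5168f5_an.H19.Space

/-! The Katz-Tao step: the estimate with exponent `b` gives the two-ends estimate with `kt b`. -/

namespace Pool.Agent.MP_5168f5_an.H19

open Finset Setoid

variable {m : ℕ}

theorem cK_nonneg (K : ℕ) : 0 ≤ cK K := by
  unfold cK
  refine Real.log_nonneg ?_
  have : (0 : ℝ) ≤ ((10 * K ^ 5 : ℕ) : ℝ) := Nat.cast_nonneg _
  linarith

theorem Dat.good (D : Dat m) {K : ℕ} (J : Fin 3 → Finset ℕ)
    (hYJ : ∀ g ∈ D.G, ∀ a, D.Y a g ⊆ J a)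
    (hsep : ∀ a a', a ≠ a' → ∀ r ∈ J a, ∀ s ∈ J a', (D.Q : ℝ) ≤ K * |(r : ℝ) - s|)
    {a b c : Fin 3} (hab : a ≠ b) (hbc : b ≠ c) (hac : a ≠ c) :
    ∀ ω ∈ (D.P9 a b c).S, (Dat.cfg m).Good D.Q K D.G D.A ω := by
  intro ω hω
  obtain ⟨h1, h2, h3, h4, h5, h6, h7, h8, h9⟩ := D.mem9' hω
  obtain ⟨k1, k2, k3⟩ := D.mem_fib.1 h4
  obtain ⟨j1, j2, j3⟩ := D.mem_fib.1 h6
  have far : ∀ {u v : Fin 3} {g g' : Line m} {r s : ℕ}, u ≠ v → g ∈ D.G → g' ∈ D.G →
      r ∈ D.Y u g → s ∈ D.Y v g' → Far D.Q K r s := by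
    intro u v g g' r s huv hg hg' hr hs
    refine ⟨hsep u v huv r (hYJ g hg u hr) s (hYJ g' hg' v hs), ?_⟩
    have e1 : (r : ℝ) < D.Q := by exact_mod_cast D.hlt g hg u r hr
    have e2 : (s : ℝ) < D.Q := by exact_mod_cast D.hlt g' hg' v s hs
    have e3 : (0 : ℝ) ≤ r := Nat.cast_nonneg r
    have e4 : (0 : ℝ) ≤ s := Nat.cast_nonneg s
    rw [abs_le]; constructor <;> linarith
  exact ⟨j1, h1, k1, D.hlt _ h1 _ _ h3, D.hlt _ h1 _ _ h2, D.hlt _ k1 _ _ h5, D.hlt _ j1 _ _ h7,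
    D.hlt _ k1 _ _ h8, far hab j1 h1 h7 h3, far hbc.symm h1 h1 h9 h3, far hac.symm h1 h1 h9 h2,
    far hab h1 h1 h2 h3, far hbc.symm k1 k1 h5 h8, far hab h1 k1 h2 h8, j3.symm, k3,
    D.hA _ k1 _ _ h8, D.hA _ k1 _ _ h5, D.hA _ h1 _ _ h3⟩

theorem Dat.bound (D : Dat m) {K : ℕ} (hK : 0 < K) (hG : Sep D.Q D.G)
    (hbox : ∀ g ∈ D.G, ∀ j, |g.1 j| ≤ D.Q) (J : Fin 3 → Finset ℕ)
    (hYJ : ∀ g ∈ D.G, ∀ a, D.Y a g ⊆ J a)
    (hsep : ∀ a a', a ≠ a' → ∀ r ∈ J a, ∀ s ∈ J a', (D.Q : ℝ) ≤ K * |(r : ℝ) - s|)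
    {β e : ℝ} (hβ : 5 / 3 ≤ β) (hm : 21 ≤ m) (he : 0 ≤ e) (hKE : KE m β D.Q e) :
    Real.log D.G.card ≤ kt β * Real.log D.N + m * (Real.log D.Q - Real.log D.l) +
      6 * (m * cK K + cK K + e) := by
  obtain ⟨a, b, c, hab, hbc, hac, hz⟩ : ∃ a b c : Fin 3, a ≠ b ∧ b ≠ c ∧ a ≠ c ∧
      D.zeta b c a ≤ D.zeta a b c := by
    by_cases h1 : D.zeta 1 2 0 ≤ D.zeta 0 1 2
    · exact ⟨0, 1, 2, by decide, by decide, by decide, h1⟩
    · by_cases h2 : D.zeta 2 0 1 ≤ D.zeta 1 2 0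
      · exact ⟨1, 2, 0, by decide, by decide, by decide, h2⟩
      · exact ⟨2, 0, 1, by decide, by decide, by decide, by linarith⟩
  obtain ⟨g, hg⟩ := D.hne
  have hlQ : D.l ≤ D.Q := by
    rw [← D.hY g hg 0]
    have : D.Y 0 g ⊆ Finset.range D.Q := fun r hr => Finset.mem_range.2 (D.hlt g hg 0 r hr)
    simpa using Finset.card_le_card this
  have hQ : 0 < D.Q := lt_of_lt_of_le D.hl hlQ
  have hL : 0 ≤ Real.log D.Q - Real.log D.l :=
    sub_nonneg.2 (Real.log_le_log (by exact_mod_cast D.hl) (by exact_mod_cast hlQ))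
  have hc := D.good J hYJ hsep hab hbc hac
  have hb0 : 0 ≤ β := by linarith
  have pa := D.phi_ge a
  have pb := D.phi_ge b
  have h6 := D.H6 a b c
  have hall := D.Hall a b c
  have i1 := pivot_ineq hQ hK hG hbox hc hb0 hKE (l := Real.log D.l) (ζ := D.zeta a b c)
    (D.HA2 a b c) (by rw [D.HA1]; linarith) (by rw [D.HE]; exact hz)
  have i2 := corner_ineq hQ hK hG hbox hc hb0 hKE (l := Real.log D.l) D.hN
    (by rw [D.HC2, hall]; linarith)
  have i3 := lower_ineq hQ hK hG hbox hc (l := Real.log D.l) D.hN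
    (by rw [D.HC3, hall]) (D.HD a b c)
  have i4 := zeta_le hc D.hN
  rw [D.Hzc] at i4
  have hm' : (21 : ℝ) ≤ m := by exact_mod_cast hm
  have hc1 := cK_nonneg K
  refine kt_algebra (A := (D.P9 a b c).H ((Dat.cfg m).Za D.Q K) - 3 * Real.log D.Q)
    (M := (D.P9 a b c).H ((Dat.cfg m).Zb D.Q K) - 4 * Real.log D.Q)
    (z := D.zeta a b c - 3 * Real.log D.Q) hβ hm' hL (by positivity) hc1 he
    (by linarith) ?_ ?_ (by linarith)
  · linarith
  · linarith

open Classical in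
/-- The slice of `E` at height `r`. -/
noncomputable def slice (E : Finset (Pt m)) (r : ℕ) : Finset (Fin m → ℤ) :=
  (E.filter fun p => p.2 = r).image Prod.fst

theorem card_bad (E : Finset (Pt m)) (Q : ℕ) (N : ℝ) :
    (((Finset.range Q).filter fun r => N < (slice E r).card).card : ℝ) * N ≤ E.card := by
  classical
  set B := (Finset.range Q).filter fun r => N < (slice E r).card with hB
  have h1 : ∑ r ∈ B, N ≤ ∑ r ∈ B, ((E.filter fun p => p.2 = r).card : ℝ) := by
    refine Finset.sum_le_sum fun r hr => ?_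
    have h2 := (Finset.mem_filter.1 hr).2
    have h3 : (slice E r).card ≤ (E.filter fun p => p.2 = r).card := by
      unfold slice
      convert Finset.card_image_le
    have h4 : ((slice E r).card : ℝ) ≤ (E.filter fun p => p.2 = r).card := by exact_mod_cast h3
    linarith
  rw [Finset.sum_const, nsmul_eq_mul] at h1
  refine h1.trans ?_
  have h5 : ∑ r ∈ B, (E.filter fun p => p.2 = r).card ≤ E.card := by
    rw [← Finset.card_biUnion]
    · exact Finset.card_le_card (Finset.biUnion_subset.2 fun r _ => Finset.filter_subset _ _)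
    · intro r _ s _ hrs
      rw [Function.onFun, Finset.disjoint_filter]
      intro p _ h1 h2
      exact hrs (h1.symm.trans h2)
  exact_mod_cast h5

theorem kt_nonneg {β : ℝ} (hβ : 5 / 3 ≤ β) : 0 ≤ kt β := by
  unfold kt
  exact div_nonneg (by nlinarith) (by nlinarith)

/-- The Katz-Tao step for the discrete maximal estimate. -/
theorem te_of_kk {β : ℝ} (hm : 21 ≤ m) (hβ : 5 / 3 ≤ β) (h : KK m β) : TE m (kt β) := by
  classical
  intro ε hε K hK
  obtain ⟨C, hC⟩ := ke_of_kk (by linarith) h (ε := ε / 6) (by positivity)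
  refine ⟨Real.exp (6 * (m * cK K + cK K + |C|)) * 2 ^ kt β * 2 ^ m, by positivity, ?_⟩
  intro Q l G E J hl hG hbox hJ hsep hsh
  rcases G.eq_empty_or_nonempty with rfl | hne
  · simp only [Finset.card_empty, Nat.cast_zero]; positivity
  obtain ⟨g0, hg0⟩ := hne
  have hl' : (0 : ℝ) < l := by exact_mod_cast hl
  obtain ⟨r0, hr0⟩ : (shade E (J 0) g0).Nonempty :=
    Finset.card_pos.1 (lt_of_lt_of_le hl (hsh g0 hg0 0))
  have hr0' := Finset.mem_filter.1 hr0
  have hQ : 0 < Q := lt_of_le_of_lt (Nat.zero_le _) (hJ 0 r0 hr0'.1)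
  have hQ1 : (1 : ℝ) ≤ Q := by exact_mod_cast hQ
  have hE : (0 : ℝ) < E.card := by
    have : 0 < E.card := Finset.card_pos.2 ⟨_, hr0'.2⟩
    exact_mod_cast this
  set N : ℝ := 2 * E.card / l with hN
  have hN0 : 0 < N := by positivity
  set B := (Finset.range Q).filter fun r => N < (slice E r).card with hB
  have hBl : 2 * B.card ≤ l := by
    have h1 := card_bad E Q N
    rw [← hB, hN, mul_div_assoc', div_le_iff₀ hl'] at h1
    have h2 : (2 * B.card : ℝ) ≤ l := by nlinarith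
    exact_mod_cast h2
  have hex : ∀ (a : Fin 3) (g : Line m), ∃ Y : Finset ℕ, g ∈ G →
      Y ⊆ shade E (J a) g \ B ∧ Y.card = (l + 1) / 2 := by
    intro a g
    by_cases hg : g ∈ G
    · have h1 := hsh g hg a
      have h2 := Finset.le_card_sdiff B (shade E (J a) g)
      obtain ⟨Y, hY⟩ := Finset.exists_subset_card_eq
        (show (l + 1) / 2 ≤ (shade E (J a) g \ B).card by omega)
      exact ⟨Y, fun _ => hY⟩
    · exact ⟨∅, fun h => absurd h hg⟩
  choose Y hY using hex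
  have hYm : ∀ g ∈ G, ∀ a, ∀ r ∈ Y a g, r ∈ J a ∧ (cell g r, r) ∈ E ∧ r ∉ B := by
    intro g hg a r hr
    have h1 := Finset.mem_sdiff.1 ((hY a g hg).1 hr)
    have h2 := Finset.mem_filter.1 h1.1
    exact ⟨h2.1, h2.2, h1.2⟩
  let D : Dat m :=
    { Q := Q, l := (l + 1) / 2, G := G, Y := Y
      A := fun r => if ((slice E r).card : ℝ) ≤ N then slice E r else ∅
      N := N, hne := ⟨g0, hg0⟩, hl := by omega
      hY := fun g hg a => (hY a g hg).2
      hlt := fun g hg a r hr => hJ a r (hYm g hg a r hr).1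
      hA := by
        intro g hg a r hr
        obtain ⟨h1, h2, h3⟩ := hYm g hg a r hr
        have h4 : ((slice E r).card : ℝ) ≤ N := by
          by_contra h5
          exact h3 (Finset.mem_filter.2 ⟨Finset.mem_range.2 (hJ a r h1), not_le.1 h5⟩)
        rw [if_pos h4]
        unfold slice
        exact Finset.mem_image.2 ⟨_, Finset.mem_filter.2 ⟨h2, rfl⟩, rfl⟩
      hN := by
        intro r
        split_ifs with h4
        · exact h4
        · simpa using hN0.le }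
  have hlogQ : 0 ≤ Real.log Q := Real.log_nonneg hQ1
  have hKE : KE m β Q (ε / 6 * Real.log Q + |C|) := by
    intro G' hG' Ω P g t Z h1 h2
    have := hC Q hQ G' hG' Ω P g t Z h1 h2
    have h3 := le_abs_self C
    linarith
  have key := D.bound hK hG hbox J (fun g hg a r hr => (hYm g hg a r hr).1) hsep hβ hm
    (by positivity) hKE
  change Real.log G.card ≤ kt β * Real.log N + m * (Real.log Q - Real.log ((l + 1) / 2 : ℕ)) +
    6 * (m * cK K + cK K + (ε / 6 * Real.log Q + |C|)) at key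
  have hG0 : (0 : ℝ) < G.card := by
    have : 0 < G.card := Finset.card_pos.2 ⟨g0, hg0⟩
    exact_mod_cast this
  have hl2 : (l : ℝ) / 2 ≤ ((l + 1) / 2 : ℕ) := by
    have : l ≤ 2 * ((l + 1) / 2) := by omega
    have h2 : (l : ℝ) ≤ 2 * ((l + 1) / 2 : ℕ) := by exact_mod_cast this
    linarith
  have h1 : Real.log Q - Real.log ((l + 1) / 2 : ℕ) ≤ Real.log (2 * (Q / l)) := by
    have h2 := Real.log_le_log (by positivity) hl2
    have h3 : Real.log (2 * (Q / l)) = Real.log Q - Real.log ((l : ℝ) / 2) := by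
      rw [← Real.log_div (by positivity) (by positivity)]
      congr 1; field_simp
    linarith
  have h2 : Real.log G.card ≤ 6 * (m * cK K + cK K + |C|) + ε * Real.log Q +
      kt β * Real.log (2 * (E.card / l)) + m * Real.log (2 * (Q / l)) := by
    have h3 := mul_le_mul_of_nonneg_left h1 (Nat.cast_nonneg (α := ℝ) m)
    have h4 : N = 2 * (E.card / l) := by rw [hN]; ring
    rw [h4] at key
    linarith
  have h3 := Real.exp_le_exp.2 h2
  rw [Real.exp_log hG0, Real.exp_add, Real.exp_add, Real.exp_add, mul_comm ε, mul_comm (kt β),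
    ← Real.rpow_def_of_pos (by positivity), ← Real.rpow_def_of_pos (by positivity),
    Real.exp_nat_mul, Real.exp_log (by positivity), Real.mul_rpow (by norm_num) (by positivity),
    mul_pow] at h3
  refine h3.trans (le_of_eq ?_)
  ring

end Pool.Agent.MP_5168f5_an.H19
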