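import Pool.Agent.MP_5168f5_an.H19.Descent
import Pool.Agent.MP_5168f5_an.H19.Step

/-! The starting exponent `2` and the iteration down to the root of `b^3 - 4 b + 2`. -/

namespace Pool.Agent.MP_5168f5_an.H19

open Finset

variable {m : ℕ}

theorem dir_cube {Q R : ℕ} {g g' : Line m} (h : ∀ j, (Q : ℝ) * |g.2 j - g'.2 j| ≤ R) :
    dir Q g ∈ Fintype.piFinset fun j =>
      Finset.Icc (dir Q g' j - (R + 1 : ℕ)) (dir Q g' j + (R + 1 : ℕ)) := by
  simp only [Fintype.mem_piFinset, Finset.mem_Icc]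
  intro j
  have h7 : |(Q : ℝ) * g.2 j - Q * g'.2 j| ≤ R := by
    rw [← mul_sub, abs_mul, Nat.abs_cast]; exact h j
  have h8 := abs_le.1 h7
  have f1 := Int.floor_le ((Q : ℝ) * g.2 j)
  have f2 := Int.lt_floor_add_one ((Q : ℝ) * g.2 j)
  have f3 := Int.floor_le ((Q : ℝ) * g'.2 j)
  have f4 := Int.lt_floor_add_one ((Q : ℝ) * g'.2 j)
  unfold dir
  constructor
  · have : ((⌊(Q : ℝ) * g'.2 j⌋ - ((R + 1 : ℕ) : ℤ) : ℤ) : ℝ) ≤ ((⌊(Q : ℝ) * g.2 j⌋ : ℤ) : ℝ) := by
      push_cast; linarith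
    exact_mod_cast this
  · have : ((⌊(Q : ℝ) * g.2 j⌋ : ℤ) : ℝ) ≤ ((⌊(Q : ℝ) * g'.2 j⌋ + ((R + 1 : ℕ) : ℤ) : ℤ) : ℝ) := by
      push_cast; linarith
    exact_mod_cast this

theorem te_two : TE m 2 := by
  classical
  intro ε hε K hK
  refine ⟨((2 * (2 * K + 1) + 1) ^ m : ℕ), by positivity,
    fun Q l G E J hl hG _ hJ hsep hsh => ?_⟩
  rcases G.eq_empty_or_nonempty with rfl | ⟨g0, hg0⟩
  · simp only [Finset.card_empty, Nat.cast_zero]; positivity
  have hlQ : l ≤ Q := by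
    refine (hsh g0 hg0 0).trans ?_
    have : shade E (J 0) g0 ⊆ range Q := fun r hr =>
      Finset.mem_range.2 (hJ 0 r (Finset.mem_filter.1 hr).1)
    simpa using Finset.card_le_card this
  have hlr : (0 : ℝ) < l := by exact_mod_cast hl
  have hQr : (1 : ℝ) ≤ Q := by exact_mod_cast (lt_of_lt_of_le hl hlQ)
  set T := G.sigma fun g => shade E (J 0) g ×ˢ shade E (J 1) g with hT
  have h1 : G.card * (l * l) ≤ T.card := by
    rw [hT, Finset.card_sigma, ← smul_eq_mul, ← Finset.sum_const]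
    refine Finset.sum_le_sum fun g hg => ?_
    rw [Finset.card_product]
    exact Nat.mul_le_mul (hsh g hg 0) (hsh g hg 1)
  have h2 : T.card ≤ (2 * (2 * K + 1) + 1) ^ m * (E ×ˢ E).card := by
    refine Finset.card_le_mul_card_image_of_maps_to
      (f := fun x => ((cell x.1 x.2.1, x.2.1), (cell x.1 x.2.2, x.2.2))) ?_ _ ?_
    · intro x hx
      obtain ⟨-, h3⟩ := Finset.mem_sigma.1 hx
      obtain ⟨h4, h5⟩ := Finset.mem_product.1 h3
      exact Finset.mem_product.2 ⟨(Finset.mem_filter.1 h4).2, (Finset.mem_filter.1 h5).2⟩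
    · intro p _
      rcases (T.filter fun x =>
        ((cell x.1 x.2.1, x.2.1), (cell x.1 x.2.2, x.2.2)) = p).eq_empty_or_nonempty with
        h | ⟨x0, hx0⟩
      · rw [h]; simp
      obtain ⟨a1, a2⟩ := Finset.mem_filter.1 hx0
      obtain ⟨a3, a4⟩ := Finset.mem_sigma.1 a1
      obtain ⟨a5, a6⟩ := Finset.mem_product.1 a4
      have hfar := hsep 0 1 (by decide) _ (Finset.mem_filter.1 a5).1 _ (Finset.mem_filter.1 a6).1
      rw [← card_cube (dir Q x0.1) (2 * K + 1)]
      refine Finset.card_le_card_of_injOn (fun x => dir Q x.1) ?_ ?_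
      · intro x hx
        obtain ⟨-, b2⟩ := Finset.mem_filter.1 hx
        rw [← a2] at b2
        simp only [Prod.mk.injEq] at b2
        obtain ⟨⟨b3, b4⟩, b5, b6⟩ := b2
        rw [b4] at b3
        rw [b6] at b5
        refine dir_cube fun j => ?_
        have c1 := Int.abs_sub_lt_one_of_floor_eq_floor (congrFun b3 j)
        have c2 := Int.abs_sub_lt_one_of_floor_eq_floor (congrFun b5 j)
        have c3 : |((x0.2.1 : ℝ) - x0.2.2) * (x.1.2 j - x0.1.2 j)| ≤ 2 := by
          rw [abs_lt] at c1 c2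
          rw [abs_le]; constructor <;> nlinarith [c1.1, c1.2, c2.1, c2.2]
        rw [abs_mul] at c3
        have c4 := mul_le_mul_of_nonneg_right hfar (abs_nonneg (x.1.2 j - x0.1.2 j))
        have c5 := mul_le_mul_of_nonneg_left c3 (Nat.cast_nonneg (α := ℝ) K)
        push_cast
        nlinarith
      · rintro ⟨g, r, s⟩ hx ⟨g', r', s'⟩ hy e
        obtain ⟨b1, b2⟩ := Finset.mem_filter.1 hx
        obtain ⟨b3, b4⟩ := Finset.mem_filter.1 hy
        have b5 : g = g' := hG.dir_inj (Finset.mem_sigma.1 b1).1 (Finset.mem_sigma.1 b3).1 e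
        rw [← b4] at b2
        simp only [Prod.mk.injEq] at b2
        obtain ⟨⟨-, c1⟩, -, c2⟩ := b2
        subst b5 c1 c2
        rfl
  rw [Finset.card_product] at h2
  have h3 : (G.card : ℝ) * (l * l) ≤ ((2 * (2 * K + 1) + 1) ^ m : ℕ) * (E.card * E.card) := by
    exact_mod_cast h1.trans h2
  have h4 : (G.card : ℝ) ≤ ((2 * (2 * K + 1) + 1) ^ m : ℕ) * ((E.card : ℝ) / l) ^ (2 : ℝ) := by
    rw [Real.rpow_two, div_pow, ← mul_div_assoc, le_div_iff₀ (by positivity), sq, sq]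
    exact h3
  have h5 : 1 ≤ (Q : ℝ) ^ ε := Real.one_le_rpow hQr hε.le
  have h6 : 1 ≤ ((Q : ℝ) / l) ^ m := by
    refine one_le_pow₀ ?_
    rw [le_div_iff₀ hlr, one_mul]; exact_mod_cast hlQ
  calc (G.card : ℝ) ≤ ((2 * (2 * K + 1) + 1) ^ m : ℕ) * 1 * ((E.card : ℝ) / l) ^ (2 : ℝ) * 1 := by
        rw [mul_one, mul_one]; exact h4
    _ ≤ _ := by gcongr

theorem KK.mono {b b' : ℝ} (h : KK m b) (hb : b ≤ b') : KK m b' := by
  intro ε hε
  obtain ⟨C, hC, h1⟩ := h ε hε
  refine ⟨C, hC, fun Q l G E hl hG hsh => ?_⟩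
  rcases G.eq_empty_or_nonempty with rfl | ⟨g0, hg0⟩
  · simp only [Finset.card_empty, Nat.cast_zero]; positivity
  have hlE : l ≤ E.card := (hsh g0 hg0).trans (shade_le_card _ _ _)
  have hlr : (0 : ℝ) < l := by exact_mod_cast hl
  have hX1 : 1 ≤ (E.card : ℝ) / l := by
    rw [le_div_iff₀ hlr, one_mul]; exact_mod_cast hlE
  refine (h1 Q l G E hl hG hsh).trans ?_
  have := Real.rpow_le_rpow_of_exponent_le hX1 hb
  gcongr

theorem kk_step (hm : 21 ≤ m) {β : ℝ} (hβ : 5 / 3 ≤ β) (h : KK m β) : KK m (kt β) := by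
  refine kk_of_te ?_ (te_of_kk hm hβ h)
  unfold kt
  rw [le_div_iff₀ (by nlinarith)]
  nlinarith

/-- The discrete maximal estimate for every exponent above the root `1.67513...`. -/
theorem kk_final (hm : 21 ≤ m) {b : ℝ} (hb : 5 / 3 ≤ b) (hp : 0 < b ^ 3 - 4 * b + 2) :
    KK m b := by
  have h2 : KK m 2 := kk_of_te (by norm_num) te_two
  rcases le_total 2 b with hb2 | hb2
  · exact h2.mono hb2
  set δ := (b ^ 3 - 4 * b + 2) / 8 with hδ
  have hδ0 : 0 < δ := by positivity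
  have key : ∀ n : ℕ, KK m (max b (2 - n * δ)) := by
    intro n
    induction n with
    | zero => exact h2.mono (by simp)
    | succ n ih =>
      set β := max b (2 - n * δ) with hβ
      have e1 : b ≤ β := le_max_left _ _
      have e2 : β ≤ 2 := max_le hb2 (by
        have : 0 ≤ (n : ℝ) * δ := by positivity
        linarith)
      refine (kk_step hm (hb.trans e1) ih).mono ?_
      have e3 : kt β ≤ β - δ := by
        have e4 : 0 < β ^ 2 + 3 * β - 2 := by nlinarith
        have e5 : β ^ 2 + 3 * β - 2 ≤ 8 := by nlinarith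
        have e6 : 8 * δ ≤ β ^ 3 - 4 * β + 2 := by
          have e7 : 0 ≤ (β - b) * (β ^ 2 + β * b + b ^ 2 - 4) :=
            mul_nonneg (by linarith) (by nlinarith)
          rw [hδ]; nlinarith
        unfold kt
        rw [div_le_iff₀ e4]
        nlinarith
      refine e3.trans ?_
      rcases max_cases b (2 - n * δ) with ⟨e, -⟩ | ⟨e, -⟩
      · rw [hβ, e]; exact le_trans (by linarith) (le_max_left _ _)
      · rw [hβ, e]; refine le_trans (le_of_eq ?_) (le_max_right _ _)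
        push_cast; ring
  obtain ⟨n, hn⟩ := exists_nat_ge (2 / δ)
  refine (key n).mono (max_le le_rfl ?_)
  rw [div_le_iff₀ hδ0] at hn
  linarith

end Pool.Agent.MP_5168f5_an.H19
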