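import Pool.Agent.MP_5168f5_an.H19.Defs
import Pool.Agent.MP_5168f5_an.H19.Ent

/-! The discrete maximal estimate in conditional entropy form. -/

namespace Pool.Agent.MP_5168f5_an.H19

open Finset

variable {m : ℕ}

/-- The common refinement of two partitions. -/
def mt {Ω : Type} (R T : Setoid Ω) : Setoid Ω := R ⊓ T

theorem mt_rel {Ω : Type} {R T : Setoid Ω} {a b : Ω} : mt R T a b ↔ R a b ∧ T a b :=
  Setoid.inf_iff_and

/-- The direction cell of a line. -/
noncomputable def dir (Q : ℕ) (g : Line m) : Fin m → ℤ := fun j => ⌊(Q : ℝ) * g.2 j⌋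

theorem Sep.dir_inj {Q : ℕ} {G : Finset (Line m)} (h : Sep Q G) {g g' : Line m} (hg : g ∈ G)
    (hg' : g' ∈ G) (e : dir Q g = dir Q g') : g = g' := by
  by_contra hne
  obtain ⟨j, hj⟩ := h.2 g hg g' hg' hne
  have e1 : ⌊(Q : ℝ) * g.2 j⌋ = ⌊(Q : ℝ) * g'.2 j⌋ := congrFun e j
  have h1 := Int.abs_sub_lt_one_of_floor_eq_floor e1
  rw [← mul_sub, abs_mul, Nat.abs_cast] at h1
  linarith

theorem Sep.mono {Q : ℕ} {G G' : Finset (Line m)} (h : Sep Q G) (hs : G' ⊆ G) : Sep Q G' :=
  ⟨fun g hg => h.1 g (hs hg), fun g hg g' hg' => h.2 g (hs hg) g' (hs hg')⟩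

theorem card_cube (c : Fin m → ℤ) (D : ℕ) :
    (Fintype.piFinset fun j => Finset.Icc (c j - D) (c j + D)).card = (2 * D + 1) ^ m := by
  rw [Fintype.card_piFinset]
  have : ∀ j, (Finset.Icc (c j - D) (c j + D)).card = 2 * D + 1 := by
    intro j
    rw [Int.card_Icc]
    omega
  simp [this]

theorem Sep.card_le {Q : ℕ} {G : Finset (Line m)} (h : Sep Q G) : G.card ≤ (2 * Q + 1) ^ m := by
  rw [← card_cube (0 : Fin m → ℤ) Q]
  refine Finset.card_le_card_of_injOn (dir Q) ?_ fun g hg g' hg' e => h.dir_inj hg hg' e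
  intro g hg
  simp only [Finset.mem_coe, Fintype.mem_piFinset, Finset.mem_Icc, Pi.zero_apply, zero_sub,
    zero_add]
  intro j
  have h1 := abs_le.1 (h.1 g hg j)
  have hQ : (0 : ℝ) ≤ Q := Nat.cast_nonneg Q
  constructor
  · unfold dir
    rw [Int.le_floor]; push_cast; nlinarith [h1.1]
  · unfold dir
    have : ((⌊(Q : ℝ) * g.2 j⌋ : ℤ) : ℝ) ≤ ((Q : ℤ) : ℝ) := by
      refine (Int.floor_le _).trans ?_
      push_cast; nlinarith [h1.2]
    exact_mod_cast this

namespace FP

variable {Ω : Type} (P : FP Ω)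

open Classical in
/-- Few values can have large conditional probability. -/
theorem card_heavy {β : Type} (Z : Setoid Ω) (X : Ω → β) (A : Ω → Prop) (a : Ω) (c : ℝ)
    (hA : ∀ b ∈ P.S, A b → Z b a ∧ c * P.pr Z b ≤ P.pr (mt (Setoid.ker X) Z) b) :
    (((P.S.filter A).image X).card : ℝ) * c * P.pr Z a ≤ P.pr Z a := by
  have h1 : ∀ w ∈ (P.S.filter A).image X, c * P.pr Z a ≤
      P.E fun b => if X b = w ∧ Z b a then 1 else 0 := by
    intro w hw
    simp only [Finset.mem_image, Finset.mem_filter] at hw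
    obtain ⟨b, ⟨hb, hAb⟩, rfl⟩ := hw
    obtain ⟨h2, h3⟩ := hA b hb hAb
    rw [← P.pr_rel h2]
    refine h3.trans (le_of_eq ?_)
    unfold pr
    refine P.E_congr fun x _ => ?_
    have : (mt (Setoid.ker X) Z) x b ↔ X x = X b ∧ Z x a := by
      rw [mt_rel, Setoid.ker_def]
      exact and_congr Iff.rfl ⟨fun h => Z.trans' h h2, fun h => Z.trans' h (Z.symm' h2)⟩
    simp only [this]
  have h2 := Finset.sum_le_sum h1
  rw [Finset.sum_const, nsmul_eq_mul, ← E_sum, ← mul_assoc] at h2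
  refine h2.trans ?_
  unfold pr
  refine P.E_mono fun b _ => ?_
  by_cases h3 : Z b a
  · simp only [h3, and_true, if_true]
    rw [Finset.sum_ite_eq]
    split_ifs <;> norm_num
  · simp [h3]

end FP

theorem log_small (m : ℕ) {ε : ℝ} (hε : 0 < ε) : ∃ C : ℝ, ∀ Q : ℕ, 0 < Q →
    Real.log ((m + 1) * Real.log (3 * Q) + 2) ≤ ε * Real.log Q + C := by
  refine ⟨Real.log ((m + 1) * (3 : ℝ) ^ ε / ε + 2), fun Q hQ => ?_⟩
  have hQ1 : (1 : ℝ) ≤ Q := by exact_mod_cast hQ
  have h1 : Real.log (3 * Q) ≤ (3 * Q : ℝ) ^ ε / ε := Real.log_le_rpow_div (by positivity) hε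
  have h2 : (1 : ℝ) ≤ (Q : ℝ) ^ ε := Real.one_le_rpow hQ1 hε.le
  have h3 : 0 ≤ Real.log (3 * Q) := Real.log_nonneg (by linarith)
  rw [Real.mul_rpow (by norm_num) (by positivity)] at h1
  have h4 : (m + 1) * Real.log (3 * Q) + 2 ≤ (Q : ℝ) ^ ε * ((m + 1) * (3 : ℝ) ^ ε / ε + 2) := by
    have h5 : ((m : ℝ) + 1) * Real.log (3 * Q) ≤ (m + 1) * (3 ^ ε * (Q : ℝ) ^ ε / ε) :=
      mul_le_mul_of_nonneg_left h1 (by positivity)
    have h6 : (Q : ℝ) ^ ε * ((m + 1) * (3 : ℝ) ^ ε / ε + 2) =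
        (m + 1) * (3 ^ ε * (Q : ℝ) ^ ε / ε) + 2 * (Q : ℝ) ^ ε := by ring
    linarith
  refine (Real.log_le_log (by positivity) h4).trans (le_of_eq ?_)
  rw [Real.log_mul (by positivity) (by positivity), Real.log_rpow (by positivity)]

/-- The entropy form of the discrete estimate, with error term `err`. -/
def KE (m : ℕ) (b : ℝ) (Q : ℕ) (err : ℝ) : Prop :=
  ∀ (G : Finset (Line m)), Sep Q G → ∀ (Ω : Type) (P : FP Ω) (g : Ω → Line m) (t : Ω → ℕ)
    (Z : Setoid Ω), (∀ ω ∈ P.S, g ω ∈ G) → (∀ ω ∈ P.S, t ω < Q) →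
    P.H (mt (Setoid.ker g) Z) - P.H Z ≤
      b * (P.H (mt (Setoid.ker fun ω => (cell (g ω) (t ω), t ω)) Z) - P.H Z) +
      m * Real.log Q -
      (b + m) * (P.H (mt (Setoid.ker t) (mt (Setoid.ker g) Z)) - P.H (mt (Setoid.ker g) Z)) + err

theorem ke_of_bound {b ε C : ℝ} (hb : 0 ≤ b) (hC : 0 < C) {Q : ℕ} (hQ : 0 < Q)
    (hK : ∀ (l : ℕ) (G : Finset (Line m)) (E : Finset (Pt m)),
      0 < l → Sep Q G → (∀ g ∈ G, l ≤ (shade E (Finset.range Q) g).card) →
      (G.card : ℝ) ≤ C * (Q : ℝ) ^ ε * ((E.card : ℝ) / l) ^ b * ((Q : ℝ) / l) ^ m) :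
    KE m b Q (Real.log C + ε * Real.log Q + (2 * b + m) +
      (b + m + 2) * Real.log ((m + 1) * Real.log (3 * Q) + 2)) := by
  classical
  intro G hG Ω P g t Z hg ht
  have hQ1 : (1 : ℝ) ≤ Q := by exact_mod_cast hQ
  set lam : ℝ := Real.log ((m + 1) * Real.log (3 * Q) + 2) with hlam
  set pt : Ω → Pt m := fun ω => (cell (g ω) (t ω), t ω) with hpt
  set u : Ω → ℝ := fun ω => Real.log (P.pr Z ω) - Real.log (P.pr (mt (Setoid.ker pt) Z) ω) with hu
  have hlog3 : 0 ≤ Real.log (3 * Q) := Real.log_nonneg (by linarith)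
  set I : ℕ := ⌈(m + 1) * Real.log (3 * Q)⌉₊ with hI
  have hI1 : (I : ℝ) + 1 ≤ (m + 1) * Real.log (3 * Q) + 2 := by
    have := Nat.ceil_lt_add_one (a := (m + 1) * Real.log (3 * Q)) (by positivity)
    linarith
  have hI2 : (m + 1) * Real.log (3 * Q) ≤ I := Nat.le_ceil _
  set i : Ω → ℕ := fun ω => min ⌊u ω⌋₊ I with hi
  have hu0 : ∀ ω ∈ P.S, 0 ≤ u ω := fun ω hω => sub_nonneg.2 (Real.log_le_log (P.pr_pos _ hω)
    (P.pr_mono fun ω' _ h => (mt_rel.1 h).2))
  set Z1 : Setoid Ω := mt Z (Setoid.ker i) with hZ1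
  set Y : Ω → Finset ℕ := fun ω => (P.S.filter fun x => g x = g ω ∧ Z1 x ω).image t with hY
  have hY1 : ∀ ω ∈ P.S, 1 ≤ (Y ω).card := fun ω hω => Finset.card_pos.2
    ⟨t ω, Finset.mem_image.2 ⟨ω, Finset.mem_filter.2 ⟨hω, rfl, Z1.refl' ω⟩, rfl⟩⟩
  have hYQ : ∀ ω, (Y ω).card ≤ Q := by
    intro ω
    have : Y ω ⊆ Finset.range Q := by
      intro r hr
      obtain ⟨x, hx, rfl⟩ := Finset.mem_image.1 hr
      exact Finset.mem_range.2 (ht x (Finset.mem_filter.1 hx).1)
    simpa using Finset.card_le_card this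
  have hYrel : ∀ a c, g a = g c → Z1 a c → Y a = Y c := by
    intro a c h1 h2
    simp only [hY]
    refine congrArg (Finset.image t) (Finset.filter_congr fun x _ => ?_)
    exact and_congr (by rw [h1])
      ⟨fun h => Z1.trans' h h2, fun h => Z1.trans' h (Z1.symm' h2)⟩
  set j : Ω → ℕ := fun ω => ⌊Real.log (Y ω).card⌋₊ with hj
  set Z2 : Setoid Ω := mt Z1 (Setoid.ker j) with hZ2
  -- labels cost little
  have L1 : ∀ R : Setoid Ω, P.H (mt R (Setoid.ker i)) ≤ P.H R + lam := by
    intro R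
    have := P.count_const (mt R (Setoid.ker i)) R i ((m + 1) * Real.log (3 * Q) + 2)
      (fun a _ c _ h1 h2 => mt_rel.2 ⟨h1, h2⟩)
      (fun a _ => ⟨Finset.range (I + 1), by simpa using hI1,
        fun c _ _ => Finset.mem_range.2 (Nat.lt_succ_of_le (min_le_right _ _))⟩)
    exact this
  have L2 : P.H Z2 ≤ P.H Z1 + lam := by
    refine P.count_const Z2 Z1 j ((m + 1) * Real.log (3 * Q) + 2)
      (fun a _ c _ h1 h2 => mt_rel.2 ⟨h1, h2⟩)
      (fun a _ => ⟨Finset.range (I + 1), by simpa using hI1, fun c hc _ => ?_⟩)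
    refine Finset.mem_range.2 (Nat.lt_succ_of_le ?_)
    have h1 : Real.log (Y c).card ≤ I := by
      have h2 : ((Y c).card : ℝ) ≤ 3 * Q := by
        have : ((Y c).card : ℝ) ≤ Q := by exact_mod_cast hYQ c
        linarith
      have h3 : (1 : ℝ) ≤ (Y c).card := by exact_mod_cast hY1 c hc
      have h4 := Real.log_le_log (by linarith) h2
      have h5 : (0 : ℝ) ≤ m * Real.log (3 * Q) := by positivity
      nlinarith
    exact Nat.floor_le_of_le h1
  -- the shading sizes
  have L3 : P.H (mt (Setoid.ker t) (mt (Setoid.ker g) Z)) ≤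
      P.H (mt (mt (Setoid.ker g) Z) (Setoid.ker i)) + P.E fun ω => Real.log (Y ω).card := by
    refine P.count _ _ t (fun ω => ((Y ω).card : ℝ)) ?_ ?_ ?_
    · intro a _ c _ h1 h2
      simp only [mt_rel, Setoid.ker_def] at h1 ⊢
      exact ⟨h2, h1.1.1, h1.1.2⟩
    · intro a _ c _ h1
      simp only [mt_rel, Setoid.ker_def] at h1
      rw [hYrel a c h1.1.1 (mt_rel.2 ⟨h1.1.2, h1.2⟩)]
    · intro a _
      refine ⟨Y a, le_rfl, fun c hc h1 => ?_⟩
      simp only [mt_rel, Setoid.ker_def] at h1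
      exact Finset.mem_image.2 ⟨c, Finset.mem_filter.2
        ⟨hc, h1.1.1, mt_rel.2 ⟨h1.1.2, h1.2⟩⟩, rfl⟩
  -- the main count
  have L4 : P.H (mt (Setoid.ker g) Z) ≤ P.H Z2 + P.E fun ω => Real.log
      (Real.exp (Real.log C + ε * Real.log Q + b * (i ω + 1 - j ω) + m * (Real.log Q - j ω))) := by
    refine P.count _ Z2 g _ ?_ ?_ ?_
    · intro a _ c _ h1 h2
      simp only [Z2, Z1, mt_rel, Setoid.ker_def] at h1 ⊢
      exact ⟨h2, h1.1.1⟩
    · intro a _ c _ h1
      simp only [Z2, Z1, mt_rel, Setoid.ker_def] at h1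
      rw [h1.1.2, h1.2]
    · intro a ha
      refine ⟨(P.S.filter fun x => Z2 x a).image g, ?_, fun c hc h1 =>
        Finset.mem_image.2 ⟨c, Finset.mem_filter.2 ⟨hc, h1⟩, rfl⟩⟩
      set E0 : Finset (Pt m) := (P.S.filter fun x => Z1 x a).image pt with hE0
      set l0 : ℕ := ⌈Real.exp (j a)⌉₊ with hl0
      have hl1 : Real.exp (j a) ≤ l0 := Nat.le_ceil _
      have hl2 : 0 < l0 := by
        have : (0 : ℝ) < l0 := lt_of_lt_of_le (Real.exp_pos _) hl1
        exact_mod_cast this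
      have hsub : (P.S.filter fun x => Z2 x a).image g ⊆ G := by
        intro k hk
        obtain ⟨x, hx, rfl⟩ := Finset.mem_image.1 hk
        exact hg x (Finset.mem_filter.1 hx).1
      have hE : (E0.card : ℝ) ≤ Real.exp (i a + 1) := by
        by_cases hc : ⌊u a⌋₊ < I
        · have hia : i a = ⌊u a⌋₊ := min_eq_left hc.le
          have h1 := P.card_heavy Z pt (fun x => Z1 x a) a (Real.exp (-(i a + 1 : ℝ))) (by
            intro c hc' h2
            obtain ⟨h3, h4⟩ := mt_rel.1 h2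
            refine ⟨h3, ?_⟩
            have h5 : i c = i a := h4
            have h6 : ⌊u c⌋₊ = i a := by
              have h7 : min ⌊u c⌋₊ I = i a := h5
              omega
            have h8 : u c < i a + 1 := by rw [← h6]; exact Nat.lt_floor_add_one _
            have h9 := P.pr_pos Z hc'
            have h10 := P.pr_pos (mt (Setoid.ker pt) Z) hc'
            rw [← Real.exp_log h9, ← Real.exp_log h10, ← Real.exp_add]
            refine Real.exp_le_exp.2 ?_
            simp only [hu] at h8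
            linarith)
          have h2 := P.pr_pos Z ha
          have h3 : (E0.card : ℝ) * Real.exp (-(i a + 1 : ℝ)) ≤ 1 := by
            have h4 : ((E0.card : ℝ) * Real.exp (-(i a + 1 : ℝ))) * P.pr Z a ≤ 1 * P.pr Z a := by
              rw [one_mul]
              refine le_trans (le_of_eq ?_) h1
              refine congrArg (fun s : Finset (Pt m) =>
                ((s.card : ℝ) * Real.exp (-(i a + 1 : ℝ))) * P.pr Z a) ?_
              ext y
              simp only [hE0, Finset.mem_image, Finset.mem_filter]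
            exact le_of_mul_le_mul_right h4 h2
          rw [Real.exp_neg, ← div_eq_mul_inv, div_le_one (Real.exp_pos _)] at h3
          exact h3
        · have hia : i a = I := min_eq_right (not_lt.1 hc)
          have h1 : E0 ⊆ (G ×ˢ Finset.range Q).image fun x => (cell x.1 x.2, x.2) := by
            intro w hw
            obtain ⟨x, hx, rfl⟩ := Finset.mem_image.1 hw
            have hx' := (Finset.mem_filter.1 hx).1
            exact Finset.mem_image.2 ⟨(g x, t x),
              Finset.mem_product.2 ⟨hg x hx', Finset.mem_range.2 (ht x hx')⟩, rfl⟩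
          have h2 : E0.card ≤ (2 * Q + 1) ^ m * Q := by
            refine (Finset.card_le_card h1).trans (Finset.card_image_le.trans ?_)
            rw [Finset.card_product, Finset.card_range]
            exact Nat.mul_le_mul_right _ hG.card_le
          have h3 : (E0.card : ℝ) ≤ (3 * Q : ℝ) ^ (m + 1) := by
            have h4 : (E0.card : ℝ) ≤ (2 * Q + 1 : ℝ) ^ m * Q := by exact_mod_cast h2
            refine h4.trans ?_
            rw [pow_succ]
            exact mul_le_mul (pow_le_pow_left₀ (by positivity) (by linarith) m) (by linarith)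
              (by positivity) (by positivity)
          refine h3.trans ?_
          rw [← Real.exp_log (show (0 : ℝ) < (3 * Q : ℝ) ^ (m + 1) by positivity), Real.log_pow, hia]
          refine Real.exp_le_exp.2 ?_
          push_cast
          linarith
      have key := hK l0 _ E0 hl2 (hG.mono hsub) (by
        intro k hk
        obtain ⟨x, hx, rfl⟩ := Finset.mem_image.1 hk
        obtain ⟨hx1, hx2⟩ := Finset.mem_filter.1 hx
        obtain ⟨hx3, hx4⟩ := mt_rel.1 hx2
        have h1 : l0 ≤ (Y x).card := by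
          rw [hl0, Nat.ceil_le]
          have h2 : j x = j a := hx4
          have h3 : (1 : ℝ) ≤ (Y x).card := by exact_mod_cast hY1 x hx1
          rw [← h2, ← Real.exp_log (show (0 : ℝ) < (Y x).card by linarith)]
          exact Real.exp_le_exp.2 (Nat.floor_le (Real.log_nonneg h3))
        refine h1.trans (Finset.card_le_card ?_)
        intro r hr
        obtain ⟨y, hy, rfl⟩ := Finset.mem_image.1 hr
        obtain ⟨hy1, hy2, hy3⟩ := Finset.mem_filter.1 hy
        unfold shade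
        refine Finset.mem_filter.2 ⟨Finset.mem_range.2 (ht y hy1), ?_⟩
        refine Finset.mem_image.2 ⟨y, Finset.mem_filter.2 ⟨hy1, Z1.trans' hy3 hx3⟩, ?_⟩
        simp only [hpt, hy2])
      refine key.trans ?_
      have hl3 : (0 : ℝ) < l0 := by exact_mod_cast hl2
      have e1 : (E0.card : ℝ) / l0 ≤ Real.exp (i a + 1 - j a) := by
        rw [Real.exp_sub]
        exact div_le_div₀ (Real.exp_pos _).le hE (Real.exp_pos _) hl1
      have e2 : (Q : ℝ) / l0 ≤ Real.exp (Real.log Q - j a) := by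
        rw [Real.exp_sub, Real.exp_log (by linarith)]
        exact div_le_div_of_nonneg_left (by linarith) (Real.exp_pos _) hl1
      have e3 : ((E0.card : ℝ) / l0) ^ b ≤ Real.exp (b * (i a + 1 - j a)) := by
        rw [mul_comm, Real.exp_mul]
        exact Real.rpow_le_rpow (by positivity) e1 hb
      have e4 : ((Q : ℝ) / l0) ^ m ≤ Real.exp (m * (Real.log Q - j a)) := by
        rw [Real.exp_nat_mul]
        exact pow_le_pow_left₀ (by positivity) e2 m
      have e5 : (Q : ℝ) ^ ε = Real.exp (ε * Real.log Q) := by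
        rw [Real.rpow_def_of_pos (by linarith), mul_comm]
      rw [Real.exp_add, Real.exp_add, Real.exp_add, Real.exp_log hC, e5]
      gcongr
  simp only [Real.log_exp] at L4
  have L5 : (P.E fun ω =>
      Real.log C + ε * Real.log Q + b * (i ω + 1 - j ω) + m * (Real.log Q - j ω)) ≤
      P.E fun ω => (Real.log C + ε * Real.log Q + (2 * b + m) + m * Real.log Q) +
        (b * u ω - (b + m) * Real.log (Y ω).card) := by
    refine P.E_mono fun ω hω => ?_
    have h1 : (i ω : ℝ) ≤ u ω := by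
      have h2 : (i ω : ℝ) ≤ ⌊u ω⌋₊ := by exact_mod_cast min_le_left _ _
      exact h2.trans (Nat.floor_le (hu0 ω hω))
    have h3 : Real.log (Y ω).card < j ω + 1 := Nat.lt_floor_add_one _
    have h4 : (0 : ℝ) ≤ m := Nat.cast_nonneg m
    nlinarith
  rw [P.E_add (fun _ => Real.log C + ε * Real.log Q + (2 * b + m) + m * Real.log Q), FP.E_const,
    FP.E_sub, FP.E_mul, FP.E_mul] at L5
  have L6 : P.E u = P.H (mt (Setoid.ker pt) Z) - P.H Z := by
    unfold FP.H
    rw [← FP.E_sub]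
    exact P.E_congr fun ω _ => by simp only [hu]; ring
  have L7 := L1 Z
  have L8 := L1 (mt (Setoid.ker g) Z)
  have h4 : (0 : ℝ) ≤ b + m := by positivity
  have L9 : (b + m) * (P.H (mt (Setoid.ker t) (mt (Setoid.ker g) Z)) - P.H (mt (Setoid.ker g) Z) - lam) ≤
      (b + m) * P.E fun ω => Real.log (Y ω).card :=
    mul_le_mul_of_nonneg_left (by linarith) h4
  rw [L6] at L5
  nlinarith

theorem ke_of_kk {b : ℝ} (hb : 0 ≤ b) (hK : KK m b) {ε : ℝ} (hε : 0 < ε) :
    ∃ C : ℝ, ∀ Q : ℕ, 0 < Q → KE m b Q (ε * Real.log Q + C) := by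
  have hbm : 0 < b + m + 2 := by positivity
  obtain ⟨C, hC, h⟩ := hK (ε / 2) (by positivity)
  obtain ⟨C', h'⟩ := log_small m (ε := ε / 2 / (b + m + 2)) (by positivity)
  refine ⟨Real.log C + (2 * b + m) + (b + m + 2) * C', fun Q hQ => ?_⟩
  intro G hG Ω P g t Z hg ht
  have h1 := ke_of_bound hb hC hQ (fun l G E => h Q l G E) G hG Ω P g t Z hg ht
  have h2 := mul_le_mul_of_nonneg_left (h' Q hQ) hbm.le
  have h3 : (b + m + 2) * (ε / 2 / (b + m + 2) * Real.log Q + C') =
      ε / 2 * Real.log Q + (b + m + 2) * C' := by field_simp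
  linarith

end Pool.Agent.MP_5168f5_an.H19
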