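import Pool.Agent.MP_5168f5_an.H19.KEnt

/-! Combinatorial tools: the `K`-adic descent, sums of powers, thinning of directions. -/

namespace Pool.Agent.MP_5168f5_an.H19

open Finset

theorem sum_rpow_le {ι : Type} (T : Finset ι) (x : ι → ℝ) (hx : ∀ i ∈ T, 0 ≤ x i) {b : ℝ}
    (hb : 1 ≤ b) : ∑ i ∈ T, x i ^ b ≤ (∑ i ∈ T, x i) ^ b := by
  set S := ∑ i ∈ T, x i with hS
  have hS0 : 0 ≤ S := Finset.sum_nonneg hx
  have h1 : ∀ i ∈ T, x i ^ b ≤ x i * S ^ (b - 1) := by
    intro i hi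
    have h2 : x i ≤ S := Finset.single_le_sum hx hi
    have h3 : x i ^ b = x i * x i ^ (b - 1) := by
      rw [show b = 1 + (b - 1) by ring, Real.rpow_add' (hx i hi) (by linarith)]
      simp
    rw [h3]
    exact mul_le_mul_of_nonneg_left (Real.rpow_le_rpow (hx i hi) h2 (by linarith)) (hx i hi)
  refine (Finset.sum_le_sum h1).trans (le_of_eq ?_)
  rw [← Finset.sum_mul, ← hS]
  conv_rhs => rw [show b = 1 + (b - 1) by ring, Real.rpow_add' hS0 (by linarith)]
  simp

/-- The block number `i` of length `L`. -/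
def blk (L i : ℕ) : Finset ℕ := Finset.Ico (i * L) ((i + 1) * L)

theorem mem_blk {L i r : ℕ} (hL : 0 < L) : r ∈ blk L i ↔ r / L = i := by
  unfold blk
  rw [Finset.mem_Ico, Nat.div_eq_iff hL]
  constructor
  · rintro ⟨h1, h2⟩
    refine ⟨h1, ?_⟩
    rw [add_mul, one_mul] at h2
    omega
  · rintro ⟨h1, h2⟩
    refine ⟨h1, ?_⟩
    rw [add_mul, one_mul]
    omega

theorem three_or_heavy (K : ℕ) (w : ℕ → ℕ) (y : ℕ) (hy : ∑ c ∈ Finset.range K, w c = y) (hy0 : 0 < y) :
    (∃ c : Fin 3 → ℕ, (∀ i, c i < K) ∧ (∀ i j, i ≠ j → c i + 2 ≤ c j ∨ c j + 2 ≤ c i) ∧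
      ∀ i, y ≤ 2 * K * w (c i)) ∨ ∃ c < K, y ≤ 8 * w c := by
  classical
  by_contra hcon
  push Not at hcon
  obtain ⟨h1, h2⟩ := hcon
  set H := (Finset.range K).filter fun c => y ≤ 2 * K * w c with hH
  have hcard : H.card ≤ 4 := by
    by_contra h5
    have h6 := Finset.card_filter_add_card_filter_not (s := H) (fun c => c % 2 = 0)
    have h7 : ∃ p : ℕ, 2 < (H.filter fun c => c % 2 = p).card := by
      by_cases h8 : 2 < (H.filter fun c => c % 2 = 0).card
      · exact ⟨0, h8⟩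
      · refine ⟨1, ?_⟩
        have : (H.filter fun c => c % 2 = 1) = H.filter fun c => ¬ c % 2 = 0 :=
          Finset.filter_congr fun c _ => by omega
        rw [this]; omega
    obtain ⟨p, hp⟩ := h7
    obtain ⟨a, b, c, ha, hb, hc, hab, hac, hbc⟩ := Finset.two_lt_card_iff.1 hp
    simp only [hH, Finset.mem_filter, Finset.mem_range] at ha hb hc
    obtain ⟨i, hi⟩ := h1 ![a, b, c] (by
      intro i; fin_cases i
      · exact ha.1.1
      · exact hb.1.1
      · exact hc.1.1) (by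
      intro i j hij
      fin_cases i <;> fin_cases j <;> simp at hij ⊢ <;> omega)
    fin_cases i
    · exact absurd ha.1.2 (not_le.2 hi)
    · exact absurd hb.1.2 (not_le.2 hi)
    · exact absurd hc.1.2 (not_le.2 hi)
  have e1 := Finset.sum_filter_add_sum_filter_not (Finset.range K) (fun c => y ≤ 2 * K * w c) w
  have e2 : 8 * ∑ c ∈ H, w c ≤ 4 * (y - 1) := by
    rw [Finset.mul_sum]
    calc _ ≤ ∑ _c ∈ H, (y - 1) := Finset.sum_le_sum fun c hc => by
          have := h2 c (Finset.mem_range.1 (Finset.mem_filter.1 hc).1)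
          omega
      _ = H.card * (y - 1) := by simp
      _ ≤ _ := Nat.mul_le_mul_right _ hcard
  have e3 : 2 * K * ∑ c ∈ (Finset.range K).filter (fun c => ¬ y ≤ 2 * K * w c), w c ≤ K * y := by
    rw [Finset.mul_sum]
    calc _ ≤ ∑ _c ∈ (Finset.range K).filter (fun c => ¬ y ≤ 2 * K * w c), y :=
          Finset.sum_le_sum fun c hc => (not_le.1 (Finset.mem_filter.1 hc).2).le
      _ = ((Finset.range K).filter fun c => ¬ y ≤ 2 * K * w c).card * y := by simp
      _ ≤ _ := Nat.mul_le_mul_right _ (by simpa using Finset.card_filter_le (Finset.range K) _)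
  have hK : 0 < K := by
    rcases Nat.eq_zero_or_pos K with rfl | h
    · simp at hy; omega
    · exact h
  have e4 : 2 * ∑ c ∈ (Finset.range K).filter (fun c => ¬ y ≤ 2 * K * w c), w c ≤ y := by
    refine Nat.le_of_mul_le_mul_left ?_ hK
    calc _ = 2 * K * ∑ c ∈ (Finset.range K).filter (fun c => ¬ y ≤ 2 * K * w c), w c := by ring
      _ ≤ _ := e3
  rw [← hH, hy] at e1
  omega

/-- The `K`-adic descent: a set is tiny or has three separated heavy blocks at some scale. -/
theorem descent {K : ℕ} (hK : 0 < K) (n : ℕ) : ∀ (a : ℕ) (Y : Finset ℕ), Y ⊆ blk (K ^ n) a →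
    Y.card ≤ 8 ^ n ∨ ∃ k < n, ∃ a' : ℕ, ∃ c : Fin 3 → ℕ, (∀ i, c i < K) ∧
      (∀ i j, i ≠ j → c i + 2 ≤ c j ∨ c j + 2 ≤ c i) ∧
      ∀ i, Y.card ≤ 8 ^ n * (2 * K) * (Y ∩ blk (K ^ k) (a' * K + c i)).card := by
  classical
  induction n with
  | zero =>
    intro a Y hY
    left
    have := Finset.card_le_card hY
    simpa [blk] using this
  | succ n ih =>
    intro a Y hY
    rcases Nat.eq_zero_or_pos Y.card with h0 | h0
    · left; rw [h0]; exact Nat.zero_le _
    have hKn : 0 < K ^ n := pow_pos hK n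
    have hsum : ∑ c ∈ Finset.range K, (Y ∩ blk (K ^ n) (a * K + c)).card = Y.card := by
      rw [Finset.card_eq_sum_card_fiberwise (f := fun r => r / K ^ n % K) (s := Y)
        (t := Finset.range K) (fun r _ => Finset.mem_range.2 (Nat.mod_lt _ hK))]
      refine Finset.sum_congr rfl fun c hc => ?_
      congr 1
      ext r
      simp only [Finset.mem_inter, Finset.mem_filter, mem_blk hKn]
      refine and_congr_right fun hr => ?_
      have h1 := (mem_blk (pow_pos hK (n + 1))).1 (hY hr)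
      rw [pow_succ, ← Nat.div_div_eq_div_mul] at h1
      have h2 := Nat.div_add_mod (r / K ^ n) K
      have h3 := Finset.mem_range.1 hc
      rw [h1, mul_comm] at h2
      constructor
      · intro h4
        rw [h4, Nat.mul_add_mod', Nat.mod_eq_of_lt h3]
      · intro h4
        omega
    have h8 : 1 ≤ 8 ^ (n + 1) := Nat.one_le_pow _ _ (by norm_num)
    rcases three_or_heavy K _ _ hsum h0 with ⟨c, h1, h2, h3⟩ | ⟨c, -, h2⟩
    · right
      refine ⟨n, Nat.lt_succ_self n, a, c, h1, h2, fun i => (h3 i).trans ?_⟩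
      rw [mul_assoc (8 ^ (n + 1))]
      exact Nat.le_mul_of_pos_left _ h8
    · rcases ih (a * K + c) (Y ∩ blk (K ^ n) (a * K + c)) Finset.inter_subset_right with
        h3 | ⟨k, hk, a', d, h3, h4, h5⟩
      · left; rw [pow_succ]; omega
      · right
        refine ⟨k, by omega, a', d, h3, h4, fun i => h2.trans ?_⟩
        have h6 := h5 i
        have h7 : (Y ∩ blk (K ^ n) (a * K + c) ∩ blk (K ^ k) (a' * K + d i)).card ≤
            (Y ∩ blk (K ^ k) (a' * K + d i)).card :=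
          Finset.card_le_card (Finset.inter_subset_inter Finset.inter_subset_left le_rfl)
        calc 8 * (Y ∩ blk (K ^ n) (a * K + c)).card
            ≤ 8 * (8 ^ n * (2 * K) * (Y ∩ blk (K ^ k) (a' * K + d i)).card) :=
              Nat.mul_le_mul_left _ (h6.trans (Nat.mul_le_mul_left _ h7))
          _ = _ := by ring

variable {m : ℕ}

/-- Passing to a subfamily separated at a coarser scale. -/
theorem thin {Q Q' R : ℕ} (hR : Q ≤ R * Q') {G : Finset (Line m)} (hG : Sep Q G) :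
    ∃ G' ⊆ G, Sep Q' G' ∧ G.card ≤ (2 * (R + 1) + 1) ^ m * G'.card := by
  classical
  obtain ⟨G', hG', hmax⟩ := Finset.exists_max_image (G.powerset.filter (Sep Q')) Finset.card
    ⟨∅, Finset.mem_filter.2 ⟨Finset.empty_mem_powerset _, by simp [Sep]⟩⟩
  obtain ⟨h1, h2⟩ := Finset.mem_filter.1 hG'
  have h3 : G' ⊆ G := Finset.mem_powerset.1 h1
  refine ⟨G', h3, h2, ?_⟩
  have h4 : ∀ g ∈ G, ∃ g' ∈ G', ∀ j, (Q' : ℝ) * |g.2 j - g'.2 j| ≤ 1 := by
    intro g hg
    by_cases hgm : g ∈ G'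
    · exact ⟨g, hgm, fun j => by simp⟩
    by_contra hcon
    push Not at hcon
    have h5 : Sep Q' (insert g G') := by
      refine ⟨fun k hk => hG.1 k (by
        rcases Finset.mem_insert.1 hk with rfl | hk
        · exact hg
        · exact h3 hk), fun k hk k' hk' hne => ?_⟩
      rcases Finset.mem_insert.1 hk with e1 | hk1 <;> rcases Finset.mem_insert.1 hk' with e2 | hk2
      · exact absurd (e1.trans e2.symm) hne
      · obtain ⟨j, hj⟩ := hcon k' hk2
        exact ⟨j, by rw [e1]; exact hj.le⟩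
      · obtain ⟨j, hj⟩ := hcon k hk1
        exact ⟨j, by rw [e2, abs_sub_comm]; exact hj.le⟩
      · exact h2.2 k hk1 k' hk2 hne
    have h6 := hmax (insert g G') (Finset.mem_filter.2
      ⟨Finset.mem_powerset.2 (Finset.insert_subset hg h3), h5⟩)
    rw [Finset.card_insert_of_notMem hgm] at h6
    omega
  have h5 : G ⊆ G'.biUnion fun g' => G.filter fun g => ∀ j, (Q' : ℝ) * |g.2 j - g'.2 j| ≤ 1 := by
    intro g hg
    obtain ⟨g', h6, h7⟩ := h4 g hg
    exact Finset.mem_biUnion.2 ⟨g', h6, Finset.mem_filter.2 ⟨hg, h7⟩⟩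
  refine (Finset.card_le_card h5).trans (Finset.card_biUnion_le.trans ?_)
  rw [mul_comm, ← smul_eq_mul, ← Finset.sum_const]
  refine Finset.sum_le_sum fun g' _ => ?_
  rw [← card_cube (dir Q g') (R + 1)]
  refine Finset.card_le_card_of_injOn (dir Q) ?_ fun g hg k hk e =>
    hG.dir_inj (Finset.mem_filter.1 hg).1 (Finset.mem_filter.1 hk).1 e
  intro g hg
  have h6 := (Finset.mem_filter.1 hg).2
  simp only [Finset.mem_coe, Fintype.mem_piFinset, Finset.mem_Icc]
  intro j
  have h7 : |(Q : ℝ) * g.2 j - Q * g'.2 j| ≤ R := by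
    rw [← mul_sub, abs_mul, Nat.abs_cast]
    have h8 : (Q : ℝ) ≤ R * Q' := by exact_mod_cast hR
    have h9 := mul_le_mul_of_nonneg_right h8 (abs_nonneg (g.2 j - g'.2 j))
    have h10 := mul_le_mul_of_nonneg_left (h6 j) (Nat.cast_nonneg (α := ℝ) R)
    nlinarith
  have h8 := abs_le.1 h7
  have f1 := Int.floor_le ((Q : ℝ) * g.2 j)
  have f2 := Int.lt_floor_add_one ((Q : ℝ) * g.2 j)
  have f3 := Int.floor_le ((Q : ℝ) * g'.2 j)
  have f4 := Int.lt_floor_add_one ((Q : ℝ) * g'.2 j)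
  unfold dir
  constructor
  · have : ((⌊(Q : ℝ) * g'.2 j⌋ - ((R + 1 : ℕ) : ℤ) : ℤ) : ℝ) ≤ ((⌊(Q : ℝ) * g.2 j⌋ : ℤ) : ℝ) := by
      push_cast; linarith
    exact_mod_cast this
  · have : ((⌊(Q : ℝ) * g.2 j⌋ : ℤ) : ℝ) ≤ ((⌊(Q : ℝ) * g'.2 j⌋ + ((R + 1 : ℕ) : ℤ) : ℤ) : ℝ) := by
      push_cast; linarith
    exact_mod_cast this

theorem shade_le_card (E : Finset (Pt m)) (J : Finset ℕ) (g : Line m) :
    (shade E J g).card ≤ E.card := by
  classical
  refine Finset.card_le_card_of_injOn (fun r => (cell g r, r)) ?_ ?_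
  · intro r hr
    exact (Finset.mem_filter.1 hr).2
  · intro r _ s _ h
    exact congrArg Prod.snd h

end Pool.Agent.MP_5168f5_an.H19
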