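import Pool.Agent.MP_4b405e_nt.H19.Disc

/-! Slicing: a finite sum-difference bound gives a covering-number lower bound for Kakeya sets. -/

namespace Pool.Agent.MP_5168f5_an.H19

open Finset Pool.Agent.MP_4b405e_nt.H19

/-- The direction `(1, y)`. -/
noncomputable def dirv {n : ℕ} (y : Fin n → ℝ) : EuclideanSpace ℝ (Fin (n + 1)) :=
  WithLp.toLp 2 (Fin.cons 1 y : Fin (n + 1) → ℝ)

theorem dirv_zero {n : ℕ} (y : Fin n → ℝ) : dirv y 0 = 1 := rfl

theorem dirv_succ {n : ℕ} (y : Fin n → ℝ) (j : Fin n) : dirv y j.succ = y j := rfl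

theorem norm_dirv {n : ℕ} (y : Fin n → ℝ) (hy : ∀ j, 0 ≤ y j ∧ y j ≤ 1) :
    0 < ‖dirv y‖ ∧ ‖dirv y‖ ≤ n + 1 := by
  have h1 : ‖dirv y‖ ^ 2 = 1 + ∑ j, y j ^ 2 := by
    rw [EuclideanSpace.real_norm_sq_eq, Fin.sum_univ_succ]
    simp [dirv_zero, dirv_succ]
  have h2 : ∑ j, y j ^ 2 ≤ n := by
    calc ∑ j, y j ^ 2 ≤ ∑ _j : Fin n, (1 : ℝ) :=
          Finset.sum_le_sum fun j _ => by nlinarith [(hy j).1, (hy j).2]
      _ = n := by simp
  have h3 : 0 ≤ ∑ j, y j ^ 2 := Finset.sum_nonneg fun j _ => by positivity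
  have h4 : (0 : ℝ) ≤ n := Nat.cast_nonneg n
  have h5 := norm_nonneg (dirv y)
  constructor
  · by_contra h
    have : ‖dirv y‖ = 0 := le_antisymm (not_lt.1 h) h5
    rw [this] at h1; nlinarith
  · by_contra h
    have := not_le.1 h
    nlinarith

theorem seg {n : ℕ} {K : Set (EuclideanSpace ℝ (Fin (n + 1)))}
    (hdir : ∀ e : EuclideanSpace ℝ (Fin (n + 1)), ‖e‖ = 1 →
      ∃ a, ∀ t ∈ Set.Icc (0 : ℝ) 1, a + t • e ∈ K)
    (y : Fin n → ℝ) (hy : ∀ j, 0 ≤ y j ∧ y j ≤ 1) :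
    ∃ a : EuclideanSpace ℝ (Fin (n + 1)), ∀ s : ℝ, 0 ≤ s → s ≤ 1 / (n + 1) → a + s • dirv y ∈ K := by
  obtain ⟨h1, h2⟩ := norm_dirv y hy
  obtain ⟨a, ha⟩ := hdir (‖dirv y‖⁻¹ • dirv y) (by
    rw [norm_smul, norm_inv, norm_norm, inv_mul_cancel₀ h1.ne'])
  refine ⟨a, fun s hs hs1 => ?_⟩
  have h3 : s * ‖dirv y‖ ≤ 1 := by
    rw [le_div_iff₀ (by positivity)] at hs1
    nlinarith
  have := ha (s * ‖dirv y‖) ⟨by positivity, h3⟩
  rwa [smul_smul, mul_assoc, mul_inv_cancel₀ h1.ne', mul_one] at this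

theorem card_near (U : ℕ) {δ : ℝ} (hδ : 0 < δ) (c : ℝ) :
    ((Finset.range U).filter fun u : ℕ => |c + u * δ| < δ).card ≤ 3 := by
  have h : ((Finset.range U).filter fun u : ℕ => |c + u * δ| < δ).card ≤
      (Finset.Icc (⌊-c / δ⌋ - 1) (⌊-c / δ⌋ + 1)).card := by
    refine Finset.card_le_card_of_injOn (fun u : ℕ => (u : ℤ)) ?_ ?_
    · intro u hu
      simp only [Finset.coe_filter, Set.mem_ofPred_eq] at hu
      have h1 := abs_lt.1 hu.2
      have e1 : (u : ℝ) < -c / δ + 1 := by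
        have : -c / δ + 1 = (-c + δ) / δ := by field_simp
        rw [this, lt_div_iff₀ hδ]; linarith [h1.2]
      have e2 : -c / δ - 1 < (u : ℝ) := by
        have : -c / δ - 1 = (-c - δ) / δ := by field_simp
        rw [this, div_lt_iff₀ hδ]; linarith [h1.1]
      have f1 := Int.floor_le (-c / δ)
      have f2 := Int.lt_floor_add_one (-c / δ)
      simp only [Finset.coe_Icc, Set.mem_Icc]
      constructor
      · have : ((⌊-c / δ⌋ - 1 : ℤ) : ℝ) ≤ ((u : ℤ) : ℝ) := by push_cast; linarith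
        exact_mod_cast this
      · have : ((u : ℤ) : ℝ) < ((⌊-c / δ⌋ + 1 + 1 : ℤ) : ℝ) := by push_cast; linarith
        have : (u : ℤ) < ⌊-c / δ⌋ + 1 + 1 := by exact_mod_cast this
        omega
    · intro a _ b _ hab
      have hab' : (a : ℤ) = (b : ℤ) := hab
      exact_mod_cast hab'
  rw [Int.card_Icc] at h
  have e : ⌊-c / δ⌋ + 1 + 1 - (⌊-c / δ⌋ - 1) = 3 := by ring
  rw [e] at h
  exact h

/-- Averaging over the starting height. -/
theorem good_height {ι : Type} (S : Finset ι) (h0 : ι → ℝ) (U k : ℕ) (hU : 0 < U) {δ : ℝ}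
    (hδ : 0 < δ) (b : ℕ → ℝ) : ∃ u < U,
      U * ∑ i ∈ Finset.range k, (S.filter fun s => |b i + u * δ - h0 s| < δ).card ≤
        3 * k * S.card := by
  classical
  have h1 : ∀ i, ∑ u ∈ Finset.range U, (S.filter fun s => |b i + (u : ℕ) * δ - h0 s| < δ).card ≤
      3 * S.card := by
    intro i
    simp only [Finset.card_filter]
    rw [Finset.sum_comm]
    calc _ ≤ ∑ _s ∈ S, 3 := by
          refine Finset.sum_le_sum fun s _ => ?_
          rw [← Finset.card_filter]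
          have := card_near U hδ (b i - h0 s)
          refine le_trans (le_of_eq ?_) this
          congr 1
          ext u
          simp only [Finset.mem_filter]
          rw [show b i + (u : ℝ) * δ - h0 s = b i - h0 s + u * δ by ring]
      _ = 3 * S.card := by simp [mul_comm]
  have h2 : ∑ u ∈ Finset.range U, ∑ i ∈ Finset.range k,
      (S.filter fun s => |b i + (u : ℕ) * δ - h0 s| < δ).card ≤ 3 * k * S.card := by
    rw [Finset.sum_comm]
    calc _ ≤ ∑ _i ∈ Finset.range k, 3 * S.card := Finset.sum_le_sum fun i _ => h1 i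
      _ = 3 * k * S.card := by simp; ring
  obtain ⟨u, hu, hmin⟩ := Finset.exists_min_image (Finset.range U) (fun u : ℕ =>
    ∑ i ∈ Finset.range k, (S.filter fun s => |b i + (u : ℕ) * δ - h0 s| < δ).card)
    ⟨0, Finset.mem_range.2 hU⟩
  refine ⟨u, Finset.mem_range.1 hu, le_trans ?_ h2⟩
  calc _ = ∑ _v ∈ Finset.range U, ∑ i ∈ Finset.range k,
        (S.filter fun s => |b i + (u : ℕ) * δ - h0 s| < δ).card := by simp
    _ ≤ _ := Finset.sum_le_sum fun v hv => hmin v hv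

/-- A popular fibre. -/
theorem popular {β : Type} (D : Finset β) (f : β → ℤ) (J : ℕ)
    (hf : ∀ w ∈ D, f w ∈ Finset.Icc (-(J : ℤ)) J) :
    ∃ j : ℤ, D.card ≤ (2 * J + 1) * (D.filter fun w => f w = j).card := by
  classical
  obtain ⟨j, -, hmax⟩ := Finset.exists_max_image (Finset.Icc (-(J : ℤ)) J)
    (fun j => (D.filter fun w => f w = j).card) ⟨0, by simp⟩
  refine ⟨j, ?_⟩
  rw [Finset.card_eq_sum_card_fiberwise hf]
  calc _ ≤ ∑ _i ∈ Finset.Icc (-(J : ℤ)) J, (D.filter fun w => f w = j).card :=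
        Finset.sum_le_sum fun i hi => hmax i hi
    _ = _ := by
        rw [Finset.sum_const, Int.card_Icc, smul_eq_mul]
        congr 1
        omega

/-- Bounded sets in `ℝ^(n+1)` with a unit segment in every direction need at least
`c δ ^ (-(1 + n / α))` balls of radius `δ`. -/
theorem kakeya_cover {α C : ℝ} {k : ℕ} (hSD : SDfin α C k) (hα : 0 < α) (hC : 0 < C) (hk : 0 < k)
    (n : ℕ) (K : Set (EuclideanSpace ℝ (Fin (n + 1)))) (hK : Bornology.IsBounded K)
    (hdir : ∀ e : EuclideanSpace ℝ (Fin (n + 1)), ‖e‖ = 1 →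
      ∃ a, ∀ t ∈ Set.Icc (0 : ℝ) 1, a + t • e ∈ K) :
    ∃ c : ℝ, 0 < c ∧ ∀ δ : ℝ, 0 < δ → ∀ S : Finset (EuclideanSpace ℝ (Fin (n + 1))),
      K ⊆ (⋃ x ∈ S, Metric.ball x δ) → c * δ ^ (-(1 + (n : ℝ) / α)) ≤ (S.card : ℝ) := by
  classical
  obtain ⟨R, hR⟩ := hK.exists_norm_le
  set τ : ℝ := 1 / (n + 1) / 2 with hτ
  have hτ0 : 0 < τ := by positivity
  have hk0 : (0 : ℝ) < k := by exact_mod_cast hk
  set d : ℝ := τ / (2 * k) with hd
  have hd0 : 0 < d := by positivity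
  set J : ℕ := ⌈R / τ⌉₊ with hJ
  refine ⟨(d ^ n / (2 * J + 1) / C) ^ (1 / α) / (5 ^ n * (6 * k / τ)), by positivity,
    fun δ hδ S hS => ?_⟩
  have hy : ∀ w ∈ grid n (d / δ), ∀ j, 0 ≤ δ / d * w j ∧ δ / d * w j ≤ 1 := by
    intro w hw j
    have := mem_grid hw j
    refine ⟨mul_nonneg (by positivity) this.1, ?_⟩
    have h2 := this.2
    rw [le_div_iff₀ hδ] at h2
    rw [div_mul_eq_mul_div, div_le_one hd0]
    linarith
  have hex : ∀ w : Fin n → ℤ, ∃ a : EuclideanSpace ℝ (Fin (n + 1)), w ∈ grid n (d / δ) →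
      ∀ s : ℝ, 0 ≤ s → s ≤ 1 / (n + 1) → a + s • dirv (fun j => δ / d * w j) ∈ K := by
    intro w
    by_cases hw : w ∈ grid n (d / δ)
    · obtain ⟨a, ha⟩ := seg hdir _ (hy w hw)
      exact ⟨a, fun _ => ha⟩
    · exact ⟨0, fun h => absurd h hw⟩
  choose a ha using hex
  obtain ⟨j0, hj0⟩ := popular (grid n (d / δ)) (fun w => ⌈a w 0 / τ⌉) J (by
    intro w hw
    have h1 := hR _ (ha w hw 0 le_rfl (by positivity))
    rw [zero_smul, add_zero] at h1
    have h2 : |a w 0| ≤ R := le_trans (by simpa using PiLp.norm_apply_le (a w) 0) h1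
    have h3 := abs_le.1 h2
    have h4 : R / τ ≤ (J : ℝ) := Nat.le_ceil _
    rw [div_le_iff₀ hτ0] at h4
    rw [Finset.mem_Icc]
    constructor
    · rw [Int.le_ceil_iff]
      push_cast
      rw [lt_div_iff₀ hτ0]; nlinarith
    · rw [Int.ceil_le]
      push_cast
      rw [div_le_iff₀ hτ0]; linarith)
  set D := (grid n (d / δ)).filter fun w => ⌈a w 0 / τ⌉ = j0 with hD
  set U : ℕ := ⌊τ / (2 * δ)⌋₊ + 1 with hU
  obtain ⟨u, hu, hgood⟩ := good_height S (fun s => s 0) U k (Nat.succ_pos _) hδ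
    (fun i => j0 * τ + i * d)
  set N := ∑ i ∈ Finset.range k, (S.filter fun s => |j0 * τ + i * d + u * δ - s 0| < δ).card
    with hN
  have huδ : u * δ ≤ τ / 2 := by
    have h1 : (u : ℝ) ≤ ⌊τ / (2 * δ)⌋₊ := by exact_mod_cast Nat.lt_succ_iff.1 hu
    have h2 : (⌊τ / (2 * δ)⌋₊ : ℝ) ≤ τ / (2 * δ) := Nat.floor_le (by positivity)
    have h3 := h1.trans h2
    rw [le_div_iff₀ (by positivity)] at h3
    linarith
  have key := core hSD hδ D
    (fun w j => a w j.succ + (j0 * τ + u * δ - a w 0) * (δ / d * w j))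
    (fun i => S.filter fun s => |j0 * τ + i * d + u * δ - s 0| < δ) (fun s j => s j.succ) N
    (fun i hi => Finset.single_le_sum
      (f := fun i : ℕ => (S.filter fun s => |j0 * τ + i * d + u * δ - s 0| < δ).card)
      (fun _ _ => Nat.zero_le _) (Finset.mem_range.2 hi)) (by
      intro w hw i hi
      obtain ⟨hw1, hw2⟩ := Finset.mem_filter.1 hw
      have c1 : a w 0 / τ ≤ j0 := by rw [← hw2]; exact Int.le_ceil _
      have c2 : (j0 : ℝ) < a w 0 / τ + 1 := by rw [← hw2]; exact Int.ceil_lt_add_one _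
      rw [div_le_iff₀ hτ0] at c1
      have c3 : j0 * τ < a w 0 + τ := by
        have : a w 0 / τ + 1 = (a w 0 + τ) / τ := by field_simp
        rwa [this, lt_div_iff₀ hτ0] at c2
      have c4 : i * d ≤ τ / 2 := by
        have h1 : (i : ℝ) ≤ k := by exact_mod_cast hi.le
        have h2 : k * d = τ / 2 := by rw [hd]; field_simp
        nlinarith
      have c5 : 0 ≤ i * d := by positivity
      have c6 : 0 ≤ u * δ := by positivity
      have h1 := hS (ha w hw1 (j0 * τ + i * d + u * δ - a w 0) (by linarith) (by linarith))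
      simp only [Set.mem_iUnion] at h1
      obtain ⟨s, hs, h2⟩ := h1
      refine ⟨s, Finset.mem_filter.2 ⟨hs, ?_⟩, fun j => ?_⟩
      · have := abs_coord_lt h2 0
        simp only [PiLp.add_apply, PiLp.smul_apply, dirv_zero, smul_eq_mul, mul_one] at this
        rwa [show a w 0 + (j0 * τ + i * d + u * δ - a w 0) - s 0 =
          j0 * τ + i * d + u * δ - s 0 by ring] at this
      · have := abs_coord_lt h2 j.succ
        simp only [PiLp.add_apply, PiLp.smul_apply, dirv_succ, smul_eq_mul] at this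
        rwa [show a w j.succ + (j0 * τ + i * d + u * δ - a w 0) * (δ / d * w j) - s j.succ =
          a w j.succ + (j0 * τ + u * δ - a w 0) * (δ / d * w j) + i * (δ * w j) - s j.succ by
            field_simp; ring] at this)
  have h1 := le_card_grid n (L := d / δ) (by positivity)
  have h2 : ((grid n (d / δ)).card : ℝ) ≤ (2 * J + 1) * D.card := by exact_mod_cast hj0
  have h3 : (N : ℝ) ≤ 6 * k / τ * δ * S.card := by
    have e1 : (U : ℝ) * N ≤ 3 * k * S.card := by exact_mod_cast hgood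
    have e2 : τ / (2 * δ) ≤ U := by
      rw [hU]; push_cast; exact (Nat.lt_floor_add_one _).le
    have e3 : τ / (2 * δ) * N ≤ 3 * k * S.card :=
      le_trans (mul_le_mul_of_nonneg_right e2 (Nat.cast_nonneg _)) e1
    have e4 : (N : ℝ) = τ / (2 * δ) * N * (2 * δ / τ) := by field_simp
    rw [e4]
    calc _ ≤ 3 * k * S.card * (2 * δ / τ) := mul_le_mul_of_nonneg_right e3 (by positivity)
      _ = _ := by ring
  have h4 : (d / δ) ^ n / (2 * J + 1) ≤ C * ((5 ^ n * (6 * k / τ) * δ) * S.card) ^ α := by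
    rw [div_le_iff₀ (by positivity)]
    have e1 : (((5 ^ n * N : ℕ) : ℝ)) ^ α ≤ ((5 ^ n * (6 * k / τ) * δ) * S.card) ^ α := by
      refine Real.rpow_le_rpow (Nat.cast_nonneg _) ?_ hα.le
      push_cast
      calc (5 : ℝ) ^ n * N ≤ 5 ^ n * (6 * k / τ * δ * S.card) :=
            mul_le_mul_of_nonneg_left h3 (by positivity)
        _ = _ := by ring
    have e2 := key.trans (mul_le_mul_of_nonneg_left e1 hC.le)
    calc (d / δ) ^ n ≤ (2 * J + 1) * D.card := h1.trans h2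
      _ ≤ (2 * J + 1) * (C * ((5 ^ n * (6 * k / τ) * δ) * S.card) ^ α) :=
          mul_le_mul_of_nonneg_left e2 (by positivity)
      _ = _ := by ring
  have h5 := solve hα hC (by positivity) (by positivity) (by positivity) h4
  refine le_trans (le_of_eq ?_) h5
  have e : ((d / δ) ^ n / (2 * J + 1) / C) ^ (1 / α) =
      (d ^ n / (2 * J + 1) / C) ^ (1 / α) * δ ^ (-((n : ℝ) / α)) := by
    rw [show (d / δ) ^ n / (2 * J + 1) / C = d ^ n / (2 * J + 1) / C * (δ ^ (-(n : ℝ))) by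
      rw [Real.rpow_neg hδ.le, Real.rpow_natCast, div_pow]; ring]
    rw [Real.mul_rpow (by positivity) (by positivity), ← Real.rpow_mul hδ.le]
    congr 2; ring
  have e' : δ ^ (-(1 + (n : ℝ) / α)) = δ ^ (-((n : ℝ) / α)) / δ := by
    rw [show -(1 + (n : ℝ) / α) = -((n : ℝ) / α) - 1 by ring, Real.rpow_sub_one hδ.ne']
  rw [e, e']
  field_simp

end Pool.Agent.MP_5168f5_an.H19
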