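import Pool.Agent.MP_5168f5_an.H19.Core

/-! The probability space of corners and its entropies. -/

namespace Pool.Agent.MP_5168f5_an.H19

open Finset Setoid

/-- Lines with three shadings of equal size. -/
structure Dat (m : ℕ) where
  Q : ℕ
  l : ℕ
  G : Finset (Line m)
  Y : Fin 3 → Line m → Finset ℕ
  A : ℕ → Finset (Fin m → ℤ)
  N : ℝ
  hne : G.Nonempty
  hl : 0 < l
  hY : ∀ g ∈ G, ∀ a, (Y a g).card = l
  hlt : ∀ g ∈ G, ∀ a, ∀ r ∈ Y a g, r < Q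
  hA : ∀ g ∈ G, ∀ a, ∀ r ∈ Y a g, cell g r ∈ A r
  hN : ∀ r, ((A r).card : ℝ) ≤ N

theorem bot_rel {Ω : Type} {a b : Ω} : (⊥ : Setoid Ω) a b ↔ a = b := by simp

theorem bot_prod {Ω β : Type} (x y : Ω × β) :
    (⊥ : Setoid (Ω × β)) x y ↔ (⊥ : Setoid Ω) x.1 y.1 ∧ x.2 = y.2 := by
  rw [bot_rel, bot_rel, Prod.ext_iff]

namespace Dat

variable {m : ℕ} (D : Dat m)

theorem Yne {g : Line m} (hg : g ∈ D.G) (a : Fin 3) : (D.Y a g).Nonempty :=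
  Finset.card_pos.1 (by rw [D.hY g hg a]; exact D.hl)

open Classical in
/-- Lines shaded at height `r` through the same cell as `g`. -/
noncomputable def fib (a : Fin 3) (g : Line m) (r : ℕ) : Finset (Line m) :=
  D.G.filter fun k => r ∈ D.Y a k ∧ cell k r = cell g r

theorem mem_fib {a : Fin 3} {g k : Line m} {r : ℕ} :
    k ∈ D.fib a g r ↔ k ∈ D.G ∧ r ∈ D.Y a k ∧ cell k r = cell g r := by
  unfold fib; rw [Finset.mem_filter]

theorem fib_congr {a : Fin 3} {g g' : Line m} {r r' : ℕ} (h1 : r = r')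
    (h2 : cell g r = cell g' r') : D.fib a g r = D.fib a g' r' := by
  subst h1
  ext k
  rw [mem_fib, mem_fib, h2]

theorem fib_ne {a : Fin 3} {g : Line m} {r : ℕ} (hg : g ∈ D.G) (hr : r ∈ D.Y a g) :
    (D.fib a g r).Nonempty := ⟨g, D.mem_fib.2 ⟨hg, hr, rfl⟩⟩

noncomputable def P1 : FP (Line m) := FP.unif D.G D.hne

theorem mem1 {x : Line m} : x ∈ D.P1.S ↔ x ∈ D.G := Iff.rfl

noncomputable def P2 (a : Fin 3) : FP (Line m × ℕ) :=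
  D.P1.ext (fun g => D.Y a g) fun _ hg => D.Yne (D.mem1.1 hg) a

theorem mem2 {a : Fin 3} {x} : x ∈ (D.P2 a).S ↔ x.1 ∈ D.G ∧ x.2 ∈ D.Y a x.1 := FP.mem_ext _ _ _ _

noncomputable def P3 (a b : Fin 3) : FP ((Line m × ℕ) × ℕ) :=
  (D.P2 a).ext (fun x => D.Y b x.1) fun _ hx => D.Yne (D.mem2.1 hx).1 b

theorem mem3 {a b : Fin 3} {x} : x ∈ (D.P3 a b).S ↔ x.1 ∈ (D.P2 a).S ∧ x.2 ∈ D.Y b x.1.1 :=
  FP.mem_ext _ _ _ _

noncomputable def P4 (a b : Fin 3) : FP (((Line m × ℕ) × ℕ) × Line m) :=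
  (D.P3 a b).ext (fun x => D.fib a x.1.1 x.1.2) fun _ hx =>
    D.fib_ne (D.mem2.1 (D.mem3.1 hx).1).1 (D.mem2.1 (D.mem3.1 hx).1).2

theorem mem4 {a b : Fin 3} {x} :
    x ∈ (D.P4 a b).S ↔ x.1 ∈ (D.P3 a b).S ∧ x.2 ∈ D.fib a x.1.1.1 x.1.1.2 := FP.mem_ext _ _ _ _

noncomputable def P5 (a b c : Fin 3) : FP ((((Line m × ℕ) × ℕ) × Line m) × ℕ) :=
  (D.P4 a b).ext (fun x => D.Y c x.2) fun _ hx => D.Yne (D.mem_fib.1 (D.mem4.1 hx).2).1 c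

theorem mem5 {a b c : Fin 3} {x} : x ∈ (D.P5 a b c).S ↔ x.1 ∈ (D.P4 a b).S ∧ x.2 ∈ D.Y c x.1.2 :=
  FP.mem_ext _ _ _ _

theorem mem5' {a b c : Fin 3} {x} (hx : x ∈ (D.P5 a b c).S) :
    x.1.1.1.1 ∈ D.G ∧ x.1.1.1.2 ∈ D.Y a x.1.1.1.1 ∧ x.1.1.2 ∈ D.Y b x.1.1.1.1 ∧
      x.1.2 ∈ D.fib a x.1.1.1.1 x.1.1.1.2 ∧ x.2 ∈ D.Y c x.1.2 := by
  have h5 := D.mem5.1 hx
  have h4 := D.mem4.1 h5.1
  have h3 := D.mem3.1 h4.1
  have h2 := D.mem2.1 h3.1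
  exact ⟨h2.1, h2.2, h3.2, h4.2, h5.2⟩

noncomputable def P6 (a b c : Fin 3) : FP (((((Line m × ℕ) × ℕ) × Line m) × ℕ) × Line m) :=
  (D.P5 a b c).ext (fun x => D.fib b x.1.1.1.1 x.1.1.2) fun _ hx =>
    D.fib_ne (D.mem5' hx).1 (D.mem5' hx).2.2.1

theorem mem6 {a b c : Fin 3} {x} :
    x ∈ (D.P6 a b c).S ↔ x.1 ∈ (D.P5 a b c).S ∧ x.2 ∈ D.fib b x.1.1.1.1.1 x.1.1.1.2 :=
  FP.mem_ext _ _ _ _

noncomputable def P7 (a b c : Fin 3) : FP ((((((Line m × ℕ) × ℕ) × Line m) × ℕ) × Line m) × ℕ) :=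
  (D.P6 a b c).ext (fun x => D.Y a x.2) fun _ hx => D.Yne (D.mem_fib.1 (D.mem6.1 hx).2).1 a

theorem mem7 {a b c : Fin 3} {x} :
    x ∈ (D.P7 a b c).S ↔ x.1 ∈ (D.P6 a b c).S ∧ x.2 ∈ D.Y a x.1.2 := FP.mem_ext _ _ _ _

noncomputable def P8 (a b c : Fin 3) :
    FP (((((((Line m × ℕ) × ℕ) × Line m) × ℕ) × Line m) × ℕ) × ℕ) :=
  (D.P7 a b c).ext (fun x => D.Y b x.1.1.1.2) fun _ hx =>
    D.Yne (D.mem_fib.1 (D.mem5' (D.mem6.1 (D.mem7.1 hx).1).1).2.2.2.1).1 b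

theorem mem8 {a b c : Fin 3} {x} :
    x ∈ (D.P8 a b c).S ↔ x.1 ∈ (D.P7 a b c).S ∧ x.2 ∈ D.Y b x.1.1.1.1.2 := FP.mem_ext _ _ _ _

/-- The sample space of the step. -/
abbrev Om (m : ℕ) : Type := (((((((Line m × ℕ) × ℕ) × Line m) × ℕ) × Line m) × ℕ) × ℕ) × ℕ

noncomputable def P9 (a b c : Fin 3) : FP (Om m) :=
  (D.P8 a b c).ext (fun x => D.Y c x.1.1.1.1.1.1.1) fun _ hx =>
    D.Yne (D.mem5' (D.mem6.1 (D.mem7.1 (D.mem8.1 hx).1).1).1).1 c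

theorem mem9 {a b c : Fin 3} {x} :
    x ∈ (D.P9 a b c).S ↔ x.1 ∈ (D.P8 a b c).S ∧ x.2 ∈ D.Y c x.1.1.1.1.1.1.1.1 :=
  FP.mem_ext _ _ _ _

/-- Names of the coordinates. -/
def cfg (m : ℕ) : Cfg m (Om m) where
  g2 := fun ω => ω.1.1.1.1.1.1.1.1
  r1 := fun ω => ω.1.1.1.1.1.1.1.2
  r0 := fun ω => ω.1.1.1.1.1.1.2
  g3 := fun ω => ω.1.1.1.1.1.2
  s := fun ω => ω.1.1.1.1.2
  g1 := fun ω => ω.1.1.1.2
  t := fun ω => ω.1.1.2
  r := fun ω => ω.1.2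
  t' := fun ω => ω.2

theorem mem9' {a b c : Fin 3} {ω : Om m} (h : ω ∈ (D.P9 a b c).S) :
    (cfg m).g2 ω ∈ D.G ∧ (cfg m).r1 ω ∈ D.Y a ((cfg m).g2 ω) ∧
    (cfg m).r0 ω ∈ D.Y b ((cfg m).g2 ω) ∧ (cfg m).g3 ω ∈ D.fib a ((cfg m).g2 ω) ((cfg m).r1 ω) ∧
    (cfg m).s ω ∈ D.Y c ((cfg m).g3 ω) ∧ (cfg m).g1 ω ∈ D.fib b ((cfg m).g2 ω) ((cfg m).r0 ω) ∧
    (cfg m).t ω ∈ D.Y a ((cfg m).g1 ω) ∧ (cfg m).r ω ∈ D.Y b ((cfg m).g3 ω) ∧
    (cfg m).t' ω ∈ D.Y c ((cfg m).g2 ω) := by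
  have h9 := D.mem9.1 h
  have h8 := D.mem8.1 h9.1
  have h7 := D.mem7.1 h8.1
  have h6 := D.mem6.1 h7.1
  have h5 := D.mem5' h6.1
  exact ⟨h5.1, h5.2.1, h5.2.2.1, h5.2.2.2.1, h5.2.2.2.2, h6.2, h7.2, h8.2, h9.2⟩

theorem E2 (a : Fin 3) (F) : (D.P2 a).E F = D.P1.E fun g => avg (D.Y a g) fun r => F (g, r) :=
  FP.E_ext _ _ _ _

theorem E3 (a b : Fin 3) (F) :
    (D.P3 a b).E F = (D.P2 a).E fun x => avg (D.Y b x.1) fun r => F (x, r) := FP.E_ext _ _ _ _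

theorem E4 (a b : Fin 3) (F) :
    (D.P4 a b).E F = (D.P3 a b).E fun x => avg (D.fib a x.1.1 x.1.2) fun r => F (x, r) :=
  FP.E_ext _ _ _ _

theorem E5 (a b c : Fin 3) (F) :
    (D.P5 a b c).E F = (D.P4 a b).E fun x => avg (D.Y c x.2) fun r => F (x, r) := FP.E_ext _ _ _ _

theorem E6 (a b c : Fin 3) (F) :
    (D.P6 a b c).E F = (D.P5 a b c).E fun x => avg (D.fib b x.1.1.1.1 x.1.1.2) fun r => F (x, r) :=
  FP.E_ext _ _ _ _

theorem E7 (a b c : Fin 3) (F) :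
    (D.P7 a b c).E F = (D.P6 a b c).E fun x => avg (D.Y a x.2) fun r => F (x, r) := FP.E_ext _ _ _ _

theorem E8 (a b c : Fin 3) (F) :
    (D.P8 a b c).E F = (D.P7 a b c).E fun x => avg (D.Y b x.1.1.1.2) fun r => F (x, r) :=
  FP.E_ext _ _ _ _

theorem E9 (a b c : Fin 3) (F) :
    (D.P9 a b c).E F = (D.P8 a b c).E fun x => avg (D.Y c x.1.1.1.1.1.1.1) fun r => F (x, r) :=
  FP.E_ext _ _ _ _

/-- Mean log size of the fibres. -/
noncomputable def phi (a : Fin 3) : ℝ := (D.P2 a).E fun x => Real.log (D.fib a x.1 x.2).card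

/-- The pair entropy of type `(a; b, c)`. -/
noncomputable def zeta (a b c : Fin 3) : ℝ := (D.P5 a b c).H
  (ker fun x => (cell x.1.1.1.1 x.1.1.2, cell x.1.2 x.2, x.1.1.1.2, x.1.1.2, x.2))

theorem E_logY {Ω : Type} (P : FP Ω) (g : Ω → Line m) (hg : ∀ ω ∈ P.S, g ω ∈ D.G) (a : Fin 3) :
    (P.E fun ω => Real.log (D.Y a (g ω)).card) = Real.log D.l := by
  rw [← P.E_const (Real.log D.l)]
  exact P.E_congr fun ω hω => by rw [D.hY _ (hg ω hω)]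

theorem H2 (a : Fin 3) : (D.P2 a).H ⊥ = Real.log D.G.card + Real.log D.l := by
  unfold P2
  rw [FP.H_ext_new _ _ _ ⊥ ⊥ bot_prod (fun x _ y _ h => by rw [bot_rel.1 h]),
    D.E_logY D.P1 (fun g => g) (fun _ h => h)]
  unfold P1
  rw [FP.H_unif]

theorem phi_ge (a : Fin 3) :
    Real.log D.G.card + Real.log D.l - Real.log D.Q - Real.log D.N ≤ D.phi a := by
  have h1 := (D.P2 a).count ⊥ (ker fun x => (cell x.1 x.2, x.2)) (fun x => x.1)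
    (fun x => ((D.fib a x.1 x.2).card : ℝ)) (by
      intro x _ y _ h1 h2
      simp only [ker_def, Prod.mk.injEq] at h1
      exact bot_rel.2 (Prod.ext h2 h1.2)) (by
      intro x _ y _ h1
      simp only [ker_def, Prod.mk.injEq] at h1
      rw [D.fib_congr h1.2 h1.1]) (by
      intro x _
      refine ⟨D.fib a x.1 x.2, le_rfl, fun y hy h1 => ?_⟩
      simp only [ker_def, Prod.mk.injEq] at h1
      rw [← D.fib_congr h1.2 h1.1]
      exact D.mem_fib.2 ⟨(D.mem2.1 hy).1, (D.mem2.1 hy).2, rfl⟩)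
  have h2 := (D.P2 a).slice_count (ker fun x => (cell x.1 x.2, x.2)) (ker fun x => x.2)
    (fun x => cell x.1 x.2) (fun x => x.2) D.A D.N D.hN (by
      intro x _ y _ h1 h2
      simp only [ker_def, Prod.mk.injEq] at h1 ⊢
      exact ⟨h2, h1⟩) (fun x _ y _ h => h)
      (fun x hx => D.hA _ (D.mem2.1 hx).1 a _ (D.mem2.1 hx).2)
  have h3 := (D.P2 a).height_count (ker fun x => x.2) ⊤ (fun x => x.2) D.Q
    (fun x _ y _ _ h => h) (fun x hx => D.hlt _ (D.mem2.1 hx).1 a _ (D.mem2.1 hx).2)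
  rw [FP.H_top] at h3
  rw [D.H2] at h1
  unfold phi
  linarith

variable (a b c : Fin 3)

theorem H3 : (D.P3 a b).H ⊥ = Real.log D.G.card + 2 * Real.log D.l := by
  unfold P3
  rw [FP.H_ext_new _ _ _ ⊥ ⊥ bot_prod (fun x _ y _ h => by rw [bot_rel.1 h]),
    D.E_logY (D.P2 a) (fun x => x.1) (fun _ h => (D.mem2.1 h).1), D.H2]
  ring

theorem E3_phi : ((D.P3 a b).E fun x => Real.log (D.fib a x.1.1 x.1.2).card) = D.phi a :=
  FP.E_ext_fst _ _ _ fun x : Line m × ℕ => Real.log (D.fib a x.1 x.2).card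

theorem E3_snd (F : Line m × ℕ → ℝ) : ((D.P3 a b).E fun x => F (x.1.1, x.2)) = (D.P2 b).E F := by
  rw [E3, E2, E2]
  exact D.P1.E_congr fun g hg => avg_const (D.Yne hg a) (avg (D.Y b g) fun r => F (g, r))

theorem E5_phi : ((D.P5 a b c).E fun x => Real.log (D.fib b x.1.1.1.1 x.1.1.2).card) = D.phi b := by
  have h1 := FP.E_ext_fst (D.P4 a b) (fun x => D.Y c x.2)
    (fun _ hx => D.Yne (D.mem_fib.1 (D.mem4.1 hx).2).1 c)
    fun x => Real.log (D.fib b x.1.1.1 x.1.2).card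
  have h2 := FP.E_ext_fst (D.P3 a b) (fun x => D.fib a x.1.1 x.1.2) (fun _ hx =>
    D.fib_ne (D.mem2.1 (D.mem3.1 hx).1).1 (D.mem2.1 (D.mem3.1 hx).1).2)
    fun x => Real.log (D.fib b x.1.1 x.2).card
  have h3 := D.E3_snd a b fun x => Real.log (D.fib b x.1 x.2).card
  exact h1.trans (h2.trans h3)

theorem H4 : (D.P4 a b).H ⊥ = Real.log D.G.card + 2 * Real.log D.l + D.phi a := by
  unfold P4
  rw [FP.H_ext_new _ _ _ ⊥ ⊥ bot_prod (fun x _ y _ h => by rw [bot_rel.1 h]), D.H3, D.E3_phi]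

theorem H5 : (D.P5 a b c).H ⊥ = Real.log D.G.card + 3 * Real.log D.l + D.phi a := by
  unfold P5
  rw [FP.H_ext_new _ _ _ ⊥ ⊥ bot_prod (fun x _ y _ h => by rw [bot_rel.1 h]), D.H4,
    D.E_logY (D.P4 a b) (fun x => x.2) (fun _ hx => (D.mem_fib.1 (D.mem4.1 hx).2).1)]
  ring

theorem H6 : (D.P6 a b c).H ⊥ = Real.log D.G.card + 3 * Real.log D.l + D.phi a + D.phi b := by
  unfold P6
  rw [FP.H_ext_new _ _ _ ⊥ ⊥ bot_prod (fun x _ y _ h => by rw [bot_rel.1 h]), D.H5, D.E5_phi]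

theorem new7 (R : Setoid _) (R' : Setoid _) (h : ∀ x y, R' x y ↔ R x.1 y.1 ∧ x.2 = y.2)
    (hR : ∀ x y, R x y → x.2 = y.2) : (D.P7 a b c).H R' = (D.P6 a b c).H R + Real.log D.l := by
  unfold P7
  rw [FP.H_ext_new _ _ _ R R' h (fun x _ y _ h => by rw [hR x y h]),
    D.E_logY (D.P6 a b c) (fun x => x.2) (fun _ hx => (D.mem_fib.1 (D.mem6.1 hx).2).1)]

theorem new8 : (D.P8 a b c).H ⊥ = (D.P7 a b c).H ⊥ + Real.log D.l := by
  unfold P8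
  rw [FP.H_ext_new _ _ _ ⊥ ⊥ bot_prod (fun x _ y _ h => by rw [bot_rel.1 h]),
    D.E_logY (D.P7 a b c) (fun x => x.1.1.1.2)
      (fun _ hx => (D.mem_fib.1 (D.mem5' (D.mem6.1 (D.mem7.1 hx).1).1).2.2.2.1).1)]

theorem new9 (R : Setoid _) (R' : Setoid _) (h : ∀ x y, R' x y ↔ R x.1 y.1 ∧ x.2 = y.2)
    (hR : ∀ x y, R x y → x.1.1.1.1.1.1.1 = y.1.1.1.1.1.1.1) :
    (D.P9 a b c).H R' = (D.P8 a b c).H R + Real.log D.l := by
  unfold P9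
  rw [FP.H_ext_new _ _ _ R R' h (fun x _ y _ h => by rw [hR x y h]),
    D.E_logY (D.P8 a b c) (fun x => x.1.1.1.1.1.1.1)
      (fun _ hx => (D.mem5' (D.mem6.1 (D.mem7.1 (D.mem8.1 hx).1).1).1).1)]

theorem old4 (R : Setoid _) : (D.P4 a b).H (comap Prod.fst R) = (D.P3 a b).H R :=
  FP.H_ext_old _ _ _ R _ fun _ _ => Iff.rfl

theorem old5 (R : Setoid _) : (D.P5 a b c).H (comap Prod.fst R) = (D.P4 a b).H R :=
  FP.H_ext_old _ _ _ R _ fun _ _ => Iff.rfl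

theorem old6 (R : Setoid _) : (D.P6 a b c).H (comap Prod.fst R) = (D.P5 a b c).H R :=
  FP.H_ext_old _ _ _ R _ fun _ _ => Iff.rfl

theorem old7 (R : Setoid _) : (D.P7 a b c).H (comap Prod.fst R) = (D.P6 a b c).H R :=
  FP.H_ext_old _ _ _ R _ fun _ _ => Iff.rfl

theorem old8 (R : Setoid _) : (D.P8 a b c).H (comap Prod.fst R) = (D.P7 a b c).H R :=
  FP.H_ext_old _ _ _ R _ fun _ _ => Iff.rfl

theorem old9 (R : Setoid _) (R' : Setoid _) (h : ∀ x y, R' x y ↔ R x.1 y.1) :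
    (D.P9 a b c).H R' = (D.P8 a b c).H R :=
  FP.H_ext_old _ _ _ R R' h

theorem H7 : (D.P7 a b c).H ⊥ = (D.P6 a b c).H ⊥ + Real.log D.l :=
  D.new7 a b c ⊥ ⊥ bot_prod fun x y h => by rw [bot_rel.1 h]

theorem Hall : (D.P9 a b c).H (cfg m).all = (D.P6 a b c).H ⊥ + 3 * Real.log D.l := by
  rw [D.new9 a b c ⊥ (cfg m).all (by
    intro x y
    rw [Cfg.all_rel, bot_rel]
    simp only [cfg, Prod.ext_iff]
    tauto) (fun x y h => by rw [bot_rel.1 h]), D.new8, D.H7]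
  ring

theorem HC2 : (D.P9 a b c).H (ker fun ω => ((cfg m).g1 ω, (cfg m).g2 ω, (cfg m).g3 ω, (cfg m).r0 ω,
    (cfg m).r1 ω, (cfg m).s ω, (cfg m).t ω)) = (D.P6 a b c).H ⊥ + Real.log D.l := by
  rw [D.old9 a b c (comap Prod.fst ⊥) _ (by
    intro x y
    rw [comap_rel, bot_rel, ker_def]
    simp only [cfg, Prod.ext_iff]
    tauto), D.old8, D.H7]

theorem HC3 : (D.P9 a b c).H (ker fun ω => ((cfg m).g1 ω, (cfg m).g2 ω, (cfg m).g3 ω, (cfg m).r0 ω,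
    (cfg m).r1 ω, (cfg m).s ω)) = (D.P6 a b c).H ⊥ := by
  rw [D.old9 a b c (comap Prod.fst (comap Prod.fst ⊥)) _ (by
    intro x y
    rw [comap_rel, comap_rel, bot_rel, ker_def]
    simp only [cfg, Prod.ext_iff]
    tauto), D.old8, D.old7]

theorem H6pair : (D.P6 a b c).H (ker fun x => (x.1.1.1, x.2)) =
    Real.log D.G.card + 2 * Real.log D.l + D.phi b := by
  unfold P6
  rw [FP.H_ext_new _ _ _ (comap Prod.fst (comap Prod.fst ⊥)) _ (by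
    intro x y
    rw [comap_rel, comap_rel, bot_rel, ker_def, Prod.mk.injEq]) (by
    intro x _ y _ h
    rw [comap_rel, comap_rel, bot_rel] at h
    rw [h]), D.old5, D.old4, D.H3, D.E5_phi]

theorem HA1 : (D.P9 a b c).H (ker fun ω => ((cfg m).g1 ω, (cfg m).g2 ω, (cfg m).r0 ω,
    (cfg m).r1 ω)) = Real.log D.G.card + 2 * Real.log D.l + D.phi b := by
  rw [D.old9 a b c (comap Prod.fst (comap Prod.fst (ker fun x => (x.1.1.1, x.2)))) _ (by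
    intro x y
    rw [comap_rel, comap_rel, ker_def, ker_def]
    simp only [cfg, Prod.ext_iff]
    tauto), D.old8, D.old7, D.H6pair]

theorem HA2 : (D.P9 a b c).H (ker fun ω => ((cfg m).g1 ω, (cfg m).g2 ω, (cfg m).r0 ω,
    (cfg m).r1 ω, (cfg m).t ω, (cfg m).t' ω)) =
    Real.log D.G.card + 4 * Real.log D.l + D.phi b := by
  rw [D.new9 a b c (comap Prod.fst (ker fun x => (x.1.1.1.1, x.1.2, x.2))) _ (by
    intro x y
    rw [comap_rel, ker_def, ker_def]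
    simp only [cfg, Prod.ext_iff]
    tauto) (by
    intro x y h
    rw [comap_rel, ker_def] at h
    simp only [Prod.mk.injEq] at h
    rw [h.1]), D.old8, D.new7 a b c (ker fun x => (x.1.1.1, x.2)) _ (by
    intro x y
    rw [ker_def, ker_def]
    simp only [Prod.mk.injEq]
    tauto) (by
    intro x y h
    rw [ker_def] at h
    simp only [Prod.mk.injEq] at h
    exact h.2), D.H6pair]
  ring

theorem Hzc : (D.P9 a b c).H (ker fun ω => (cell ((cfg m).g2 ω) ((cfg m).r0 ω),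
    cell ((cfg m).g3 ω) ((cfg m).s ω), (cfg m).r1 ω, (cfg m).r0 ω, (cfg m).s ω)) =
    D.zeta a b c := by
  rw [D.old9 a b c (comap Prod.fst (comap Prod.fst (comap Prod.fst (ker fun x =>
    (cell x.1.1.1.1 x.1.1.2, cell x.1.2 x.2, x.1.1.1.2, x.1.1.2, x.2))))) _
    (fun x y => Iff.rfl), D.old8, D.old7, D.old6]
  rfl

theorem HD : D.zeta a b c + D.phi b ≤ (D.P9 a b c).H (ker fun ω => ((cfg m).g1 ω,
    cell ((cfg m).g3 ω) ((cfg m).s ω), (cfg m).r0 ω, (cfg m).r1 ω, (cfg m).s ω)) := by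
  have h1 : (D.P6 a b c).H (ker fun x => (x.2, cell x.1.1.1.1.1 x.1.1.1.2, cell x.1.1.2 x.1.2,
      x.1.1.1.1.2, x.1.1.1.2, x.1.2)) = D.zeta a b c + D.phi b := by
    unfold P6
    rw [FP.H_ext_new _ _ _
      (ker fun x => (cell x.1.1.1.1 x.1.1.2, cell x.1.2 x.2, x.1.1.1.2, x.1.1.2, x.2)) _ (by
      intro x y
      rw [ker_def, ker_def]
      simp only [Prod.mk.injEq]
      tauto) (by
      intro x _ y _ h
      rw [ker_def] at h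
      simp only [Prod.mk.injEq] at h
      exact D.fib_congr h.2.2.2.1 h.1), D.E5_phi]
    rfl
  rw [← h1, ← D.old7, ← D.old8, ← D.old9 a b c _ (comap Prod.fst _) (fun x y => Iff.rfl)]
  refine FP.H_mono _ fun x hx y hy h => ?_
  rw [comap_rel, comap_rel, comap_rel, ker_def]
  rw [ker_def] at h
  have hx1 := (D.mem_fib.1 (D.mem9' hx).2.2.2.2.2.1).2.2
  have hy1 := (D.mem_fib.1 (D.mem9' hy).2.2.2.2.2.1).2.2
  simp only [cfg, Prod.mk.injEq] at h hx1 hy1 ⊢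
  obtain ⟨e1, e2, e3, e4, e5⟩ := h
  refine ⟨e1, ?_, e2, e4, e3, e5⟩
  rw [← hx1, ← hy1, e1, e3]

theorem E9_pivot (F : (((Line m × ℕ) × ℕ) × Line m) × ℕ → ℝ) :
    ((D.P9 a b c).E fun ω => F (((((cfg m).g2 ω, (cfg m).r0 ω), (cfg m).t' ω), (cfg m).g1 ω),
      (cfg m).t ω)) = (D.P5 b c a).E F := by
  simp only [E9, E8, E7, E6, E5, E4, E3, E2, cfg]
  refine D.P1.E_congr fun g2 hg2 => ?_
  rw [← avg_const (D.Yne hg2 a) (avg (D.Y b g2) _)]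
  refine avg_congr fun r1 hr1 => avg_congr fun r0 hr0 => ?_
  rw [← avg_const (D.fib_ne hg2 hr1) (avg (D.Y c g2) _)]
  refine avg_congr fun g3 hg3 => ?_
  have hg3' := (D.mem_fib.1 hg3).1
  rw [← avg_const (D.Yne hg3' c) (avg (D.Y c g2) _)]
  refine avg_congr fun s _ => ?_
  refine Eq.trans ?_ (avg_comm _ _ _)
  refine avg_congr fun g1 _ => ?_
  refine Eq.trans ?_ (avg_comm _ _ _)
  refine avg_congr fun t _ => ?_
  exact avg_const (D.Yne hg3' b) _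

theorem HE : (D.P9 a b c).H (ker fun ω => (cell ((cfg m).g2 ω) ((cfg m).t' ω),
    cell ((cfg m).g1 ω) ((cfg m).t ω), (cfg m).r0 ω, (cfg m).t' ω, (cfg m).t ω)) =
    D.zeta b c a := by
  unfold zeta
  rw [← (D.P9 a b c).push (D.P5 b c a) _ (D.E9_pivot a b c)]
  rfl

end Dat

end Pool.Agent.MP_5168f5_an.H19
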