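import Pool.Agent.MP_5168f5_an.H19.XEnt

/-! The ingredients of the pivot and corner inequalities, separately. -/

namespace Pool.Agent.MP_5168f5_an.H19

open Finset Setoid

variable {m : ℕ} {Ω : Type}

section

variable {Q K : ℕ} {G : Finset (Line m)} {A : ℕ → Finset (Fin m → ℤ)} {c : Cfg m Ω} {P : FP Ω}
  (hQ : 0 < Q) (hK : 0 < K) (hG : Sep Q G) (hbox : ∀ g ∈ G, ∀ j, |g.1 j| ≤ Q)
  (hc : ∀ ω ∈ P.S, c.Good Q K G A ω)

include hQ hK hc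

theorem kb_abs {ω : Ω} (hω : ω ∈ P.S) : 1 / (2 * (K : ℝ)) ≤ |(c.kb Q K ω : ℝ) / den Q K| ∧
    |(c.kb Q K ω : ℝ) / den Q K| ≤ (K : ℝ) ^ 2 + 1 := by
  have hQ1 : (1 : ℝ) ≤ Q := by exact_mod_cast hQ
  have hK1 : (1 : ℝ) ≤ K := by exact_mod_cast hK
  have h1 := kb_round hQ hK hc (ω := ω)
  have h2 := c0_le hQ hK hc hω
  have h3 := inv_den_le hQ1 hK1
  have h4 : 1 / (2 * (K : ℝ) * Q) ≤ 1 / (2 * K) :=
    one_div_le_one_div_of_le (by positivity) (by nlinarith)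
  have h5 : 1 / (2 * (K : ℝ)) ≤ 1 := by
    rw [div_le_one (by positivity)]; linarith
  have h6 : 1 / (K : ℝ) ≤ |c.c0 Q ω| :=
    le_abs_cs hQ1 hK1 (hc ω hω).f1 (hc ω hω).f2 (hc ω hω).f3
  have h7 : 1 / (K : ℝ) = 1 / (2 * K) + 1 / (2 * K) := by field_simp; ring
  have h8 := abs_add_le ((c.kb Q K ω : ℝ) / den Q K - c.c0 Q ω) (c.c0 Q ω)
  have h9 := abs_sub ((c.kb Q K ω : ℝ) / den Q K) ((c.kb Q K ω : ℝ) / den Q K - c.c0 Q ω)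
  rw [sub_add_cancel] at h8
  rw [sub_sub_cancel] at h9
  constructor <;> linarith

theorem kc_low {ω : Ω} (hω : ω ∈ P.S) :
    1 / (2 * (K : ℝ) ^ 2) ≤ |(c.kc Q K ω : ℝ) / den Q K| := by
  have hQ1 : (1 : ℝ) ≤ Q := by exact_mod_cast hQ
  have hK1 : (1 : ℝ) ≤ K := by exact_mod_cast hK
  have h1 := kc_round hQ hK hc (ω := ω)
  have h3 : 1 / den (Q : ℝ) K ≤ 1 / (2 * (K : ℝ) ^ 2) := by
    unfold den
    refine one_div_le_one_div_of_le (by positivity) ?_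
    have : 0 ≤ 2 * (K : ℝ) ^ 2 * (Q - 1) := mul_nonneg (by positivity) (by linarith)
    linarith
  have h6 : 1 / (K : ℝ) ≤ |c.c0 Q ω| :=
    le_abs_cs hQ1 hK1 (hc ω hω).f1 (hc ω hω).f2 (hc ω hω).f3
  have l1 : |c.l0 ω| ≤ K := abs_la_le hQ1 hK1 (hc ω hω).f5 (hc ω hω).f6
  have l2 : c.l0 ω ≠ 0 :=
    div_ne_zero ((hc ω hω).f5.ne (by linarith)) ((hc ω hω).f6.ne (by linarith))
  have h7 : 1 / (K : ℝ) ^ 2 ≤ |c.c0 Q ω * (c.l0 ω)⁻¹| := by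
    rw [abs_mul, abs_inv, ← div_eq_mul_inv, sq, ← div_div]
    exact div_le_div₀ (abs_nonneg _) h6 (abs_pos.2 l2) l1
  have h8 : 1 / (K : ℝ) ^ 2 = 1 / (2 * K ^ 2) + 1 / (2 * K ^ 2) := by field_simp; ring
  have h9 := abs_sub ((c.kc Q K ω : ℝ) / den Q K)
    ((c.kc Q K ω : ℝ) / den Q K - c.c0 Q ω * (c.l0 ω)⁻¹)
  rw [sub_sub_cancel] at h9
  linarith

include hG hbox

theorem pivot_parts {X ζ l : ℝ}
    (hX : P.H (ker fun ω => (c.g1 ω, c.g2 ω, c.r0 ω, c.r1 ω, c.t ω, c.t' ω)) = X)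
    (hA1 : P.H (ker fun ω => (c.g1 ω, c.g2 ω, c.r0 ω, c.r1 ω)) + 2 * l ≤ X)
    (hE : P.H (ker fun ω => (cell (c.g2 ω) (c.t' ω), cell (c.g1 ω) (c.t ω), c.r0 ω, c.t' ω,
      c.t ω)) ≤ ζ) :
    X - Real.log Q - m * cK K ≤ P.H (mt (ker c.g1) (c.Za Q K)) ∧
    P.H (mt (ker fun ω => (cell (c.g1 ω) (c.t ω), c.t ω)) (c.Za Q K)) ≤
      ζ + Real.log Q + m * cK K ∧
    2 * l - Real.log Q - cK K ≤
      P.H (mt (ker c.t) (mt (ker c.g1) (c.Za Q K))) - P.H (mt (ker c.g1) (c.Za Q K)) ∧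
    P.H (mt (ker c.g1) (c.Za Q K)) ≤
      P.H (mt (ker fun ω => cell (c.g2 ω) (c.r1 ω)) (c.Za Q K)) + m * cK K := by
  have hQ1 : (1 : ℝ) ≤ Q := by exact_mod_cast hQ
  have hK1 : (1 : ℝ) ≤ K := by exact_mod_cast hK
  have a0 := P.near_count (mt (ker c.g1) (c.Za Q K))
    (mt (ker fun ω => cell (c.g2 ω) (c.r1 ω)) (c.Za Q K)) (fun ω j => Q * (c.g1 ω).2 j)
    (fun ω j => c.nu Q K ω j - c.kb Q K ω / den Q K * cell (c.g2 ω) (c.r1 ω) j) (10 * K ^ 5) (by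
      intro x hx y hy h1 h2
      exact mt_rel.2 ⟨hG.dir_inj (hc x hx).m1 (hc y hy).m1 h2, (mt_rel.1 h1).2⟩) (by
      intro x _ y _ h1
      simp only [mt_rel, Cfg.Za_rel, ker_def] at h1
      obtain ⟨e1, e2, e3, e4, e5⟩ := h1
      rw [e1, e4, e5]) (by
      intro x hx j
      push_cast
      refine dir_near hQ1 hK1 ((kb_abs hQ hK hc hx).2.trans ?_)
      have : (K : ℝ) ^ 2 ≤ K ^ 3 := pow_le_pow_right₀ hK1 (by norm_num)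
      linarith)
  have a1 := P.submod (ker fun ω => (c.g1 ω, c.g2 ω, c.r0 ω, c.r1 ω, c.kb Q K ω))
    (mt (ker c.t) (mt (ker c.g1) (c.Za Q K)))
    (ker fun ω => (c.t ω, c.g1 ω, c.g2 ω, c.r0 ω, c.r1 ω, c.kb Q K ω))
    (mt (ker c.g1) (c.Za Q K)) (by
      intro x _ y _ h1 h2
      simp only [mt_rel, ker_def, Prod.mk.injEq] at h1 h2 ⊢
      exact ⟨h2.1, h1⟩) (by
      intro x _ y _ h1
      simp only [mt_rel, Cfg.Za_rel, ker_def, Prod.mk.injEq] at h1 ⊢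
      refine ⟨h1.1, h1.2.2.1, h1.2.2.2.1, h1.2.2.2.2, ?_⟩
      unfold Cfg.nu
      rw [h1.1, h1.2.1, h1.2.2.2.1, h1.2.2.2.2]) (fun x _ y _ h1 => (mt_rel.1 h1).2)
  have a2 : X ≤ P.H (ker fun ω => (c.t ω, c.g1 ω, c.g2 ω, c.r0 ω, c.r1 ω, c.kb Q K ω)) := by
    rw [← hX]
    refine P.H_mono fun x hx y hy h1 => ?_
    simp only [ker_def, Prod.mk.injEq] at h1 ⊢
    obtain ⟨e1, e2, e3, e4, e5, e6⟩ := h1
    exact ⟨e2, e3, e4, e5, e1, t'_kb hQ hK hc hx hy e4 e5 e1 e6⟩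
  have a3 := coef_count hQ hK (P := P) (ker fun ω => (c.g1 ω, c.g2 ω, c.r0 ω, c.r1 ω, c.kb Q K ω))
    (ker fun ω => (c.g1 ω, c.g2 ω, c.r0 ω, c.r1 ω)) (c.c0 Q) (fun x hx =>
      (c0_le hQ hK hc hx).trans (pow_le_pow_right₀ hK1 (by norm_num))) (by
      intro x _ y _ h1 h2
      simp only [ker_def, Prod.mk.injEq] at h1 ⊢
      exact ⟨h1.1, h1.2.1, h1.2.2.1, h1.2.2.2, h2⟩)
  have a4 := P.height_count (ker fun ω => (c.t ω, c.g1 ω, c.g2 ω, c.r0 ω, c.r1 ω, c.kb Q K ω))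
    (ker fun ω => (c.g1 ω, c.g2 ω, c.r0 ω, c.r1 ω, c.kb Q K ω)) c.t Q (by
      intro x _ y _ h1 h2
      simp only [ker_def, Prod.mk.injEq] at h1 ⊢
      exact ⟨h2, h1⟩) (fun ω hω => (hc ω hω).lt)
  have a5 := P.near_count (ker fun ω => (c.g1 ω, c.g2 ω, c.r0 ω, c.r1 ω, c.kb Q K ω))
    (mt (ker c.g1) (c.Za Q K)) (fun ω j => Q * (c.g2 ω).2 j)
    (fun ω j => Q / ((c.r1 ω : ℝ) - c.r0 ω) * ((c.nu Q K ω j - Q * (c.g1 ω).2 j) /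
      (c.kb Q K ω / den Q K) - ((c.g1 ω).1 j + c.r0 ω * (c.g1 ω).2 j))) (10 * K ^ 5) (by
      intro x hx y hy h1 h2
      simp only [mt_rel, Cfg.Za_rel, ker_def, Prod.mk.injEq] at h1 ⊢
      exact ⟨h1.1, hG.dir_inj (hc x hx).m2 (hc y hy).m2 h2, h1.2.1, h1.2.2.1, h1.2.2.2.1⟩) (by
      intro x _ y _ h1
      simp only [mt_rel, Cfg.Za_rel, ker_def] at h1
      rw [h1.1, h1.2.1, h1.2.2.1, h1.2.2.2.1, h1.2.2.2.2]) (by
      intro x hx j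
      push_cast
      exact two_near hQ1 hK1 (hc x hx).f4 (abs_of_floor (congrFun (hc x hx).sh0 j))
        (inv_near hQ1 hK1 (le_abs_cs hQ1 hK1 (hc x hx).f1 (hc x hx).f2 (hc x hx).f3)
          (kb_round hQ hK hc)))
  have a6 := P.near_count (mt (ker fun ω => (cell (c.g1 ω) (c.t ω), c.t ω)) (c.Za Q K))
    (ker fun ω => (c.r1 ω, cell (c.g2 ω) (c.t' ω), cell (c.g1 ω) (c.t ω), c.r0 ω, c.t' ω, c.t ω))
    (fun ω j => Q * (c.g1 ω).2 j + c.kb Q K ω / den Q K * ((c.g2 ω).1 j + c.r1 ω * (c.g2 ω).2 j))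
    (fun ω j => Q / ((c.t ω : ℝ) - c.r0 ω) * cell (c.g1 ω) (c.t ω) j +
      Q / ((c.t ω : ℝ) - c.r0 ω) * (((c.r1 ω : ℝ) - c.r0 ω) / ((c.t' ω : ℝ) - c.r1 ω)) *
        cell (c.g2 ω) (c.t' ω) j) (10 * K ^ 5) (by
      intro x _ y _ h1 h2
      simp only [mt_rel, Cfg.Za_rel, ker_def, Prod.mk.injEq] at h1 ⊢
      obtain ⟨e1, e2, e3, e4, e5, e6⟩ := h1
      refine ⟨⟨e3, e6⟩, e4, e1, ?_, h2⟩
      unfold Cfg.kb Cfg.c0
      rw [e1, e4, e5, e6]) (by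
      intro x _ y _ h1
      simp only [ker_def, Prod.mk.injEq] at h1
      obtain ⟨e1, e2, e3, e4, e5, e6⟩ := h1
      rw [e2, e3, e1, e4, e5, e6]) (by
      intro x hx j
      push_cast
      exact pivot_near hQ1 hK1 (hc x hx).f1 (hc x hx).f3 (hc x hx).f4 (kb_round hQ hK hc)
        (pos_le hG hbox (hc x hx).m2 (hc x hx).l1 j) (congrFun (hc x hx).sh0 j))
  have a7 := P.height_count
    (ker fun ω => (c.r1 ω, cell (c.g2 ω) (c.t' ω), cell (c.g1 ω) (c.t ω), c.r0 ω, c.t' ω, c.t ω))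
    (ker fun ω => (cell (c.g2 ω) (c.t' ω), cell (c.g1 ω) (c.t ω), c.r0 ω, c.t' ω, c.t ω)) c.r1 Q (by
      intro x _ y _ h1 h2
      simp only [ker_def, Prod.mk.injEq] at h1 ⊢
      exact ⟨h2, h1⟩) (fun ω hω => (hc ω hω).l1)
  change _ ≤ _ + m * cK K at a5 a6
  change _ ≤ _ + m * cK K at a0
  refine ⟨?_, ?_, ?_, a0⟩ <;> linarith

theorem corner_parts {l N : ℝ} (hN : ∀ r, ((A r).card : ℝ) ≤ N)
    (hC2 : P.H (ker fun ω => (c.g1 ω, c.g2 ω, c.g3 ω, c.r0 ω, c.r1 ω, c.s ω, c.t ω)) + 2 * l ≤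
      P.H c.all) :
    P.H c.all - 2 * Real.log Q - 2 * (m * cK K) ≤ P.H (mt (ker c.g3) (c.Zb Q K)) ∧
    P.H (mt (ker fun ω => (cell (c.g3 ω) (c.r ω), c.r ω)) (c.Zb Q K)) ≤
      P.H (c.Za Q K) + 2 * Real.log Q + Real.log N + cK K + m * cK K ∧
    2 * l - Real.log Q - cK K ≤
      P.H (mt (ker c.r) (mt (ker c.g3) (c.Zb Q K))) - P.H (mt (ker c.g3) (c.Zb Q K)) := by
  have hQ1 : (1 : ℝ) ≤ Q := by exact_mod_cast hQ
  have hK1 : (1 : ℝ) ≤ K := by exact_mod_cast hK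
  have a1 := P.submod
    (ker fun ω => (c.g1 ω, c.g2 ω, c.g3 ω, c.r0 ω, c.r1 ω, c.s ω, c.t ω, c.kc Q K ω))
    (mt (ker c.r) (mt (ker c.g3) (c.Zb Q K))) c.all (mt (ker c.g3) (c.Zb Q K)) (by
      intro x hx y hy h1 h2
      simp only [mt_rel, Cfg.all_rel, ker_def, Prod.mk.injEq] at h1 h2 ⊢
      obtain ⟨e1, e2, e3, e4, e5, e6, e7, e8⟩ := h1
      exact ⟨e1, e2, e3, e4, e5, e6, e7, h2.1, t'_kc hQ hK hc hx hy e4 e5 e7 e6 h2.1 e8⟩) (by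
      intro x _ y _ h1
      simp only [mt_rel, Cfg.Zb_rel, ker_def, Prod.mk.injEq] at h1 ⊢
      obtain ⟨e1, e2, e3, e4, e5, e6, e7, e8⟩ := h1
      refine ⟨e3, e4, e5, e6, e8, ?_⟩
      unfold Cfg.mu
      rw [e1, e3, e6, e8]) (fun x _ y _ h1 => (mt_rel.1 h1).2)
  have a3 := coef_count hQ hK (P := P)
    (ker fun ω => (c.g1 ω, c.g2 ω, c.g3 ω, c.r0 ω, c.r1 ω, c.s ω, c.t ω, c.kc Q K ω))
    (ker fun ω => (c.g1 ω, c.g2 ω, c.g3 ω, c.r0 ω, c.r1 ω, c.s ω, c.t ω))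
    (fun ω => c.c0 Q ω * (c.l0 ω)⁻¹) (fun x hx => c0l_le hQ hK hc hx) (by
      intro x _ y _ h1 h2
      simp only [ker_def, Prod.mk.injEq] at h1 ⊢
      obtain ⟨e1, e2, e3, e4, e5, e6, e7⟩ := h1
      exact ⟨e1, e2, e3, e4, e5, e6, e7, h2⟩)
  have a4 := corner_total hQ hK hG hbox hc
  have a5 := P.near_count (mt (ker c.g1) (mt (ker c.g3) (c.Zb Q K))) (mt (ker c.g3) (c.Zb Q K))
    (fun ω j => Q * (c.g1 ω).2 j)
    (fun ω j => c.mu Q K ω j - c.kc Q K ω / den Q K * cell (c.g3 ω) (c.s ω) j) (10 * K ^ 5) (by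
      intro x hx y hy h1 h2
      exact mt_rel.2 ⟨hG.dir_inj (hc x hx).m1 (hc y hy).m1 h2, h1⟩) (by
      intro x _ y _ h1
      simp only [mt_rel, Cfg.Zb_rel, ker_def] at h1
      obtain ⟨e1, e2, e3, e4, e5, e6⟩ := h1
      rw [e1, e4, e5, e6]) (by
      intro x hx j
      push_cast
      exact dir_near hQ1 hK1 (kc_abs hQ hK hc hx))
  have a5' := P.near_count
    (ker fun ω => (c.g1 ω, c.g2 ω, c.g3 ω, c.r0 ω, c.r1 ω, c.s ω, c.kc Q K ω))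
    (mt (ker c.g1) (mt (ker c.g3) (c.Zb Q K))) (fun ω j => Q * (c.g2 ω).2 j)
    (fun ω j => Q / ((c.r1 ω : ℝ) - c.r0 ω) * (((c.g3 ω).1 j + c.r1 ω * (c.g3 ω).2 j) -
      ((c.g1 ω).1 j + c.r0 ω * (c.g1 ω).2 j))) (10 * K ^ 5) (by
      intro x hx y hy h1 h2
      simp only [mt_rel, Cfg.Zb_rel, ker_def, Prod.mk.injEq] at h1 ⊢
      obtain ⟨e0, e1, e2, e3, e4, e5, e6⟩ := h1
      exact ⟨e0, hG.dir_inj (hc x hx).m2 (hc y hy).m2 h2, e1, e2, e3, e4, e5⟩) (by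
      intro x _ y _ h1
      simp only [mt_rel, Cfg.Zb_rel, ker_def] at h1
      obtain ⟨e0, e1, e2, e3, e4, e5, e6⟩ := h1
      rw [e0, e1, e2, e3]) (by
      intro x hx j
      push_cast
      exact two_near hQ1 hK1 (hc x hx).f4 (abs_of_floor (congrFun (hc x hx).sh0 j))
        ((abs_of_floor (congrFun (hc x hx).sh1 j).symm).trans (by linarith)))
  have a6 := P.near_count (mt (ker fun ω => (cell (c.g3 ω) (c.r ω), c.r ω)) (c.Zb Q K))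
    (mt (ker fun ω => (c.kc Q K ω, cell (c.g3 ω) (c.r ω), c.r ω, c.s ω)) (c.Za Q K))
    (fun ω j => Q * (c.g1 ω).2 j + c.kc Q K ω / den Q K * ((c.g3 ω).1 j + c.s ω * (c.g3 ω).2 j))
    (fun ω j => c.nu Q K ω j + c.kc Q K ω / den Q K * (1 - c.l0 ω) * cell (c.g3 ω) (c.r ω) j)
    (10 * K ^ 5) (by
      intro x _ y _ h1 h2
      simp only [mt_rel, Cfg.Za_rel, Cfg.Zb_rel, ker_def, Prod.mk.injEq] at h1 ⊢
      obtain ⟨⟨e1, e2, e3, e4⟩, e5, e6, e7, e8⟩ := h1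
      exact ⟨⟨e2, e3⟩, e5, e6, e4, e1, h2⟩) (by
      intro x _ y _ h1
      simp only [mt_rel, Cfg.Za_rel, ker_def, Prod.mk.injEq] at h1
      obtain ⟨⟨e1, e2, e3, e4⟩, e5, e6, e7, e8⟩ := h1
      unfold Cfg.l0
      rw [e2, e1, e3, e4, e6, e8]) (by
      intro x hx j
      push_cast
      exact corner_near hQ1 hK1 (hc x hx).f5 (hc x hx).f6 (c0_le hQ hK hc hx) (kb_round hQ hK hc)
        (kc_round hQ hK hc) (pos_le hG hbox (hc x hx).m3 (hc x hx).l1 j)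
        (congrFun (hc x hx).sh1 j))
  have a7 := P.near_count1
    (mt (ker fun ω => (c.kc Q K ω, cell (c.g3 ω) (c.r ω), c.r ω, c.s ω)) (c.Za Q K))
    (mt (ker fun ω => (cell (c.g3 ω) (c.r ω), c.r ω, c.s ω)) (c.Za Q K))
    (fun ω => den Q K * (c.c0 Q ω * (c.l0 ω)⁻¹)) (fun ω => c.kb Q K ω * (c.l0 ω)⁻¹)
    (10 * K ^ 5) (by
      intro x _ y _ h1 h2
      simp only [mt_rel, ker_def, Prod.mk.injEq] at h1 ⊢
      exact ⟨⟨h2, h1.1⟩, h1.2⟩) (by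
      intro x _ y _ h1
      simp only [mt_rel, Cfg.Za_rel, ker_def, Prod.mk.injEq] at h1
      obtain ⟨⟨e2, e3, e4⟩, e5, e6, e7, e8⟩ := h1
      unfold Cfg.l0
      rw [e3, e4, e6, e7]) (by
      intro x hx
      push_cast
      have h1 := abs_mul_le' (abs_frac (den Q K * c.c0 Q x))
        (abs_inv_la_le hQ1 hK1 (hc x hx).f5 (hc x hx).f6)
      have k2 : (K : ℝ) ≤ K ^ 5 := le_self_pow₀ hK1 (by norm_num)
      have e : den Q K * (c.c0 Q x * (c.l0 x)⁻¹) - c.kb Q K x * (c.l0 x)⁻¹ =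
          (den Q K * c.c0 Q x - ⌊den Q K * c.c0 Q x⌋) * (la (c.r1 x) (c.r x) (c.s x))⁻¹ := by
        unfold Cfg.kb Cfg.l0; ring
      rw [e]
      linarith)
  have a8 := P.slice_count (mt (ker fun ω => (cell (c.g3 ω) (c.r ω), c.r ω, c.s ω)) (c.Za Q K))
    (mt (ker fun ω => (c.r ω, c.s ω)) (c.Za Q K)) (fun ω => cell (c.g3 ω) (c.r ω)) c.r A N hN (by
      intro x _ y _ h1 h2
      simp only [mt_rel, ker_def, Prod.mk.injEq] at h1 ⊢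
      exact ⟨⟨h2, h1.1⟩, h1.2⟩) (by
      intro x _ y _ h1
      simp only [mt_rel, ker_def, Prod.mk.injEq] at h1
      exact h1.1.1) (fun ω hω => (hc ω hω).ar)
  have a9 := P.height_count (mt (ker fun ω => (c.r ω, c.s ω)) (c.Za Q K))
    (mt (ker c.s) (c.Za Q K)) c.r Q (by
      intro x _ y _ h1 h2
      simp only [mt_rel, ker_def, Prod.mk.injEq] at h1 ⊢
      exact ⟨⟨h2, h1.1⟩, h1.2⟩) (fun ω hω => (hc ω hω).lr)
  have a10 := P.height_count (mt (ker c.s) (c.Za Q K)) (c.Za Q K) c.s Q (by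
      intro x _ y _ h1 h2
      exact mt_rel.2 ⟨h2, h1⟩) (fun ω hω => (hc ω hω).ls)
  change _ ≤ _ + m * cK K at a5 a5' a6
  change _ ≤ _ + cK K at a7
  refine ⟨?_, ?_, ?_⟩ <;> linarith

theorem lower_part {l Y : ℝ}
    (hC3 : P.H (ker fun ω => (c.g1 ω, c.g2 ω, c.g3 ω, c.r0 ω, c.r1 ω, c.s ω)) + 3 * l ≤ P.H c.all)
    (hD : Y ≤ P.H (ker fun ω => (c.g1 ω, cell (c.g3 ω) (c.s ω), c.r0 ω, c.r1 ω, c.s ω))) :
    Y + 3 * l - 2 * Real.log Q - m * cK K ≤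
      P.H (mt (ker fun ω => cell (c.g3 ω) (c.s ω)) (c.Zb Q K)) := by
  have hQ1 : (1 : ℝ) ≤ Q := by exact_mod_cast hQ
  have hK1 : (1 : ℝ) ≤ K := by exact_mod_cast hK
  have a4 := corner_total hQ hK hG hbox hc
  have a1 := P.submod (ker fun ω => (c.g1 ω, c.g2 ω, c.g3 ω, c.r0 ω, c.r1 ω, c.s ω))
    (ker fun ω => (c.g1 ω, cell (c.g3 ω) (c.s ω), c.r0 ω, c.r1 ω, c.s ω, c.kc Q K ω))
    (ker fun ω => (c.g1 ω, c.g2 ω, c.g3 ω, c.r0 ω, c.r1 ω, c.s ω, c.kc Q K ω))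
    (ker fun ω => (c.g1 ω, cell (c.g3 ω) (c.s ω), c.r0 ω, c.r1 ω, c.s ω)) (by
      intro x _ y _ h1 h2
      simp only [ker_def, Prod.mk.injEq] at h1 h2 ⊢
      obtain ⟨e1, e2, e3, e4, e5, e6⟩ := h1
      exact ⟨e1, e2, e3, e4, e5, e6, h2.2.2.2.2.2⟩) (by
      intro x _ y _ h1
      simp only [ker_def, Prod.mk.injEq] at h1 ⊢
      obtain ⟨e1, e2, e3, e4, e5, e6⟩ := h1
      exact ⟨e1, by rw [e3, e6], e4, e5, e6⟩) (by
      intro x _ y _ h1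
      simp only [ker_def, Prod.mk.injEq] at h1 ⊢
      obtain ⟨e1, e2, e3, e4, e5, e6⟩ := h1
      exact ⟨e1, e2, e3, e4, e5⟩)
  have a2 := P.near_count
    (ker fun ω => (c.g1 ω, cell (c.g3 ω) (c.s ω), c.r0 ω, c.r1 ω, c.s ω, c.kc Q K ω))
    (mt (ker fun ω => cell (c.g3 ω) (c.s ω)) (c.Zb Q K)) (fun ω j => Q * (c.g1 ω).2 j)
    (fun ω j => c.mu Q K ω j - c.kc Q K ω / den Q K * cell (c.g3 ω) (c.s ω) j) (10 * K ^ 5) (by
      intro x hx y hy h1 h2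
      simp only [mt_rel, Cfg.Zb_rel, ker_def, Prod.mk.injEq] at h1 ⊢
      obtain ⟨e1, e2, e3, e4, e5, e6⟩ := h1
      exact ⟨hG.dir_inj (hc x hx).m1 (hc y hy).m1 h2, e1, e2, e3, e4, e5⟩) (by
      intro x _ y _ h1
      simp only [mt_rel, Cfg.Zb_rel, ker_def] at h1
      obtain ⟨e1, e2, e3, e4, e5, e6⟩ := h1
      rw [e1, e5, e6]) (by
      intro x hx j
      push_cast
      exact dir_near hQ1 hK1 (kc_abs hQ hK hc hx))
  change _ ≤ _ + m * cK K at a2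
  linarith

end

end Pool.Agent.MP_5168f5_an.H19
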