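import Pool.Agent.MP_5168f5_an.H19.XStep
import Pool.Agent.MP_5168f5_an.H19.Descent

/-! The three-blocks form of the two-family estimate implies the general form. -/

namespace Pool.Agent.MP_5168f5_an.H19

open Finset

variable {m : ℕ}

/-- Translate a line to the origin of a box. -/
noncomputable def tr (L a : ℕ) (B : Fin m → ℤ) (g : Line m) : Line m :=
  (fun j => g.1 j + ((a * L : ℕ) : ℝ) * g.2 j - L * B j, g.2)

/-- The inverse translation. -/
noncomputable def un (L a : ℕ) (B : Fin m → ℤ) (g : Line m) : Line m :=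
  (fun j => g.1 j - ((a * L : ℕ) : ℝ) * g.2 j + L * B j, g.2)

theorem un_tr (L a : ℕ) (B : Fin m → ℤ) (g : Line m) : un L a B (tr L a B g) = g := by
  refine Prod.ext (funext fun j => ?_) rfl
  simp only [un, tr]; ring

open Classical in
/-- The translated local point set. -/
noncomputable def locE (E : Finset (Pt m)) (L a : ℕ) (B : Fin m → ℤ) : Finset (Pt m) :=
  (loc E L a B).image fun p => (fun j => p.1 j - L * B j, p.2 - a * L)

open Classical in
theorem local_tx {K k Q R l a : ℕ} (hK : 0 < K) {c : Fin 3 → ℕ} {B : Fin m → ℤ}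
    {G : Finset (Line m)} {E : Finset (Pt m)} (hc1 : ∀ i, c i < K)
    (hc2 : ∀ i j, i ≠ j → c i + 2 ≤ c j ∨ c j + 2 ≤ c i)
    (hR : Q ≤ R * K ^ (k + 1)) (hG : Sep Q G) (hB : ∀ g ∈ G, box (K ^ (k + 1)) a g = B)
    (hsh : ∀ g ∈ G, ∀ i, l ≤ (shade E (range Q) g ∩ blk (K ^ k) (a * K + c i)).card) :
    ∃ G' ⊆ G, G.card ≤ (2 * (R + 1) + 1) ^ m * G'.card ∧
      Sep (K ^ (k + 1)) (G'.image (tr (K ^ (k + 1)) a B)) ∧
      (∀ g ∈ G'.image (tr (K ^ (k + 1)) a B), ∀ j, |g.1 j| ≤ (K ^ (k + 1) : ℕ)) ∧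
      (∀ i, ∀ r ∈ blk (K ^ k) (c i), r < K ^ (k + 1)) ∧
      (∀ i i', i ≠ i' → ∀ r ∈ blk (K ^ k) (c i), ∀ s ∈ blk (K ^ k) (c i'),
        ((K ^ (k + 1) : ℕ) : ℝ) ≤ K * |(r : ℝ) - s|) ∧
      (∀ g ∈ G'.image (tr (K ^ (k + 1)) a B), ∀ i,
        l ≤ (shade (locE E (K ^ (k + 1)) a B) (blk (K ^ k) (c i)) g).card) := by
  obtain ⟨G', h1, h2, h3⟩ := thin hR hG
  have hk : 0 < K ^ k := pow_pos hK k
  have hLk : K ^ (k + 1) = K ^ k * K := pow_succ K k
  set L := K ^ (k + 1) with hL
  have hL0 : 0 < L := pow_pos hK _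
  have hLr : (0 : ℝ) < L := by exact_mod_cast hL0
  set τ : Line m → Line m := tr L a B with hτ0
  have hτ : τ = fun g => (fun j => g.1 j + ((a * L : ℕ) : ℝ) * g.2 j - L * B j, g.2) := rfl
  have hbox : ∀ g ∈ G', ∀ j, 0 ≤ (τ g).1 j ∧ (τ g).1 j ≤ L := by
    intro g hg j
    have e : ⌊(g.1 j + ((a * L : ℕ) : ℝ) * g.2 j) / L⌋ = B j := congrFun (hB g (h1 hg)) j
    obtain ⟨e1, e2⟩ := Int.floor_eq_iff.1 e
    rw [le_div_iff₀ hLr] at e1
    rw [div_lt_iff₀ hLr] at e2
    simp only [hτ]
    constructor <;> nlinarith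
  refine ⟨G', h1, h3, ?_, ?_, ?_, ?_, ?_⟩
  · constructor
    · intro g hg
      obtain ⟨g0, h0, rfl⟩ := Finset.mem_image.1 hg
      exact h2.1 g0 h0
    · intro g hg g' hg' hne
      obtain ⟨g0, h0, rfl⟩ := Finset.mem_image.1 hg
      obtain ⟨g1, h0', rfl⟩ := Finset.mem_image.1 hg'
      exact h2.2 g0 h0 g1 h0' fun e => hne (by rw [e])
  · intro g hg j
    obtain ⟨g0, h0, rfl⟩ := Finset.mem_image.1 hg
    obtain ⟨e1, e2⟩ := hbox g0 h0 j
    rw [abs_of_nonneg e1]; exact e2
  · intro i r hr
    have e1 := (Finset.mem_Ico.1 hr).2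
    have e2 : (c i + 1) * K ^ k ≤ K * K ^ k := Nat.mul_le_mul_right _ (hc1 i)
    rw [hLk, mul_comm]; omega
  · have main : ∀ u v r s : ℕ, u + 2 ≤ v → r ∈ blk (K ^ k) u → s ∈ blk (K ^ k) v →
        (L : ℝ) ≤ K * |(r : ℝ) - s| := by
      intro u v r s huv hr hs
      have e1 := (Finset.mem_Ico.1 hr).2
      have e2 := (Finset.mem_Ico.1 hs).1
      have e3 : (u + 2) * K ^ k ≤ v * K ^ k := Nat.mul_le_mul_right _ huv
      have e4 : r + K ^ k ≤ s := by
        rw [add_mul] at e1 e3; omega
      have e5 : (r : ℝ) + (K ^ k : ℕ) ≤ s := by exact_mod_cast e4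
      have e6 : ((K ^ k : ℕ) : ℝ) ≤ |(r : ℝ) - s| := by
        rw [abs_sub_comm]; exact le_trans (by linarith) (le_abs_self _)
      rw [hLk, Nat.cast_mul, mul_comm]
      exact mul_le_mul_of_nonneg_left e6 (Nat.cast_nonneg K)
    intro i i' hii r hr s hs
    rcases hc2 i i' hii with h | h
    · exact main _ _ r s h hr hs
    · rw [abs_sub_comm]; exact main _ _ s r h hs hr
  · intro g hg i
    obtain ⟨g0, h0, rfl⟩ := Finset.mem_image.1 hg
    refine (hsh g0 (h1 h0) i).trans ?_
    have hr0 : ∀ r ∈ shade E (range Q) g0 ∩ blk (K ^ k) (a * K + c i),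
        a * L ≤ r ∧ r - a * L ∈ blk (K ^ k) (c i) ∧ r - a * L < L := by
      intro r hr
      obtain ⟨e1, e2⟩ := Finset.mem_Ico.1 (Finset.mem_inter.1 hr).2
      have e3 : (a * K + c i) * K ^ k = a * L + c i * K ^ k := by rw [hLk]; ring
      have e4 : (a * K + c i + 1) * K ^ k = a * L + (c i + 1) * K ^ k := by rw [hLk]; ring
      have e5 : (c i + 1) * K ^ k ≤ K * K ^ k := Nat.mul_le_mul_right _ (hc1 i)
      have e6 : K * K ^ k = L := by rw [hLk, mul_comm]
      refine ⟨by omega, Finset.mem_Ico.2 ⟨by omega, by omega⟩, by omega⟩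
    refine Finset.card_le_card_of_injOn (fun r => r - a * L) ?_ ?_
    · intro r hr
      obtain ⟨e1, e2, e3⟩ := hr0 r hr
      have e4 : (cell g0 r, r) ∈ E := (Finset.mem_filter.1 (Finset.mem_inter.1 hr).1).2
      have e5 : ∀ j, cell (τ g0) (r - a * L) j = cell g0 r j - L * B j := by
        intro j
        simp only [cell, hτ]
        rw [← Int.floor_sub_intCast]
        congr 1
        rw [Nat.cast_sub e1]
        push_cast; ring
      refine Finset.mem_filter.2 ⟨e2, Finset.mem_image.2 ⟨(cell g0 r, r), ?_, ?_⟩⟩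
      · refine Finset.mem_filter.2 ⟨e4, ?_, fun j => ?_⟩
        · rw [Nat.div_eq_iff hL0]
          constructor
          · exact e1
          · omega
        · rw [← e5 j]
          obtain ⟨b1, b2⟩ := hbox g0 h0 j
          have b3 := h2.1 g0 h0 j
          have b4 : ((r - a * L : ℕ) : ℝ) ≤ L := by exact_mod_cast e3.le
          have b5 : |((r - a * L : ℕ) : ℝ) * (τ g0).2 j| ≤ L := by
            rw [abs_mul, Nat.abs_cast]
            calc _ ≤ (L : ℝ) * 1 := mul_le_mul b4 b3 (abs_nonneg _) hLr.le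
              _ = L := mul_one _
          obtain ⟨b6, b7⟩ := abs_le.1 b5
          rw [abs_le]
          unfold cell
          constructor
          · rw [Int.le_floor]; push_cast at b6 ⊢; linarith
          · have : ((⌊(τ g0).1 j + ((r - a * L : ℕ) : ℝ) * (τ g0).2 j⌋ : ℤ) : ℝ) ≤
                ((2 * L : ℤ) : ℝ) := by
              refine (Int.floor_le _).trans ?_
              push_cast at b7 ⊢; linarith
            exact_mod_cast this
      · exact Prod.ext (funext fun j => (e5 j).symm) rfl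
    · intro r hr s hs h
      have e1 := (hr0 r hr).1
      have e2 := (hr0 s hs).1
      simp only at h
      omega

theorem trivial_bound {Q : ℕ} {G : Finset (Line m)} {D : XD m} (hs : Sep Q D.Gh)
    (y : Line m → Fin m → ℤ) {F M : ℝ} (hF0 : 0 < F) (hF : ∀ g ∈ G, F ≤ (D.fib (y g)).card)
    (hM : ∀ w, ((G.filter fun g => y g = w).card : ℝ) ≤ M) :
    (G.card : ℝ) * F ≤ M * (2 * Q + 1) ^ m := by
  classical
  have h1 : (G.card : ℝ) ≤ (G.image y).card * M := by
    rw [Finset.card_eq_sum_card_image y G]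
    push_cast
    refine (Finset.sum_le_sum fun w _ => hM w).trans ?_
    simp
  have h2 : ((G.image y).card : ℝ) * F ≤ D.Gh.card := by
    have h3 : ∑ w ∈ G.image y, (D.fib w).card ≤ D.Gh.card := by
      rw [← Finset.card_biUnion]
      · exact Finset.card_le_card (Finset.biUnion_subset.2 fun w _ h hh => (XD.mem_fib.1 hh).1)
      · intro w _ w' _ hne
        rw [Function.onFun, Finset.disjoint_left]
        intro h h1 h2
        exact hne ((XD.mem_fib.1 h1).2.symm.trans (XD.mem_fib.1 h2).2)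
    have h4 : ∑ w ∈ G.image y, ((D.fib w).card : ℝ) ≤ D.Gh.card := by exact_mod_cast h3
    refine le_trans ?_ h4
    rw [← nsmul_eq_mul, ← Finset.sum_const]
    refine Finset.sum_le_sum fun w hw => ?_
    obtain ⟨g, hg, rfl⟩ := Finset.mem_image.1 hw
    exact hF g hg
  have h3 : (D.Gh.card : ℝ) ≤ (2 * Q + 1 : ℝ) ^ m := by exact_mod_cast hs.card_le
  have hM0 : 0 ≤ M := le_trans (Nat.cast_nonneg _) (hM 0)
  calc (G.card : ℝ) * F ≤ (G.image y).card * M * F := mul_le_mul_of_nonneg_right h1 hF0.le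
    _ = M * ((G.image y).card * F) := by ring
    _ ≤ _ := mul_le_mul_of_nonneg_left (h2.trans h3) hM0

theorem xx_of_tx {η b : ℝ} (hη : 0 ≤ η) (hb : 1 + η ≤ b) (hT : TX m η b) : XX m η b := by
  classical
  intro ε hε K0 hK00
  have hb0 : 0 < b := by linarith
  have hA1 : 0 ≤ (1 + 2 * η) * m := by positivity
  have hbm : 0 < 2 * b + (1 + 2 * η) * m := by positivity
  obtain ⟨K, hK2, hK⟩ := scale_choice (θ := ε / 2 / (2 * b + (1 + 2 * η) * m)) (by positivity)
  have hK0 : 0 < K := by omega
  have hKr : (1 : ℝ) ≤ K := by exact_mod_cast hK0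
  have hK0r : (1 : ℝ) ≤ K0 := by exact_mod_cast hK00
  obtain ⟨C, hTX⟩ := hT (ε / 2) (by positivity) (2 * K0 * K) (by positivity)
  have hl5 : 0 ≤ Real.log 5 := Real.log_nonneg (by norm_num)
  have hl2K : 0 ≤ Real.log (2 * K) := Real.log_nonneg (by linarith)
  have hlK : 0 ≤ Real.log K := Real.log_nonneg hKr
  have hl35 : 0 ≤ Real.log ((K : ℝ) ^ 3 * 5 ^ m) := Real.log_nonneg
    (one_le_mul_of_one_le_of_one_le (one_le_pow₀ hKr) (one_le_pow₀ (by norm_num)))
  refine ⟨|C| + (2 * b + (1 + 2 * η) * m) * Real.log 8 + (b + (1 + 2 * η) * m) * Real.log (2 * K) +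
    (1 + 2 * η) * m * Real.log K + (1 + η) * m * Real.log 5 + b * Real.log ((K : ℝ) ^ 3 * 5 ^ m),
    fun Q l lh G E D y F M hl hlh hF0 hM0 hne hG hsh hOK hfar hy hF hM => ?_⟩
  obtain ⟨g0, hg0⟩ := hne
  have hlQ : l ≤ Q := by
    refine (hsh g0 hg0).trans ?_
    simpa [shade] using Finset.card_filter_le (range Q) _
  have hlE : l ≤ E.card := (hsh g0 hg0).trans (shade_le_card _ _ _)
  have hQ : 0 < Q := lt_of_lt_of_le hl hlQ
  have hlr : (0 : ℝ) < l := by exact_mod_cast hl
  have hQr : (1 : ℝ) ≤ Q := by exact_mod_cast hQ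
  have hG0 : (0 : ℝ) < G.card := by exact_mod_cast Finset.card_pos.2 ⟨g0, hg0⟩
  have hE0 : (0 : ℝ) < E.card := by exact_mod_cast lt_of_lt_of_le hl hlE
  obtain ⟨J, hJ1, hJ2, hJ3⟩ := hK Q hQ
  set u : ℝ := 8 ^ J with hu
  have hu1 : 1 ≤ u := one_le_pow₀ (by norm_num)
  have hlu : 0 ≤ Real.log u := Real.log_nonneg hu1
  have hlogQ : 0 ≤ Real.log Q := Real.log_nonneg hQr
  have huu : (2 * b + (1 + 2 * η) * m) * Real.log u ≤
      (2 * b + (1 + 2 * η) * m) * Real.log 8 + ε / 2 * Real.log Q := by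
    have h1 := Real.log_le_log (by positivity) hJ3
    rw [Real.log_mul (by norm_num) (by positivity), Real.log_rpow (by positivity)] at h1
    have h2 := mul_le_mul_of_nonneg_left h1 hbm.le
    rwa [mul_add (2 * b + (1 + 2 * η) * m), ← mul_assoc, mul_div_cancel₀ _ hbm.ne'] at h2
  have hEl : 0 ≤ Real.log E.card - Real.log l :=
    sub_nonneg.2 (Real.log_le_log hlr (by exact_mod_cast hlE))
  have hQl : 0 ≤ Real.log Q - Real.log l :=
    sub_nonneg.2 (Real.log_le_log hlr (by exact_mod_cast hlQ))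
  have hCa := le_abs_self C
  have hCb := abs_nonneg C
  have hεQ := mul_nonneg hε.le hlogQ
  have p1 := mul_nonneg (add_nonneg hb0.le hA1) hl2K
  have p2 := mul_nonneg hA1 hlK
  have p3 := mul_nonneg hb0.le hl35
  by_cases hsmall : l ≤ 8 ^ J
  · obtain ⟨h0, hh0⟩ : (D.fib (y g0)).Nonempty := by
      have := lt_of_lt_of_le hF0 (hF g0 hg0)
      exact Finset.card_pos.1 (by exact_mod_cast this)
    have hlhr : (0 : ℝ) < lh := by exact_mod_cast hlh
    have s1 := hOK.sh h0 (XD.mem_fib.1 hh0).1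
    have s2 : lh ≤ Q := by
      refine s1.trans ?_
      simpa [shade] using Finset.card_filter_le (range Q) _
    have s3 : 0 ≤ Real.log D.Eh.card - Real.log lh :=
      sub_nonneg.2 (Real.log_le_log hlhr (by exact_mod_cast s1.trans (shade_le_card _ _ _)))
    have s4 : 0 ≤ Real.log Q - Real.log lh :=
      sub_nonneg.2 (Real.log_le_log hlhr (by exact_mod_cast s2))
    have h1 : (G.card : ℝ) ≤ (2 * Q + 1 : ℝ) ^ m := by exact_mod_cast hG.card_le
    have h2 := trivial_bound hOK.sep y hF0 hF hM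
    have h3 := Real.log_le_log hG0 h1
    have h4 := Real.log_le_log (by positivity) h2
    rw [Real.log_mul hG0.ne' hF0.ne', Real.log_mul hM0.ne' (by positivity), Real.log_pow] at h4
    rw [Real.log_pow] at h3
    have h5 : Real.log (2 * Q + 1) ≤ Real.log 5 + (Real.log Q - Real.log l) + Real.log u := by
      have h6 : Real.log l ≤ Real.log u := Real.log_le_log hlr (by rw [hu]; exact_mod_cast hsmall)
      have h7 : Real.log (2 * Q + 1) ≤ Real.log (5 * Q) :=
        Real.log_le_log (by positivity) (by linarith)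
      rw [Real.log_mul (by norm_num) (by positivity)] at h7
      linarith
    have q1 := mul_le_mul_of_nonneg_left h5 (show 0 ≤ (1 + η) * m by positivity)
    have q2 := mul_le_mul_of_nonneg_left h4 hη
    have q3 := mul_nonneg hη s3
    have q4 := mul_nonneg (show 0 ≤ η * m by positivity) s4
    have q5 := mul_nonneg hb0.le hEl
    have q6 := mul_nonneg (show 0 ≤ η * m by positivity) hQl
    have q7 := mul_nonneg (show 0 ≤ η * m by positivity) hlu
    have q8 := mul_nonneg hb0.le hlu
    linarith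
  · have hlab : ∀ g ∈ G, ∃ x : ℕ × ℕ × (Fin 3 → ℕ) × (Fin m → ℤ), x.1 < J ∧ (∀ i, x.2.2.1 i < K) ∧
        (∀ i j, i ≠ j → x.2.2.1 i + 2 ≤ x.2.2.1 j ∨ x.2.2.1 j + 2 ≤ x.2.2.1 i) ∧
        box (K ^ (x.1 + 1)) x.2.1 g = x.2.2.2 ∧
        ∀ i, l ≤ 8 ^ J * (2 * K) *
          (shade E (range Q) g ∩ blk (K ^ x.1) (x.2.1 * K + x.2.2.1 i)).card := by
      intro g hg
      have h1 : shade E (range Q) g ⊆ blk (K ^ J) 0 := by
        intro r hr
        have := Finset.mem_range.1 (Finset.mem_filter.1 hr).1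
        exact Finset.mem_Ico.2 ⟨by omega, by omega⟩
      rcases descent hK0 J 0 _ h1 with h2 | ⟨k, hk, a, c, h3, h4, h5⟩
      · exact absurd ((hsh g hg).trans h2) hsmall
      · exact ⟨(k, a, c, box (K ^ (k + 1)) a g), hk, h3, h4, rfl,
          fun i => (hsh g hg).trans (h5 i)⟩
    choose! lab hlab using hlab
    set M0 : ℝ := u * (2 * K) with hM0'
    have hM00 : 0 < M0 := by positivity
    set l' : ℕ := ⌈(l : ℝ) / M0⌉₊ with hl'
    have hl1 : (l : ℝ) / M0 ≤ l' := Nat.le_ceil _
    have hl2 : 0 < l' := Nat.ceil_pos.2 (by positivity)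
    have hl3 : Real.log l - (Real.log u + Real.log (2 * K)) ≤ Real.log l' := by
      rw [← Real.log_mul (by positivity) (by positivity), ← Real.log_div hlr.ne' hM00.ne']
      exact Real.log_le_log (by positivity) hl1
    have hη1 : 0 < 1 + η := by linarith
    set V : ℝ := C + ε / 2 * Real.log Q +
      η * (Real.log M + Real.log D.Eh.card - Real.log lh - Real.log F) +
      η * m * (Real.log Q - Real.log lh) +
      (b + (1 + 2 * η) * m) * (Real.log u + Real.log (2 * K)) - b * Real.log l +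
      (1 + 2 * η) * m * (Real.log K + Real.log Q - Real.log l) + (1 + η) * m * Real.log 5 with hV
    have hfib : ∀ x ∈ G.image lab, ((G.filter fun g => lab g = x).card : ℝ) ≤
        Real.exp (V / (1 + η)) *
          ((loc E (K ^ (x.1 + 1)) x.2.1 x.2.2.2).card : ℝ) ^ (b / (1 + η)) := by
      intro x hx
      obtain ⟨g1, hg1, rfl⟩ := Finset.mem_image.1 hx
      obtain ⟨k1, k2, k3, -, -⟩ := hlab g1 hg1
      have hshx : ∀ g ∈ G.filter fun g => lab g = lab g1, ∀ i, l' ≤ (shade E (range Q) g ∩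
          blk (K ^ (lab g1).1) ((lab g1).2.1 * K + (lab g1).2.2.1 i)).card := by
        intro g hg i
        obtain ⟨e1, e2⟩ := Finset.mem_filter.1 hg
        have e3 := (hlab g e1).2.2.2.2 i
        rw [e2] at e3
        rw [hl', Nat.ceil_le, div_le_iff₀ hM00, hM0', hu, mul_comm]
        exact_mod_cast e3
      have hboxx : ∀ g ∈ G.filter fun g => lab g = lab g1,
          box (K ^ ((lab g1).1 + 1)) (lab g1).2.1 g = (lab g1).2.2.2 := by
        intro g hg
        obtain ⟨e1, e2⟩ := Finset.mem_filter.1 hg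
        have := (hlab g e1).2.2.2.1
        rwa [e2] at this
      have hg1x : g1 ∈ G.filter fun g => lab g = lab g1 := Finset.mem_filter.2 ⟨hg1, rfl⟩
      have hsubx : (G.filter fun g => lab g = lab g1) ⊆ G := Finset.filter_subset _ _
      generalize (G.filter fun g => lab g = lab g1) = Gx at *
      generalize lab g1 = x at *
      obtain ⟨k, a, c, B⟩ := x
      simp only at k1 k2 k3 hshx hboxx ⊢
      have hR : K ^ (J - (k + 1)) * K ^ (k + 1) = K ^ J := by
        rw [← pow_add]; congr 1; omega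
      have haL : a * K ^ (k + 1) ≤ Q := by
        obtain ⟨r, hr⟩ := Finset.card_pos.1 (lt_of_lt_of_le hl2 (hshx g1 hg1x 0))
        obtain ⟨e1, e2⟩ := Finset.mem_inter.1 hr
        have e3 := Finset.mem_range.1 (Finset.mem_filter.1 e1).1
        have e4 := (Finset.mem_Ico.1 e2).1
        have e5 : (a * K + c 0) * K ^ k = a * K ^ (k + 1) + c 0 * K ^ k := by ring
        omega
      obtain ⟨G', h1, h3, s1, s2, s3, s4, s5⟩ := local_tx hK0 k2 k3 (hR ▸ hJ1) (hG.mono hsubx)
        hboxx hshx
      set R := K ^ (J - (k + 1)) with hRd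
      have hR1 : (1 : ℝ) ≤ R := by exact_mod_cast pow_pos hK0 _
      set L := K ^ (k + 1) with hLd
      have hL0 : 0 < L := pow_pos hK0 _
      have hL1 : (1 : ℝ) ≤ L := by exact_mod_cast hL0
      have hRL : (R : ℝ) * L ≤ K * Q := by exact_mod_cast hR.le.trans hJ2
      have hGx : (0 : ℝ) < Gx.card := by exact_mod_cast Finset.card_pos.2 ⟨g1, hg1x⟩
      have h4 : (Gx.card : ℝ) ≤ (2 * (R + 1) + 1) ^ m * G'.card := by exact_mod_cast h3
      have hG'0 : 0 < G'.card := by
        rcases Nat.eq_zero_or_pos G'.card with h | h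
        · rw [h, Nat.cast_zero, mul_zero] at h4; linarith
        · exact h
      have hG'r : (0 : ℝ) < G'.card := by exact_mod_cast hG'0
      have hinj : Function.Injective (tr L a B) := fun g g' h => by
        rw [← un_tr L a B g, h, un_tr]
      have hKK : (K0 : ℝ) ≤ (2 * K0 * K : ℕ) := by push_cast; nlinarith
      have hKK' : (K : ℝ) ≤ (2 * K0 * K : ℕ) := by push_cast; nlinarith
      have haLr : ((a * L : ℕ) : ℝ) ≤ Q := by exact_mod_cast haL
      have key := hTX L Q R l' lh (G'.image (tr L a B)) (locE E L a B) (fun i => blk (K ^ k) (c i))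
        ⟨D.Gh, D.Eh, D.ch, D.al, D.ga - D.al * (a * L : ℕ), fun j => D.u j + D.al * (L * B j)⟩
        (fun g => y (un L a B g)) F M hl2 hlh hF0 ((Finset.card_pos.1 hG'0).image _) (by
          have : (L : ℝ) ≤ (2 * K0 * K : ℕ) * Q := by
            have e1 := mul_le_mul_of_nonneg_right hR1 (show (0 : ℝ) ≤ L by linarith)
            have e2 := mul_le_mul_of_nonneg_right hKK' (show (0 : ℝ) ≤ Q by linarith)
            linarith
          exact_mod_cast this) (hR ▸ hJ1) s1 s2 s3 (fun i i' hii r hr s hs =>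
          (s4 i i' hii r hr s hs).trans (mul_le_mul_of_nonneg_right hKK' (abs_nonneg _))) s5
        ⟨hOK.sep, hOK.hal.trans hKK, by
          have e1 := abs_mul_le' hOK.hal (show |((a * L : ℕ) : ℝ)| ≤ Q by rwa [Nat.abs_cast])
          have e2 := abs_sub D.ga (D.al * (a * L : ℕ))
          have e3 := hOK.hga
          have e4 : 0 ≤ (K0 : ℝ) * Q * (K - 1) := mul_nonneg (by positivity) (by linarith)
          simp only
          push_cast at e1 e2 ⊢
          nlinarith, hOK.sh, fun p hp => (hOK.far p hp).mono hKK⟩ (by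
          intro p hp
          obtain ⟨p0, hp0, rfl⟩ := Finset.mem_image.1 hp
          obtain ⟨e1, e2, -⟩ := Finset.mem_filter.1 hp0
          have e3 : a * L ≤ p0.2 := by rw [← e2]; exact Nat.div_mul_le_self _ _
          simp only
          rw [Nat.cast_sub e3, show D.ga - D.al * ((a * L : ℕ) : ℝ) -
            D.al * ((p0.2 : ℝ) - (a * L : ℕ)) = D.ga - D.al * p0.2 by ring]
          exact (hfar p0 e1).trans (mul_le_mul_of_nonneg_right hKK (abs_nonneg _))) (by
          intro g hg j
          obtain ⟨g2, hg2, rfl⟩ := Finset.mem_image.1 hg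
          rw [un_tr]
          refine le_trans (le_of_eq ?_) ((hy g2 (hsubx (h1 hg2)) j).trans hKK)
          congr 1
          simp only [XD.val, tr]
          ring) (by
          intro g hg
          obtain ⟨g2, hg2, rfl⟩ := Finset.mem_image.1 hg
          rw [un_tr]
          exact hF g2 (hsubx (h1 hg2))) (by
          intro w
          refine le_trans ?_ (hM w)
          have : ((G'.image (tr L a B)).filter fun g => y (un L a B g) = w) ⊆
              (G.filter fun g => y g = w).image (tr L a B) := by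
            intro g hg
            obtain ⟨e1, e2⟩ := Finset.mem_filter.1 hg
            obtain ⟨g2, hg2, rfl⟩ := Finset.mem_image.1 e1
            rw [un_tr] at e2
            exact Finset.mem_image.2 ⟨g2, Finset.mem_filter.2 ⟨hsubx (h1 hg2), e2⟩, rfl⟩
          exact_mod_cast (Finset.card_le_card this).trans Finset.card_image_le)
      rw [Finset.card_image_of_injective _ hinj] at key
      simp only at key
      obtain ⟨g2, hg2⟩ := Finset.card_pos.1 hG'0
      have hE' : 0 < (locE E L a B).card := lt_of_lt_of_le hl2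
        ((s5 _ (Finset.mem_image.2 ⟨g2, hg2, rfl⟩) 0).trans (shade_le_card _ _ _))
      have hE'' : (locE E L a B).card ≤ (loc E L a B).card := by
        unfold locE; exact Finset.card_image_le
      have hN0 : (0 : ℝ) < (loc E L a B).card := by exact_mod_cast lt_of_lt_of_le hE' hE''
      have r1 : Real.log (locE E L a B).card ≤ Real.log (loc E L a B).card :=
        Real.log_le_log (by exact_mod_cast hE') (by exact_mod_cast hE'')
      have r2 : Real.log Gx.card ≤ m * (Real.log 5 + Real.log R) + Real.log G'.card := by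
        rw [← Real.log_mul (by norm_num) (by positivity), ← Real.log_pow,
          ← Real.log_mul (by positivity) hG'r.ne']
        refine Real.log_le_log hGx (h4.trans ?_)
        exact mul_le_mul_of_nonneg_right (pow_le_pow_left₀ (by positivity) (by linarith) m) hG'r.le
      have r3 : Real.log R + Real.log L ≤ Real.log K + Real.log Q := by
        rw [← Real.log_mul (by positivity) (by positivity),
          ← Real.log_mul (by positivity) (by positivity)]
        exact Real.log_le_log (by positivity) hRL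
      have r4 : (1 + η) * Real.log Gx.card ≤ V + b * Real.log (loc E L a B).card := by
        have t1 := mul_le_mul_of_nonneg_left r1 hb0.le
        have t2 := mul_le_mul_of_nonneg_left r2 hη1.le
        have t3 := mul_le_mul_of_nonneg_left r3 hA1
        have t4 := mul_le_mul_of_nonneg_left hl3 (add_nonneg hb0.le hA1)
        rw [hV]
        linarith
      rw [Real.rpow_def_of_pos hN0, ← Real.exp_add, ← Real.log_le_iff_le_exp hGx, mul_comm,
        div_mul_eq_mul_div, ← add_div, le_div_iff₀ hη1, mul_comm]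
      exact r4
    have hsum : (G.card : ℝ) = ∑ x ∈ G.image lab, ((G.filter fun g => lab g = x).card : ℝ) := by
      rw [Finset.card_eq_sum_card_image lab G]; push_cast; rfl
    have hov := overlap (J := J) hK0 E (G.image lab) (fun x hx => by
      obtain ⟨g1, hg1, rfl⟩ := Finset.mem_image.1 hx
      exact ⟨(hlab g1 hg1).1, (hlab g1 hg1).2.1⟩)
    have hJu : (J : ℝ) ≤ u := by
      rw [hu]; exact_mod_cast (Nat.lt_pow_self (by norm_num : 1 < 8)).le
    have hov2 : ∑ x ∈ G.image lab, ((loc E (K ^ (x.1 + 1)) x.2.1 x.2.2.2).card : ℝ) ≤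
        u * (K ^ 3 * 5 ^ m) * E.card := by
      have : ∑ x ∈ G.image lab, ((loc E (K ^ (x.1 + 1)) x.2.1 x.2.2.2).card : ℝ) ≤
          J * (K ^ 3 * 5 ^ m) * E.card := by exact_mod_cast hov
      refine this.trans ?_
      gcongr
    have hb1 : 1 ≤ b / (1 + η) := by rw [le_div_iff₀ hη1]; linarith
    have hfin : (G.card : ℝ) ≤
        Real.exp (V / (1 + η)) * (u * (K ^ 3 * 5 ^ m) * E.card) ^ (b / (1 + η)) := by
      rw [hsum]
      refine (Finset.sum_le_sum hfib).trans ?_
      rw [← Finset.mul_sum]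
      exact mul_le_mul_of_nonneg_left ((sum_rpow_le _ _ (fun _ _ => by positivity) hb1).trans
        (Real.rpow_le_rpow (Finset.sum_nonneg fun _ _ => by positivity) hov2 (by linarith)))
        (Real.exp_pos _).le
    rw [Real.rpow_def_of_pos (by positivity), ← Real.exp_add, ← Real.log_le_iff_le_exp hG0,
      mul_comm, div_mul_eq_mul_div, ← add_div, le_div_iff₀ hη1, mul_comm,
      Real.log_mul (by positivity) hE0.ne', Real.log_mul (by positivity) (by positivity),
      hV] at hfin
    linarith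

end Pool.Agent.MP_5168f5_an.H19
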