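import Pool.Agent.MP_5168f5_an.H19.Core

/-! A two-family strengthening of the discrete maximal estimate, and its entropy form. -/

namespace Pool.Agent.MP_5168f5_an.H19

open Finset Setoid

variable {m : ℕ}

/-- An ambient shaded family, a height, and an affine functional of lines. -/
structure XD (m : ℕ) where
  Gh : Finset (Line m)
  Eh : Finset (Pt m)
  ch : ℕ
  al : ℝ
  ga : ℝ
  u : Fin m → ℝ

/-- The affine functional. -/
def XD.val (D : XD m) (g : Line m) (j : Fin m) : ℝ := D.al * g.1 j + D.ga * g.2 j + D.u j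

open Classical in
/-- Ambient lines through the cell `w` at the given height. -/
noncomputable def XD.fib (D : XD m) (w : Fin m → ℤ) : Finset (Line m) :=
  D.Gh.filter fun h => cell h D.ch = w

theorem XD.mem_fib {D : XD m} {w : Fin m → ℤ} {h : Line m} :
    h ∈ D.fib w ↔ h ∈ D.Gh ∧ cell h D.ch = w := by
  unfold XD.fib; rw [Finset.mem_filter]

/-- Admissibility of the ambient data at scale `Q`. -/
structure XD.OK (D : XD m) (Q K lh : ℕ) : Prop where
  sep : Sep Q D.Gh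
  hal : |D.al| ≤ K
  hga : |D.ga| ≤ K * Q
  sh : ∀ h ∈ D.Gh, lh ≤ (shade D.Eh (range Q) h).card
  far : ∀ p ∈ D.Eh, Far Q K p.2 D.ch

/-- The two-family estimate, in logarithmic form. -/
def XX (m : ℕ) (η b : ℝ) : Prop :=
  ∀ ε : ℝ, 0 < ε → ∀ K : ℕ, 0 < K → ∃ C : ℝ, ∀ (Q l lh : ℕ) (G : Finset (Line m))
    (E : Finset (Pt m)) (D : XD m) (y : Line m → Fin m → ℤ) (F M : ℝ),
    0 < l → 0 < lh → 0 < F → 0 < M → G.Nonempty → Sep Q G →
    (∀ g ∈ G, l ≤ (shade E (range Q) g).card) → D.OK Q K lh →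
    (∀ p ∈ E, (Q : ℝ) ≤ K * |D.ga - D.al * p.2|) → (∀ g ∈ G, ∀ j, |y g j - D.val g j| ≤ K) →
    (∀ g ∈ G, F ≤ (D.fib (y g)).card) → (∀ w, ((G.filter fun g => y g = w).card : ℝ) ≤ M) →
    (1 + η) * Real.log G.card ≤ C + ε * Real.log Q +
      η * (Real.log M + Real.log D.Eh.card - Real.log lh - Real.log F) +
      b * (Real.log E.card - Real.log l) + (1 + 2 * η) * m * (Real.log Q - Real.log l) +
      η * m * (Real.log Q - Real.log lh)

theorem xx_zero {b : ℝ} (h : KK m b) : XX m 0 b := by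
  intro ε hε K _
  obtain ⟨C, hC, h1⟩ := h ε hε
  refine ⟨Real.log C, fun Q l lh G E D y F M hl _ _ _ hne hG hsh _ _ _ _ _ => ?_⟩
  have h2 := h1 Q l G E hl hG hsh
  obtain ⟨g, hg⟩ := hne
  have hl' : (0 : ℝ) < l := by exact_mod_cast hl
  obtain ⟨r, hr⟩ : (shade E (range Q) g).Nonempty :=
    Finset.card_pos.1 (lt_of_lt_of_le hl (hsh g hg))
  have hr' := Finset.mem_filter.1 hr
  have hQ : (0 : ℝ) < Q := by
    have := Finset.mem_range.1 hr'.1
    exact_mod_cast (show 0 < Q by omega)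
  have hE : (0 : ℝ) < E.card := by exact_mod_cast Finset.card_pos.2 ⟨_, hr'.2⟩
  have hG0 : (0 : ℝ) < G.card := by exact_mod_cast Finset.card_pos.2 ⟨_, hg⟩
  have h3 := Real.log_le_log hG0 h2
  rw [Real.log_mul (by positivity) (by positivity), Real.log_mul (by positivity) (by positivity),
    Real.log_mul (by positivity) (by positivity), Real.log_rpow hQ, Real.log_rpow (by positivity),
    Real.log_pow, Real.log_div hE.ne' hl'.ne', Real.log_div hQ.ne' hl'.ne'] at h3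
  linarith

namespace FP

variable {Ω : Type} (P : FP Ω)

/-- Conditional surprise of `X` given `Z`. -/
noncomputable def sur {β : Type} (Z : Setoid Ω) (X : Ω → β) (ω : Ω) : ℝ :=
  Real.log (P.pr Z ω) - Real.log (P.pr (mt (ker X) Z) ω)

theorem sur_nonneg {β : Type} (Z : Setoid Ω) (X : Ω → β) {ω : Ω} (hω : ω ∈ P.S) :
    0 ≤ P.sur Z X ω :=
  sub_nonneg.2 (Real.log_le_log (P.pr_pos _ hω) (P.pr_mono fun _ _ h => (mt_rel.1 h).2))

theorem E_sur {β : Type} (Z : Setoid Ω) (X : Ω → β) :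
    P.E (P.sur Z X) = P.H (mt (ker X) Z) - P.H Z := by
  unfold FP.H
  rw [← FP.E_sub]
  exact P.E_congr fun ω _ => by simp only [sur]; ring

open Classical in
/-- Values with a given level of surprise are few. -/
theorem card_label {β : Type} (Z : Setoid Ω) (X : Ω → β) (I : ℕ) (T : Finset β) {a : Ω}
    (ha : a ∈ P.S) (hI : (T.card : ℝ) ≤ Real.exp I)
    (hT : ∀ w ∈ T, ∃ b ∈ P.S, X b = w ∧ Z b a ∧ min ⌊P.sur Z X b⌋₊ I = min ⌊P.sur Z X a⌋₊ I) :
    (T.card : ℝ) ≤ Real.exp ((min ⌊P.sur Z X a⌋₊ I : ℕ) + 1) := by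
  by_cases hc : ⌊P.sur Z X a⌋₊ < I
  · set i := min ⌊P.sur Z X a⌋₊ I with hi
    have hia : i = ⌊P.sur Z X a⌋₊ := min_eq_left hc.le
    have h1 := P.card_heavy Z X (fun x => Z x a ∧ min ⌊P.sur Z X x⌋₊ I = i) a
      (Real.exp (-(i + 1 : ℝ))) (by
        intro c hc' ⟨h3, h4⟩
        refine ⟨h3, ?_⟩
        have h6 : ⌊P.sur Z X c⌋₊ = i := by omega
        have h8 : P.sur Z X c < i + 1 := by rw [← h6]; exact Nat.lt_floor_add_one _
        have h9 := P.pr_pos Z hc'
        have h10 := P.pr_pos (mt (ker X) Z) hc'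
        rw [← Real.exp_log h9, ← Real.exp_log h10, ← Real.exp_add]
        refine Real.exp_le_exp.2 ?_
        simp only [sur] at h8
        linarith)
    have h2 := P.pr_pos Z ha
    have h5 : T ⊆ (P.S.filter fun x => Z x a ∧ min ⌊P.sur Z X x⌋₊ I = i).image X := by
      intro w hw
      obtain ⟨b, h1, h2, h3, h4⟩ := hT w hw
      exact Finset.mem_image.2 ⟨b, Finset.mem_filter.2 ⟨h1, h3, h4⟩, h2⟩
    have h6 : (T.card : ℝ) ≤
        ((P.S.filter fun x => Z x a ∧ min ⌊P.sur Z X x⌋₊ I = i).image X).card := by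
      exact_mod_cast Finset.card_le_card h5
    have h3 : (T.card : ℝ) * Real.exp (-(i + 1 : ℝ)) ≤ 1 := by
      have h4 : ((T.card : ℝ) * Real.exp (-(i + 1 : ℝ))) * P.pr Z a ≤ 1 * P.pr Z a := by
        rw [one_mul]
        refine le_trans (mul_le_mul_of_nonneg_right
            (mul_le_mul_of_nonneg_right h6 (Real.exp_pos _).le) h2.le) (le_trans (le_of_eq ?_) h1)
        refine congrArg (fun s : Finset β =>
          ((s.card : ℝ) * Real.exp (-(i + 1 : ℝ))) * P.pr Z a) ?_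
        ext y
        simp only [Finset.mem_image, Finset.mem_filter]
      exact le_of_mul_le_mul_right h4 h2
    rw [Real.exp_neg, ← div_eq_mul_inv, div_le_one (Real.exp_pos _)] at h3
    exact h3
  · rw [min_eq_right (not_lt.1 hc)]
    exact hI.trans (Real.exp_le_exp.2 (by linarith))

/-- A bounded label costs little. -/
theorem label_count (R : Setoid Ω) (i : Ω → ℕ) (I : ℕ) (B : ℝ) (hB : (I : ℝ) + 1 ≤ B)
    (hi : ∀ ω ∈ P.S, i ω ≤ I) : P.H (mt R (ker i)) ≤ P.H R + Real.log B :=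
  P.count_const (mt R (ker i)) R i B (fun _ _ _ _ h1 h2 => mt_rel.2 ⟨h1, h2⟩)
    (fun _ _ => ⟨Finset.range (I + 1), by simpa using hB,
      fun c hc _ => Finset.mem_range.2 (Nat.lt_succ_of_le (hi c hc))⟩)

end FP

theorem min_floor_le {x : ℝ} (hx : 0 ≤ x) (I : ℕ) : ((min ⌊x⌋₊ I : ℕ) : ℝ) ≤ x := by
  have h2 : ((min ⌊x⌋₊ I : ℕ) : ℝ) ≤ ⌊x⌋₊ := by exact_mod_cast min_le_left _ _
  exact h2.trans (Nat.floor_le hx)

theorem Sep.card_le_exp {Q : ℕ} (hQ : 0 < Q) {G : Finset (Line m)} (hG : Sep Q G) :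
    (G.card : ℝ) * Q ≤ Real.exp ((m + 1) * Real.log (3 * Q)) := by
  have hQ1 : (1 : ℝ) ≤ Q := by exact_mod_cast hQ
  have h4 : (G.card : ℝ) ≤ (2 * Q + 1 : ℝ) ^ m := by exact_mod_cast hG.card_le
  have h5 : (G.card : ℝ) * Q ≤ (3 * Q : ℝ) ^ (m + 1) := by
    rw [pow_succ]
    exact mul_le_mul (h4.trans (pow_le_pow_left₀ (by positivity) (by linarith) m)) (by linarith)
      (by positivity) (by positivity)
  refine h5.trans (le_of_eq ?_)
  rw [← Real.exp_log (show (0 : ℝ) < (3 * Q : ℝ) ^ (m + 1) by positivity), Real.log_pow]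
  push_cast; rfl

/-- The entropy form of the two-family estimate, with error term `err`. -/
def XE (m : ℕ) (η b : ℝ) (Q K : ℕ) (err : ℝ) : Prop :=
  ∀ (G : Finset (Line m)), Sep Q G → ∀ (Ω : Type) (P : FP Ω) (g : Ω → Line m) (t : Ω → ℕ)
    (Z : Setoid Ω) (D : Ω → XD m) (y : Ω → Fin m → ℤ) (lh : ℕ) (Nh : ℝ), 0 < lh →
    (∀ ω ∈ P.S, g ω ∈ G) → (∀ ω ∈ P.S, t ω < Q) → (∀ a ∈ P.S, ∀ c ∈ P.S, Z a c → D a = D c) →
    (∀ ω ∈ P.S, (D ω).OK Q K lh) → (∀ ω ∈ P.S, (Q : ℝ) ≤ K * |(D ω).ga - (D ω).al * t ω|) →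
    (∀ ω ∈ P.S, ∀ j, |y ω j - (D ω).val (g ω) j| ≤ K) →
    (∀ ω ∈ P.S, ((D ω).fib (y ω)).Nonempty) →
    (∀ ω ∈ P.S, Real.log (D ω).Eh.card ≤ Nh + Real.log lh) →
    η * (P.H (mt (ker y) Z) - P.H Z + (P.E fun ω => Real.log ((D ω).fib (y ω)).card) - Nh) +
      (P.H (mt (ker g) Z) - P.H Z) ≤
      b * (P.H (mt (ker fun ω => (cell (g ω) (t ω), t ω)) Z) - P.H Z) +
      (1 + 2 * η) * m * Real.log Q -
      (b + (1 + 2 * η) * m) * (P.H (mt (ker t) (mt (ker g) Z)) - P.H (mt (ker g) Z)) +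
      η * m * (Real.log Q - Real.log lh) + err

theorem xe_of_bound {η b c : ℝ} (hη : 0 ≤ η) (hb : 0 ≤ b) {Q K : ℕ} (hQ : 0 < Q)
    (hK : ∀ (l lh : ℕ) (G : Finset (Line m))
      (E : Finset (Pt m)) (D : XD m) (y : Line m → Fin m → ℤ) (F M : ℝ),
      0 < l → 0 < lh → 0 < F → 0 < M → G.Nonempty → Sep Q G →
      (∀ g ∈ G, l ≤ (shade E (range Q) g).card) → D.OK Q K lh →
      (∀ p ∈ E, (Q : ℝ) ≤ K * |D.ga - D.al * p.2|) → (∀ g ∈ G, ∀ j, |y g j - D.val g j| ≤ K) →
      (∀ g ∈ G, F ≤ (D.fib (y g)).card) → (∀ w, ((G.filter fun g => y g = w).card : ℝ) ≤ M) →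
      (1 + η) * Real.log G.card ≤ c +
        η * (Real.log M + Real.log D.Eh.card - Real.log lh - Real.log F) +
        b * (Real.log E.card - Real.log l) + (1 + 2 * η) * m * (Real.log Q - Real.log l) +
        η * m * (Real.log Q - Real.log lh)) :
    XE m η b Q K (c + (2 * η + 2 * b + (1 + 2 * η) * m + η * (m * Real.log (4 * K + 3))) +
      (4 * (1 + η) + 3 * (b + (1 + 2 * η) * m)) * Real.log ((m + 1) * Real.log (3 * Q) + 2)) := by
  classical
  intro G hG Ω P g t Z D y lh Nh hlh hg ht hD hOK hfar hy hne hNh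
  have hQ1 : (1 : ℝ) ≤ Q := by exact_mod_cast hQ
  set lam : ℝ := Real.log ((m + 1) * Real.log (3 * Q) + 2) with hlam
  set pt : Ω → Pt m := fun ω => (cell (g ω) (t ω), t ω) with hpt
  have hlog3 : 0 ≤ Real.log (3 * Q) := Real.log_nonneg (by linarith)
  set I : ℕ := ⌈(m + 1) * Real.log (3 * Q)⌉₊ with hI
  have hI1 : (I : ℝ) + 1 ≤ (m + 1) * Real.log (3 * Q) + 2 := by
    have := Nat.ceil_lt_add_one (a := (m + 1) * Real.log (3 * Q)) (by positivity)
    linarith
  have hI2 : (m + 1) * Real.log (3 * Q) ≤ I := Nat.le_ceil _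
  have hsepI : ∀ G' : Finset (Line m), Sep Q G' → (G'.card : ℝ) * Q ≤ Real.exp I :=
    fun G' h => (h.card_le_exp hQ).trans (Real.exp_le_exp.2 hI2)
  have hsepI' : ∀ G' : Finset (Line m), Sep Q G' → (G'.card : ℝ) ≤ Real.exp I := by
    intro G' h
    refine le_trans ?_ (hsepI G' h)
    have : (0 : ℝ) ≤ G'.card := Nat.cast_nonneg _
    nlinarith
  set i : Ω → ℕ := fun ω => min ⌊P.sur Z pt ω⌋₊ I with hi
  set iM : Ω → ℕ := fun ω => min ⌊P.sur (mt (ker y) Z) g ω⌋₊ I with hiM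
  set fb : Ω → ℝ := fun ω => (((D ω).fib (y ω)).card : ℝ) with hfb
  set iF : Ω → ℕ := fun ω => ⌊Real.log (fb ω)⌋₊ with hiF
  have hfb1 : ∀ ω ∈ P.S, 1 ≤ fb ω := fun ω hω => by
    simp only [hfb]; exact_mod_cast (hne ω hω).card_pos
  have hiFI : ∀ ω ∈ P.S, iF ω ≤ I := by
    intro ω hω
    refine Nat.floor_le_of_le ?_
    rw [Real.log_le_iff_le_exp (by linarith [hfb1 ω hω])]
    exact hsepI' _ ((hOK ω hω).sep.mono (Finset.filter_subset _ _))
  have L1 : ∀ R : Setoid Ω, P.H (mt (mt (mt R (ker i)) (ker iM)) (ker iF)) ≤ P.H R + 3 * lam := by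
    intro R
    have a1 := P.label_count R i I _ hI1 (fun ω _ => min_le_right _ _)
    have a2 := P.label_count (mt R (ker i)) iM I _ hI1 (fun ω _ => min_le_right _ _)
    have a3 := P.label_count (mt (mt R (ker i)) (ker iM)) iF I _ hI1 hiFI
    linarith
  set Z1 : Setoid Ω := mt (mt (mt Z (ker i)) (ker iM)) (ker iF) with hZ1
  have hZ1r : ∀ {a c}, Z1 a c ↔ Z a c ∧ i a = i c ∧ iM a = iM c ∧ iF a = iF c := by
    intro a c
    simp only [Z1, mt_rel, ker_def, and_assoc]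
  set Y : Ω → Finset ℕ := fun ω => (P.S.filter fun x => g x = g ω ∧ Z1 x ω).image t with hY
  have hY1 : ∀ ω ∈ P.S, 1 ≤ (Y ω).card := fun ω hω => Finset.card_pos.2
    ⟨t ω, Finset.mem_image.2 ⟨ω, Finset.mem_filter.2 ⟨hω, rfl, Z1.refl' ω⟩, rfl⟩⟩
  have hYQ : ∀ ω, (Y ω).card ≤ Q := by
    intro ω
    have : Y ω ⊆ Finset.range Q := by
      intro r hr
      obtain ⟨x, hx, rfl⟩ := Finset.mem_image.1 hr
      exact Finset.mem_range.2 (ht x (Finset.mem_filter.1 hx).1)
    simpa using Finset.card_le_card this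
  have hYrel : ∀ a c, g a = g c → Z1 a c → Y a = Y c := by
    intro a c h1 h2
    simp only [hY]
    refine congrArg (Finset.image t) (Finset.filter_congr fun x _ => ?_)
    exact and_congr (by rw [h1])
      ⟨fun h => Z1.trans' h h2, fun h => Z1.trans' h (Z1.symm' h2)⟩
  set j : Ω → ℕ := fun ω => ⌊Real.log (Y ω).card⌋₊ with hj
  set Z2 : Setoid Ω := mt Z1 (ker j) with hZ2
  have L2 : P.H Z2 ≤ P.H Z1 + lam := by
    refine P.label_count Z1 j I _ hI1 fun c hc => ?_
    have h1 : Real.log (Y c).card ≤ I := by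
      have h2 : ((Y c).card : ℝ) ≤ 3 * Q := by
        have : ((Y c).card : ℝ) ≤ Q := by exact_mod_cast hYQ c
        linarith
      have h3 : (1 : ℝ) ≤ (Y c).card := by exact_mod_cast hY1 c hc
      have h4 := Real.log_le_log (by linarith) h2
      have h5 : (0 : ℝ) ≤ m * Real.log (3 * Q) := by positivity
      nlinarith
    exact Nat.floor_le_of_le h1
  have L3 : P.H (mt (ker t) (mt (ker g) Z)) ≤
      P.H (mt (mt (mt (mt (ker g) Z) (ker i)) (ker iM)) (ker iF)) +
        P.E fun ω => Real.log (Y ω).card := by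
    refine P.count _ _ t (fun ω => ((Y ω).card : ℝ)) ?_ ?_ ?_
    · intro a _ c _ h1 h2
      simp only [mt_rel, ker_def] at h1 ⊢
      exact ⟨h2, h1.1.1.1.1, h1.1.1.1.2⟩
    · intro a _ c _ h1
      simp only [mt_rel, ker_def] at h1
      rw [hYrel a c h1.1.1.1.1 (hZ1r.2 ⟨h1.1.1.1.2, h1.1.1.2, h1.1.2, h1.2⟩)]
    · intro a _
      refine ⟨Y a, le_rfl, fun c hc h1 => ?_⟩
      simp only [mt_rel, ker_def] at h1
      exact Finset.mem_image.2 ⟨c, Finset.mem_filter.2
        ⟨hc, h1.1.1.1.1, hZ1r.2 ⟨h1.1.1.1.2, h1.1.1.2, h1.1.2, h1.2⟩⟩, rfl⟩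
  have hη1 : 0 < 1 + η := by linarith
  set W : Ω → ℝ := fun ω => c + η * (iM ω + 1 + Nh - iF ω) + b * (i ω + 1 - j ω) +
    (1 + 2 * η) * m * (Real.log Q - j ω) + η * m * (Real.log Q - Real.log lh) with hW
  have L4 : P.H (mt (ker g) Z) ≤ P.H Z2 + P.E fun ω => Real.log (Real.exp (W ω / (1 + η))) := by
    refine P.count _ Z2 g _ ?_ ?_ ?_
    · intro a _ c _ h1 h2
      exact mt_rel.2 ⟨h2, (hZ1r.1 (mt_rel.1 h1).1).1⟩
    · intro a _ c _ h1
      obtain ⟨h2, h3⟩ := mt_rel.1 h1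
      obtain ⟨-, h4, h5, h6⟩ := hZ1r.1 h2
      have h7 : j a = j c := h3
      simp only [hW]
      rw [h4, h5, h6, h7]
    · intro a ha
      set G0 : Finset (Line m) := (P.S.filter fun x => Z2 x a).image g with hG0
      refine ⟨G0, ?_, fun c hc h1 =>
        Finset.mem_image.2 ⟨c, Finset.mem_filter.2 ⟨hc, h1⟩, rfl⟩⟩
      set E0 : Finset (Pt m) := (P.S.filter fun x => Z1 x a).image pt with hE0
      set l0 : ℕ := ⌈Real.exp (j a)⌉₊ with hl0
      have hl1 : Real.exp (j a) ≤ l0 := Nat.le_ceil _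
      have hl2 : 0 < l0 := by
        have : (0 : ℝ) < l0 := lt_of_lt_of_le (Real.exp_pos _) hl1
        exact_mod_cast this
      have hsub : G0 ⊆ G := by
        intro k hk
        obtain ⟨x, hx, rfl⟩ := Finset.mem_image.1 hk
        exact hg x (Finset.mem_filter.1 hx).1
      have hE : (E0.card : ℝ) ≤ Real.exp (i a + 1) := by
        refine P.card_label Z pt I E0 ha ?_ ?_
        · have h1 : E0 ⊆ (G ×ˢ Finset.range Q).image fun x => (cell x.1 x.2, x.2) := by
            intro w hw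
            obtain ⟨x, hx, rfl⟩ := Finset.mem_image.1 hw
            have hx' := (Finset.mem_filter.1 hx).1
            exact Finset.mem_image.2 ⟨(g x, t x),
              Finset.mem_product.2 ⟨hg x hx', Finset.mem_range.2 (ht x hx')⟩, rfl⟩
          have h2 : E0.card ≤ G.card * Q := by
            refine (Finset.card_le_card h1).trans (Finset.card_image_le.trans ?_)
            rw [Finset.card_product, Finset.card_range]
          refine le_trans ?_ (hsepI G hG)
          exact_mod_cast h2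
        · intro w hw
          obtain ⟨x, hx, rfl⟩ := Finset.mem_image.1 hw
          obtain ⟨h1, h2⟩ := Finset.mem_filter.1 hx
          exact ⟨x, h1, rfl, (hZ1r.1 h2).1, (hZ1r.1 h2).2.1⟩
      have hrep : ∀ k ∈ G0, ∃ x, x ∈ P.S ∧ Z2 x a ∧ g x = k := by
        intro k hk
        obtain ⟨x, hx, rfl⟩ := Finset.mem_image.1 hk
        exact ⟨x, (Finset.mem_filter.1 hx).1, (Finset.mem_filter.1 hx).2, rfl⟩
      have : Nonempty Ω := ⟨a⟩
      choose! rep hrep using hrep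
      have hrZ : ∀ k ∈ G0, Z1 (rep k) a := fun k hk => (mt_rel.1 (hrep k hk).2.1).1
      have hrD : ∀ k ∈ G0, D (rep k) = D a := fun k hk =>
        hD _ (hrep k hk).1 a ha (hZ1r.1 (hrZ k hk)).1
      have hG0ne : G0.Nonempty :=
        ⟨g a, Finset.mem_image.2 ⟨a, Finset.mem_filter.2 ⟨ha, Z2.refl' a⟩, rfl⟩⟩
      have key := hK l0 lh G0 E0 (D a) (fun k => y (rep k)) (Real.exp (iF a))
        (Real.exp (iM a + 1)) hl2 hlh (Real.exp_pos _) (Real.exp_pos _) hG0ne (hG.mono hsub) (by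
        intro k hk
        obtain ⟨x, hx, rfl⟩ := Finset.mem_image.1 hk
        obtain ⟨hx1, hx2⟩ := Finset.mem_filter.1 hx
        obtain ⟨hx3, hx4⟩ := mt_rel.1 hx2
        have h1 : l0 ≤ (Y x).card := by
          rw [hl0, Nat.ceil_le]
          have h2 : j x = j a := hx4
          have h3 : (1 : ℝ) ≤ (Y x).card := by exact_mod_cast hY1 x hx1
          rw [← h2, ← Real.exp_log (show (0 : ℝ) < (Y x).card by linarith)]
          exact Real.exp_le_exp.2 (Nat.floor_le (Real.log_nonneg h3))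
        refine h1.trans (Finset.card_le_card ?_)
        intro r hr
        obtain ⟨z, hz, rfl⟩ := Finset.mem_image.1 hr
        obtain ⟨hy1, hy2, hy3⟩ := Finset.mem_filter.1 hz
        unfold shade
        refine Finset.mem_filter.2 ⟨Finset.mem_range.2 (ht z hy1), ?_⟩
        refine Finset.mem_image.2 ⟨z, Finset.mem_filter.2 ⟨hy1, Z1.trans' hy3 hx3⟩, ?_⟩
        simp only [hpt, hy2]) (hOK a ha) (by
        intro p hp
        obtain ⟨x, hx, rfl⟩ := Finset.mem_image.1 hp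
        obtain ⟨h1, h2⟩ := Finset.mem_filter.1 hx
        rw [← hD x h1 a ha (hZ1r.1 h2).1]
        exact hfar x h1) (by
        intro k hk j'
        have h1 := hy _ (hrep k hk).1 j'
        rwa [hrD k hk, (hrep k hk).2.2] at h1) (by
        intro k hk
        have h1 := hfb1 _ (hrep k hk).1
        have h2 : iF (rep k) = iF a := (hZ1r.1 (hrZ k hk)).2.2.2
        have h3 : Real.exp (iF (rep k)) ≤ fb (rep k) := by
          rw [← Real.exp_log (show (0 : ℝ) < fb (rep k) by linarith)]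
          exact Real.exp_le_exp.2 (Nat.floor_le (Real.log_nonneg h1))
        rw [h2] at h3
        simp only [hfb] at h3
        rwa [hrD k hk] at h3) (by
        intro w
        rcases (G0.filter fun k => y (rep k) = w).eq_empty_or_nonempty with h | ⟨k0, hk0⟩
        · rw [h]; simpa using (Real.exp_pos _).le
        obtain ⟨h1, h2⟩ := Finset.mem_filter.1 hk0
        have h3 : iM (rep k0) = iM a := (hZ1r.1 (hrZ k0 h1)).2.2.1
        rw [← h3]
        refine P.card_label (mt (ker y) Z) g I _ (hrep k0 h1).1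
          (hsepI' _ (hG.mono ((Finset.filter_subset _ _).trans hsub))) ?_
        intro k hk
        obtain ⟨h4, h5⟩ := Finset.mem_filter.1 hk
        refine ⟨rep k, (hrep k h4).1, (hrep k h4).2.2, mt_rel.2 ⟨h5.trans h2.symm, ?_⟩, ?_⟩
        · exact Z.trans' (hZ1r.1 (hrZ k h4)).1 (Z.symm' (hZ1r.1 (hrZ k0 h1)).1)
        · exact ((hZ1r.1 (hrZ k h4)).2.2.1).trans h3.symm)
      have hG0p : (0 : ℝ) < G0.card := by exact_mod_cast hG0ne.card_pos
      rw [← Real.log_le_iff_le_exp hG0p, le_div_iff₀ hη1, mul_comm]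
      refine key.trans ?_
      have hl3 : (0 : ℝ) < l0 := by exact_mod_cast hl2
      have e1 : (j a : ℝ) ≤ Real.log l0 := by
        rw [Real.le_log_iff_exp_le hl3]; exact hl1
      have hE0p : (0 : ℝ) < E0.card := by
        have : E0.Nonempty :=
          ⟨pt a, Finset.mem_image.2 ⟨a, Finset.mem_filter.2 ⟨ha, Z1.refl' a⟩, rfl⟩⟩
        exact_mod_cast this.card_pos
      have e2 : Real.log E0.card ≤ i a + 1 := by
        rw [Real.log_le_iff_le_exp hE0p]; exact hE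
      have e3 := hNh a ha
      simp only [Real.log_exp, hW]
      have e4 := mul_le_mul_of_nonneg_left (show (iM a : ℝ) + 1 + Real.log (D a).Eh.card -
        Real.log lh - iF a ≤ iM a + 1 + Nh - iF a by linarith) hη
      have e5 := mul_le_mul_of_nonneg_left (show Real.log E0.card - Real.log l0 ≤
        i a + 1 - j a by linarith) hb
      have e6 := mul_le_mul_of_nonneg_left (show Real.log Q - Real.log l0 ≤
        Real.log Q - j a by linarith) (show 0 ≤ (1 + 2 * η) * m by positivity)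
      linarith
  simp only [Real.log_exp] at L4
  have hA : (0 : ℝ) ≤ (1 + 2 * η) * m := by positivity
  have L5 : P.E W ≤ P.E fun ω =>
      (c + (2 * η + 2 * b + (1 + 2 * η) * m) + η * Nh + (1 + 2 * η) * m * Real.log Q +
        η * m * (Real.log Q - Real.log lh)) +
        ((η * P.sur (mt (ker y) Z) g ω - η * Real.log (fb ω)) +
          (b * P.sur Z pt ω - (b + (1 + 2 * η) * m) * Real.log (Y ω).card)) := by
    refine P.E_mono fun ω hω => ?_
    have h1 : (i ω : ℝ) ≤ P.sur Z pt ω := min_floor_le (P.sur_nonneg _ _ hω) I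
    have h2 : (iM ω : ℝ) ≤ P.sur (mt (ker y) Z) g ω := min_floor_le (P.sur_nonneg _ _ hω) I
    have h3 : Real.log (Y ω).card < j ω + 1 := Nat.lt_floor_add_one _
    have h4 : Real.log (fb ω) < iF ω + 1 := Nat.lt_floor_add_one _
    have e1 := mul_le_mul_of_nonneg_left h1 hb
    have e2 := mul_le_mul_of_nonneg_left h2 hη
    have e3 := mul_le_mul_of_nonneg_left h3.le (add_nonneg hb hA)
    have e4 := mul_le_mul_of_nonneg_left h4.le hη
    simp only [hW]
    linarith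
  have L6 : (P.E fun ω => W ω / (1 + η)) = (1 + η)⁻¹ * P.E W := by
    rw [← FP.E_mul]
    exact P.E_congr fun ω _ => by rw [div_eq_inv_mul]
  rw [L6] at L4
  clear L6
  generalize P.E W = EW at L4 L5
  rw [P.E_add (fun _ => c + (2 * η + 2 * b + (1 + 2 * η) * m) + η * Nh +
      (1 + 2 * η) * m * Real.log Q + η * m * (Real.log Q - Real.log lh)), FP.E_const, FP.E_add,
    FP.E_sub, FP.E_sub, FP.E_mul, FP.E_mul, FP.E_mul, FP.E_mul, FP.E_sur, FP.E_sur] at L5
  have L7 := L1 Z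
  have L8 := L1 (mt (ker g) Z)
  have L9 := mul_le_mul_of_nonneg_left (show P.H (mt (ker t) (mt (ker g) Z)) -
    P.H (mt (ker g) Z) - 3 * lam ≤ P.E fun ω => Real.log (Y ω).card by linarith)
    (add_nonneg hb hA)
  have L10 := P.near_count (mt (ker g) (mt (ker y) Z)) (mt (ker g) Z) (fun ω j => (y ω j : ℝ))
    (fun ω j => (D ω).val (g ω) j) K (by
      intro x _ z _ h1 h2
      simp only [Int.floor_intCast] at h2
      exact mt_rel.2 ⟨(mt_rel.1 h1).1, mt_rel.2 ⟨h2, (mt_rel.1 h1).2⟩⟩) (by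
      intro x hx z hz h1
      have h2 : g x = g z := (mt_rel.1 h1).1
      rw [hD x hx z hz (mt_rel.1 h1).2, h2]) hy
  have L11 := mul_le_mul_of_nonneg_left L10 hη
  have L12 : (1 + η) * (P.H (mt (ker g) Z) - P.H Z - 4 * lam) ≤ EW := by
    have h1 := mul_le_mul_of_nonneg_left (show P.H (mt (ker g) Z) - P.H Z - 4 * lam ≤
      (1 + η)⁻¹ * EW by linarith) hη1.le
    rwa [← mul_assoc, mul_inv_cancel₀ hη1.ne', one_mul] at h1
  linarith

theorem xe_of_xx {η b : ℝ} (hη : 0 ≤ η) (hb : 0 ≤ b) (hX : XX m η b) {ε : ℝ} (hε : 0 < ε)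
    {K : ℕ} (hK : 0 < K) :
    ∃ C : ℝ, 0 ≤ C ∧ ∀ Q : ℕ, 0 < Q → XE m η b Q K (ε * Real.log Q + C) := by
  have hbm : 0 < 4 * (1 + η) + 3 * (b + (1 + 2 * η) * m) := by positivity
  set A := 4 * (1 + η) + 3 * (b + (1 + 2 * η) * m) with hA
  obtain ⟨C, h⟩ := hX (ε / 2) (by positivity) K hK
  obtain ⟨C', h'⟩ := log_small m (ε := ε / 2 / A) (by positivity)
  refine ⟨|C + (2 * η + 2 * b + (1 + 2 * η) * m + η * (m * Real.log (4 * K + 3))) + A * C'|,
    abs_nonneg _, fun Q hQ => ?_⟩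
  intro G hG Ω P g t Z D y lh Nh a1 a2 a3 a4 a5 a6 a7 a8 a9
  have h1 := xe_of_bound (c := C + ε / 2 * Real.log Q) hη hb hQ (h Q) G hG Ω P g t Z D y lh Nh
    a1 a2 a3 a4 a5 a6 a7 a8 a9
  have h2 := mul_le_mul_of_nonneg_left (h' Q hQ) hbm.le
  have h3 : A * (ε / 2 / A * Real.log Q + C') = ε / 2 * Real.log Q + A * C' := by field_simp
  have h4 := le_abs_self
    (C + (2 * η + 2 * b + (1 + 2 * η) * m + η * (m * Real.log (4 * K + 3))) + A * C')
  linarith

end Pool.Agent.MP_5168f5_an.H19
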