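import Pool.Agent.MP_5168f5_an.H19.Geo

/-! Scalar estimates for the two extra functionals. -/

namespace Pool.Agent.MP_5168f5_an.H19

theorem abs_div_le' {x y X Y : ℝ} (hx : |x| ≤ X) (hy : Y ≤ |y|) (hY : 0 < Y) :
    |x / y| ≤ X / Y := by
  rw [abs_div]
  exact div_le_div₀ ((abs_nonneg _).trans hx) hx hY hy

theorem le_abs_div' {x y X Y : ℝ} (hx : X ≤ |x|) (hy : |y| ≤ Y) (h0 : y ≠ 0) (hX : 0 ≤ X) :
    X / Y ≤ |x / y| := by
  rw [abs_div]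
  have := abs_pos.2 h0
  calc X / Y ≤ X / |y| := div_le_div_of_nonneg_left hX this hy
    _ ≤ _ := div_le_div_of_nonneg_right hx this.le

theorem le_abs_mul' {a b A B : ℝ} (ha : A ≤ |a|) (hb : B ≤ |b|) (hB : 0 ≤ B) :
    A * B ≤ |a * b| := by
  rw [abs_mul]
  exact mul_le_mul ha hb hB (abs_nonneg _)

theorem int_eq_of_floor {w : ℝ} (hw : 1 ≤ |w|) {n n' : ℤ} (h : ⌊w * n⌋ = ⌊w * n'⌋) : n = n' := by
  have h1 := Int.abs_sub_lt_one_of_floor_eq_floor h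
  rw [← mul_sub, abs_mul] at h1
  have h2 : |(n : ℝ) - n'| < 1 := by nlinarith [abs_nonneg ((n : ℝ) - n')]
  have h3 : |n - n'| < 1 := by exact_mod_cast h2
  have := abs_lt.1 h3
  omega

/-- Denominator of the first extra coefficient. -/
noncomputable def dk (Q k : ℝ) : ℝ := 8 * k ^ 5 * Q

/-- Denominator of the second extra coefficient. -/
noncomputable def dt (q k : ℝ) : ℝ := 40 * k ^ 13 * q

section

variable {q Q k : ℝ} (hq : 1 ≤ q) (hQ : 1 ≤ Q) (hk : 1 ≤ k)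
include hq hQ hk

theorem ratio_bounds {a b : ℝ} (ha1 : Q ≤ k * |a|) (ha2 : |a| ≤ 2 * k ^ 2 * Q)
    (hb1 : q ≤ k * |b|) (hb2 : |b| ≤ q) :
    q / (2 * k ^ 3 * Q) ≤ |b / a| ∧ |b / a| ≤ k * q / Q ∧ a ≠ 0 ∧ b ≠ 0 := by
  have a0 : a ≠ 0 := by
    intro e; rw [e, abs_zero, mul_zero] at ha1; linarith
  have b0 : b ≠ 0 := by
    intro e; rw [e, abs_zero, mul_zero] at hb1; linarith
  have h1 : q / k ≤ |b| := by rw [div_le_iff₀ (by linarith)]; linarith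
  have h2 : Q / k ≤ |a| := by rw [div_le_iff₀ (by linarith)]; linarith
  refine ⟨le_trans (le_of_eq ?_) (le_abs_div' h1 ha2 a0 (by positivity)),
    (abs_div_le' hb2 h2 (by positivity)).trans (le_of_eq ?_), a0, b0⟩
  · field_simp
  · field_simp

theorem kk_abs {c a b : ℝ} (hc1 : 1 / (2 * k ^ 2) ≤ |c|) (hc2 : |c| ≤ 2 * k ^ 3)
    (ha1 : Q ≤ k * |a|) (ha2 : |a| ≤ 2 * k ^ 2 * Q) (hb1 : q ≤ k * |b|) (hb2 : |b| ≤ q) :
    q ≤ |(⌊dk Q k * (c * (b / a))⌋ : ℝ)| ∧ |(⌊dk Q k * (c * (b / a))⌋ : ℝ)| ≤ 17 * k ^ 9 * q := by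
  obtain ⟨r1, r2, -, -⟩ := ratio_bounds hq hQ hk ha1 ha2 hb1 hb2
  have hd : |dk Q k| = 8 * k ^ 5 * Q := abs_of_pos (by unfold dk; positivity)
  have u1 := abs_mul_le' hd.le (abs_mul_le' hc2 r2)
  have u2 := le_abs_mul' hd.ge (le_abs_mul' hc1 r1 (by positivity)) (by positivity)
  have e1 : 8 * k ^ 5 * Q * (2 * k ^ 3 * (k * q / Q)) = 16 * (k ^ 9 * q) := by field_simp; ring
  have e2 : 8 * k ^ 5 * Q * (1 / (2 * k ^ 2) * (q / (2 * k ^ 3 * Q))) = 2 * q := by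
    field_simp; ring
  have e3 : 1 ≤ k ^ 9 * q := one_le_mul_of_one_le_of_one_le (one_le_pow₀ hk) hq
  have f := abs_frac (dk Q k * (c * (b / a)))
  generalize dk Q k * (c * (b / a)) = x at *
  have t1 := abs_sub x (x - ⌊x⌋)
  have t2 := abs_add_le (x - ⌊x⌋) (⌊x⌋ : ℝ)
  rw [sub_sub_cancel] at t1
  rw [sub_add_cancel] at t2
  constructor <;> linarith

theorem kk_inj {a b : ℝ} {n n' : ℤ} (ha1 : Q ≤ k * |a|) (ha2 : |a| ≤ 2 * k ^ 2 * Q)
    (hb1 : q ≤ k * |b|) (hb2 : |b| ≤ q)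
    (h : ⌊dk Q k * (n / den q k * (b / a))⌋ = ⌊dk Q k * (n' / den q k * (b / a))⌋) : n = n' := by
  obtain ⟨r1, -, -, -⟩ := ratio_bounds hq hQ hk ha1 ha2 hb1 hb2
  refine int_eq_of_floor (w := dk Q k / den q k * (b / a)) ?_ (by
    rw [show ∀ n : ℝ, dk Q k / den q k * (b / a) * n = dk Q k * (n / den q k * (b / a)) from
      fun n => by ring, show ∀ n : ℝ, dk Q k / den q k * (b / a) * n =
      dk Q k * (n / den q k * (b / a)) from fun n => by ring]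
    exact h)
  have hd : |dk Q k / den q k| = 4 * k ^ 3 * Q / q := by
    rw [abs_of_pos (by unfold dk den; positivity)]
    unfold dk den; field_simp; ring
  have u2 := le_abs_mul' hd.ge r1 (by positivity)
  have e2 : 4 * k ^ 3 * Q / q * (q / (2 * k ^ 3 * Q)) = 2 := by field_simp; ring
  linarith

theorem kap_abs {n : ℝ} (hn : |n| ≤ 17 * k ^ 9 * q) : |n / dk Q k| ≤ 3 * k ^ 4 * q / Q := by
  have hd : |dk Q k| = 8 * k ^ 5 * Q := abs_of_pos (by unfold dk; positivity)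
  refine (abs_div_le' hn hd.ge (by positivity)).trans ?_
  rw [div_le_div_iff₀ (by positivity) (by positivity)]
  have : 0 ≤ k ^ 9 * q * Q := by positivity
  nlinarith

theorem psi_near {c α γ s r y1 x3 y3 x4 y4 : ℝ} (hc1 : 1 / (2 * k ^ 2) ≤ |c|)
    (hc2 : |c| ≤ 2 * k ^ 3) (ha1 : Q ≤ k * |γ - α * r|) (ha2 : |γ - α * r| ≤ 2 * k ^ 2 * Q)
    (ha3 : |α * s - γ| ≤ 2 * k ^ 2 * Q) (hb : Far q k s r) (hp : |x4 + s * y4| ≤ 2 * q)
    (hsh : ⌊x4 + s * y4⌋ = ⌊x3 + s * y3⌋) :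
    |q * y1 + ⌊dk Q k * (c * ((s - r) / (γ - α * r)))⌋ / dk Q k * (α * x4 + γ * y4) -
      (⌊q * y1 + c * (x3 + s * y3)⌋ + ⌊dk Q k * (c * ((s - r) / (γ - α * r)))⌋ / dk Q k *
        ((α * s - γ) / (s - r)) * ⌊x4 + r * y4⌋)| ≤ 1000 * k ^ 20 := by
  obtain ⟨-, -, a0, b0⟩ := ratio_bounds hq hQ hk ha1 ha2 hb.1 hb.2
  have hn := (kk_abs hq hQ hk hc1 hc2 ha1 ha2 hb.1 hb.2).2
  have hκ := kap_abs hq hQ hk hn
  have hD : 0 < dk Q k := by unfold dk; positivity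
  have hr := abs_round hD (c * ((s - r) / (γ - α * r)))
  generalize (⌊dk Q k * (c * ((s - r) / (γ - α * r)))⌋ : ℝ) / dk Q k = κ at *
  have e : q * y1 + κ * (α * x4 + γ * y4) - (⌊q * y1 + c * (x3 + s * y3)⌋ +
      κ * ((α * s - γ) / (s - r)) * ⌊x4 + r * y4⌋) =
      (q * y1 + c * (x3 + s * y3) - ⌊q * y1 + c * (x3 + s * y3)⌋) +
      (κ - c * ((s - r) / (γ - α * r))) * ((γ - α * r) / (s - r)) * (x4 + s * y4) +
      c * (x4 + s * y4 - (x3 + s * y3)) +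
      κ * ((α * s - γ) / (s - r)) * (x4 + r * y4 - ⌊x4 + r * y4⌋) := by
    field_simp; ring
  have h1 : q / k ≤ |s - r| := by rw [div_le_iff₀ (by linarith)]; linarith [hb.1]
  have b1 := abs_frac (q * y1 + c * (x3 + s * y3))
  have b2 := abs_mul_le' (abs_mul_le' hr (abs_div_le' ha2 h1 (by positivity))) hp
  have b3 := abs_mul_le' hc2 (abs_of_floor hsh)
  have b4 := abs_mul_le' (abs_mul_le' hκ (abs_div_le' ha3 h1 (by positivity)))
    (abs_frac (x4 + r * y4))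
  have e2 : 1 / dk Q k * (2 * k ^ 2 * Q / (q / k)) * (2 * q) = 1 / (2 * k ^ 2) := by
    unfold dk; field_simp; ring
  have e3 : 3 * k ^ 4 * q / Q * (2 * k ^ 2 * Q / (q / k)) * 1 = 6 * k ^ 7 := by
    field_simp; ring
  have e4 : 1 / (2 * k ^ 2) ≤ 1 := by
    rw [div_le_one (by positivity)]; nlinarith
  have k1 : 1 ≤ k ^ 20 := one_le_pow₀ hk
  have k3 : k ^ 3 ≤ k ^ 20 := pow_le_pow_right₀ hk (by norm_num)
  have k7 : k ^ 7 ≤ k ^ 20 := pow_le_pow_right₀ hk (by norm_num)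
  rw [e]
  refine (abs_add_le _ _).trans ?_
  refine (add_le_add (abs_add_three _ _ _) le_rfl).trans ?_
  linarith

theorem th_abs {ρ n : ℝ} (h1 : Q ≤ k * |ρ|) (h2 : |ρ| ≤ Q) (hn1 : q ≤ |n|)
    (hn2 : |n| ≤ 17 * k ^ 9 * q) :
    |-(q * dk Q k) / (ρ * n)| ≤ 8 * k ^ 6 ∧
    1 / (3 * k ^ 4) ≤ |(⌊dt q k * (-(q * dk Q k) / (ρ * n))⌋ : ℝ) / dt q k| ∧
    |(⌊dt q k * (-(q * dk Q k) / (ρ * n))⌋ : ℝ) / dt q k| ≤ 9 * k ^ 6 := by
  have a0 : ρ ≠ 0 := by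
    intro e; rw [e, abs_zero, mul_zero] at h1; linarith
  have b0 : n ≠ 0 := by
    intro e; rw [e, abs_zero] at hn1; linarith
  have hd : |-(q * dk Q k)| = q * (8 * k ^ 5 * Q) := by
    rw [abs_neg]; exact abs_of_pos (by unfold dk; positivity)
  have h3 : Q / k ≤ |ρ| := by rw [div_le_iff₀ (by linarith)]; linarith
  have u1 := abs_div_le' hd.le (le_abs_mul' h3 hn1 (by linarith)) (by positivity)
  have u2 := le_abs_div' hd.ge (abs_mul_le' h2 hn2) (mul_ne_zero a0 b0) (by positivity)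
  have e1 : q * (8 * k ^ 5 * Q) / (Q / k * q) = 8 * k ^ 6 := by field_simp
  have e2 : q * (8 * k ^ 5 * Q) / (Q * (17 * k ^ 9 * q)) = 8 / 17 * (1 / k ^ 4) := by field_simp
  have hD : 0 < dt q k := by unfold dt; positivity
  have hr := abs_round hD (-(q * dk Q k) / (ρ * n))
  have e3 : 1 / dt q k ≤ 1 / 40 * (1 / k ^ 4) := by
    rw [one_div_mul_one_div]
    refine one_div_le_one_div_of_le (by positivity) ?_
    unfold dt
    have k1 : k ^ 4 ≤ k ^ 13 := pow_le_pow_right₀ hk (by norm_num)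
    have : 0 ≤ k ^ 13 * (q - 1) := mul_nonneg (by positivity) (by linarith)
    nlinarith
  have e4 : 1 / (3 * k ^ 4) = 1 / 3 * (1 / k ^ 4) := by field_simp
  have e5 : 1 / k ^ 4 ≤ 1 := by
    rw [div_le_one (by positivity)]; exact one_le_pow₀ hk
  have e6 : 0 ≤ 1 / k ^ 4 := by positivity
  have k6 : 1 ≤ k ^ 6 := one_le_pow₀ hk
  generalize (⌊dt q k * (-(q * dk Q k) / (ρ * n))⌋ : ℝ) / dt q k = θ at *
  generalize -(q * dk Q k) / (ρ * n) = θ0 at *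
  have t1 := abs_sub θ (θ - θ0)
  have t2 := abs_add_le (θ - θ0) θ0
  rw [sub_sub_cancel] at t1
  rw [sub_add_cancel] at t2
  refine ⟨by linarith, by linarith, by linarith⟩

theorem th_inj {ρ : ℝ} {n n' : ℤ} (h1 : Q ≤ k * |ρ|) (h2 : |ρ| ≤ Q) (hn1 : q ≤ |(n : ℝ)|)
    (hn2 : |(n : ℝ)| ≤ 17 * k ^ 9 * q) (hn3 : q ≤ |(n' : ℝ)|) (hn4 : |(n' : ℝ)| ≤ 17 * k ^ 9 * q)
    (h : ⌊dt q k * (-(q * dk Q k) / (ρ * n))⌋ = ⌊dt q k * (-(q * dk Q k) / (ρ * n'))⌋) :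
    n = n' := by
  have a0 : ρ ≠ 0 := by
    intro e; rw [e, abs_zero, mul_zero] at h1; linarith
  have b0 : (n : ℝ) ≠ 0 := by
    intro e; rw [e, abs_zero] at hn1; linarith
  have b1 : (n' : ℝ) ≠ 0 := by
    intro e; rw [e, abs_zero] at hn3; linarith
  symm
  refine int_eq_of_floor (w := dt q k * (-(q * dk Q k)) / (ρ * (n * n'))) ?_ ?_
  · have hd : |dt q k * (-(q * dk Q k))| = 40 * k ^ 13 * q * (q * (8 * k ^ 5 * Q)) := by
      rw [mul_neg, abs_neg]; exact abs_of_pos (by unfold dk dt; positivity)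
    have u2 := le_abs_div' hd.ge (abs_mul_le' h2 (abs_mul_le' hn2 hn4))
      (mul_ne_zero a0 (mul_ne_zero b0 b1)) (by positivity)
    have e2 : 40 * k ^ 13 * q * (q * (8 * k ^ 5 * Q)) /
      (Q * (17 * k ^ 9 * q * (17 * k ^ 9 * q))) = 320 / 289 := by field_simp; ring
    linarith
  · have e1 : dt q k * (-(q * dk Q k)) / (ρ * (n * n')) * n' =
      dt q k * (-(q * dk Q k) / (ρ * n)) := by field_simp
    have e2 : dt q k * (-(q * dk Q k)) / (ρ * (n * n')) * n =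
      dt q k * (-(q * dk Q k) / (ρ * n')) := by field_simp
    rw [e1, e2, h]

theorem chi_near {R n ch rh xh yh y1 v u : ℝ} (hR : Q ≤ R * q) (hR1 : 1 ≤ R) (hf : Far Q k rh ch)
    (hn1 : q ≤ |n|) (hn2 : |n| ≤ 17 * k ^ 9 * q) (hv : |v| ≤ 2 * k ^ 2 * Q)
    (hy : |⌊xh + ch * yh⌋ - (v + u)| ≤ k) :
    |Q * yh + ⌊dt q k * (-(q * dk Q k) / ((rh - ch) * n))⌋ / dt q k * (Q * y1) -
      (Q / (rh - ch) * (⌊xh + rh * yh⌋ - u) +
        ⌊dt q k * (-(q * dk Q k) / ((rh - ch) * n))⌋ / dt q k * (Q / q) *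
          ⌊q * y1 + n / dk Q k * v⌋)| ≤ 1000 * k ^ 20 * R := by
  obtain ⟨-, -, t3⟩ := th_abs hq hQ hk hf.1 hf.2 hn1 hn2
  have hD : 0 < dt q k := by unfold dt; positivity
  have hD' : 0 < dk Q k := by unfold dk; positivity
  have hr := abs_round hD (-(q * dk Q k) / ((rh - ch) * n))
  have hκ := kap_abs hq hQ hk hn2
  have a0 := hf.ne (by linarith)
  have b0 : n ≠ 0 := by
    intro e; rw [e, abs_zero] at hn1; linarith
  generalize (⌊dt q k * (-(q * dk Q k) / ((rh - ch) * n))⌋ : ℝ) / dt q k = θ at *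
  have e : Q * yh + θ * (Q * y1) - (Q / (rh - ch) * (⌊xh + rh * yh⌋ - u) +
      θ * (Q / q) * ⌊q * y1 + n / dk Q k * v⌋) =
      Q / (rh - ch) * ((xh + rh * yh - ⌊xh + rh * yh⌋) - (xh + ch * yh - ⌊xh + ch * yh⌋) -
        (⌊xh + ch * yh⌋ - (v + u))) +
      -((θ - -(q * dk Q k) / ((rh - ch) * n)) * (Q / q * (n / dk Q k)) * v) +
      θ * (Q / q) * (q * y1 + n / dk Q k * v - ⌊q * y1 + n / dk Q k * v⌋) := by
    field_simp; ring
  have u1 := hf.div_le (by linarith) (d := Q) (by rw [abs_of_pos (by linarith)])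
  have u2 : |(xh + rh * yh - ⌊xh + rh * yh⌋) - (xh + ch * yh - ⌊xh + ch * yh⌋) -
      (⌊xh + ch * yh⌋ - (v + u))| ≤ 3 * k := by
    refine (abs_sub _ _).trans ?_
    have := abs_sub (xh + rh * yh - ⌊xh + rh * yh⌋) (xh + ch * yh - ⌊xh + ch * yh⌋)
    linarith [abs_frac (xh + rh * yh), abs_frac (xh + ch * yh)]
  have u3 : |Q / q| ≤ R := by
    rw [abs_of_pos (by positivity), div_le_iff₀ (by linarith)]; exact hR
  have u4 : |Q / q| = Q / q := abs_of_pos (by positivity)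
  have b1 := abs_mul_le' u1 u2
  have b2 := abs_mul_le' (abs_mul_le' hr (abs_mul_le' u4.le hκ)) hv
  have b3 := abs_mul_le' (abs_mul_le' t3 u3) (abs_frac (q * y1 + n / dk Q k * v))
  have e2 : 1 / dt q k * (Q / q * (3 * k ^ 4 * q / Q)) * (2 * k ^ 2 * Q) =
      3 / 20 * (1 / k ^ 7) * (Q / q) := by unfold dt; field_simp; ring
  have e5 : 1 / k ^ 7 ≤ 1 := by
    rw [div_le_one (by positivity)]; exact one_le_pow₀ hk
  have e6 : 3 / 20 * (1 / k ^ 7) * (Q / q) ≤ 1 * R :=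
    mul_le_mul (by linarith) (u4 ▸ u3) (by positivity) (by norm_num)
  have k1 : 1 ≤ k ^ 20 := one_le_pow₀ hk
  have k2 : k ^ 2 ≤ k ^ 20 := pow_le_pow_right₀ hk (by norm_num)
  have k6 : k ^ 6 ≤ k ^ 20 := pow_le_pow_right₀ hk (by norm_num)
  have m1 := mul_le_mul_of_nonneg_right k1 (show 0 ≤ R by linarith)
  have m2 := mul_le_mul_of_nonneg_right k6 (show 0 ≤ R by linarith)
  have m3 := mul_le_mul_of_nonneg_left hR1 (show 0 ≤ k ^ 20 by positivity)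
  rw [e]
  refine (abs_add_three _ _ _).trans ?_
  rw [abs_neg]
  nlinarith

theorem inv_chi {θ yh y1 : ℝ} (hqQ : q ≤ k * Q) (hθ : 1 / (3 * k ^ 4) ≤ |θ|) :
    |q * y1 - q / Q * ((⌊Q * yh + θ * (Q * y1)⌋ - Q * yh) / θ)| ≤ 1000 * k ^ 20 := by
  have h0 : θ ≠ 0 := by
    intro e; rw [e, abs_zero] at hθ
    have : 0 < 1 / (3 * k ^ 4) := by positivity
    linarith
  have e : q * y1 - q / Q * ((⌊Q * yh + θ * (Q * y1)⌋ - Q * yh) / θ) =
      q / Q * ((Q * yh + θ * (Q * y1) - ⌊Q * yh + θ * (Q * y1)⌋) / θ) := by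
    field_simp; ring
  have u1 : |q / Q| ≤ k := by
    rw [abs_of_pos (by positivity), div_le_iff₀ (by linarith)]; exact hqQ
  have b := abs_mul_le' u1 (abs_div_le' (abs_frac (Q * yh + θ * (Q * y1))) hθ (by positivity))
  have e2 : k * (1 / (1 / (3 * k ^ 4))) = 3 * k ^ 5 := by field_simp
  have k5 : k ^ 5 ≤ k ^ 20 := pow_le_pow_right₀ hk (by norm_num)
  have k1 : 0 ≤ k ^ 20 := by positivity
  rw [e]
  linarith

end

end Pool.Agent.MP_5168f5_an.H19
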