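import Pool.Agent.MP_5168f5_an.H19.XDesc
import Pool.Agent.MP_5168f5_an.H19.Iter

/-! The joint iteration down to the exponent `1.6725227`. -/

namespace Pool.Agent.MP_5168f5_an.H19

variable {m : ℕ}

theorem joint_step {η β β0 η' β' β1 : ℝ} (hm : 29 ≤ m) (hη : 0 ≤ η) (hη1 : η ≤ 1) (hβ : 0 ≤ β)
    (hβ2 : β ≤ 2) (h0 : 0 ≤ β0) (h2 : β0 ≤ 2) (hη' : 0 ≤ η') (hη1' : η' ≤ 1) (hb : 1 + η' ≤ β')
    (hb2 : β' ≤ 2) (h1 : 1 ≤ β1) (hA : AlgX η β β0 η' β') (hB : AlgT η' β' β1)
    (h : XX m η β ∧ KK m β0) : XX m η' β' ∧ KK m β1 := by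
  have hX := xx_of_tx hη' hb (tx_of_xx hm hη hη1 hβ hβ2 h0 h2 hη' h.1 h.2 hA)
  exact ⟨hX, kk_of_te h1 (te_of_xx hm hη' hη1' (by linarith) hb2 hX hB)⟩

theorem algX0 : AlgX 0 (16752 / 10000) (16752 / 10000)
    (30473 / 1000000) (16957255 / 10000000) := by
  intro al n z L mL mH mR A M u v f bh e _ _ _ _ _ _ _ h1 h2 _ _ _
  unfold INu at h1
  unfold IMu at h2
  linarith

theorem algT0 : AlgT (30473 / 1000000) (16957255 / 10000000) (16730322 / 10000000) := by
  intro al n z L mL A M e _ _ _ _ _ h1 h2 _
  unfold INu at h1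
  unfold IMu at h2
  linarith

theorem algX1 : AlgX (30473 / 1000000) (16957255 / 10000000) (16730322 / 10000000)
    (286311 / 10000000) (16923058 / 10000000) := by
  intro al n z L mL mH mR A M u v f bh e _ _ _ _ _ _ _ h1 h2 _ _ _
  unfold INu at h1
  unfold IMu at h2
  linarith

theorem algT1 : AlgT (286311 / 10000000) (16923058 / 10000000) (16726425 / 10000000) := by
  intro al n z L mL A M e _ _ _ _ _ h1 h2 _
  unfold INu at h1
  unfold IMu at h2
  linarith

theorem algX2 : AlgX (286311 / 10000000) (16923058 / 10000000) (16726425 / 10000000)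
    (286083 / 10000000) (16918883 / 10000000) := by
  intro al n z L mL mH mR A M u v f bh e _ _ _ _ _ _ _ h1 h2 _ _ _
  unfold INu at h1
  unfold IMu at h2
  linarith

theorem algT2 : AlgT (286083 / 10000000) (16918883 / 10000000) (1672549 / 1000000) := by
  intro al n z L mL A M e _ _ _ _ _ h1 h2 _
  unfold INu at h1
  unfold IMu at h2
  linarith

theorem algX3 : AlgX (286083 / 10000000) (16918883 / 10000000) (1672549 / 1000000)
    (285855 / 10000000) (16917755 / 10000000) := by
  intro al n z L mL mH mR A M u v f bh e _ _ _ _ _ _ _ h1 h2 _ _ _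
  unfold INu at h1
  unfold IMu at h2
  linarith

theorem algT3 : AlgT (285855 / 10000000) (16917755 / 10000000) (16725276 / 10000000) := by
  intro al n z L mL A M e _ _ _ _ _ h1 h2 _
  unfold INu at h1
  unfold IMu at h2
  linarith

theorem algX4 : AlgX (285855 / 10000000) (16917755 / 10000000) (16725276 / 10000000)
    (28581 / 1000000) (16917507 / 10000000) := by
  intro al n z L mL mH mR A M u v f bh e _ _ _ _ _ _ _ h1 h2 _ _ _
  unfold INu at h1
  unfold IMu at h2
  linarith

theorem algT4 : AlgT (28581 / 1000000) (16917507 / 10000000) (16725227 / 10000000) := by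
  intro al n z L mL A M e _ _ _ _ _ h1 h2 _
  unfold INu at h1
  unfold IMu at h2
  linarith

/-- The discrete maximal estimate for every exponent `b ≥ 1.6725227`. -/
theorem kk_ext (hm : 29 ≤ m) {b : ℝ} (hb : 16725227 / 10000000 ≤ b) : KK m b := by
  have k0 : KK m (16752 / 10000) := kk_final (by omega) (by norm_num) (by norm_num)
  have s0 : XX m 0 (16752 / 10000) ∧ KK m (16752 / 10000) := ⟨xx_zero k0, k0⟩
  have s1 := joint_step hm (by norm_num) (by norm_num) (by norm_num) (by norm_num) (by norm_num)
    (by norm_num) (by norm_num) (by norm_num) (by norm_num) (by norm_num) (by norm_num)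
    algX0 algT0 s0
  have s2 := joint_step hm (by norm_num) (by norm_num) (by norm_num) (by norm_num) (by norm_num)
    (by norm_num) (by norm_num) (by norm_num) (by norm_num) (by norm_num) (by norm_num)
    algX1 algT1 s1
  have s3 := joint_step hm (by norm_num) (by norm_num) (by norm_num) (by norm_num) (by norm_num)
    (by norm_num) (by norm_num) (by norm_num) (by norm_num) (by norm_num) (by norm_num)
    algX2 algT2 s2
  have s4 := joint_step hm (by norm_num) (by norm_num) (by norm_num) (by norm_num) (by norm_num)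
    (by norm_num) (by norm_num) (by norm_num) (by norm_num) (by norm_num) (by norm_num)
    algX3 algT3 s3
  have s5 := joint_step hm (by norm_num) (by norm_num) (by norm_num) (by norm_num) (by norm_num)
    (by norm_num) (by norm_num) (by norm_num) (by norm_num) (by norm_num) (by norm_num)
    algX4 algT4 s4
  exact s5.2.mono hb

end Pool.Agent.MP_5168f5_an.H19
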