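import Pool.Agent.MP_5168f5_an.H19.XCore
import Pool.Agent.MP_5168f5_an.H19.XGeo

/-! The two extra conditional estimates along the longer path. -/

namespace Pool.Agent.MP_5168f5_an.H19

open Finset Setoid

variable {m : ℕ} {Ω : Type}

/-- A corner, one more line of the family and one ambient line, with their heights. -/
structure XCfg (m : ℕ) (Ω : Type) where
  c : Cfg m Ω
  g4 : Ω → Line m
  r2 : Ω → ℕ
  gh : Ω → Line m
  rh : Ω → ℕ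

namespace XCfg

variable (x : XCfg m Ω) (q Q K : ℕ) (D : XD m)

/-- Pointwise properties of a sample. -/
structure Good (G : Finset (Line m)) (A : ℕ → Finset (Fin m → ℤ)) (ω : Ω) : Prop where
  m4 : x.g4 ω ∈ G
  l2 : x.r2 ω < q
  f7 : Far q K (x.c.s ω) (x.r2 ω)
  sh2 : cell (x.g4 ω) (x.c.s ω) = cell (x.c.g3 ω) (x.c.s ω)
  a2 : cell (x.g4 ω) (x.r2 ω) ∈ A (x.r2 ω)
  far : (Q : ℝ) ≤ K * |D.ga - D.al * x.r2 ω|
  mh : x.gh ω ∈ D.Gh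
  lh : x.rh ω < Q
  eh : (cell (x.gh ω) (x.rh ω), x.rh ω) ∈ D.Eh
  yh : ∀ j, |cell (x.gh ω) D.ch j - D.val (x.g4 ω) j| ≤ K

/-- First rounded coefficient. -/
noncomputable def kk (ω : Ω) : ℤ := ⌊dk Q K * (x.c.kc q K ω / den q K *
  (((x.c.s ω : ℝ) - x.r2 ω) / (D.ga - D.al * x.r2 ω)))⌋

/-- First functional. -/
noncomputable def psi (ω : Ω) : Fin m → ℤ := fun j =>
  ⌊q * (x.c.g1 ω).2 j + x.kk q Q K D ω / dk Q K * (D.al * (x.g4 ω).1 j + D.ga * (x.g4 ω).2 j)⌋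

/-- Second rounded coefficient. -/
noncomputable def kh (ω : Ω) : ℤ :=
  ⌊dt q K * (-(q * dk Q K) / (((x.rh ω : ℝ) - D.ch) * x.kk q Q K D ω))⌋

/-- Second functional. -/
noncomputable def chi (ω : Ω) : Fin m → ℤ := fun j =>
  ⌊Q * (x.gh ω).2 j + x.kh q Q K D ω / dt q K * (Q * (x.c.g1 ω).2 j)⌋

/-- First conditioning. -/
noncomputable def Zp : Setoid Ω :=
  ker fun ω => (x.c.r0 ω, x.c.r1 ω, x.c.s ω, x.kk q Q K D ω, x.psi q Q K D ω)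

/-- Second conditioning. -/
noncomputable def Zc : Setoid Ω :=
  ker fun ω => (x.c.r0 ω, x.c.r1 ω, x.c.s ω, x.kh q Q K D ω, x.chi q Q K D ω)

/-- The basic variables. -/
def W : Setoid Ω := ker fun ω =>
  (x.c.g1 ω, x.c.g2 ω, x.c.g3 ω, x.g4 ω, x.c.r0 ω, x.c.r1 ω, x.c.s ω, x.c.t ω, x.c.r ω)

theorem Zp_rel {a b : Ω} : x.Zp q Q K D a b ↔ x.c.r0 a = x.c.r0 b ∧ x.c.r1 a = x.c.r1 b ∧
    x.c.s a = x.c.s b ∧ x.kk q Q K D a = x.kk q Q K D b ∧ x.psi q Q K D a = x.psi q Q K D b := by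
  unfold Zp
  rw [ker_def]
  simp only [Prod.mk.injEq]

theorem Zc_rel {a b : Ω} : x.Zc q Q K D a b ↔ x.c.r0 a = x.c.r0 b ∧ x.c.r1 a = x.c.r1 b ∧
    x.c.s a = x.c.s b ∧ x.kh q Q K D a = x.kh q Q K D b ∧ x.chi q Q K D a = x.chi q Q K D b := by
  unfold Zc
  rw [ker_def]
  simp only [Prod.mk.injEq]

theorem W_rel {a b : Ω} : x.W a b ↔ x.c.g1 a = x.c.g1 b ∧ x.c.g2 a = x.c.g2 b ∧
    x.c.g3 a = x.c.g3 b ∧ x.g4 a = x.g4 b ∧ x.c.r0 a = x.c.r0 b ∧ x.c.r1 a = x.c.r1 b ∧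
    x.c.s a = x.c.s b ∧ x.c.t a = x.c.t b ∧ x.c.r a = x.c.r b := by
  unfold W
  rw [ker_def]
  simp only [Prod.mk.injEq]

end XCfg

/-- The logarithmic constant lost in the extra determinations. -/
noncomputable def cX (K : ℕ) : ℝ := Real.log (4 * (1000 * K ^ 20 : ℕ) + 3)

theorem cX_nonneg (K : ℕ) : 0 ≤ cX K := by
  unfold cX
  refine Real.log_nonneg ?_
  have : (0 : ℝ) ≤ ((1000 * K ^ 20 : ℕ) : ℝ) := Nat.cast_nonneg _
  linarith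

theorem xcoef_count {q K : ℕ} (hq : 0 < q) (hK : 0 < K) (P : FP Ω) (R U : Setoid Ω) (X : Ω → ℤ)
    (hX : ∀ a ∈ P.S, |(X a : ℝ)| ≤ 320 * (K : ℝ) ^ 19 * q + 1)
    (hR : ∀ a ∈ P.S, ∀ b ∈ P.S, U a b → X a = X b → R a b) :
    P.H R ≤ P.H U + (Real.log q + cX K) := by
  have hq1 : (1 : ℝ) ≤ q := by exact_mod_cast hq
  have hK1 : (1 : ℝ) ≤ K := by exact_mod_cast hK
  have k1 : (K : ℝ) ^ 19 ≤ (K : ℝ) ^ 20 := pow_le_pow_right₀ hK1 (by norm_num)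
  have k2 := mul_le_mul_of_nonneg_right k1 (show (0 : ℝ) ≤ q by linarith)
  have k3 : 0 ≤ (K : ℝ) ^ 20 * q := by positivity
  have := P.int_count R U X (320 * K ^ 19 * q + 1)
    (q * (4 * (1000 * K ^ 20 : ℕ) + 3)) (by push_cast; nlinarith) hR (by
      intro a ha
      have h5 : ((|X a| : ℤ) : ℝ) ≤ (((320 * K ^ 19 * q + 1 : ℕ) : ℤ) : ℝ) := by
        push_cast; exact hX a ha
      exact_mod_cast h5)
  rw [Real.log_mul (by positivity) (by positivity)] at this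
  exact this

section

variable {q Q K lh : ℕ} {G : Finset (Line m)} {A : ℕ → Finset (Fin m → ℤ)} {x : XCfg m Ω}
  {P : FP Ω} {D : XD m} (hq : 0 < q) (hQ : 0 < Q) (hK : 0 < K) (hqQ : q ≤ K * Q)
  (hD : D.OK Q K lh) (hc : ∀ ω ∈ P.S, x.c.Good q K G A ω)
  (hx : ∀ ω ∈ P.S, x.Good q Q K D G A ω) (hG : Sep q G) (hbox : ∀ g ∈ G, ∀ j, |g.1 j| ≤ q)

include hQ hK hqQ hD in
theorem aff_le {a b : ℝ} (ha : |a| ≤ q) (hb : |b| ≤ 1) :
    |D.al * a + D.ga * b| ≤ 2 * (K : ℝ) ^ 2 * Q := by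
  have hQ1 : (1 : ℝ) ≤ Q := by exact_mod_cast hQ
  have hK1 : (1 : ℝ) ≤ K := by exact_mod_cast hK
  have h0 : (q : ℝ) ≤ K * Q := by exact_mod_cast hqQ
  have h1 := abs_mul_le' hD.hal (ha.trans h0)
  have h2 := abs_mul_le' hD.hga hb
  have h3 := abs_add_le (D.al * a) (D.ga * b)
  have h4 : 0 ≤ (K : ℝ) * Q * (K - 1) := mul_nonneg (by positivity) (by linarith)
  nlinarith

include hQ hK hqQ hD in
theorem aff_le' {r : ℕ} (hr : r < q) : |D.ga - D.al * r| ≤ 2 * (K : ℝ) ^ 2 * Q := by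
  have := aff_le hQ hK hqQ hD (a := -(r : ℝ)) (b := 1)
    (by rw [abs_neg, Nat.abs_cast]; exact_mod_cast hr.le) (by simp)
  rwa [show D.al * -(r : ℝ) + D.ga * 1 = D.ga - D.al * r by ring] at this

include hq hK hc in
theorem kc_high {ω : Ω} (hω : ω ∈ P.S) : |(x.c.kc q K ω : ℝ) / den q K| ≤ 2 * (K : ℝ) ^ 3 := by
  have hK1 : (1 : ℝ) ≤ K := by exact_mod_cast hK
  have := kc_abs hq hK hc hω
  have k1 : (1 : ℝ) ≤ (K : ℝ) ^ 3 := one_le_pow₀ hK1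
  linarith

include hq hQ hK hqQ hD hc hx

theorem kk_bd {ω : Ω} (hω : ω ∈ P.S) : (q : ℝ) ≤ |(x.kk q Q K D ω : ℝ)| ∧
    |(x.kk q Q K D ω : ℝ)| ≤ 17 * (K : ℝ) ^ 9 * q :=
  kk_abs (by exact_mod_cast hq) (by exact_mod_cast hQ) (by exact_mod_cast hK)
    (kc_low hq hK hc hω) (kc_high hq hK hc hω) (hx ω hω).far (aff_le' hQ hK hqQ hD (hx ω hω).l2)
    (hx ω hω).f7.1 (hx ω hω).f7.2

theorem kk_bd' {ω : Ω} (hω : ω ∈ P.S) :
    |(x.kk q Q K D ω : ℝ)| ≤ 320 * (K : ℝ) ^ 19 * q + 1 := by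
  have hK1 : (1 : ℝ) ≤ K := by exact_mod_cast hK
  have h1 := (kk_bd hq hQ hK hqQ hD hc hx hω).2
  have k1 : (K : ℝ) ^ 9 ≤ (K : ℝ) ^ 19 := pow_le_pow_right₀ hK1 (by norm_num)
  have k2 := mul_le_mul_of_nonneg_right k1 (Nat.cast_nonneg (α := ℝ) q)
  have k3 : 0 ≤ (K : ℝ) ^ 19 * q := by positivity
  linarith

theorem kh_bd {ω : Ω} (hω : ω ∈ P.S) :
    |(x.kh q Q K D ω : ℝ)| ≤ 320 * (K : ℝ) ^ 19 * q + 1 ∧
    1 / (3 * (K : ℝ) ^ 4) ≤ |(x.kh q Q K D ω : ℝ) / dt q K| := by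
  have hq1 : (1 : ℝ) ≤ q := by exact_mod_cast hq
  have hK1 : (1 : ℝ) ≤ K := by exact_mod_cast hK
  have hf := hD.far _ (hx ω hω).eh
  obtain ⟨n1, n2⟩ := kk_bd hq hQ hK hqQ hD hc hx hω
  obtain ⟨t1, t2, -⟩ := th_abs hq1 (by exact_mod_cast hQ) hK1 hf.1 hf.2 n1 n2
  refine ⟨?_, t2⟩
  have hd : |dt (q : ℝ) K| = 40 * (K : ℝ) ^ 13 * q := abs_of_pos (by unfold dt; positivity)
  have u := abs_mul_le' hd.le t1
  unfold XCfg.kh
  generalize dt (q : ℝ) K * (-(q * dk Q K) / (((x.rh ω : ℝ) - D.ch) * x.kk q Q K D ω)) = z at *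
  have t3 := abs_sub z (z - ⌊z⌋)
  rw [sub_sub_cancel] at t3
  have t4 := abs_frac z
  have e : 40 * (K : ℝ) ^ 13 * q * (8 * K ^ 6) = 320 * (K : ℝ) ^ 19 * q := by ring
  linarith

theorem t'_kk {a b : Ω} (ha : a ∈ P.S) (hb : b ∈ P.S) (hW : x.W a b) (h2 : x.r2 a = x.r2 b)
    (h : x.kk q Q K D a = x.kk q Q K D b) : x.c.t' a = x.c.t' b := by
  obtain ⟨-, -, -, -, e0, e1, es, et, er⟩ := x.W_rel.1 hW
  refine t'_kc hq hK hc ha hb e0 e1 et es er ?_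
  unfold XCfg.kk at h
  rw [← es, ← h2] at h
  exact kk_inj (by exact_mod_cast hq) (by exact_mod_cast hQ) (by exact_mod_cast hK)
    (hx a ha).far (aff_le' hQ hK hqQ hD (hx a ha).l2) (hx a ha).f7.1 (hx a ha).f7.2 h

theorem kk_kh {a b : Ω} (ha : a ∈ P.S) (hb : b ∈ P.S) (h2 : x.rh a = x.rh b)
    (h : x.kh q Q K D a = x.kh q Q K D b) : x.kk q Q K D a = x.kk q Q K D b := by
  have hf := hD.far _ (hx a ha).eh
  obtain ⟨n1, n2⟩ := kk_bd hq hQ hK hqQ hD hc hx ha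
  obtain ⟨n3, n4⟩ := kk_bd hq hQ hK hqQ hD hc hx hb
  unfold XCfg.kh at h
  rw [← h2] at h
  exact th_inj (by exact_mod_cast hq) (by exact_mod_cast hQ) (by exact_mod_cast hK)
    hf.1 hf.2 n1 n2 n3 n4 h

include hG hbox

/-- The first extra inequality. -/
theorem psi_ineq {β e T l N : ℝ} (hβ : 0 ≤ β) (hKE : KE m β q e)
    (hN : ∀ r, ((A r).card : ℝ) ≤ N)
    (hT : T ≤ P.H (ker fun ω => (x.c.g1 ω, x.g4 ω, x.c.r0 ω, x.c.r1 ω, x.c.s ω)))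
    (h3 : P.H x.W + 2 * l ≤ P.H (mt (mt x.W (ker x.r2)) (ker x.c.t')))
    (h1 : P.H (mt x.W (ker x.r2)) + l ≤ P.H (mt (mt x.W (ker x.r2)) (ker x.c.t'))) :
    T + l - m * cX K - P.H (x.Zp q Q K D) ≤
      β * (P.H (x.c.Zb q K) + Real.log q + Real.log N + m * cX K - P.H (x.Zp q Q K D)) +
        m * Real.log q - (β + m) * (2 * l - Real.log q - cX K) + e := by
  have hq1 : (1 : ℝ) ≤ q := by exact_mod_cast hq
  have hQ1 : (1 : ℝ) ≤ Q := by exact_mod_cast hQ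
  have hK1 : (1 : ℝ) ≤ K := by exact_mod_cast hK
  have key := hKE G hG Ω P x.g4 x.r2 (x.Zp q Q K D) (fun ω hω => (hx ω hω).m4)
    (fun ω hω => (hx ω hω).l2)
  have a1 := P.submod (mt x.W (ker (x.kk q Q K D)))
    (mt (ker x.r2) (mt (ker x.g4) (x.Zp q Q K D))) (mt (mt x.W (ker x.r2)) (ker x.c.t'))
    (mt (ker x.g4) (x.Zp q Q K D)) (by
      intro a ha b hb h1 h2
      simp only [mt_rel, ker_def] at h1 h2 ⊢
      exact ⟨⟨h1.1, h2.1⟩, t'_kk hq hQ hK hqQ hD hc hx ha hb h1.1 h2.1 h1.2⟩) (by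
      intro a _ b _ h1
      simp only [mt_rel, XCfg.W_rel, XCfg.Zp_rel, ker_def] at h1 ⊢
      obtain ⟨⟨e1, -, -, e4, e5, e6, e7, -, -⟩, e8⟩ := h1
      refine ⟨e4, e5, e6, e7, e8, ?_⟩
      unfold XCfg.psi
      rw [e1, e4, e8]) (fun a _ b _ h1 => (mt_rel.1 h1).2)
  have a2 := xcoef_count hq hK P (mt x.W (ker (x.kk q Q K D))) x.W (x.kk q Q K D)
    (fun a ha => kk_bd' hq hQ hK hqQ hD hc hx ha) (fun a _ b _ h1 h2 => mt_rel.2 ⟨h1, h2⟩)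
  have a3 := P.submod (mt x.W (ker x.r2))
    (ker fun ω => (x.c.g1 ω, x.g4 ω, x.c.r0 ω, x.c.r1 ω, x.c.s ω, x.kk q Q K D ω))
    (mt (mt x.W (ker x.r2)) (ker x.c.t'))
    (ker fun ω => (x.c.g1 ω, x.g4 ω, x.c.r0 ω, x.c.r1 ω, x.c.s ω)) (by
      intro a ha b hb h1 h2
      simp only [mt_rel, ker_def, Prod.mk.injEq] at h1 h2 ⊢
      exact ⟨h1, t'_kk hq hQ hK hqQ hD hc hx ha hb h1.1 h1.2 h2.2.2.2.2.2⟩) (by
      intro a _ b _ h1
      simp only [mt_rel, XCfg.W_rel, ker_def, Prod.mk.injEq] at h1 ⊢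
      obtain ⟨⟨e1, -, -, e4, e5, e6, e7, -, -⟩, -⟩ := h1
      exact ⟨e1, e4, e5, e6, e7⟩) (by
      intro a _ b _ h1
      simp only [ker_def, Prod.mk.injEq] at h1 ⊢
      obtain ⟨e1, e4, e5, e6, e7, -⟩ := h1
      exact ⟨e1, e4, e5, e6, e7⟩)
  have a4 := P.near_count
    (ker fun ω => (x.c.g1 ω, x.g4 ω, x.c.r0 ω, x.c.r1 ω, x.c.s ω, x.kk q Q K D ω))
    (mt (ker x.g4) (x.Zp q Q K D)) (fun ω j => q * (x.c.g1 ω).2 j)
    (fun ω j => x.psi q Q K D ω j -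
      x.kk q Q K D ω / dk Q K * (D.al * (x.g4 ω).1 j + D.ga * (x.g4 ω).2 j)) (1000 * K ^ 20) (by
      intro a ha b hb h1 h2
      simp only [mt_rel, XCfg.Zp_rel, ker_def, Prod.mk.injEq] at h1 ⊢
      obtain ⟨e1, e2, e3, e4, e5, -⟩ := h1
      exact ⟨hG.dir_inj (hc a ha).m1 (hc b hb).m1 h2, e1, e2, e3, e4, e5⟩) (by
      intro a _ b _ h1
      simp only [mt_rel, XCfg.Zp_rel, ker_def] at h1
      obtain ⟨e1, -, -, -, e5, e6⟩ := h1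
      rw [e1, e5, e6]) (by
      intro a _ j
      have h1 := abs_frac (q * (x.c.g1 a).2 j +
        x.kk q Q K D a / dk Q K * (D.al * (x.g4 a).1 j + D.ga * (x.g4 a).2 j))
      have k1 : (1 : ℝ) ≤ (K : ℝ) ^ 20 := one_le_pow₀ hK1
      push_cast
      rw [sub_sub_eq_add_sub]
      exact h1.trans (by linarith))
  have a5 := P.near_count (mt (ker fun ω => (cell (x.g4 ω) (x.r2 ω), x.r2 ω)) (x.Zp q Q K D))
    (mt (ker fun ω => (cell (x.g4 ω) (x.r2 ω), x.r2 ω)) (x.c.Zb q K))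
    (fun ω j => q * (x.c.g1 ω).2 j +
      x.kk q Q K D ω / dk Q K * (D.al * (x.g4 ω).1 j + D.ga * (x.g4 ω).2 j))
    (fun ω j => x.c.mu q K ω j + x.kk q Q K D ω / dk Q K *
      ((D.al * x.c.s ω - D.ga) / ((x.c.s ω : ℝ) - x.r2 ω)) * cell (x.g4 ω) (x.r2 ω) j)
    (1000 * K ^ 20) (by
      intro a _ b _ h1 h2
      simp only [mt_rel, Cfg.Zb_rel, XCfg.Zp_rel, ker_def, Prod.mk.injEq] at h1 ⊢
      obtain ⟨⟨e1, e2⟩, e3, e4, e5, e6, -⟩ := h1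
      refine ⟨⟨e1, e2⟩, e3, e4, e5, ?_, h2⟩
      unfold XCfg.kk
      rw [e2, e5, e6]) (by
      intro a _ b _ h1
      simp only [mt_rel, Cfg.Zb_rel, ker_def, Prod.mk.injEq] at h1
      obtain ⟨⟨e1, e2⟩, e3, e4, e5, e6, e7⟩ := h1
      unfold XCfg.kk
      rw [e1, e2, e5, e6, e7]) (by
      intro a ha j
      push_cast
      refine psi_near hq1 hQ1 hK1 (kc_low hq hK hc ha) (kc_high hq hK hc ha) (hx a ha).far
        (aff_le' hQ hK hqQ hD (hx a ha).l2) ?_ (hx a ha).f7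
        (pos_le hG hbox (hx a ha).m4 (hc a ha).ls j) (congrFun (hx a ha).sh2 j)
      rw [abs_sub_comm]
      exact aff_le' hQ hK hqQ hD (hc a ha).ls)
  have a6 := P.slice_count (mt (ker fun ω => (cell (x.g4 ω) (x.r2 ω), x.r2 ω)) (x.c.Zb q K))
    (mt (ker x.r2) (x.c.Zb q K)) (fun ω => cell (x.g4 ω) (x.r2 ω)) x.r2 A N hN (by
      intro a _ b _ h1 h2
      simp only [mt_rel, ker_def, Prod.mk.injEq] at h1 ⊢
      exact ⟨⟨h2, h1.1⟩, h1.2⟩) (fun a _ b _ h1 => (mt_rel.1 h1).1) (fun ω hω => (hx ω hω).a2)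
  have a7 := P.height_count (mt (ker x.r2) (x.c.Zb q K)) (x.c.Zb q K) x.r2 q
    (fun a _ b _ h1 h2 => mt_rel.2 ⟨h2, h1⟩) (fun ω hω => (hx ω hω).l2)
  change _ ≤ _ + m * cX K at a4 a5
  have hbm : (0 : ℝ) ≤ β + m := by positivity
  have b1 := mul_le_mul_of_nonneg_left (show 2 * l - Real.log q - cX K ≤
    P.H (mt (ker x.r2) (mt (ker x.g4) (x.Zp q Q K D))) - P.H (mt (ker x.g4) (x.Zp q Q K D)) by
      linarith) hbm
  have b2 := mul_le_mul_of_nonneg_left (show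
    P.H (mt (ker fun ω => (cell (x.g4 ω) (x.r2 ω), x.r2 ω)) (x.Zp q Q K D)) -
      P.H (x.Zp q Q K D) ≤
    P.H (x.c.Zb q K) + Real.log q + Real.log N + m * cX K - P.H (x.Zp q Q K D) by linarith) hβ
  linarith

/-- The second extra inequality and the lower bound for its conditioning. -/
theorem chi_ineq {β e T l l' : ℝ} {R : ℕ} (hR : Q ≤ R * q) (hβ : 0 ≤ β) (hKE : KE m β Q e)
    (hT : T ≤ P.H (ker fun ω => (x.gh ω, x.c.g1 ω, x.c.r0 ω, x.c.r1 ω, x.c.s ω)))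
    (h3 : P.H (mt (mt x.W (ker x.r2)) (ker x.gh)) + l + l' ≤
      P.H (mt (mt (mt (mt x.W (ker x.r2)) (ker x.gh)) (ker x.rh)) (ker x.c.t')))
    (h1 : P.H (mt (mt (mt x.W (ker x.r2)) (ker x.gh)) (ker x.rh)) + l ≤
      P.H (mt (mt (mt (mt x.W (ker x.r2)) (ker x.gh)) (ker x.rh)) (ker x.c.t'))) :
    T + l - m * cX K - P.H (x.Zc q Q K D) ≤
      β * (P.H (x.Zp q Q K D) + Real.log D.Eh.card + m * (cX K + Real.log R) -
        P.H (x.Zc q Q K D)) + m * Real.log Q - (β + m) * (l + l' - Real.log q - cX K) + e ∧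
    T + l - m * cX K - Real.log G.card ≤ P.H (x.Zc q Q K D) := by
  have hq1 : (1 : ℝ) ≤ q := by exact_mod_cast hq
  have hQ1 : (1 : ℝ) ≤ Q := by exact_mod_cast hQ
  have hK1 : (1 : ℝ) ≤ K := by exact_mod_cast hK
  have hR0 : 0 < R := by
    rcases Nat.eq_zero_or_pos R with h | h
    · rw [h] at hR; omega
    · exact h
  have hR1 : (1 : ℝ) ≤ R := by exact_mod_cast hR0
  have k1 : (1 : ℝ) ≤ (K : ℝ) ^ 20 := one_le_pow₀ hK1
  have key := hKE D.Gh hD.sep Ω P x.gh x.rh (x.Zc q Q K D) (fun ω hω => (hx ω hω).mh)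
    (fun ω hω => (hx ω hω).lh)
  have a1 := P.submod (mt (mt (mt x.W (ker x.r2)) (ker x.gh)) (ker (x.kh q Q K D)))
    (mt (ker x.rh) (mt (ker x.gh) (x.Zc q Q K D)))
    (mt (mt (mt (mt x.W (ker x.r2)) (ker x.gh)) (ker x.rh)) (ker x.c.t'))
    (mt (ker x.gh) (x.Zc q Q K D)) (by
      intro a ha b hb h1 h2
      simp only [mt_rel, ker_def] at h1 h2 ⊢
      exact ⟨⟨h1.1, h2.1⟩, t'_kk hq hQ hK hqQ hD hc hx ha hb h1.1.1.1 h1.1.1.2
        (kk_kh hq hQ hK hqQ hD hc hx ha hb h2.1 h1.2)⟩) (by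
      intro a _ b _ h1
      simp only [mt_rel, XCfg.W_rel, XCfg.Zc_rel, ker_def] at h1 ⊢
      obtain ⟨⟨⟨⟨e1, -, -, -, e5, e6, e7, -, -⟩, -⟩, e8⟩, e9⟩ := h1
      refine ⟨e8, e5, e6, e7, e9, ?_⟩
      unfold XCfg.chi
      rw [e1, e8, e9]) (fun a _ b _ h1 => (mt_rel.1 h1).2)
  have a2 := xcoef_count hq hK P (mt (mt (mt x.W (ker x.r2)) (ker x.gh)) (ker (x.kh q Q K D)))
    (mt (mt x.W (ker x.r2)) (ker x.gh)) (x.kh q Q K D)
    (fun a ha => (kh_bd hq hQ hK hqQ hD hc hx ha).1) (fun a _ b _ h1 h2 => mt_rel.2 ⟨h1, h2⟩)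
  have a3 := P.submod (mt (mt (mt x.W (ker x.r2)) (ker x.gh)) (ker x.rh))
    (ker fun ω => (x.gh ω, x.c.g1 ω, x.c.r0 ω, x.c.r1 ω, x.c.s ω, x.kh q Q K D ω))
    (mt (mt (mt (mt x.W (ker x.r2)) (ker x.gh)) (ker x.rh)) (ker x.c.t'))
    (ker fun ω => (x.gh ω, x.c.g1 ω, x.c.r0 ω, x.c.r1 ω, x.c.s ω)) (by
      intro a ha b hb h1 h2
      simp only [mt_rel, ker_def, Prod.mk.injEq] at h1 h2 ⊢
      exact ⟨h1, t'_kk hq hQ hK hqQ hD hc hx ha hb h1.1.1.1 h1.1.1.2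
        (kk_kh hq hQ hK hqQ hD hc hx ha hb h1.2 h2.2.2.2.2.2)⟩) (by
      intro a _ b _ h1
      simp only [mt_rel, XCfg.W_rel, ker_def, Prod.mk.injEq] at h1 ⊢
      obtain ⟨⟨⟨⟨e1, -, -, -, e5, e6, e7, -, -⟩, -⟩, e8⟩, -⟩ := h1
      exact ⟨e8, e1, e5, e6, e7⟩) (by
      intro a _ b _ h1
      simp only [ker_def, Prod.mk.injEq] at h1 ⊢
      obtain ⟨e1, e4, e5, e6, e7, -⟩ := h1
      exact ⟨e1, e4, e5, e6, e7⟩)
  have a4 := P.near_count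
    (ker fun ω => (x.gh ω, x.c.g1 ω, x.c.r0 ω, x.c.r1 ω, x.c.s ω, x.kh q Q K D ω))
    (mt (ker x.gh) (x.Zc q Q K D)) (fun ω j => q * (x.c.g1 ω).2 j)
    (fun ω j => q / Q * ((x.chi q Q K D ω j - Q * (x.gh ω).2 j) / (x.kh q Q K D ω / dt q K)))
    (1000 * K ^ 20) (by
      intro a ha b hb h1 h2
      simp only [mt_rel, XCfg.Zc_rel, ker_def, Prod.mk.injEq] at h1 ⊢
      obtain ⟨e1, e2, e3, e4, e5, -⟩ := h1
      exact ⟨e1, hG.dir_inj (hc a ha).m1 (hc b hb).m1 h2, e2, e3, e4, e5⟩) (by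
      intro a _ b _ h1
      simp only [mt_rel, XCfg.Zc_rel, ker_def] at h1
      obtain ⟨e1, -, -, -, e5, e6⟩ := h1
      rw [e1, e5, e6]) (by
      intro a ha j
      push_cast
      exact inv_chi hq1 hQ1 hK1 (by exact_mod_cast hqQ) (kh_bd hq hQ hK hqQ hD hc hx ha).2)
  have a5 := P.near_count (mt (ker fun ω => (cell (x.gh ω) (x.rh ω), x.rh ω)) (x.Zc q Q K D))
    (mt (ker fun ω => (cell (x.gh ω) (x.rh ω), x.rh ω)) (x.Zp q Q K D))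
    (fun ω j => Q * (x.gh ω).2 j + x.kh q Q K D ω / dt q K * (Q * (x.c.g1 ω).2 j))
    (fun ω j => Q / ((x.rh ω : ℝ) - D.ch) * (cell (x.gh ω) (x.rh ω) j - D.u j) +
      x.kh q Q K D ω / dt q K * (Q / q) * x.psi q Q K D ω j) (1000 * K ^ 20 * R) (by
      intro a _ b _ h1 h2
      simp only [mt_rel, XCfg.Zc_rel, XCfg.Zp_rel, ker_def, Prod.mk.injEq] at h1 ⊢
      obtain ⟨⟨e1, e2⟩, e3, e4, e5, e6, -⟩ := h1
      refine ⟨⟨e1, e2⟩, e3, e4, e5, ?_, h2⟩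
      unfold XCfg.kh
      rw [e2, e6]) (by
      intro a _ b _ h1
      simp only [mt_rel, XCfg.Zp_rel, ker_def, Prod.mk.injEq] at h1
      obtain ⟨⟨e1, e2⟩, e3, e4, e5, e6, e7⟩ := h1
      unfold XCfg.kh
      rw [e1, e2, e6, e7]) (by
      intro a ha j
      obtain ⟨n1, n2⟩ := kk_bd hq hQ hK hqQ hD hc hx ha
      push_cast
      exact chi_near hq1 hQ1 hK1 (by exact_mod_cast hR) hR1 (hD.far _ (hx a ha).eh) n1 n2
        (aff_le hQ hK hqQ hD (hbox _ (hx a ha).m4 j) (hG.1 _ (hx a ha).m4 j)) ((hx a ha).yh j))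
  have a5' : Real.log (4 * ((1000 * K ^ 20 * R : ℕ) : ℝ) + 3) ≤ cX K + Real.log R := by
    unfold cX
    rw [← Real.log_mul (by positivity) (by positivity)]
    refine Real.log_le_log (by positivity) ?_
    push_cast
    nlinarith
  have a5'' := mul_le_mul_of_nonneg_left a5' (Nat.cast_nonneg (α := ℝ) m)
  have a6 := P.count_const (mt (ker fun ω => (cell (x.gh ω) (x.rh ω), x.rh ω)) (x.Zp q Q K D))
    (x.Zp q Q K D) (fun ω => (cell (x.gh ω) (x.rh ω), x.rh ω)) D.Eh.card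
    (fun a _ b _ h1 h2 => mt_rel.2 ⟨h2, h1⟩)
    (fun a _ => ⟨D.Eh, le_rfl, fun b hb _ => (hx b hb).eh⟩)
  have a7 := P.near_count
    (ker fun ω => (x.gh ω, x.c.g1 ω, x.c.r0 ω, x.c.r1 ω, x.c.s ω, x.kh q Q K D ω))
    (mt (ker x.c.g1) (x.Zc q Q K D)) (fun ω j => Q * (x.gh ω).2 j)
    (fun ω j => x.chi q Q K D ω j - x.kh q Q K D ω / dt q K * (Q * (x.c.g1 ω).2 j))
    (1000 * K ^ 20) (by
      intro a ha b hb h1 h2
      simp only [mt_rel, XCfg.Zc_rel, ker_def, Prod.mk.injEq] at h1 ⊢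
      obtain ⟨e1, e2, e3, e4, e5, -⟩ := h1
      exact ⟨hD.sep.dir_inj (hx a ha).mh (hx b hb).mh h2, e1, e2, e3, e4, e5⟩) (by
      intro a _ b _ h1
      simp only [mt_rel, XCfg.Zc_rel, ker_def] at h1
      obtain ⟨e1, -, -, -, e5, e6⟩ := h1
      rw [e1, e5, e6]) (by
      intro a _ j
      have h1 := abs_frac (Q * (x.gh a).2 j + x.kh q Q K D a / dt q K * (Q * (x.c.g1 a).2 j))
      push_cast
      rw [sub_sub_eq_add_sub]
      exact h1.trans (by linarith))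
  have a8 := P.count_const (mt (ker x.c.g1) (x.Zc q Q K D)) (x.Zc q Q K D) x.c.g1 G.card
    (fun a _ b _ h1 h2 => mt_rel.2 ⟨h2, h1⟩)
    (fun a _ => ⟨G, le_rfl, fun b hb _ => (hc b hb).m1⟩)
  change _ ≤ _ + m * cX K at a4 a7
  have hbm : (0 : ℝ) ≤ β + m := by positivity
  have b1 := mul_le_mul_of_nonneg_left (show l + l' - Real.log q - cX K ≤
    P.H (mt (ker x.rh) (mt (ker x.gh) (x.Zc q Q K D))) - P.H (mt (ker x.gh) (x.Zc q Q K D)) by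
      linarith) hbm
  have b2 := mul_le_mul_of_nonneg_left (show
    P.H (mt (ker fun ω => (cell (x.gh ω) (x.rh ω), x.rh ω)) (x.Zc q Q K D)) -
      P.H (x.Zc q Q K D) ≤
    P.H (x.Zp q Q K D) + Real.log D.Eh.card + m * (cX K + Real.log R) - P.H (x.Zc q Q K D) by
      linarith) hβ
  constructor <;> linarith

end

end Pool.Agent.MP_5168f5_an.H19
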