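import Pool.Agent.MP_5168f5_an.H19.XPath
import Pool.Agent.MP_5168f5_an.H19.Step

/-! The probability space of longer paths and its entropies. -/

namespace Pool.Agent.MP_5168f5_an.H19

open Finset Setoid

variable {m : ℕ}

/-- Pull a configuration back along a map. -/
def Cfg.pull {Ω Ω' : Type} (c : Cfg m Ω) (f : Ω' → Ω) : Cfg m Ω' where
  g1 := fun ω => c.g1 (f ω)
  g2 := fun ω => c.g2 (f ω)
  g3 := fun ω => c.g3 (f ω)
  r0 := fun ω => c.r0 (f ω)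
  r1 := fun ω => c.r1 (f ω)
  s := fun ω => c.s (f ω)
  t := fun ω => c.t (f ω)
  r := fun ω => c.r (f ω)
  t' := fun ω => c.t' (f ω)

theorem Cfg.Good.pull {Ω Ω' : Type} {c : Cfg m Ω} {f : Ω' → Ω} {Q K : ℕ} {G : Finset (Line m)}
    {A : ℕ → Finset (Fin m → ℤ)} {ω : Ω'} (h : c.Good Q K G A (f ω)) :
    (c.pull f).Good Q K G A ω :=
  ⟨h.m1, h.m2, h.m3, h.l0, h.l1, h.ls, h.lt, h.lr, h.f1, h.f2, h.f3, h.f4, h.f5, h.f6, h.sh0,
    h.sh1, h.ar, h.as, h.a0⟩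

/-- A partition together with the new coordinate. -/
def pe {Ω β : Type} (R : Setoid Ω) : Setoid (Ω × β) := mt (comap Prod.fst R) (ker Prod.snd)

theorem pe_rel {Ω β : Type} {R : Setoid Ω} {x y : Ω × β} : pe R x y ↔ R x.1 y.1 ∧ x.2 = y.2 :=
  mt_rel

namespace Dat

variable (D : Dat m)

theorem fib_ge {Ω : Type} (P : FP Ω) (g : Ω → Line m) (r : Ω → ℕ) (a : Fin 3)
    (hg : ∀ ω ∈ P.S, g ω ∈ D.G) (hr : ∀ ω ∈ P.S, r ω ∈ D.Y a (g ω)) :
    P.H (ker fun ω => (g ω, r ω)) - Real.log D.Q - Real.log D.N ≤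
      P.E fun ω => Real.log (D.fib a (g ω) (r ω)).card := by
  have h1 := P.count (ker fun ω => (g ω, r ω)) (ker fun x => (cell (g x) (r x), r x)) g
    (fun x => ((D.fib a (g x) (r x)).card : ℝ)) (by
      intro x _ y _ h1 h2
      simp only [ker_def, Prod.mk.injEq] at h1 ⊢
      exact ⟨h2, h1.2⟩) (by
      intro x _ y _ h1
      simp only [ker_def, Prod.mk.injEq] at h1
      rw [D.fib_congr h1.2 h1.1]) (by
      intro x _
      refine ⟨D.fib a (g x) (r x), le_rfl, fun y hy h1 => ?_⟩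
      simp only [ker_def, Prod.mk.injEq] at h1
      rw [← D.fib_congr h1.2 h1.1]
      exact D.mem_fib.2 ⟨hg y hy, hr y hy, rfl⟩)
  have h2 := P.slice_count (ker fun x => (cell (g x) (r x), r x)) (ker r)
    (fun x => cell (g x) (r x)) r D.A D.N D.hN (by
      intro x _ y _ h1 h2
      simp only [ker_def, Prod.mk.injEq] at h1 ⊢
      exact ⟨h2, h1⟩) (fun x _ y _ h => h) (fun x hx => D.hA _ (hg x hx) a _ (hr x hx))
  have h3 := P.height_count (ker r) ⊤ r D.Q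
    (fun x _ y _ _ h => h) (fun x hx => D.hlt _ (hg x hx) a _ (hr x hx))
  rw [FP.H_top] at h3
  linarith

variable (a b c : Fin 3)

theorem H9_g2 : (D.P9 a b c).H (ker fun ω => ((cfg m).g2 ω, (cfg m).r1 ω)) =
    Real.log D.G.card + Real.log D.l := by
  rw [D.old9 a b c (comap Prod.fst (comap Prod.fst (comap Prod.fst (comap Prod.fst
    (comap Prod.fst (comap Prod.fst ⊥)))))) _ (by
      intro x y
      simp only [comap_rel, bot_rel, ker_def, cfg, Prod.ext_iff]),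
    D.old8, D.old7, D.old6, D.old5, D.old4, ← D.H2 a]
  exact FP.H_ext_old _ _ _ ⊥ _ fun _ _ => Iff.rfl

theorem H4_g3 : Real.log D.G.card ≤ (D.P4 a b).H (ker Prod.snd) := by
  have hm : ∀ x ∈ (D.P4 a b).S, x.1.1.1 ∈ D.G ∧ x.1.1.2 ∈ D.Y a x.1.1.1 ∧ x.1.2 ∈ D.Y b x.1.1.1 ∧
      x.2 ∈ D.G ∧ x.1.1.2 ∈ D.Y a x.2 ∧ cell x.2 x.1.1.2 = cell x.1.1.1 x.1.1.2 := by
    intro x hx
    have h4 := D.mem4.1 hx
    have h3 := D.mem3.1 h4.1
    have h2 := D.mem2.1 h3.1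
    exact ⟨h2.1, h2.2, h3.2, D.mem_fib.1 h4.2⟩
  have h0 := D.H4 a b
  have h1 := (D.P4 a b).count_const ⊥ (ker fun x => (x.1.1, x.2)) (fun x => x.1.2) D.l (by
      intro x _ y _ h1 h2
      simp only [ker_def, Prod.mk.injEq] at h1
      exact bot_rel.2 (Prod.ext (Prod.ext h1.1 h2) h1.2)) (by
      intro x hx
      refine ⟨D.Y b x.1.1.1, by rw [D.hY _ (hm x hx).1], fun y hy h1 => ?_⟩
      simp only [ker_def, Prod.mk.injEq] at h1
      rw [← h1.1]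
      exact (hm y hy).2.2.1)
  have h2 := (D.P4 a b).count (ker fun x => (x.1.1, x.2)) (ker fun x => (x.1.1.2, x.2))
    (fun x => x.1.1.1) (fun x => ((D.fib a x.1.1.1 x.1.1.2).card : ℝ)) (by
      intro x _ y _ h1 h2
      simp only [ker_def, Prod.mk.injEq] at h1 ⊢
      exact ⟨Prod.ext h2 h1.1, h1.2⟩) (by
      intro x hx y hy h1
      simp only [ker_def, Prod.mk.injEq] at h1
      rw [D.fib_congr (g := x.1.1.1) (g' := y.1.1.1) h1.1 (by
        rw [← (hm x hx).2.2.2.2.2, ← (hm y hy).2.2.2.2.2, h1.1, h1.2])]) (by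
      intro x hx
      refine ⟨D.fib a x.1.1.1 x.1.1.2, le_rfl, fun y hy h1 => ?_⟩
      simp only [ker_def, Prod.mk.injEq] at h1
      refine D.mem_fib.2 ⟨(hm y hy).1, h1.1 ▸ (hm y hy).2.1, ?_⟩
      rw [← (hm x hx).2.2.2.2.2, ← h1.2, ← h1.1, (hm y hy).2.2.2.2.2])
  have h3 := (D.P4 a b).count_const (ker fun x => (x.1.1.2, x.2)) (ker Prod.snd)
    (fun x => x.1.1.2) D.l (by
      intro x _ y _ h1 h2
      simp only [ker_def, Prod.mk.injEq] at h1 ⊢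
      exact ⟨h2, h1⟩) (by
      intro x hx
      refine ⟨D.Y a x.2, by rw [D.hY _ (hm x hx).2.2.2.1], fun y hy h1 => ?_⟩
      have h2 : y.2 = x.2 := h1
      rw [← h2]
      exact (hm y hy).2.2.2.2.1)
  have h4 : ((D.P4 a b).E fun x => Real.log (D.fib a x.1.1.1 x.1.1.2).card) = D.phi a :=
    (FP.E_ext_fst (D.P3 a b) _ _ fun x => Real.log (D.fib a x.1.1 x.1.2).card).trans (D.E3_phi a b)
  rw [h4] at h2
  linarith

theorem H9_g3 : Real.log D.G.card + Real.log D.l ≤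
    (D.P9 a b c).H (ker fun ω => ((cfg m).g3 ω, (cfg m).s ω)) := by
  rw [D.old9 a b c (comap Prod.fst (comap Prod.fst (comap Prod.fst (pe (ker Prod.snd))))) _ (by
      intro x y
      simp only [comap_rel, pe_rel, ker_def, cfg, Prod.ext_iff]),
    D.old8, D.old7, D.old6]
  unfold P5
  rw [FP.H_ext_new _ _ _ (ker Prod.snd) _ (fun _ _ => pe_rel) (fun x _ y _ h => by
      have h2 : x.2 = y.2 := h
      rw [h2]),
    D.E_logY (D.P4 a b) (fun x => x.2) (fun _ hx => (D.mem_fib.1 (D.mem4.1 hx).2).1)]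
  have := D.H4_g3 a b
  linarith

/-- Mean log size of the fibre at the end of the corner. -/
noncomputable def phic : ℝ :=
  (D.P9 a b c).E fun ω => Real.log (D.fib c ((cfg m).g3 ω) ((cfg m).s ω)).card

theorem phic_ge :
    Real.log D.G.card + Real.log D.l - Real.log D.Q - Real.log D.N ≤ D.phic a b c := by
  have h1 := D.fib_ge (D.P9 a b c) (cfg m).g3 (cfg m).s c
    (fun ω h => (D.mem_fib.1 (D.mem9' h).2.2.2.1).1) (fun ω h => (D.mem9' h).2.2.2.2.1)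
  have h2 := D.H9_g3 a b c
  unfold phic
  linarith

theorem phia_ge : Real.log D.G.card + Real.log D.l - Real.log D.Q - Real.log D.N ≤
    (D.P9 a b c).E fun ω => Real.log (D.fib a ((cfg m).g2 ω) ((cfg m).r1 ω)).card := by
  have h1 := D.fib_ge (D.P9 a b c) (cfg m).g2 (cfg m).r1 a
    (fun ω h => (D.mem9' h).1) (fun ω h => (D.mem9' h).2.1)
  rw [D.H9_g2] at h1
  exact h1

theorem H9_bot : (D.P9 a b c).H ⊥ = (D.P9 a b c).H (comap Prod.fst ⊥) + Real.log D.l := by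
  rw [D.new9 a b c ⊥ ⊥ bot_prod (fun x y h => by rw [bot_rel.1 h]),
    D.old9 a b c ⊥ _ (fun _ _ => Iff.rfl)]

end Dat

/-- The data of the longer path. -/
structure XDat (m : ℕ) where
  D : Dat m
  X : XD m
  y : Line m → Fin m → ℤ
  Yh : Line m → Finset ℕ
  lh : ℕ
  hlh : 0 < lh
  hYh : ∀ h ∈ X.Gh, (Yh h).card = lh
  hne : ∀ g ∈ D.G, (X.fib (y g)).Nonempty

namespace XDat

variable (T : XDat m) (a b c : Fin 3)

open Dat

noncomputable def P10 : FP (Om m × Line m) :=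
  (T.D.P9 a b c).ext (fun ω => T.D.fib c ((cfg m).g3 ω) ((cfg m).s ω)) fun _ h =>
    T.D.fib_ne (T.D.mem_fib.1 (T.D.mem9' h).2.2.2.1).1 (T.D.mem9' h).2.2.2.2.1

theorem mem10 {a b c : Fin 3} {x} : x ∈ (T.P10 a b c).S ↔ x.1 ∈ (T.D.P9 a b c).S ∧
    x.2 ∈ T.D.fib c ((cfg m).g3 x.1) ((cfg m).s x.1) := FP.mem_ext _ _ _ _

noncomputable def P11 : FP ((Om m × Line m) × ℕ) :=
  (T.P10 a b c).ext (fun x => T.D.Y a x.2) fun _ h => T.D.Yne (T.D.mem_fib.1 (T.mem10.1 h).2).1 a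

theorem mem11 {a b c : Fin 3} {x} : x ∈ (T.P11 a b c).S ↔ x.1 ∈ (T.P10 a b c).S ∧
    x.2 ∈ T.D.Y a x.1.2 := FP.mem_ext _ _ _ _

noncomputable def P12 : FP (((Om m × Line m) × ℕ) × Line m) :=
  (T.P11 a b c).ext (fun x => T.X.fib (T.y x.1.2)) fun _ h =>
    T.hne _ (T.D.mem_fib.1 (T.mem10.1 (T.mem11.1 h).1).2).1

theorem mem12 {a b c : Fin 3} {x} : x ∈ (T.P12 a b c).S ↔ x.1 ∈ (T.P11 a b c).S ∧
    x.2 ∈ T.X.fib (T.y x.1.1.2) := FP.mem_ext _ _ _ _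

/-- The sample space of the longer path. -/
abbrev XOm (m : ℕ) : Type := (((Om m × Line m) × ℕ) × Line m) × ℕ

noncomputable def P13 : FP (XOm m) :=
  (T.P12 a b c).ext (fun x => T.Yh x.2) fun _ h =>
    Finset.card_pos.1 (by rw [T.hYh _ (XD.mem_fib.1 (T.mem12.1 h).2).1]; exact T.hlh)

theorem mem13 {a b c : Fin 3} {x} : x ∈ (T.P13 a b c).S ↔ x.1 ∈ (T.P12 a b c).S ∧
    x.2 ∈ T.Yh x.1.2 := FP.mem_ext _ _ _ _

/-- Names of the coordinates. -/
def xcfg (m : ℕ) : XCfg m (XOm m) where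
  c := (cfg m).pull fun ω => ω.1.1.1.1
  g4 := fun ω => ω.1.1.1.2
  r2 := fun ω => ω.1.1.2
  gh := fun ω => ω.1.2
  rh := fun ω => ω.2

theorem mem13' {a b c : Fin 3} {ω : XOm m} (h : ω ∈ (T.P13 a b c).S) :
    ω.1.1.1.1 ∈ (T.D.P9 a b c).S ∧
    (xcfg m).g4 ω ∈ T.D.fib c ((xcfg m).c.g3 ω) ((xcfg m).c.s ω) ∧
    (xcfg m).r2 ω ∈ T.D.Y a ((xcfg m).g4 ω) ∧ (xcfg m).gh ω ∈ T.X.fib (T.y ((xcfg m).g4 ω)) ∧
    (xcfg m).rh ω ∈ T.Yh ((xcfg m).gh ω) := by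
  have h13 := T.mem13.1 h
  have h12 := T.mem12.1 h13.1
  have h11 := T.mem11.1 h12.1
  have h10 := T.mem10.1 h11.1
  exact ⟨h10.1, h10.2, h11.2, h12.2, h13.2⟩

/-- Mean log size of the ambient fibre. -/
noncomputable def phih : ℝ := (T.P11 a b c).E fun x => Real.log (T.X.fib (T.y x.1.2)).card

theorem new10 (R : Setoid (Om m)) (hR : ∀ x y, R x y → (cfg m).s x = (cfg m).s y ∧
    cell ((cfg m).g3 x) ((cfg m).s x) = cell ((cfg m).g3 y) ((cfg m).s y)) :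
    (T.P10 a b c).H (pe R) = (T.D.P9 a b c).H R + T.D.phic a b c :=
  FP.H_ext_new _ _ _ R _ (fun _ _ => pe_rel)
    fun x _ y _ h => T.D.fib_congr (hR x y h).1 (hR x y h).2

theorem new11 (R : Setoid _) (hR : ∀ x y, R x y → x.2 = y.2) :
    (T.P11 a b c).H (pe R) = (T.P10 a b c).H R + Real.log T.D.l := by
  unfold P11
  rw [FP.H_ext_new _ _ _ R _ (fun _ _ => pe_rel) (fun x _ y _ h => by rw [hR x y h]),
    T.D.E_logY (T.P10 a b c) (fun x => x.2) (fun _ h => (T.D.mem_fib.1 (T.mem10.1 h).2).1)]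

theorem new12 (R : Setoid _) (hR : ∀ x y, R x y → T.y x.1.2 = T.y y.1.2) :
    (T.P12 a b c).H (pe R) = (T.P11 a b c).H R + T.phih a b c :=
  FP.H_ext_new _ _ _ R _ (fun _ _ => pe_rel) fun x _ y _ h => by rw [hR x y h]

theorem new13 (R : Setoid _) (hR : ∀ x y, R x y → x.2 = y.2) :
    (T.P13 a b c).H (pe R) = (T.P12 a b c).H R + Real.log T.lh := by
  unfold P13
  rw [FP.H_ext_new _ _ _ R _ (fun _ _ => pe_rel) (fun x _ y _ h => by rw [hR x y h]),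
    ← (T.P12 a b c).E_const (Real.log T.lh)]
  congr 1
  exact (T.P12 a b c).E_congr fun x h => by rw [T.hYh _ (XD.mem_fib.1 (T.mem12.1 h).2).1]

theorem old10 (R : Setoid _) : (T.P10 a b c).H (comap Prod.fst R) = (T.D.P9 a b c).H R :=
  FP.H_ext_old _ _ _ R _ fun _ _ => Iff.rfl

theorem old11 (R : Setoid _) : (T.P11 a b c).H (comap Prod.fst R) = (T.P10 a b c).H R :=
  FP.H_ext_old _ _ _ R _ fun _ _ => Iff.rfl

theorem old12 (R : Setoid _) : (T.P12 a b c).H (comap Prod.fst R) = (T.P11 a b c).H R :=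
  FP.H_ext_old _ _ _ R _ fun _ _ => Iff.rfl

theorem old13 (R : Setoid _) : (T.P13 a b c).H (comap Prod.fst R) = (T.P12 a b c).H R :=
  FP.H_ext_old _ _ _ R _ fun _ _ => Iff.rfl

theorem chain (R : Setoid (Om m)) (hR : ∀ x y, R x y → x.1 = y.1) :
    (T.P13 a b c).H (comap Prod.fst (comap Prod.fst (comap Prod.fst (pe R)))) =
      (T.D.P9 a b c).H R + T.D.phic a b c ∧
    (T.P13 a b c).H (comap Prod.fst (comap Prod.fst (pe (pe R)))) =
      (T.D.P9 a b c).H R + T.D.phic a b c + Real.log T.D.l ∧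
    (T.P13 a b c).H (comap Prod.fst (pe (pe (pe R)))) =
      (T.D.P9 a b c).H R + T.D.phic a b c + Real.log T.D.l + T.phih a b c ∧
    (T.P13 a b c).H (pe (pe (pe (pe R)))) =
      (T.D.P9 a b c).H R + T.D.phic a b c + Real.log T.D.l + T.phih a b c + Real.log T.lh := by
  have h10 := T.new10 a b c R (fun x y h => by simp only [cfg, hR x y h, and_self])
  have h11 := T.new11 a b c (pe R) (fun x y h => (pe_rel.1 h).2)
  have h12 := T.new12 a b c (pe (pe R)) (fun x y h => by rw [(pe_rel.1 (pe_rel.1 h).1).2])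
  have h13 := T.new13 a b c (pe (pe (pe R))) (fun x y h => (pe_rel.1 h).2)
  refine ⟨?_, ?_, ?_, ?_⟩
  · rw [T.old13, T.old12, T.old11, h10]
  · rw [T.old13, T.old12, h11, h10]
  · rw [T.old13, h12, h11, h10]
  · rw [h13, h12, h11, h10]

theorem free :
    (T.P13 a b c).H (xcfg m).W + 2 * Real.log T.D.l ≤
      (T.P13 a b c).H (mt (mt (xcfg m).W (ker (xcfg m).r2)) (ker (xcfg m).c.t')) ∧
    (T.P13 a b c).H (mt (xcfg m).W (ker (xcfg m).r2)) + Real.log T.D.l ≤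
      (T.P13 a b c).H (mt (mt (xcfg m).W (ker (xcfg m).r2)) (ker (xcfg m).c.t')) ∧
    (T.P13 a b c).H (mt (mt (xcfg m).W (ker (xcfg m).r2)) (ker (xcfg m).gh)) + Real.log T.D.l +
      Real.log T.lh ≤ (T.P13 a b c).H (mt (mt (mt (mt (xcfg m).W (ker (xcfg m).r2))
        (ker (xcfg m).gh)) (ker (xcfg m).rh)) (ker (xcfg m).c.t')) ∧
    (T.P13 a b c).H (mt (mt (mt (xcfg m).W (ker (xcfg m).r2)) (ker (xcfg m).gh))
      (ker (xcfg m).rh)) + Real.log T.D.l ≤ (T.P13 a b c).H (mt (mt (mt (mt (xcfg m).W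
        (ker (xcfg m).r2)) (ker (xcfg m).gh)) (ker (xcfg m).rh)) (ker (xcfg m).c.t')) := by
  obtain ⟨u1, u2, u3, u4⟩ := T.chain a b c (comap Prod.fst ⊥) (fun x y h => bot_rel.1 h)
  obtain ⟨-, v2, -, v4⟩ := T.chain a b c ⊥ (fun x y h => by rw [bot_rel.1 h])
  have h9 := T.D.H9_bot a b c
  have hW : ∀ x y : XOm m, (xcfg m).W x y ↔ x.1.1.1.1.1 = y.1.1.1.1.1 ∧ x.1.1.1.2 = y.1.1.1.2 := by
    intro x y
    rw [XCfg.W_rel]
    simp only [xcfg, Cfg.pull, cfg, Prod.ext_iff]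
    tauto
  have e1 : (T.P13 a b c).H (xcfg m).W = _ := Eq.trans (FP.H_congr _ fun x _ y _ => by
    rw [hW]; simp only [comap_rel, pe_rel, bot_rel]) u1
  have e2 : (T.P13 a b c).H (mt (xcfg m).W (ker (xcfg m).r2)) = _ :=
    Eq.trans (FP.H_congr _ fun x _ y _ => by
      rw [mt_rel, hW]; simp only [comap_rel, pe_rel, bot_rel, ker_def, xcfg]) u2
  have e3 : (T.P13 a b c).H (mt (mt (xcfg m).W (ker (xcfg m).r2)) (ker (xcfg m).gh)) = _ :=
    Eq.trans (FP.H_congr _ fun x _ y _ => by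
      rw [mt_rel, mt_rel, hW]; simp only [comap_rel, pe_rel, bot_rel, ker_def, xcfg]) u3
  have e4 : (T.P13 a b c).H (mt (mt (mt (xcfg m).W (ker (xcfg m).r2)) (ker (xcfg m).gh))
      (ker (xcfg m).rh)) = _ :=
    Eq.trans (FP.H_congr _ fun x _ y _ => by
      rw [mt_rel, mt_rel, mt_rel, hW]; simp only [comap_rel, pe_rel, bot_rel, ker_def, xcfg]) u4
  have hp : ∀ x y : Om m, x = y ↔ x.1 = y.1 ∧ x.2 = y.2 := fun x y => Prod.ext_iff
  have f2 : (T.P13 a b c).H (mt (mt (xcfg m).W (ker (xcfg m).r2)) (ker (xcfg m).c.t')) = _ :=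
    Eq.trans (FP.H_congr _ fun x _ y _ => by
      rw [mt_rel, mt_rel, hW]
      simp only [comap_rel, pe_rel, bot_rel, ker_def, xcfg, Cfg.pull, cfg]
      rw [hp]
      tauto) v2
  have f4 : (T.P13 a b c).H (mt (mt (mt (mt (xcfg m).W (ker (xcfg m).r2)) (ker (xcfg m).gh))
      (ker (xcfg m).rh)) (ker (xcfg m).c.t')) = _ :=
    Eq.trans (FP.H_congr _ fun x _ y _ => by
      rw [mt_rel, mt_rel, mt_rel, mt_rel, hW]
      simp only [pe_rel, bot_rel, ker_def, xcfg, Cfg.pull, cfg]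
      rw [hp]
      tauto) v4
  refine ⟨?_, ?_, ?_, ?_⟩ <;> linarith

theorem HZb (Q K : ℕ) :
    (T.P13 a b c).H ((xcfg m).c.Zb Q K) = (T.D.P9 a b c).H ((cfg m).Zb Q K) := by
  rw [← T.old10, ← T.old11, ← T.old12, ← T.old13]
  rfl

theorem HT0 : T.D.zeta a b c + T.D.phi b + T.D.phic a b c ≤ (T.P11 a b c).H
    (ker fun x => ((cfg m).g1 x.1.1, x.1.2, (cfg m).r0 x.1.1, (cfg m).r1 x.1.1, (cfg m).s x.1.1)) := by
  have h1 := T.D.HD a b c
  have h2 := T.new10 a b c (ker fun ω => ((cfg m).g1 ω,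
    cell ((cfg m).g3 ω) ((cfg m).s ω), (cfg m).r0 ω, (cfg m).r1 ω, (cfg m).s ω)) (by
      intro x y h
      simp only [ker_def, Prod.mk.injEq] at h
      exact ⟨h.2.2.2.2, h.2.1⟩)
  rw [← T.old11] at h2
  refine le_trans (by linarith) (h2.symm.le.trans (FP.H_mono _ fun x hx y hy h => ?_))
  have hx1 := (T.D.mem_fib.1 (T.mem10.1 (T.mem11.1 hx).1).2).2.2
  have hy1 := (T.D.mem_fib.1 (T.mem10.1 (T.mem11.1 hy).1).2).2.2
  simp only [comap_rel, pe_rel, ker_def, Prod.mk.injEq] at h ⊢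
  obtain ⟨e1, e2, e3, e4, e5⟩ := h
  refine ⟨⟨e1, ?_, e3, e4, e5⟩, e2⟩
  rw [← hx1, ← hy1, e2, e5]

theorem HT : T.D.zeta a b c + T.D.phi b + T.D.phic a b c ≤ (T.P13 a b c).H
    (ker fun ω => ((xcfg m).c.g1 ω, (xcfg m).g4 ω, (xcfg m).c.r0 ω, (xcfg m).c.r1 ω,
      (xcfg m).c.s ω)) := by
  refine (T.HT0 a b c).trans (le_of_eq ?_)
  rw [← T.old12, ← T.old13]
  rfl

theorem HT1 {F M : ℝ} (hF0 : 0 < F) (hF : ∀ g ∈ T.D.G, F ≤ (T.X.fib (T.y g)).card)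
    (hM : ∀ w, ((T.D.G.filter fun g => T.y g = w).card : ℝ) ≤ M) :
    T.D.zeta a b c + T.D.phi b + T.D.phic a b c + Real.log F - Real.log M ≤ (T.P13 a b c).H
    (ker fun ω => ((xcfg m).gh ω, (xcfg m).c.g1 ω, (xcfg m).c.r0 ω, (xcfg m).c.r1 ω,
      (xcfg m).c.s ω)) := by
  have hg : ∀ x ∈ (T.P11 a b c).S, x.1.2 ∈ T.D.G := fun x hx =>
    (T.D.mem_fib.1 (T.mem10.1 (T.mem11.1 hx).1).2).1
  have h0 := T.HT0 a b c
  have h1 := (T.P11 a b c).count_const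
    (ker fun x => ((cfg m).g1 x.1.1, x.1.2, (cfg m).r0 x.1.1, (cfg m).r1 x.1.1, (cfg m).s x.1.1))
    (ker fun x => (T.y x.1.2, (cfg m).g1 x.1.1, (cfg m).r0 x.1.1, (cfg m).r1 x.1.1,
      (cfg m).s x.1.1)) (fun x => x.1.2) M (by
      intro x _ y _ h1 h2
      simp only [ker_def, Prod.mk.injEq] at h1 ⊢
      exact ⟨h1.2.1, h2, h1.2.2⟩) (by
      intro x _
      refine ⟨_, hM (T.y x.1.2), fun y hy h1 => ?_⟩
      simp only [ker_def, Prod.mk.injEq] at h1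
      exact Finset.mem_filter.2 ⟨hg y hy, h1.1⟩)
  have h2 := T.new12 a b c (ker fun x => (T.y x.1.2, (cfg m).g1 x.1.1, (cfg m).r0 x.1.1,
      (cfg m).r1 x.1.1, (cfg m).s x.1.1)) (by
      intro x y h
      simp only [ker_def, Prod.mk.injEq] at h
      exact h.1)
  have h3 : Real.log F ≤ T.phih a b c := by
    rw [← (T.P11 a b c).E_const (Real.log F)]
    exact FP.E_mono _ fun x hx => Real.log_le_log hF0 (hF _ (hg x hx))
  rw [← T.old13] at h2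
  refine le_trans (by linarith) (h2.symm.le.trans (FP.H_mono _ fun x hx y hy h => ?_))
  have hx1 := (XD.mem_fib.1 (T.mem12.1 (T.mem13.1 hx).1).2).2
  have hy1 := (XD.mem_fib.1 (T.mem12.1 (T.mem13.1 hy).1).2).2
  simp only [comap_rel, pe_rel, ker_def, Prod.mk.injEq, xcfg, Cfg.pull] at h ⊢
  obtain ⟨e1, e2, e3, e4, e5⟩ := h
  refine ⟨⟨?_, e2, e3, e4, e5⟩, e1⟩
  rw [← hx1, ← hy1, e1]

end XDat

end Pool.Agent.MP_5168f5_an.H19
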