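import Pool.Agent.MP_5168f5_an.H19.XSpace
import Pool.Agent.MP_5168f5_an.H19.Part

/-! The improved steps: the two-family estimate improves itself and the one-family estimate. -/

namespace Pool.Agent.MP_5168f5_an.H19

open Finset Setoid

variable {m : ℕ}

theorem Far.mono {Q k k' a b : ℝ} (h : Far Q k a b) (hk : k ≤ k') : Far Q k' a b :=
  ⟨h.1.trans (mul_le_mul_of_nonneg_right hk (abs_nonneg _)), h.2⟩

namespace Dat

variable (D : Dat m)

open Classical in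
/-- The shaded points of one block. -/
noncomputable def pts (b : Fin 3) : Finset (Pt m) :=
  D.G.biUnion fun k => (D.Y b k).image fun r => (cell k r, r)

theorem mem_pts {b : Fin 3} {p : Pt m} :
    p ∈ D.pts b ↔ ∃ k ∈ D.G, ∃ r ∈ D.Y b k, (cell k r, r) = p := by
  unfold pts
  simp only [Finset.mem_biUnion, Finset.mem_image]

theorem card_pts (b : Fin 3) : ((D.pts b).card : ℝ) ≤ D.Q * D.N := by
  classical
  have h1 : D.pts b ⊆ (range D.Q).biUnion fun r => (D.A r).image fun w => (w, r) := by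
    intro p hp
    obtain ⟨k, hk, r, hr, rfl⟩ := D.mem_pts.1 hp
    exact Finset.mem_biUnion.2 ⟨r, Finset.mem_range.2 (D.hlt k hk b r hr),
      Finset.mem_image.2 ⟨_, D.hA k hk b r hr, rfl⟩⟩
  have h2 := (Finset.card_le_card h1).trans Finset.card_biUnion_le
  have h3 : ((D.pts b).card : ℝ) ≤ ∑ r ∈ range D.Q, (((D.A r).image fun w => (w, r)).card : ℝ) := by
    exact_mod_cast h2
  refine h3.trans ?_
  calc _ ≤ ∑ _r ∈ range D.Q, D.N := Finset.sum_le_sum fun r _ =>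
        le_trans (by exact_mod_cast Finset.card_image_le) (D.hN r)
    _ = _ := by simp

open Classical in
/-- Ambient data taken from the family itself. -/
noncomputable def xd (a b : Fin 3) (r : ℕ) (al ga : ℝ) (u : Fin m → ℝ) : XD m :=
  ⟨D.G.filter fun k => r ∈ D.Y a k, D.pts b, r, al, ga, u⟩

theorem xd_fib (a b : Fin 3) (r : ℕ) (al ga : ℝ) (u : Fin m → ℝ) (g : Line m) :
    (D.xd a b r al ga u).fib (cell g r) = D.fib a g r := by
  ext k
  rw [XD.mem_fib, D.mem_fib]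
  simp only [xd, Finset.mem_filter, and_assoc]

theorem far {K : ℕ} {J : Fin 3 → Finset ℕ} (hYJ : ∀ g ∈ D.G, ∀ a, D.Y a g ⊆ J a)
    (hsep : ∀ a a', a ≠ a' → ∀ r ∈ J a, ∀ s ∈ J a', (D.Q : ℝ) ≤ K * |(r : ℝ) - s|)
    {u v : Fin 3} {g g' : Line m} {r s : ℕ} (huv : u ≠ v) (hg : g ∈ D.G) (hg' : g' ∈ D.G)
    (hr : r ∈ D.Y u g) (hs : s ∈ D.Y v g') : Far D.Q K r s := by
  refine ⟨hsep u v huv r (hYJ g hg u hr) s (hYJ g' hg' v hs), ?_⟩
  have e1 : (r : ℝ) < D.Q := by exact_mod_cast D.hlt g hg u r hr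
  have e2 : (s : ℝ) < D.Q := by exact_mod_cast D.hlt g' hg' v s hs
  have e3 : (0 : ℝ) ≤ r := Nat.cast_nonneg r
  have e4 : (0 : ℝ) ≤ s := Nat.cast_nonneg s
  rw [abs_le]; constructor <;> linarith

theorem xd_ok {K K' : ℕ} (hKK : (K : ℝ) ≤ K') (hG : Sep D.Q D.G) {J : Fin 3 → Finset ℕ}
    (hYJ : ∀ g ∈ D.G, ∀ a, D.Y a g ⊆ J a)
    (hsep : ∀ a a', a ≠ a' → ∀ r ∈ J a, ∀ s ∈ J a', (D.Q : ℝ) ≤ K * |(r : ℝ) - s|)
    {a b : Fin 3} (hab : a ≠ b) {g : Line m} (hg : g ∈ D.G) {r : ℕ} (hr : r ∈ D.Y a g)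
    {al ga : ℝ} (u : Fin m → ℝ) (h1 : |al| ≤ K') (h2 : |ga| ≤ K' * D.Q) :
    (D.xd a b r al ga u).OK D.Q K' D.l := by
  classical
  refine ⟨hG.mono (Finset.filter_subset _ _), h1, h2, fun h hh => ?_, fun p hp => ?_⟩
  · have hh' : h ∈ D.G := (Finset.mem_filter.1 hh).1
    rw [← D.hY h hh' b]
    refine Finset.card_le_card fun s hs => ?_
    exact Finset.mem_filter.2 ⟨Finset.mem_range.2 (D.hlt h hh' b s hs),
      D.mem_pts.2 ⟨h, hh', s, hs, rfl⟩⟩
  · obtain ⟨k, hk, s, hs, rfl⟩ := D.mem_pts.1 hp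
    exact (D.far hYJ hsep hab.symm hk hg hs hr).mono hKK

theorem l_le : D.l ≤ D.Q := by
  obtain ⟨g, hg⟩ := D.hne
  rw [← D.hY g hg 0]
  have : D.Y 0 g ⊆ Finset.range D.Q := fun r hr => Finset.mem_range.2 (D.hlt g hg 0 r hr)
  simpa using Finset.card_le_card this

theorem one_le_N : 1 ≤ D.N := by
  obtain ⟨g, hg⟩ := D.hne
  obtain ⟨r, hr⟩ := D.Yne hg 0
  refine le_trans ?_ (D.hN r)
  exact_mod_cast Finset.card_pos.2 ⟨_, D.hA g hg 0 r hr⟩

theorem log_pts (b : Fin 3) : Real.log (D.pts b).card ≤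
    (Real.log D.N + (Real.log D.Q - Real.log D.l)) + Real.log D.l := by
  obtain ⟨g, hg⟩ := D.hne
  obtain ⟨r, hr⟩ := D.Yne hg b
  have h0 : (0 : ℝ) < (D.pts b).card := by
    exact_mod_cast Finset.card_pos.2 ⟨_, D.mem_pts.2 ⟨g, hg, r, hr, rfl⟩⟩
  have hQ : (0 : ℝ) < D.Q := by exact_mod_cast lt_of_lt_of_le D.hl D.l_le
  have h1 := Real.log_le_log h0 (D.card_pts b)
  rw [Real.log_mul hQ.ne' (by linarith [D.one_le_N])] at h1
  linarith

theorem exists_order : ∃ a b c : Fin 3, a ≠ b ∧ b ≠ c ∧ a ≠ c ∧ D.zeta b c a ≤ D.zeta a b c := by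
  by_cases h1 : D.zeta 1 2 0 ≤ D.zeta 0 1 2
  · exact ⟨0, 1, 2, by decide, by decide, by decide, h1⟩
  · by_cases h2 : D.zeta 2 0 1 ≤ D.zeta 1 2 0
    · exact ⟨1, 2, 0, by decide, by decide, by decide, h2⟩
    · exact ⟨2, 0, 1, by decide, by decide, by decide, by linarith⟩

end Dat

/-- The improved pivot inequality in normalised variables. -/
def INu (η β al n z L mL A e : ℝ) : Prop :=
  η * (3 * al - 3 * n - 7 * L - A) + (2 * al - n - 5 * L - A) ≤
    β * (z - A + 2 * L) + (2 + 5 * η) * mL + 8 * e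

/-- The improved corner inequality in normalised variables. -/
def IMu (η β al n z L mL A M e : ℝ) : Prop :=
  η * (z + 2 * al - 3 * n - 6 * L - M) + (3 * al - 2 * n - 8 * L - M) ≤
    β * (A + n + 2 * L - M) + (2 + 5 * η) * mL + 8 * e

theorem Dat.xbound (D : Dat m) {K : ℕ} (hK : 0 < K) (hG : Sep D.Q D.G)
    (hbox : ∀ g ∈ D.G, ∀ j, |g.1 j| ≤ D.Q) {J : Fin 3 → Finset ℕ}
    (hYJ : ∀ g ∈ D.G, ∀ a, D.Y a g ⊆ J a)
    (hsep : ∀ a a', a ≠ a' → ∀ r ∈ J a, ∀ s ∈ J a', (D.Q : ℝ) ≤ K * |(r : ℝ) - s|)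
    {a b c : Fin 3} (hab : a ≠ b) (hbc : b ≠ c) (hac : a ≠ c) (hz : D.zeta b c a ≤ D.zeta a b c)
    {η β e ee : ℝ} (hη : 0 ≤ η) (hη1 : η ≤ 1) (hβ : 0 ≤ β) (hβ2 : β ≤ 2) (he : 0 ≤ e)
    (hee : m * cK K + cK K + e ≤ ee) (hXE : XE m η β D.Q (3 * K ^ 2) e) :
    INu η β (Real.log D.G.card) (Real.log D.N) (D.zeta a b c - 3 * Real.log D.Q)
      (Real.log D.Q - Real.log D.l) (m * (Real.log D.Q - Real.log D.l))
      ((D.P9 a b c).H ((Dat.cfg m).Za D.Q K) - 3 * Real.log D.Q) ee ∧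
    IMu η β (Real.log D.G.card) (Real.log D.N) (D.zeta a b c - 3 * Real.log D.Q)
      (Real.log D.Q - Real.log D.l) (m * (Real.log D.Q - Real.log D.l))
      ((D.P9 a b c).H ((Dat.cfg m).Za D.Q K) - 3 * Real.log D.Q)
      ((D.P9 a b c).H ((Dat.cfg m).Zb D.Q K) - 4 * Real.log D.Q) ee ∧
    D.zeta a b c - 3 * Real.log D.Q + Real.log D.G.card - 2 * Real.log D.N -
      4 * (Real.log D.Q - Real.log D.l) ≤
      (D.P9 a b c).H ((Dat.cfg m).Zb D.Q K) - 4 * Real.log D.Q + ee ∧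
    D.zeta a b c - 3 * Real.log D.Q ≤ 2 * Real.log D.N := by
  have hQ : 0 < D.Q := lt_of_lt_of_le D.hl D.l_le
  have hQ1 : (1 : ℝ) ≤ D.Q := by exact_mod_cast hQ
  have hK1 : (1 : ℝ) ≤ K := by exact_mod_cast hK
  have hKK : (K : ℝ) ≤ (3 * K ^ 2 : ℕ) := by push_cast; nlinarith
  have hc := D.good J hYJ hsep hab hbc hac
  have pa := D.phi_ge a
  have pb := D.phi_ge b
  have h6 := D.H6 a b c
  have hall := D.Hall a b c
  obtain ⟨p1, p2, p3, p4⟩ := pivot_parts hQ hK hG hbox hc (l := Real.log D.l) (ζ := D.zeta a b c)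
    (D.HA2 a b c) (by rw [D.HA1]; linarith) (by rw [D.HE]; exact hz)
  obtain ⟨q1, q2, q3⟩ := corner_parts hQ hK hG hbox hc (l := Real.log D.l) D.hN
    (by rw [D.HC2, hall]; linarith)
  have q4 := lower_part hQ hK hG hbox hc (l := Real.log D.l) (by rw [D.HC3, hall]) (D.HD a b c)
  have i3 := lower_ineq hQ hK hG hbox hc (l := Real.log D.l) D.hN
    (by rw [D.HC3, hall]) (D.HD a b c)
  have i4 := zeta_le hc D.hN
  rw [D.Hzc] at i4
  have fa := D.phia_ge a b c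
  have fc := D.phic_ge a b c
  unfold Dat.phic at fc
  set c9 := Dat.cfg m with hc9
  have k1 := hXE D.G hG _ (D.P9 a b c) c9.g1 c9.t (c9.Za D.Q K)
    (fun ω => D.xd a b (c9.r1 ω) 0 (-(D.Q / (c9.kb D.Q K ω / den D.Q K)))
      fun j => c9.nu D.Q K ω j / (c9.kb D.Q K ω / den D.Q K))
    (fun ω => cell (c9.g2 ω) (c9.r1 ω)) D.l (Real.log D.N + (Real.log D.Q - Real.log D.l)) D.hl
    (fun ω h => (hc ω h).m1) (fun ω h => (hc ω h).lt) (by
      intro x _ y _ h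
      obtain ⟨-, e2, e3, e4⟩ := (c9.Za_rel _ _).1 h
      simp only [e2, e3, e4]) (by
      intro ω h
      refine D.xd_ok hKK hG hYJ hsep hab (D.mem9' h).1 (D.mem9' h).2.1 _ (by simp) ?_
      rw [abs_neg]
      refine (abs_div_le' (le_of_eq (abs_of_pos (by linarith))) (kb_abs hQ hK hc h).1
        (by positivity)).trans ?_
      push_cast
      rw [div_div_eq_mul_div, div_one]
      have : 0 ≤ (D.Q : ℝ) * K * (K - 1) := mul_nonneg (by positivity) (by linarith)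
      nlinarith) (by
      intro ω h
      obtain ⟨u1, u2⟩ := kb_abs hQ hK hc h
      have u3 : 0 < |(c9.kb D.Q K ω : ℝ) / den D.Q K| := lt_of_lt_of_le (by positivity) u1
      simp only [Dat.xd, zero_mul, sub_zero]
      rw [abs_neg, abs_div, Nat.abs_cast, ← mul_div_assoc, le_div_iff₀ u3]
      push_cast
      have := mul_le_mul_of_nonneg_left u2 (show (0 : ℝ) ≤ D.Q by linarith)
      have h5 : 0 ≤ (D.Q : ℝ) * (K ^ 2 - 1) := mul_nonneg (by linarith) (by nlinarith)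
      nlinarith) (by
      intro ω h j
      have u1 := inv_near (z := D.Q * (c9.g1 ω).2 j) (p := (c9.g2 ω).1 j + c9.r1 ω * (c9.g2 ω).2 j)
        hQ1 hK1 (le_abs_cs hQ1 hK1 (hc ω h).f1 (hc ω h).f2 (hc ω h).f3) (kb_round hQ hK hc)
      have u2 := abs_frac ((c9.g2 ω).1 j + c9.r1 ω * (c9.g2 ω).2 j)
      simp only [Dat.xd, XD.val, cell, Cfg.nu]
      generalize (c9.kb D.Q K ω : ℝ) / den D.Q K = w at *
      generalize (c9.g2 ω).1 j + c9.r1 ω * (c9.g2 ω).2 j = p at *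
      have e : (⌊p⌋ : ℝ) - (0 * (c9.g1 ω).1 j + -(D.Q / w) * (c9.g1 ω).2 j +
          ⌊D.Q * (c9.g1 ω).2 j + w * p⌋ / w) =
          (p - (⌊D.Q * (c9.g1 ω).2 j + w * p⌋ - D.Q * (c9.g1 ω).2 j) / w) - (p - ⌊p⌋) := by ring
      rw [e]
      refine (abs_sub _ _).trans ?_
      push_cast
      nlinarith) (by
      intro ω h
      rw [D.xd_fib]
      exact D.fib_ne (D.mem9' h).1 (D.mem9' h).2.1) (fun _ _ => D.log_pts b)
  have k2 := hXE D.G hG _ (D.P9 a b c) c9.g3 c9.r (c9.Zb D.Q K)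
    (fun ω => D.xd c b (c9.s ω) 1 (c9.s ω) 0)
    (fun ω => cell (c9.g3 ω) (c9.s ω)) D.l (Real.log D.N + (Real.log D.Q - Real.log D.l)) D.hl
    (fun ω h => (hc ω h).m3) (fun ω h => (hc ω h).lr) (by
      intro x _ y _ h
      obtain ⟨-, -, e3, -⟩ := (c9.Zb_rel _ _).1 h
      simp only [e3]) (by
      intro ω h
      refine D.xd_ok hKK hG hYJ hsep hbc.symm (hc ω h).m3 (D.mem9' h).2.2.2.2.1 _
        (by rw [abs_one]; linarith) ?_
      rw [Nat.abs_cast]
      have : (c9.s ω : ℝ) ≤ D.Q := by exact_mod_cast (hc ω h).ls.le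
      nlinarith) (by
      intro ω h
      simp only [Dat.xd, one_mul]
      exact ((hc ω h).f5.mono hKK).1) (by
      intro ω h j
      simp only [Dat.xd, XD.val, cell, one_mul, Pi.zero_apply, add_zero]
      rw [abs_sub_comm]
      exact (abs_frac _).trans (by linarith)) (by
      intro ω h
      rw [D.xd_fib]
      exact D.fib_ne (hc ω h).m3 (D.mem9' h).2.2.2.2.1) (fun _ _ => D.log_pts b)
  simp only [D.xd_fib] at k1 k2
  have hc1 := cK_nonneg K
  have hc0 : 0 ≤ m * cK K := by positivity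
  have hA : 0 ≤ β + (1 + 2 * η) * m := by positivity
  have n1 := mul_le_mul_of_nonneg_left p3 hA
  have n2 := mul_le_mul_of_nonneg_left p2 hβ
  have n3 := mul_le_mul_of_nonneg_left p4 hη
  have n4 := mul_le_mul_of_nonneg_left p1 hη
  have n5 := mul_le_mul_of_nonneg_left fa hη
  have n6 := mul_le_mul_of_nonneg_left pb hη
  have n7 := mul_le_mul_of_nonneg_right hη1 hc0
  have n8 := mul_le_mul_of_nonneg_right hβ2 hc0
  have n9 := mul_le_mul_of_nonneg_right hβ2 hc1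
  have m1 := mul_le_mul_of_nonneg_left q3 hA
  have m2 := mul_le_mul_of_nonneg_left q2 hβ
  have m3 := mul_le_mul_of_nonneg_left q4 hη
  have m5 := mul_le_mul_of_nonneg_left fc hη
  refine ⟨?_, ?_, by linarith, by linarith⟩
  · unfold INu
    linarith
  · unfold IMu
    linarith

theorem exists_dat {q l : ℕ} {G : Finset (Line m)} {E : Finset (Pt m)} {J : Fin 3 → Finset ℕ}
    (hl : 0 < l) (hne : G.Nonempty) (hJ : ∀ a, ∀ r ∈ J a, r < q)
    (hsh : ∀ g ∈ G, ∀ a, l ≤ (shade E (J a) g).card) :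
    ∃ D : Dat m, D.Q = q ∧ D.G = G ∧
      Real.log q - Real.log D.l ≤ Real.log 2 + (Real.log q - Real.log l) ∧
      Real.log D.N = Real.log 2 + (Real.log E.card - Real.log l) ∧
      ∀ g ∈ G, ∀ a, ∀ r ∈ D.Y a g, r ∈ J a ∧ (cell g r, r) ∈ E := by
  classical
  obtain ⟨g0, hg0⟩ := hne
  have hl' : (0 : ℝ) < l := by exact_mod_cast hl
  obtain ⟨r0, hr0⟩ : (shade E (J 0) g0).Nonempty :=
    Finset.card_pos.1 (lt_of_lt_of_le hl (hsh g0 hg0 0))
  have hr0' := Finset.mem_filter.1 hr0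
  have hE : (0 : ℝ) < E.card := by
    have : 0 < E.card := Finset.card_pos.2 ⟨_, hr0'.2⟩
    exact_mod_cast this
  set N : ℝ := 2 * E.card / l with hN
  have hN0 : 0 < N := by positivity
  set B := (Finset.range q).filter fun r => N < (slice E r).card with hB
  have hBl : 2 * B.card ≤ l := by
    have h1 := card_bad E q N
    rw [← hB, hN, mul_div_assoc', div_le_iff₀ hl'] at h1
    have h2 : (2 * B.card : ℝ) ≤ l := by nlinarith
    exact_mod_cast h2
  have hex : ∀ (a : Fin 3) (g : Line m), ∃ Y : Finset ℕ, g ∈ G →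
      Y ⊆ shade E (J a) g \ B ∧ Y.card = (l + 1) / 2 := by
    intro a g
    by_cases hg : g ∈ G
    · have h1 := hsh g hg a
      have h2 := Finset.le_card_sdiff B (shade E (J a) g)
      obtain ⟨Y, hY⟩ := Finset.exists_subset_card_eq
        (show (l + 1) / 2 ≤ (shade E (J a) g \ B).card by omega)
      exact ⟨Y, fun _ => hY⟩
    · exact ⟨∅, fun h => absurd h hg⟩
  choose Y hY using hex
  have hYm : ∀ g ∈ G, ∀ a, ∀ r ∈ Y a g, r ∈ J a ∧ (cell g r, r) ∈ E ∧ r ∉ B := by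
    intro g hg a r hr
    have h1 := Finset.mem_sdiff.1 ((hY a g hg).1 hr)
    have h2 := Finset.mem_filter.1 h1.1
    exact ⟨h2.1, h2.2, h1.2⟩
  refine ⟨
    { Q := q, l := (l + 1) / 2, G := G, Y := Y
      A := fun r => if ((slice E r).card : ℝ) ≤ N then slice E r else ∅
      N := N, hne := ⟨g0, hg0⟩, hl := by omega
      hY := fun g hg a => (hY a g hg).2
      hlt := fun g hg a r hr => hJ a r (hYm g hg a r hr).1
      hA := by
        intro g hg a r hr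
        obtain ⟨h1, h2, h3⟩ := hYm g hg a r hr
        have h4 : ((slice E r).card : ℝ) ≤ N := by
          by_contra h5
          exact h3 (Finset.mem_filter.2 ⟨Finset.mem_range.2 (hJ a r h1), not_le.1 h5⟩)
        rw [if_pos h4]
        unfold slice
        exact Finset.mem_image.2 ⟨_, Finset.mem_filter.2 ⟨h2, rfl⟩, rfl⟩
      hN := by
        intro r
        split_ifs with h4
        · exact h4
        · simpa using hN0.le }, rfl, rfl, ?_, ?_,
    fun g hg a r hr => ⟨(hYm g hg a r hr).1, (hYm g hg a r hr).2.1⟩⟩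
  · have hl2 : (l : ℝ) / 2 ≤ ((l + 1) / 2 : ℕ) := by
      have : l ≤ 2 * ((l + 1) / 2) := by omega
      have h2 : (l : ℝ) ≤ 2 * ((l + 1) / 2 : ℕ) := by exact_mod_cast this
      linarith
    have h2 := Real.log_le_log (by positivity) hl2
    rw [Real.log_div hl'.ne' (by norm_num)] at h2
    change Real.log q - Real.log ((l + 1) / 2 : ℕ) ≤ _
    linarith
  · change Real.log N = _
    rw [hN, Real.log_div (by positivity) hl'.ne', Real.log_mul (by norm_num) hE.ne']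
    ring

/-- The linear algebra giving the one-family exponent `β'`. -/
def AlgT (η β β' : ℝ) : Prop :=
  ∀ al n z L mL A M e : ℝ, 0 ≤ n → 0 ≤ L → 29 * L ≤ mL → 0 ≤ e → z ≤ 2 * n →
    INu η β al n z L mL A e → IMu η β al n z L mL A M e → z + al - 2 * n - 4 * L ≤ M + e →
    al ≤ β' * n + mL + 100 * e

theorem te_of_xx {η β β' : ℝ} (hm : 29 ≤ m) (hη : 0 ≤ η) (hη1 : η ≤ 1) (hβ : 0 ≤ β) (hβ2 : β ≤ 2)
    (hX : XX m η β) (hA : AlgT η β β') : TE m β' := by
  intro ε hε K hK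
  obtain ⟨C, hC0, hC⟩ := xe_of_xx hη hβ hX (ε := ε / 100) (by positivity)
    (K := 3 * K ^ 2) (by positivity)
  refine ⟨Real.exp (100 * (m * cK K + cK K + C) + β' * Real.log 2 + m * Real.log 2),
    Real.exp_pos _, ?_⟩
  intro Q l G E J hl hG hbox hJ hsep hsh
  rcases G.eq_empty_or_nonempty with rfl | hne
  · simp only [Finset.card_empty, Nat.cast_zero]; positivity
  obtain ⟨D, rfl, rfl, hL, hN, hY⟩ := exists_dat hl hne hJ hsh
  obtain ⟨a, b, c, hab, hbc, hac, hz⟩ := D.exists_order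
  have hQ : 0 < D.Q := lt_of_lt_of_le D.hl D.l_le
  have hQ1 : (1 : ℝ) ≤ D.Q := by exact_mod_cast hQ
  have hlogQ : 0 ≤ Real.log D.Q := Real.log_nonneg hQ1
  have hc1 := cK_nonneg K
  obtain ⟨i1, i2, i3, i4⟩ := D.xbound hK hG hbox (fun g hg a r hr => (hY g hg a r hr).1) hsep
    hab hbc hac hz hη hη1 hβ hβ2 (by positivity) le_rfl (hC D.Q hQ)
  have hL0 : 0 ≤ Real.log D.Q - Real.log D.l :=
    sub_nonneg.2 (Real.log_le_log (by exact_mod_cast D.hl) (by exact_mod_cast D.l_le))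
  have hm' : (29 : ℝ) ≤ m := by exact_mod_cast hm
  have key := hA _ _ _ _ _ _ _ _ (Real.log_nonneg D.one_le_N) hL0
    (mul_le_mul_of_nonneg_right hm' hL0) (by positivity) i4 i1 i2 i3
  have h3 := mul_le_mul_of_nonneg_left hL (Nat.cast_nonneg (α := ℝ) m)
  have hl' : (0 : ℝ) < l := by exact_mod_cast hl
  obtain ⟨g0, hg0⟩ := hne
  have hE : (0 : ℝ) < E.card := by
    exact_mod_cast lt_of_lt_of_le hl ((hsh g0 hg0 0).trans (shade_le_card _ _ _))
  have hG0 : (0 : ℝ) < D.G.card := by exact_mod_cast Finset.card_pos.2 ⟨g0, hg0⟩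
  rw [← Real.log_le_log_iff hG0 (by positivity), Real.log_mul (by positivity) (by positivity),
    Real.log_mul (by positivity) (by positivity), Real.log_mul (by positivity) (by positivity),
    Real.log_exp, Real.log_rpow (by positivity), Real.log_rpow (by positivity), Real.log_pow,
    Real.log_div hE.ne' hl'.ne', Real.log_div (by positivity) hl'.ne']
  rw [hN] at key
  linarith

/-- The three-blocks form of the two-family estimate. -/
def TX (m : ℕ) (η b : ℝ) : Prop :=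
  ∀ ε : ℝ, 0 < ε → ∀ K : ℕ, 0 < K → ∃ C : ℝ, ∀ (q Q R l lh : ℕ) (G : Finset (Line m))
    (E : Finset (Pt m)) (J : Fin 3 → Finset ℕ) (D : XD m) (y : Line m → Fin m → ℤ) (F M : ℝ),
    0 < l → 0 < lh → 0 < F → G.Nonempty → q ≤ K * Q → Q ≤ R * q → Sep q G →
    (∀ g ∈ G, ∀ j, |g.1 j| ≤ q) → (∀ a, ∀ r ∈ J a, r < q) →
    (∀ a a', a ≠ a' → ∀ r ∈ J a, ∀ s ∈ J a', (q : ℝ) ≤ K * |(r : ℝ) - s|) →
    (∀ g ∈ G, ∀ a, l ≤ (shade E (J a) g).card) → D.OK Q K lh →
    (∀ p ∈ E, (Q : ℝ) ≤ K * |D.ga - D.al * p.2|) → (∀ g ∈ G, ∀ j, |y g j - D.val g j| ≤ K) →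
    (∀ g ∈ G, F ≤ (D.fib (y g)).card) → (∀ w, ((G.filter fun g => y g = w).card : ℝ) ≤ M) →
    (1 + η) * Real.log G.card ≤ C + ε * Real.log Q +
      η * (Real.log M + Real.log D.Eh.card - Real.log lh - Real.log F) +
      b * (Real.log E.card - Real.log l) + (1 + 2 * η) * m * (Real.log q - Real.log l) +
      η * m * Real.log R + η * m * (Real.log Q - Real.log lh)

/-- The linear algebra giving the new two-family exponents. -/
def AlgX (η β β0 η' β' : ℝ) : Prop :=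
  ∀ al n z L mL mH mR A M u v f bh e : ℝ, 0 ≤ al → 0 ≤ n → 0 ≤ L → 29 * L ≤ mL → 0 ≤ mH →
    0 ≤ e → z ≤ 2 * n → INu η β al n z L mL A e → IMu η β al n z L mL A M e →
    z + 2 * al - 2 * n - 3 * L - u ≤ β0 * (M + n + 2 * L - u) + 2 * mL + 8 * e →
    z + 2 * al - 2 * n - 3 * L + f - v ≤ β0 * (u + bh + mR - v + L) + mL + mH + 8 * e →
    z + al - 2 * n - 3 * L + f ≤ v + e →
    (1 + η') * al ≤ η' * (bh - f) + β' * n + (1 + 2 * η') * mL + η' * mR + η' * mH + 100 * e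

theorem tx_of_xx {η β β0 η' β' : ℝ} (hm : 29 ≤ m) (hη : 0 ≤ η) (hη1 : η ≤ 1) (hβ : 0 ≤ β)
    (hβ2 : β ≤ 2) (h0 : 0 ≤ β0) (h2 : β0 ≤ 2) (hη' : 0 ≤ η') (hX : XX m η β) (hKK : KK m β0)
    (hA : AlgX η β β0 η' β') : TX m η' β' := by
  classical
  intro ε hε K hK
  obtain ⟨C, hC0, hC⟩ := xe_of_xx hη hβ hX (ε := ε / 300) (by positivity)
    (K := 3 * K ^ 2) (by positivity)
  obtain ⟨C', hC'⟩ := ke_of_kk h0 hKK (ε := ε / 300) (by positivity)
  refine ⟨100 * (m * cK K + cK K + m * cX K + cX K + C + 2 * |C'|) + ε * Real.log K +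
    β' * Real.log 2 + (1 + 2 * η') * m * Real.log 2, ?_⟩
  intro q Q R l lh G E J X y F M hl hlh hF0 hne hqQ hR hG hbox hJ hsep hsh hOK hfar hy hF hM
  obtain ⟨D, rfl, rfl, hL, hN, hY⟩ := exists_dat hl hne hJ hsh
  obtain ⟨a, b, c, hab, hbc, hac, hz⟩ := D.exists_order
  have hq : 0 < D.Q := lt_of_lt_of_le D.hl D.l_le
  have hq1 : (1 : ℝ) ≤ D.Q := by exact_mod_cast hq
  have hK1 : (1 : ℝ) ≤ K := by exact_mod_cast hK
  have hQ : 0 < Q := by
    rcases Nat.eq_zero_or_pos Q with h | h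
    · rw [h] at hqQ; omega
    · exact h
  have hQ1 : (1 : ℝ) ≤ Q := by exact_mod_cast hQ
  have hlogq : 0 ≤ Real.log D.Q := Real.log_nonneg hq1
  have hlogQ : 0 ≤ Real.log Q := Real.log_nonneg hQ1
  have hlogK : 0 ≤ Real.log K := Real.log_nonneg hK1
  have hlq : Real.log D.Q ≤ Real.log K + Real.log Q := by
    rw [← Real.log_mul (by positivity) (by positivity)]
    exact Real.log_le_log (by positivity) (by exact_mod_cast hqQ)
  have hc1 := cK_nonneg K
  have hc2 := cX_nonneg K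
  have hc3 : 0 ≤ m * cK K := by positivity
  have hc4 : 0 ≤ m * cX K := by positivity
  have hfne : ∀ g ∈ D.G, (X.fib (y g)).Nonempty := fun g hg => by
    have := lt_of_lt_of_le hF0 (hF g hg)
    exact Finset.card_pos.1 (by exact_mod_cast this)
  have hex : ∀ h : Line m, ∃ Y : Finset ℕ, h ∈ X.Gh →
      Y ⊆ shade X.Eh (range Q) h ∧ Y.card = lh := by
    intro h
    by_cases hh : h ∈ X.Gh
    · obtain ⟨Y, hY⟩ := Finset.exists_subset_card_eq (hOK.sh h hh)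
      exact ⟨Y, fun _ => hY⟩
    · exact ⟨∅, fun h' => absurd h' hh⟩
  choose Yh hYh using hex
  let T : XDat m := ⟨D, X, y, Yh, lh, hlh, fun h hh => (hYh h hh).2, hfne⟩
  have hYJ : ∀ g ∈ D.G, ∀ a, D.Y a g ⊆ J a := fun g hg a r hr => (hY g hg a r hr).1
  have hc9 := D.good J hYJ hsep hab hbc hac
  have hc : ∀ ω ∈ (T.P13 a b c).S, (XDat.xcfg m).c.Good D.Q K D.G D.A ω :=
    fun ω h => Cfg.Good.pull (f := fun ω : XDat.XOm m => ω.1.1.1.1) (hc9 _ (T.mem13' h).1)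
  have hx : ∀ ω ∈ (T.P13 a b c).S, (XDat.xcfg m).Good D.Q Q K X D.G D.A ω := by
    intro ω h
    obtain ⟨-, h1, h2, h3, h4⟩ := T.mem13' h
    obtain ⟨k1, k2, k3⟩ := D.mem_fib.1 h1
    obtain ⟨j1, j2⟩ := XD.mem_fib.1 h3
    have h5 := Finset.mem_filter.1 ((hYh _ j1).1 h4)
    refine ⟨k1, D.hlt _ k1 _ _ h2, D.far hYJ hsep hac.symm k1 k1 k2 h2, k3, D.hA _ k1 _ _ h2,
      hfar _ (hY _ k1 _ _ h2).2, j1, Finset.mem_range.1 h5.1, h5.2, fun j => ?_⟩
    have j3 : cell ((XDat.xcfg m).gh ω) X.ch = y ((XDat.xcfg m).g4 ω) := j2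
    rw [j3]
    exact hy _ k1 j
  set ee : ℝ := m * cK K + cK K + m * cX K + cX K + (ε / 300 * Real.log D.Q + C) +
    (ε / 300 * Real.log D.Q + |C'|) + (ε / 300 * Real.log Q + |C'|) with hee
  have he1 : 0 ≤ ε / 300 * Real.log D.Q := by positivity
  have he2 : 0 ≤ ε / 300 * Real.log Q := by positivity
  have he3 := abs_nonneg C'
  have he4 := le_abs_self C'
  obtain ⟨i1, i2, -, i4⟩ := D.xbound hK hG hbox hYJ hsep hab hbc hac hz hη hη1 hβ hβ2
    (by positivity) (ee := ee) (by linarith) (hC D.Q hq)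
  obtain ⟨f1, f2, f3, f4⟩ := T.free a b c
  have j1 := psi_ineq hq hQ hK hqQ hOK hc hx hG hbox h0 (hC' D.Q hq) D.hN (T.HT a b c) f1 f2
  obtain ⟨j2, j3⟩ := chi_ineq hq hQ hK hqQ hOK hc hx hG hbox hR h0 (hC' Q hQ)
    (T.HT1 a b c hF0 hF hM) f3 f4
  rw [T.HZb] at j1
  have pb := D.phi_ge b
  have pc := D.phic_ge a b c
  have hL0 : 0 ≤ Real.log D.Q - Real.log D.l :=
    sub_nonneg.2 (Real.log_le_log (by exact_mod_cast D.hl) (by exact_mod_cast D.l_le))
  have hm' : (29 : ℝ) ≤ m := by exact_mod_cast hm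
  obtain ⟨g0, hg0⟩ := hne
  obtain ⟨h0', hh0⟩ := hfne g0 hg0
  have hlhQ : lh ≤ Q := by
    refine (hOK.sh h0' (XD.mem_fib.1 hh0).1).trans ?_
    simpa [shade] using Finset.card_filter_le (range Q) _
  have hH0 : 0 ≤ Real.log Q - Real.log lh :=
    sub_nonneg.2 (Real.log_le_log (by exact_mod_cast hlh) (by exact_mod_cast hlhQ))
  have hal : 0 ≤ Real.log D.G.card :=
    Real.log_nonneg (by exact_mod_cast Finset.card_pos.2 ⟨g0, hg0⟩)
  have n8 := mul_le_mul_of_nonneg_right h2 hc4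
  have n9 := mul_le_mul_of_nonneg_right h2 hc2
  simp only [T] at j1 j2 j3
  have key := hA _ _ _ _ _ (m * (Real.log Q - Real.log lh)) (m * Real.log R) _ _
    ((T.P13 a b c).H ((XDat.xcfg m).Zp D.Q Q K X) - 4 * Real.log D.Q)
    ((T.P13 a b c).H ((XDat.xcfg m).Zc D.Q Q K X) - 4 * Real.log D.Q)
    (Real.log F - Real.log M) (Real.log X.Eh.card - Real.log lh) ee hal
    (Real.log_nonneg D.one_le_N) hL0 (mul_le_mul_of_nonneg_right hm' hL0) (by positivity)
    (by linarith) i4 i1 i2 (by simp only [T]; linarith) (by simp only [T]; linarith)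
    (by simp only [T]; linarith)
  have h3 := mul_le_mul_of_nonneg_left hL (show 0 ≤ (1 + 2 * η') * m by positivity)
  have h4 := mul_le_mul_of_nonneg_left hlq hε.le
  have h5 := mul_nonneg hε.le hlogK
  rw [hN] at key
  linarith

end Pool.Agent.MP_5168f5_an.H19
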